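import Mathlib

/-!
# Modules generated by a highest weight vector
-/

set_option autoImplicit false
set_option linter.unusedSectionVars false

open Module

noncomputable section

namespace Pool.Agent.H943.DP

variable {K U A : Type*} [Field K] [AddCommGroup U] [Module K U] [Ring A] [Algebra K A]

/-- the filtration -/
def Wf (D : A →ₗ[K] Module.End K U) (q : Submodule K A) (z : U) : ℕ → Submodule K U
  | 0 => Submodule.span K {z}
  | k + 1 => Wf D q z k ⊔ Submodule.span K {u | ∃ Y ∈ q, ∃ w ∈ Wf D q z k, u = D Y w}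

theorem Wf_le (D : A →ₗ[K] Module.End K U) (q : Submodule K A) (z : U) (k : ℕ) :
    Wf D q z k ≤ Wf D q z (k + 1) := le_sup_left

theorem Wf_mono (D : A →ₗ[K] Module.End K U) (q : Submodule K A) (z : U) : Monotone (Wf D q z) :=
  monotone_nat_of_le_succ (Wf_le D q z)

theorem Wf_q (D : A →ₗ[K] Module.End K U) (q : Submodule K A) (z : U) (k : ℕ) {Y : A} (hY : Y ∈ q)
    {w : U} (hw : w ∈ Wf D q z k) : D Y w ∈ Wf D q z (k + 1) :=
  Submodule.mem_sup_right (Submodule.subset_span ⟨Y, hY, w, hw, rfl⟩)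

theorem Wf_stab (D : A →ₗ[K] Module.End K U) (L p q : Submodule K A) (hp : p ≤ L) (hq : q ≤ L)
    (hL : L ≤ p ⊔ q) (hbr : ∀ X ∈ L, ∀ Y ∈ L, X * Y - Y * X ∈ L)
    (hD : ∀ X ∈ L, ∀ Y ∈ L, D X * D Y - D Y * D X = D (X * Y - Y * X)) (z : U)
    (hz : ∀ X ∈ p, ∃ k : K, D X z = k • z) (k : ℕ) :
    (∀ X ∈ p, ∀ w ∈ Wf D q z k, D X w ∈ Wf D q z k) ∧
      ∀ X ∈ L, ∀ w ∈ Wf D q z k, D X w ∈ Wf D q z (k + 1) := by
  have hstep : ∀ k, (∀ X ∈ p, ∀ w ∈ Wf D q z k, D X w ∈ Wf D q z k) →
      ∀ X ∈ L, ∀ w ∈ Wf D q z k, D X w ∈ Wf D q z (k + 1) := by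
    intro k h X hX w hw
    obtain ⟨X1, h1, X2, h2, rfl⟩ := Submodule.mem_sup.1 (hL hX)
    rw [map_add, LinearMap.add_apply]
    exact Submodule.add_mem _ (Wf_le D q z k (h X1 h1 w hw)) (Wf_q D q z k h2 hw)
  have hmain : ∀ k, ∀ X ∈ p, ∀ w ∈ Wf D q z k, D X w ∈ Wf D q z k := by
    intro k
    induction k with
    | zero =>
      intro X hX w hw
      obtain ⟨c, rfl⟩ := Submodule.mem_span_singleton.1 hw
      obtain ⟨k, hk⟩ := hz X hX
      rw [map_smul, hk, smul_smul]
      exact Submodule.mem_span_singleton.2 ⟨_, rfl⟩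
    | succ k ih =>
      intro X hX w hw
      obtain ⟨w1, h1, w2, h2, rfl⟩ := Submodule.mem_sup.1 hw
      rw [map_add]
      refine Submodule.add_mem _ (Wf_le D q z k (ih X hX w1 h1)) ?_
      clear hw
      induction h2 using Submodule.span_induction with
      | mem u hu =>
        obtain ⟨Y, hY, w', hw', rfl⟩ := hu
        have h3 : D X (D Y w') = D Y (D X w') + D (X * Y - Y * X) w' := by
          rw [← hD X (hp hX) Y (hq hY)]
          simp
        rw [h3]
        exact Submodule.add_mem _ (Wf_q D q z k hY (ih X hX w' hw'))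
          (hstep k ih _ (hbr X (hp hX) Y (hq hY)) w' hw')
      | zero => rw [map_zero]; exact Submodule.zero_mem _
      | add a b _ _ ha hb =>
        rw [map_add]
        exact Submodule.add_mem _ ha hb
      | smul c a _ ha =>
        rw [map_smul]
        exact Submodule.smul_mem _ _ ha
  exact ⟨hmain k, hstep k (hmain k)⟩

/-- **The module generated by a highest weight vector.** -/
theorem pbw (D : A →ₗ[K] Module.End K U) (L p q : Submodule K A) (hp : p ≤ L) (hq : q ≤ L)
    (hL : L ≤ p ⊔ q) (hbr : ∀ X ∈ L, ∀ Y ∈ L, X * Y - Y * X ∈ L)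
    (hD : ∀ X ∈ L, ∀ Y ∈ L, D X * D Y - D Y * D X = D (X * Y - Y * X)) (z : U)
    (hz : ∀ X ∈ p, ∃ k : K, D X z = k • z) :
    ∃ N : Submodule K U, z ∈ N ∧ (∀ X ∈ L, ∀ u ∈ N, D X u ∈ N) ∧
      ∀ C : Submodule K U, z ∈ C → (∀ Y ∈ q, ∀ u ∈ C, D Y u ∈ C) → N ≤ C := by
  refine ⟨⨆ k, Wf D q z k, ?_, ?_, ?_⟩
  · exact Submodule.mem_iSup_of_mem 0 (Submodule.mem_span_singleton_self z)
  · intro X hX u hu
    rw [Submodule.mem_iSup_of_directed _ (Wf_mono D q z).directed_le] at hu ⊢
    obtain ⟨k, hk⟩ := hu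
    exact ⟨k + 1, (Wf_stab D L p q hp hq hL hbr hD z hz k).2 X hX u hk⟩
  · intro C h1 h2
    refine iSup_le fun k => ?_
    induction k with
    | zero =>
      show Submodule.span K {z} ≤ C
      rw [Submodule.span_le]
      rintro _ rfl
      exact h1
    | succ k ih =>
      refine sup_le ih ?_
      rw [Submodule.span_le]
      rintro _ ⟨Y, hY, w, hw, rfl⟩
      exact h2 Y hY w (ih hw)

/-- **The highest weight space.** -/
theorem top_unique [CharZero K] (D : A →ₗ[K] Module.End K U) (S : Set A) (N : Submodule K U) (z : U)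
    (hN : ∀ C : Submodule K U, z ∈ C → (∀ Y ∈ Submodule.span K S, ∀ u ∈ C, D Y u ∈ C) → N ≤ C)
    (T : Module.End K U) (v : ℤ) (hT : T z = (v : K) • z)
    (hS : ∀ Y ∈ S, ∃ j : ℤ, 0 < j ∧ T * D Y - D Y * T = -((j : K) • D Y)) {u : U} (hu : u ∈ N)
    (hTu : T u = (v : K) • u) : ∃ k : K, u = k • z := by
  set C : Submodule K U := Submodule.span K {z} ⊔ ⨆ (j : ℤ) (_ : j < v), T.eigenspace (j : K) with hC
  have hlow : ∀ (i : ℤ), i ≤ v → ∀ x, T x = (i : K) • x → ∀ Y ∈ S, D Y x ∈
      ⨆ (j : ℤ) (_ : j < v), T.eigenspace (j : K) := by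
    intro i hi x hx Y hY
    obtain ⟨j, hj, h1⟩ := hS Y hY
    have h2 : T (D Y x) = ((i - j : ℤ) : K) • D Y x := by
      have h3 := congrArg (fun F : Module.End K U => F x) h1
      simp only [LinearMap.sub_apply, Module.End.mul_apply, LinearMap.neg_apply,
        LinearMap.smul_apply, hx, map_smul] at h3
      rw [sub_eq_iff_eq_add] at h3
      rw [h3]
      push_cast
      rw [sub_smul]
      abel
    refine Submodule.mem_iSup_of_mem (i - j) (Submodule.mem_iSup_of_mem (by omega) ?_)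
    exact Module.End.mem_eigenspace_iff.2 h2
  have h1 : N ≤ C := by
    refine hN C (Submodule.mem_sup_left (Submodule.mem_span_singleton_self z)) fun Y hY x hx => ?_
    induction hY using Submodule.span_induction with
    | mem Y hY =>
      obtain ⟨x1, h1, x2, h2, rfl⟩ := Submodule.mem_sup.1 hx
      obtain ⟨c, rfl⟩ := Submodule.mem_span_singleton.1 h1
      rw [map_add, map_smul]
      refine Submodule.mem_sup_right (Submodule.add_mem _ (Submodule.smul_mem _ _
        (hlow v le_rfl z hT Y hY)) ?_)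
      clear hx h1
      induction h2 using Submodule.iSup_induction' with
      | mem j x hx =>
        by_cases hj : j < v
        · rw [iSup_pos hj] at hx
          exact hlow j hj.le x (Module.End.mem_eigenspace_iff.1 hx) Y hY
        · rw [iSup_neg hj] at hx
          rw [(Submodule.mem_bot K).1 hx, map_zero]
          exact Submodule.zero_mem _
      | zero => rw [map_zero]; exact Submodule.zero_mem _
      | add a b _ _ ha hb => rw [map_add]; exact Submodule.add_mem _ ha hb
    | zero => rw [map_zero]; exact Submodule.zero_mem _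
    | add a b _ _ ha hb => rw [map_add]; exact Submodule.add_mem _ ha hb
    | smul c a _ ha => rw [map_smul]; exact Submodule.smul_mem _ _ ha
  obtain ⟨x1, h2, x2, h3, h4⟩ := Submodule.mem_sup.1 (h1 hu)
  obtain ⟨c, rfl⟩ := Submodule.mem_span_singleton.1 h2
  have h5 : x2 ∈ T.eigenspace (v : K) := by
    rw [Module.End.mem_eigenspace_iff]
    have h6 : x2 = u - c • z := by rw [← h4]; abel
    rw [h6, map_sub, hTu, map_smul, hT, smul_sub, smul_comm]
  have h6 := T.eigenspaces_iSupIndep (v : K)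
  have h7 : x2 ∈ ⨆ (j : K) (_ : j ≠ (v : K)), T.eigenspace j := by
    refine (iSup_le fun j => iSup_le fun hj => ?_ : (⨆ (j : ℤ) (_ : j < v), T.eigenspace (j : K)) ≤ _) h3
    refine le_iSup_of_le (j : K) (le_iSup_of_le ?_ le_rfl)
    intro h
    have : j = v := by exact_mod_cast h
    omega
  have h8 : x2 = 0 := by
    have := (Submodule.disjoint_def.1 h6) x2 h5 h7
    exact this
  exact ⟨c, by rw [← h4, h8, add_zero]⟩

end Pool.Agent.H943.DP
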