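import Pool.Agent.H943.DP.Fun
import Pool.Agent.H943.DP.Pbw

/-!
# The action of matrices on the functions
-/

set_option autoImplicit false
set_option linter.unusedSectionVars false

open Module Matrix Function

noncomputable section

namespace Pool.Agent.H943.DP

variable {n : ℕ} {K : Type} [Field K] [CharZero K]

/-- right multiplication -/
def A0 : Mt n K →ₗ[K] Module.End K (Mt n K) where
  toFun X := LinearMap.mulRight K X
  map_add' X Y := by
    refine LinearMap.ext fun Z => ?_
    simp [mul_add]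
  map_smul' c X := by
    refine LinearMap.ext fun Z => ?_
    simp

/-- the commutator -/
def A1 : Mt n K →ₗ[K] Module.End K (Mt n K) where
  toFun X := LinearMap.mulRight K X - LinearMap.mulLeft K X
  map_add' X Y := by
    refine LinearMap.ext fun Z => ?_
    simp [mul_add, add_mul]
    abel
  map_smul' c X := by
    refine LinearMap.ext fun Z => ?_
    simp [smul_sub]

theorem A0_apply (X Z : Mt n K) : A0 X Z = Z * X := rfl

theorem A1_apply (X Z : Mt n K) : A1 X Z = Z * X - X * Z := rfl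

theorem A0_br (X Y : Mt n K) : A0 Y * A0 X - A0 X * A0 Y = A0 (X * Y - Y * X) := by
  refine LinearMap.ext fun Z => ?_
  simp only [LinearMap.sub_apply, Module.End.mul_apply, A0_apply]
  noncomm_ring

theorem A1_br (X Y : Mt n K) : A1 Y * A1 X - A1 X * A1 Y = A1 (X * Y - Y * X) := by
  refine LinearMap.ext fun Z => ?_
  simp only [LinearMap.sub_apply, Module.End.mul_apply, A1_apply]
  noncomm_ring

theorem A0_sq {X : Mt n K} (hX : X * X = 0) : (A0 X) ^ 2 = 0 := by
  refine LinearMap.ext fun Z => ?_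
  rw [pow_two, Module.End.mul_apply, A0_apply, A0_apply, Matrix.mul_assoc, hX, Matrix.mul_zero]
  rfl

theorem A1_cu {X : Mt n K} (hX : X * X = 0) : (A1 X) ^ 3 = 0 := by
  refine LinearMap.ext fun Z => ?_
  rw [pow_succ, pow_two, Module.End.mul_apply, Module.End.mul_apply, A1_apply, A1_apply, A1_apply]
  have h1 : (((Z * X - X * Z) * X - X * (Z * X - X * Z)) * X -
      X * ((Z * X - X * Z) * X - X * (Z * X - X * Z))) =
      Z * (X * X) * X - 3 * (X * Z * (X * X)) + 3 * ((X * X) * Z * X) - (X * X) * (X * Z) := by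
    noncomm_ring
  rw [h1, hX]
  simp

theorem exp_A0 {X : Mt n K} (hX : X * X = 0) (Z : Mt n K) : IsNilpotent.exp (A0 X) Z = Z * (1 + X) := by
  rw [IsNilpotent.exp_eq_sum (A0_sq hX)]
  simp [Finset.sum_range_succ, A0_apply, mul_add]

theorem exp_A1 {X : Mt n K} (hX : X * X = 0) (Z : Mt n K) :
    IsNilpotent.exp (A1 X) Z = (1 - X) * Z * (1 + X) := by
  rw [IsNilpotent.exp_eq_sum (A1_cu hX)]
  have h1 : A1 X (A1 X Z) = -((2 : ℚ) • (X * Z * X)) := by
    rw [A1_apply, A1_apply]
    have : (Z * X - X * Z) * X - X * (Z * X - X * Z) = Z * (X * X) + (X * X) * Z - (2 : ℚ) • (X * Z * X) := by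
      rw [two_smul]
      noncomm_ring
    rw [this, hX]
    simp
  simp only [Finset.sum_range_succ, Finset.sum_range_zero, LinearMap.add_apply, LinearMap.smul_apply,
    pow_zero, pow_one, pow_two, Module.End.mul_apply, Module.End.one_apply, h1]
  rw [A1_apply]
  have h2 : ((Nat.factorial 2 : ℕ) : ℚ)⁻¹ • -((2 : ℚ) • (X * Z * X)) = -(X * Z * X) := by
    rw [smul_neg, smul_smul]
    norm_num
  rw [h2]
  simp
  noncomm_ring

theorem Der0_xf (N : ℕ) {l : Fin n} {X : Mt n K} {a : K} (h : X *ᵥ Pi.single l 1 = a • Pi.single l 1) :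
    Der (A0 X) (xf (K := K) N l) = ((N : K) * a) • xf N l := by
  refine US.ext fun Z => ?_
  rw [Der_ev, ev_smul, xf_ev]
  have h1 : ∀ k, (xf N l).ev (update Z k (A0 X (Z k))) = a * ∏ k, Z k l l := by
    intro k
    rw [xf_ev, ← Finset.mul_prod_erase _ _ (Finset.mem_univ k), update_self,
      ← Finset.mul_prod_erase _ (fun k => Z k l l) (Finset.mem_univ k), ← mul_assoc]
    congr 1
    · rw [A0_apply]
      have h2 : (Z k * X) l l = ((Z k) *ᵥ (X *ᵥ Pi.single l 1)) l := by
        rw [mulVec_mulVec, mulVec_single_one]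
        rfl
      rw [h2, h, mulVec_smul, mulVec_single_one]
      rfl
    · refine Finset.prod_congr rfl fun k' hk' => ?_
      rw [update_of_ne (Finset.ne_of_mem_erase hk')]
  rw [Finset.sum_congr rfl fun k _ => h1 k, Finset.sum_const, Finset.card_univ, Fintype.card_fin,
    nsmul_eq_mul, mul_assoc]

variable {J : Type} [Fintype J] [DecidableEq J] {d : J → ℕ}

theorem Der1_yf {X : Mt n K} (V : ∀ j, Fin (d j) → Mt n K) (C : ∀ j, Matrix (Fin (d j)) (Fin (d j)) K)
    (h : ∀ j a, X * V j a - V j a * X = ∑ b, C j a b • V j b) :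
    Der (A1 X) (yf V) = (∑ j, (C j).trace) • yf V := by
  refine US.ext fun Z => ?_
  rw [Der_ev, ev_smul, yf_ev, Fintype.sum_sigma, Finset.sum_mul]
  refine Finset.sum_congr rfl fun j _ => ?_
  have h1 : ∀ b, (yf V).ev (update Z ⟨j, b⟩ (A1 X (Z ⟨j, b⟩))) =
      ((gm (V j) fun b => Z ⟨j, b⟩).updateCol b fun a => (C j * gm (V j) fun b => Z ⟨j, b⟩) a b).det *
        ∏ j ∈ Finset.univ.erase j, (gm (V j) fun b => Z ⟨j, b⟩).det := by
    intro b
    rw [yf_ev, yv_upd]
    congr 3
    funext a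
    rw [A1_apply, Matrix.mul_sub, trace_sub, mul_apply]
    have h2 : (V j a * (Z ⟨j, b⟩ * X)).trace - (V j a * (X * Z ⟨j, b⟩)).trace =
        ((X * V j a - V j a * X) * Z ⟨j, b⟩).trace := by
      rw [Matrix.sub_mul, trace_sub, ← Matrix.mul_assoc, trace_mul_comm, ← Matrix.mul_assoc,
        ← Matrix.mul_assoc]
    rw [h2, h, Matrix.sum_mul, trace_sum]
    refine Finset.sum_congr rfl fun a' _ => ?_
    rw [Matrix.smul_mul, trace_smul, smul_eq_mul]
    rfl
  rw [Finset.sum_congr rfl fun b _ => h1 b, ← Finset.sum_mul, jacobi, mul_assoc]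
  congr 1
  unfold yv
  rw [← Finset.mul_prod_erase _ _ (Finset.mem_univ j)]

end Pool.Agent.H943.DP
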