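import Pool.Agent.H943.DP.ThmA
import Pool.Graph.R_pool_sql_team_seeded_63374d34.N768.BG.Div

/-!
# Lie subalgebras of algebras of endomorphisms, prime power degree
-/

set_option autoImplicit false
set_option linter.unusedSectionVars false

namespace Pool.Agent.H943.DP

open Module Polynomial Pool.Agent.N768.BG

noncomputable section

/-- matrices over a finite extension give matrices over the small field -/
theorem mat_down {k E : Type} [Field k] [Field E] [Algebra k E] [FiniteDimensional k E] (r : ℕ) :
    Nonempty (Matrix (Fin r) (Fin r) E →ₐ[k]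
      Matrix (Fin (r * finrank k E)) (Fin (r * finrank k E)) k) := by
  let V := Fin r → E
  let f : Matrix (Fin r) (Fin r) E →ₐ[k] Module.End k V :=
    AlgHom.ofLinearMap
      { toFun := fun X => (Matrix.toLin' X).restrictScalars k
        map_add' := fun X Y => by
          refine LinearMap.ext fun v => ?_
          simp
        map_smul' := fun c X => by
          refine LinearMap.ext fun v => ?_
          simp [Matrix.smul_mulVec] }
      (by
        refine LinearMap.ext fun v => ?_
        simp)
      (by
        intro X Y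
        refine LinearMap.ext fun v => ?_
        show Matrix.toLin' (X * Y) v = Matrix.toLin' X (Matrix.toLin' Y v)
        rw [Matrix.toLin'_mul]
        rfl)
  have h1 : finrank k V = r * finrank k E := by
    rw [finrank_pi_fintype]
    simp
  let b : Basis (Fin (r * finrank k E)) k V := (finBasis k V).reindex (finCongr h1)
  exact ⟨(LinearMap.toMatrixAlgEquiv b : Module.End k V →ₐ[k] _).comp f⟩

/-- The theorem on division algebras of prime power degree, the centre being given by an element. -/
theorem comm_mem_kq {k B : Type} [Field k] [CharZero k] [Ring B] [IsDomain B] [Algebra k B]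
    [FiniteDimensional k B] {q : ℕ} (hq : IsPrimePow q) (z : B) (hz : ∀ b, b * z = z * b) (hz0 : z ≠ 0)
    (hcen : ∀ b, (∀ b', b * b' = b' * b) → ∃ p : k[X], b * z = aeval z p)
    (hrk : finrank k B = q ^ 2 * finrank k (Algebra.adjoin k {z}))
    (hexp : ∀ N r : ℕ, 0 < N → 0 < r → r ≤ q ^ N * finrank k (Algebra.adjoin k {z}) →
      ∀ φ : Fin N → (B →ₐ[k] Matrix (Fin r) (Fin r) k),
      (∀ i j, i ≠ j → ∀ b b', φ i b * φ j b' = φ j b' * φ i b) → (∀ i j, φ i z = φ j z) → q ∣ N)
    (𝔨 : Submodule k B) (hz𝔨 : ∀ b ∈ 𝔨, z * b ∈ 𝔨)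
    (hbr : ∀ x ∈ 𝔨, ∀ y ∈ 𝔨, x * y - y * x ∈ 𝔨) (hgen : Algebra.adjoin k (𝔨 : Set B) = ⊤) (a b : B) :
    a * b - b * a ∈ 𝔨 := by
  let _ : DivisionRing B := divisionRingOfFiniteDimensional k B
  have hirr : Irreducible (minpoly k z) := minpoly.irreducible (Algebra.IsIntegral.isIntegral z)
  have : Fact (Irreducible (minpoly k z)) := ⟨hirr⟩
  have hcomm : ∀ (e : AdjoinRoot (minpoly k z)) (b : B), ph z e * b = b * ph z e := by
    intro e b
    obtain ⟨q, rfl⟩ := AdjoinRoot.mk_surjective e
    rw [ph_mk]
    induction q using Polynomial.induction_on with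
    | C c =>
      rw [aeval_C]
      exact Algebra.commutes c b
    | add p q hp hq => rw [map_add, add_mul, mul_add, hp, hq]
    | monomial n c hn =>
      rw [pow_succ, ← mul_assoc, map_mul, aeval_X, mul_assoc, ← hz b, ← mul_assoc, hn, mul_assoc]
  let _ : Algebra (AdjoinRoot (minpoly k z)) B :=
    (ph (k := k) z : AdjoinRoot (minpoly k z) →+* B).toAlgebra' hcomm
  have hsm : ∀ (e : AdjoinRoot (minpoly k z)) (b : B), e • b = ph z e * b := fun e b => rfl
  have htow : IsScalarTower k (AdjoinRoot (minpoly k z)) B := ⟨fun c e b => by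
    rw [hsm, hsm, map_smul, smul_mul_assoc]⟩
  have hfin : FiniteDimensional (AdjoinRoot (minpoly k z)) B :=
    FiniteDimensional.right k (AdjoinRoot (minpoly k z)) B
  have hcz : CharZero (AdjoinRoot (minpoly k z)) :=
    charZero_of_injective_algebraMap (algebraMap k (AdjoinRoot (minpoly k z))).injective
  have hinj : Function.Injective (ph (k := k) z) := (ph (k := k) z).toRingHom.injective
  have h1 : finrank k (AdjoinRoot (minpoly k z)) = finrank k (Algebra.adjoin k {z}) := by
    rw [← ph_range]
    exact (AlgEquiv.ofInjective (ph (k := k) z) hinj).toLinearEquiv.finrank_eq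
  have hfE : FiniteDimensional k (AdjoinRoot (minpoly k z)) :=
    FiniteDimensional.of_injective (ph (k := k) z).toLinearMap hinj
  have hfr : finrank (AdjoinRoot (minpoly k z)) B = q ^ 2 := by
    have h2 := finrank_mul_finrank k (AdjoinRoot (minpoly k z)) B
    rw [hrk, ← h1, mul_comm] at h2
    exact Nat.eq_of_mul_eq_mul_right finrank_pos h2
  -- the centre
  have hcentral : Algebra.IsCentral (AdjoinRoot (minpoly k z)) B := by
    refine ⟨fun b hb => ?_⟩
    rw [Subalgebra.mem_center_iff] at hb
    obtain ⟨p, hp⟩ := hcen b fun b' => (hb b').symm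
    rw [Algebra.mem_bot]
    have hroot : ph (k := k) z (AdjoinRoot.root (minpoly k z)) = z := aeval_X (R := k) z
    have hr0 : AdjoinRoot.root (minpoly k z) ≠ 0 := by
      intro h
      rw [h, map_zero] at hroot
      exact hz0 hroot.symm
    refine ⟨AdjoinRoot.mk (minpoly k z) p * (AdjoinRoot.root (minpoly k z))⁻¹, ?_⟩
    show ph z _ = b
    have h3 : ph (k := k) z ((AdjoinRoot.root (minpoly k z))⁻¹) * z = 1 := by
      have h4 : ph (k := k) z ((AdjoinRoot.root (minpoly k z))⁻¹ * AdjoinRoot.root (minpoly k z)) =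
          ph z ((AdjoinRoot.root (minpoly k z))⁻¹) * ph z (AdjoinRoot.root (minpoly k z)) :=
        map_mul _ _ _
      rw [inv_mul_cancel₀ hr0, map_one, hroot] at h4
      exact h4.symm
    apply mul_right_cancel₀ hz0
    rw [map_mul, mul_assoc, h3, mul_one, hp, ph_mk]
  have hEx : Ex (AdjoinRoot (minpoly k z)) B q := by
    intro N r hN hr hle φ hφ
    obtain ⟨D⟩ := mat_down (k := k) (E := AdjoinRoot (minpoly k z)) r
    refine hexp N (r * finrank k (AdjoinRoot (minpoly k z))) hN (Nat.mul_pos hr finrank_pos) ?_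
      (fun i => D.comp ((φ i).restrictScalars k)) (fun i j hij b b' => ?_) fun i j => ?_
    · rw [← h1]
      exact Nat.mul_le_mul_right _ hle
    · show D (φ i b) * D (φ j b') = D (φ j b') * D (φ i b)
      rw [← map_mul, ← map_mul, hφ i j hij]
    · show D (φ i z) = D (φ j z)
      have h2 : ∀ i, φ i z = algebraMap (AdjoinRoot (minpoly k z)) _ (AdjoinRoot.root (minpoly k z)) := by
        intro i
        have h3 : algebraMap (AdjoinRoot (minpoly k z)) B (AdjoinRoot.root (minpoly k z)) = z :=
          aeval_X (R := k) z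
        rw [← (φ i).commutes, h3]
      rw [h2, h2]
  let 𝔨' : Submodule (AdjoinRoot (minpoly k z)) B :=
    { carrier := 𝔨
      zero_mem' := 𝔨.zero_mem
      add_mem' := fun {a b} ha hb => 𝔨.add_mem ha hb
      smul_mem' := fun e b hb => by
        rw [hsm]
        obtain ⟨q, rfl⟩ := AdjoinRoot.mk_surjective e
        rw [ph_mk]
        exact aeval_mul_mem hz𝔨 q hb }
  refine thmA (F := AdjoinRoot (minpoly k z)) (B := B) hfr hq hEx 𝔨' hbr ?_ a b
  rw [eq_top_iff]
  intro b _
  have hb : b ∈ Algebra.adjoin k (𝔨 : Set B) := by rw [hgen]; trivial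
  induction hb using Algebra.adjoin_induction with
  | mem b hb => exact Algebra.subset_adjoin hb
  | algebraMap c =>
    rw [IsScalarTower.algebraMap_apply k (AdjoinRoot (minpoly k z)) B]
    exact Subalgebra.algebraMap_mem _ _
  | add a b _ _ ha hb => exact Subalgebra.add_mem _ (ha trivial) (hb trivial)
  | mul a b _ _ ha hb => exact Subalgebra.mul_mem _ (ha trivial) (hb trivial)

end

end Pool.Agent.H943.DP
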