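import Pool.Agent.H943.DP.AppA

/-!
# The rational part, prime power degree

The proof follows the one of `Pool.Agent.N768.BG.rat_part`, with the theorem on division algebras of prime
power degree instead of the one on division algebras of prime degree.
-/

set_option autoImplicit false
set_option linter.unusedSectionVars false

namespace Pool.Agent.H943.DP

open Module Polynomial Pool.Agent.N768.BG

noncomputable section

/-- The map `φ` is a representation of the algebra of the restrictions of the elements of `C` to the image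
of `z`. -/
structure IsRp {k V : Type} [Field k] [AddCommGroup V] [Module k V] (C : Set (Module.End k V))
    (z : Module.End k V) {r : ℕ} (φ : Module.End k V → Matrix (Fin r) (Fin r) k) : Prop where
  add : ∀ X ∈ C, ∀ Y ∈ C, φ (X + Y) = φ X + φ Y
  mul : ∀ X ∈ C, ∀ Y ∈ C, φ (X * Y) = φ X * φ Y
  one : φ 1 = 1
  zero : ∀ X ∈ C, X * z = 0 → φ X = 0

/-- **The rational part.** -/
theorem rat_part_q {k V : Type} [Field k] [AddCommGroup V] [Module k V] [CharZero k]
    [FiniteDimensional k V] (C : Subalgebra k (Module.End k V))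
    (z : Module.End k V) (hzC : z ∈ C) (hz : ∀ X ∈ C, X * z = z * X) (hzz : z * z ≠ 0)
    (hdiv : ∀ X ∈ C, X * z ≠ 0 → ∀ v, X (z v) = 0 → z v = 0) {q : ℕ} (hq : IsPrimePow q)
    (hrk : finrank k (C.toSubmodule.map (LinearMap.mulRight k z)) =
      q ^ 2 * finrank k ((Algebra.adjoin k {z}).toSubmodule.map (LinearMap.mulRight k z)))
    (hcen : ∀ X ∈ C, (∀ Y ∈ C, (X * Y - Y * X) * z = 0) → ∃ p : k[X], X * z * z = aeval z p * z)
    (hexp : ∀ N r : ℕ, 0 < N → 0 < r →
      r ≤ q ^ N * finrank k ((Algebra.adjoin k {z}).toSubmodule.map (LinearMap.mulRight k z)) →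
      ∀ φ : Fin N → (Module.End k V → Matrix (Fin r) (Fin r) k), (∀ i, IsRp (C : Set _) z (φ i)) →
      (∀ i j, i ≠ j → ∀ X ∈ C, ∀ Y ∈ C, φ i X * φ j Y = φ j Y * φ i X) →
      (∀ i j, φ i z = φ j z) → q ∣ N)
    (𝔮 : Submodule k (Module.End k V)) (hqC : ∀ X ∈ 𝔮, X ∈ C)
    (hbr : ∀ X ∈ 𝔮, ∀ Y ∈ 𝔮, X * Y - Y * X ∈ 𝔮)
    (hgen : ∀ X ∈ C, X ∈ Algebra.adjoin k (𝔮 : Set (Module.End k V)))
    {X Y : Module.End k V} (hX : X ∈ C) (hY : Y ∈ C) :
    ∃ W ∈ Submodule.span k {T | ∃ (q : k[X]) (s : Module.End k V), s ∈ 𝔮 ∧ T = aeval z q * s},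
      (X * Y - Y * X) * z = W * z := by
  -- the module of combinations
  obtain ⟨T, hT⟩ : ∃ T : Submodule k (Module.End k V), T =
      Submodule.span k {T | ∃ (q : k[X]) (s : Module.End k V), s ∈ 𝔮 ∧ T = aeval z q * s} := ⟨_, rfl⟩
  rw [← hT]
  have hpz : ∀ q : k[X], aeval z q ∈ C := fun q => by
    have h1 := (aeval (⟨z, hzC⟩ : C) q).2
    rwa [aeval_subalgebra_coe] at h1
  have hpc : ∀ (q : k[X]) (s : Module.End k V), s ∈ C → s * aeval z q = aeval z q * s := by
    intro q s hs
    induction q using Polynomial.induction_on with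
    | C c =>
      rw [aeval_C]
      exact (Algebra.commutes c s).symm
    | add p q hp hq => rw [map_add, add_mul, mul_add, hp, hq]
    | monomial n c hn =>
      rw [pow_succ, ← mul_assoc, map_mul, aeval_X, ← mul_assoc, hn, mul_assoc, hz s hs,
        ← mul_assoc]
  have hTC : T ≤ C.toSubmodule := by
    rw [hT, Submodule.span_le]
    rintro _ ⟨q, s, hs, rfl⟩
    exact C.mul_mem (hpz q) (hqC s hs)
  have hqT : ∀ s ∈ 𝔮, s ∈ T := fun s hs => by
    rw [hT]
    exact Submodule.subset_span ⟨1, s, hs, by rw [map_one, one_mul]⟩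
  have hzT : ∀ a ∈ T, z * a ∈ T := by
    intro a ha
    rw [hT] at ha ⊢
    induction ha using Submodule.span_induction with
    | mem a ha =>
      obtain ⟨q, s, hs, rfl⟩ := ha
      exact Submodule.subset_span ⟨Polynomial.X * q, s, hs, by
        rw [map_mul, aeval_X, mul_assoc]⟩
    | zero => rw [mul_zero]; exact Submodule.zero_mem _
    | add a b _ _ ha hb => rw [mul_add]; exact Submodule.add_mem _ ha hb
    | smul c a _ ha => rw [mul_smul_comm]; exact Submodule.smul_mem _ c ha
  have hTbr : ∀ a ∈ T, ∀ b ∈ T, a * b - b * a ∈ T := by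
    intro a ha b hb
    rw [hT] at ha hb
    induction ha using Submodule.span_induction with
    | mem a ha =>
      obtain ⟨q, s, hs, rfl⟩ := ha
      induction hb using Submodule.span_induction with
      | mem b hb =>
        obtain ⟨q', s', hs', rfl⟩ := hb
        rw [hT]
        refine Submodule.subset_span ⟨q * q', s * s' - s' * s, hbr s hs s' hs', ?_⟩
        have e1 := hpc q' s (hqC s hs)
        have e2 := hpc q s' (hqC s' hs')
        have e3 : aeval z q' * aeval z q = aeval z q * aeval z q' := by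
          rw [← map_mul, ← map_mul, mul_comm]
        have e4 : aeval z q * s * (aeval z q' * s') = aeval z q * aeval z q' * (s * s') := by
          rw [mul_assoc, ← mul_assoc s, e1]
          simp only [mul_assoc]
        have e5 : aeval z q' * s' * (aeval z q * s) = aeval z q * aeval z q' * (s' * s) := by
          rw [mul_assoc, ← mul_assoc s', e2, ← e3]
          simp only [mul_assoc]
        rw [e4, e5, map_mul, mul_sub]
      | zero => rw [mul_zero, zero_mul, sub_self]; exact T.zero_mem
      | add b c _ _ hb hc =>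
        rw [mul_add, add_mul, add_sub_add_comm]
        exact T.add_mem hb hc
      | smul c b _ hb =>
        rw [mul_smul_comm, smul_mul_assoc, ← smul_sub]
        exact T.smul_mem c hb
    | zero => rw [mul_zero, zero_mul, sub_self]; exact T.zero_mem
    | add a c _ _ ha hc =>
      rw [add_mul, mul_add, add_sub_add_comm]
      exact T.add_mem ha hc
    | smul c a _ ha =>
      rw [mul_smul_comm, smul_mul_assoc, ← smul_sub]
      exact T.smul_mem c ha
  -- the division algebra
  obtain ⟨F, hFv, hF0⟩ : ∃ F : C →ₐ[k] Module.End k (LinearMap.range z),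
      (∀ (X : C) (u : LinearMap.range z), ((F X u : LinearMap.range z) : V) =
        (X : Module.End k V) u) ∧ ∀ X : C, F X = 0 ↔ (X : Module.End k V) * z = 0 :=
    ⟨resI C z hz, resI_apply C z hz, resI_zero C z hz⟩
  have hFinj : ∀ X : C, F X ≠ 0 → Function.Injective (F X) := by
    intro X hX
    rw [injective_iff_map_eq_zero]
    rintro ⟨_, v, rfl⟩ hu
    apply Subtype.ext
    refine hdiv X X.2 (fun h => hX ((hF0 X).2 h)) v ?_
    have h1 := hFv X ⟨z v, v, rfl⟩
    rw [hu] at h1
    exact h1.symm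
  have hne0 : F ⟨z, hzC⟩ ≠ 0 := fun h => hzz ((hF0 _).1 h)
  have hntI : Nontrivial (LinearMap.range z) := by
    by_contra hcon
    rw [not_nontrivial_iff_subsingleton] at hcon
    exact hne0 (Subsingleton.elim _ _)
  have hdom : IsDomain F.range := by
    have h2 : NoZeroDivisors F.range := by
      refine ⟨fun {a b} hab => ?_⟩
      obtain ⟨_, a, rfl⟩ := a
      obtain ⟨_, b, rfl⟩ := b
      by_contra hcon
      push Not at hcon
      have ha := hFinj a fun h => hcon.1 (Subtype.ext h)
      have hb := hFinj b fun h => hcon.2 (Subtype.ext h)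
      obtain ⟨v, hv⟩ := exists_ne (0 : LinearMap.range z)
      have h3 : (F a) ((F b) v) = 0 :=
        congrArg (fun T : F.range => (T : Module.End k (LinearMap.range z)) v) hab
      apply hv
      apply hb
      apply ha
      rw [h3, map_zero, map_zero]
    exact NoZeroDivisors.to_isDomain F.range
  let G : C →ₗ[k] Module.End k V := (LinearMap.mulRight k z).comp C.val.toLinearMap
  let Fr : C →ₗ[k] F.range := F.rangeRestrict.toLinearMap
  have hG : ∀ X : C, Fr X = 0 ↔ G X = 0 := by
    intro X
    have h1 : Fr X = 0 ↔ F X = 0 :=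
      ⟨fun h => congrArg Subtype.val h, fun h => Subtype.ext h⟩
    exact h1.trans (hF0 X)
  have hr1 : finrank k F.range = finrank k (C.toSubmodule.map (LinearMap.mulRight k z)) := by
    have h1 := finrank_map_eq (U₁ := F.range) Fr G hG ⊤
    have h2 : (⊤ : Submodule k C).map Fr = ⊤ := by
      rw [Submodule.map_top, LinearMap.range_eq_top]
      exact F.rangeRestrict_surjective
    have h3 : (⊤ : Submodule k C).map G = C.toSubmodule.map (LinearMap.mulRight k z) := by
      rw [Submodule.map_comp]
      congr 1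
      rw [Submodule.map_top]
      exact Submodule.range_subtype C.toSubmodule
    rw [h2, h3, finrank_top] at h1
    exact h1
  have hr2 : finrank k (Algebra.adjoin k {F.rangeRestrict ⟨z, hzC⟩}) =
      finrank k ((Algebra.adjoin k {z}).toSubmodule.map (LinearMap.mulRight k z)) := by
    have h1 := finrank_map_eq (U₁ := F.range) Fr G hG
      (Algebra.adjoin k {(⟨z, hzC⟩ : C)}).toSubmodule
    have h2 : (Algebra.adjoin k {(⟨z, hzC⟩ : C)}).toSubmodule.map Fr =
        (Algebra.adjoin k {F.rangeRestrict ⟨z, hzC⟩}).toSubmodule := by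
      rw [← AlgHom.map_adjoin_singleton]
      rfl
    have h3 : (Algebra.adjoin k {(⟨z, hzC⟩ : C)}).toSubmodule.map G =
        (Algebra.adjoin k {z}).toSubmodule.map (LinearMap.mulRight k z) := by
      rw [Submodule.map_comp]
      congr 1
      have h4 := AlgHom.map_adjoin_singleton C.val (⟨z, hzC⟩ : C)
      exact congrArg Subalgebra.toSubmodule h4
    rw [h2, h3] at h1
    exact h1
  let 𝔨 : Submodule k F.range := (T.comap C.val.toLinearMap).map Fr
  have hmem : ∀ (a : Module.End k V) (ha : a ∈ C), a ∈ T → F.rangeRestrict ⟨a, ha⟩ ∈ 𝔨 :=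
    fun a ha h => ⟨⟨a, ha⟩, h, rfl⟩
  have hadj : ∀ a ∈ Algebra.adjoin k (𝔮 : Set (Module.End k V)), a ∈ C := by
    intro a ha
    exact (Algebra.adjoin_le_iff (S := C)).2 (fun s hs => hqC s hs) ha
  have haev : ∀ p : k[X], F.rangeRestrict ⟨aeval z p, hpz p⟩ = aeval (F.rangeRestrict ⟨z, hzC⟩) p := by
    intro p
    rw [aeval_algHom_apply]
    congr 1
    apply Subtype.ext
    exact (aeval_subalgebra_coe p C ⟨z, hzC⟩).symm
  have key := comm_mem_kq (k := k) (B := F.range) hq (F.rangeRestrict ⟨z, hzC⟩)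
    (by
      rintro ⟨_, b, rfl⟩
      apply Subtype.ext
      show F b * F ⟨z, hzC⟩ = F ⟨z, hzC⟩ * F b
      rw [← map_mul, ← map_mul]
      congr 1
      exact Subtype.ext (hz b b.2))
    (by
      intro h
      have h' : ((F.rangeRestrict ⟨z, hzC⟩ : F.range) : Module.End k (LinearMap.range z)) =
          ((0 : F.range) : Module.End k (LinearMap.range z)) := by rw [h]
      exact hne0 h')
    (by
      rintro ⟨_, b, rfl⟩ hb
      obtain ⟨p, hp⟩ := hcen b b.2 fun Y hY => by
        refine (hF0 (b * ⟨Y, hY⟩ - ⟨Y, hY⟩ * b)).1 ?_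
        rw [map_sub, map_mul, map_mul, sub_eq_zero]
        exact congrArg Subtype.val (hb ⟨F ⟨Y, hY⟩, ⟨Y, hY⟩, rfl⟩)
      refine ⟨p, ?_⟩
      rw [← haev]
      apply Subtype.ext
      show F b * F ⟨z, hzC⟩ = F ⟨aeval z p, hpz p⟩
      rw [← map_mul, ← sub_eq_zero, ← map_sub, hF0]
      show ((b : Module.End k V) * z - aeval z p) * z = 0
      rw [sub_mul, hp, sub_self])
    (by rw [hr1, hr2, hrk])
    (by
      intro N r hN hr hle φ hφ hφz
      rw [hr2] at hle
      classical
      refine hexp N r hN hr hle (fun i X => if h : X ∈ C then φ i (F.rangeRestrict ⟨X, h⟩) else 0)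
        (fun i => ⟨fun X (hX : X ∈ C) Y (hY : Y ∈ C) => ?_, fun X (hX : X ∈ C) Y (hY : Y ∈ C) => ?_, ?_,
          fun X (hX : X ∈ C) h0 => ?_⟩)
        (fun i j hij X hX Y hY => ?_) fun i j => ?_
      · rw [dif_pos hX, dif_pos hY, dif_pos (C.add_mem hX hY), ← map_add, ← map_add]
        rfl
      · rw [dif_pos hX, dif_pos hY, dif_pos (C.mul_mem hX hY), ← map_mul, ← map_mul]
        rfl
      · rw [dif_pos C.one_mem]
        have : F.rangeRestrict ⟨1, C.one_mem⟩ = 1 := map_one F.rangeRestrict
        rw [this, map_one]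
      · rw [dif_pos hX]
        have : F.rangeRestrict ⟨X, hX⟩ = 0 := Subtype.ext ((hF0 ⟨X, hX⟩).2 h0)
        rw [this, map_zero]
      · rw [dif_pos hX, dif_pos hY]
        exact hφ i j hij _ _
      · rw [dif_pos hzC, dif_pos hzC]
        exact hφz i j)
    𝔨
    (by
      rintro _ ⟨b, hb, rfl⟩
      exact ⟨⟨z, hzC⟩ * b, hzT b hb, map_mul F.rangeRestrict _ _⟩)
    (by
      rintro _ ⟨a, ha, rfl⟩ _ ⟨b, hb, rfl⟩
      refine ⟨a * b - b * a, hTbr a ha b hb, ?_⟩
      show F.rangeRestrict (a * b - b * a) = _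
      rw [map_sub, map_mul, map_mul]
      rfl)
    (by
      rw [eq_top_iff]
      rintro ⟨_, b, rfl⟩ -
      have hb : ∀ a ∈ Algebra.adjoin k (𝔮 : Set (Module.End k V)), ∀ ha : a ∈ C,
          F.rangeRestrict ⟨a, ha⟩ ∈ Algebra.adjoin k (𝔨 : Set F.range) := by
        intro a ha
        induction ha using Algebra.adjoin_induction with
        | mem a ha => exact fun h => Algebra.subset_adjoin (hmem a h (hqT a ha))
        | algebraMap c =>
          intro h
          have : F.rangeRestrict ⟨algebraMap k _ c, h⟩ = algebraMap k _ c :=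
            AlgHom.commutes F.rangeRestrict c
          rw [this]
          exact Subalgebra.algebraMap_mem _ _
        | add a b ha hb iha ihb =>
          intro h
          have : F.rangeRestrict ⟨a + b, h⟩ = F.rangeRestrict ⟨a, hadj a ha⟩ +
              F.rangeRestrict ⟨b, hadj b hb⟩ := by
            rw [← map_add]
            rfl
          rw [this]
          exact Subalgebra.add_mem _ (iha _) (ihb _)
        | mul a b ha hb iha ihb =>
          intro h
          have : F.rangeRestrict ⟨a * b, h⟩ = F.rangeRestrict ⟨a, hadj a ha⟩ *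
              F.rangeRestrict ⟨b, hadj b hb⟩ := by
            rw [← map_mul]
            rfl
          rw [this]
          exact Subalgebra.mul_mem _ (iha _) (ihb _)
      exact hb b (hgen b b.2) b.2)
    (F.rangeRestrict ⟨X, hX⟩) (F.rangeRestrict ⟨Y, hY⟩)
  obtain ⟨W, hW, hWe⟩ := key
  refine ⟨W, hW, ?_⟩
  have h5 : F (⟨X, hX⟩ * ⟨Y, hY⟩ - ⟨Y, hY⟩ * ⟨X, hX⟩ - W) = 0 := by
    rw [map_sub, map_sub, map_mul, map_mul, sub_eq_zero]
    exact (congrArg Subtype.val hWe).symm
  have h6 := (hF0 _).1 h5
  have h7 : (X * Y - Y * X - (W : Module.End k V)) * z = 0 := h6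
  rwa [sub_mul, sub_eq_zero] at h7

end

end Pool.Agent.H943.DP
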