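import Pool.Agent.H943.DP.AppB
import Pool.Graph.R_pool_sql_team_seeded_63374d34.N208.BT.PDiv

/-!
# The unitary parts given by division algebras of prime power degree
-/

set_option autoImplicit false
set_option linter.unusedSectionVars false

open Module Matrix

noncomputable section

namespace Pool.Agent.H943.DP

open Pool.Agent.Y102 Pool.Agent.W516.DR Pool.Agent.H204R3.GP Pool.Agent.W516.KC
  Pool.Agent.H204R3.SP Pool.Agent.TH119.MX Pool.Agent.R917 Pool.Agent.N208.AM Pool.Agent.N208.AD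
  Pool.Agent.N208.BT Pool.Agent.N768 Pool.Agent.N768.BGPD

variable {g : ℕ} {A : AbVar g}

/-- the part of the commutant given by `z` is a division algebra of dimension `q ^ 2` over the field
`ℚ[z]` (on the image of `z`), `q` a prime power, with the exponent `q` -/
structure PPD (A : AbVar g) (z : Module.End ℚ A.H1) (q : ℕ) : Prop where
  pp : IsPrimePow q
  div : ∀ X ∈ CB A, X * z ≠ 0 → ∀ v, X (z v) = 0 → z v = 0
  rank : finrank ℚ ((CB A).map (LinearMap.mulRight ℚ z)) =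
    q ^ 2 * finrank ℚ ((Algebra.adjoin ℚ {z}).toSubmodule.map (LinearMap.mulRight ℚ z))
  exp : ∀ N r : ℕ, 0 < N → 0 < r →
    r ≤ q ^ N * finrank ℚ ((Algebra.adjoin ℚ {z}).toSubmodule.map (LinearMap.mulRight ℚ z)) →
    ∀ φ : Fin N → (Module.End ℚ A.H1 → Matrix (Fin r) (Fin r) ℚ),
    (∀ i, IsRp (CB A : Set (Module.End ℚ A.H1)) z (φ i)) →
    (∀ i j, i ≠ j → ∀ X ∈ CB A, ∀ Y ∈ CB A, φ i X * φ j Y = φ j Y * φ i X) →
    (∀ i j, φ i z = φ j z) → q ∣ N

theorem zz_ne {z : Module.End ℚ A.H1} {al : ℝ} (h : HQ A z al) : z * z ≠ 0 := by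
  intro h0
  obtain ⟨x, hx, hx0⟩ := h.ex
  have h1 : (A.ext z * A.ext z + (al ^ 2) • (1 : Module.End ℝ (Fin g → ℂ))) x = 0 := hx
  rw [← Pool.Agent.N208.AD.ext_mul, h0, ext_zero, zero_add, LinearMap.smul_apply,
    Module.End.one_apply] at h1
  rcases smul_eq_zero.1 h1 with h2 | h2
  · exact h.ne (pow_eq_zero_iff two_ne_zero |>.1 h2)
  · exact hx0 h2

theorem cen_of {z : Module.End ℚ A.H1} {al : ℝ} (h : HQ A z al) {𝔮 : Submodule ℚ (Module.End ℚ A.H1)}
    (_hq : A.Full 𝔮) {X : Module.End ℚ A.H1} (hX : X ∈ CB A)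
    (hc : ∀ Y ∈ CB A, (X * Y - Y * X) * z = 0) :
    ∃ p : Polynomial ℚ, X * z * z = Polynomial.aeval z p * z := by
  have hzC : z ∈ CB A := h.cen
  have hcomm : ∀ Y ∈ CB A, Y * (X * z) = X * z * Y := by
    intro Y hY
    have h1 := hc Y hY
    rw [sub_mul, sub_eq_zero] at h1
    rw [← mul_assoc, ← h1, mul_assoc, mul_assoc, hY z h.mem]
  have c2 : X * z ∈ A.EA := fun Y hY => hcomm Y (NA_CB (A.LA_le_NA hY))
  exact h.gen (X * z) c2 fun Q hQ => CB_mul hX hzC Q hQ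

theorem mainq (hRR : G_RR) {z : Module.End ℚ A.H1} {al : ℝ} {q : ℕ} (h : HQ A z al)
    (hpd : PPD A z q) {N : ℕ} {sg : Fin N → ℝ} {φ : VN N →ₗ[ℝ] (Fin g → ℂ)} (w : WN A z al N sg φ)
    {𝔮 : Submodule ℚ (Module.End ℚ A.H1)} (hq : A.Full 𝔮) : Big sg (rN A (der 𝔮) φ) := by
  have hR := hRR g A z al h N sg φ w 𝔮 hq
  -- the commutant
  obtain ⟨C, hC⟩ : ∃ C : Subalgebra ℚ (Module.End ℚ A.H1), ∀ X, X ∈ C ↔ X ∈ CB A := by
    refine ⟨Subalgebra.centralizer ℚ (A.EA : Set (Module.End ℚ A.H1)), fun X => ?_⟩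
    rw [Subalgebra.mem_centralizer_iff]
    exact ⟨fun hX P hP => (hX P hP).symm, fun hX P hP => (hX P hP).symm⟩
  have hCs : C.toSubmodule = CB A := by
    ext X
    rw [Subalgebra.mem_toSubmodule]
    exact hC X
  have hCset : (C : Set (Module.End ℚ A.H1)) = (CB A : Set (Module.End ℚ A.H1)) := by
    ext X
    exact hC X
  have hzC : z ∈ C := (hC z).2 h.cen
  -- traces
  have htr : ∀ X ∈ rN A (der 𝔮) φ, X.trace = 0 := by
    intro X hX
    have h1 := hR.perf hX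
    clear hX
    induction h1 using Submodule.span_induction with
    | mem X hX =>
      obtain ⟨a, -, b, -, rfl⟩ := hX
      rw [Matrix.trace_sub, Matrix.trace_mul_comm, sub_self]
    | zero => exact Matrix.trace_zero _ _
    | add a b _ _ ha hb => rw [Matrix.trace_add, ha, hb, add_zero]
    | smul c a _ ha => rw [Matrix.trace_smul, ha, smul_zero]
  -- the monoid
  let MS : Submonoid (MN N) :=
    { carrier := {m | ∃ X ∈ CB A, ∀ x, A.ext X (φ x) = φ (m *ᵥ x)}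
      one_mem' := ⟨1, CB_one, fun x => by
        rw [ext_one, Module.End.one_apply, Matrix.one_mulVec]⟩
      mul_mem' := by
        rintro a b ⟨X, hX, e⟩ ⟨Y, hY, e'⟩
        exact ⟨X * Y, CB_mul hX hY, fun x => by
          rw [Pool.Agent.N208.AD.ext_mul, Module.End.mul_apply, e', e, Matrix.mulVec_mulVec]⟩ }
  refine BG.long_root w.pos w.isSg hR.sk htr MS (fun U hU => ?_) ?_
  · refine w.simple U fun X hX x hx y hxy => ?_
    obtain ⟨m, hm⟩ := mat_CB h w hq (NA_CB hX)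
    have h1 := hU m ⟨X, NA_CB hX, hm⟩ x hx
    rw [hm] at hxy
    rwa [← w.inj hxy]
  · rintro a ⟨X, hX, e⟩ b ⟨Y, hY, e'⟩
    obtain ⟨W, hW, hWe⟩ := rat_part_q C z hzC (fun X hX => (hC X).1 hX z h.mem) (zz_ne h)
      (fun X hX => hpd.div X ((hC X).1 hX)) hpd.pp (by rw [hCs]; exact hpd.rank)
      (fun X hX hc => cen_of h hq ((hC X).1 hX) fun Y hY => hc Y ((hC Y).2 hY))
      (fun N r hN hr hle φ h1 h2 h3 => hpd.exp N r hN hr hle φ (fun i => by
        rw [← hCset]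
        exact h1 i) (fun i j hij X hX Y hY => h2 i j hij X ((hC X).2 hX) Y ((hC Y).2 hY)) h3) 𝔮
      (fun X hX => (hC X).2 (NA_CB (hq.le hX))) hq.br
      (fun X hX => CB_adjoin hq ((hC X).1 hX)) ((hC X).2 hX) ((hC Y).2 hY)
    obtain ⟨m, hm, em⟩ := mat_T h w hq hW
    have h1 : a * b - b * a = m := by
      refine mat_unique h w fun u => ?_
      rw [← em, ← ext_gen h w hWe, ext_sub, Pool.Agent.N208.AD.ext_mul,
        Pool.Agent.N208.AD.ext_mul, LinearMap.sub_apply, Module.End.mul_apply,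
        Module.End.mul_apply, e, e', e, e', ← map_sub, Matrix.mulVec_mulVec,
        Matrix.mulVec_mulVec, ← Matrix.sub_mulVec]
    rw [h1]
    exact hm

variable {z : Module.End ℚ A.H1}

/-- The data of a division algebra of prime power degree. -/
structure HDq (A : AbVar g) (z : Module.End ℚ A.H1) (Sg : Finset ℝ) (q : ℕ) : Prop where
  mem : z ∈ A.EA
  cen : ∀ P ∈ A.EA, z * P = P * z
  skew : IsSkew A.om z
  gen : ∀ P ∈ A.EA, (∀ Q ∈ A.EA, P * Q = Q * P) →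
    ∃ q : Polynomial ℚ, P * z = Polynomial.aeval z q * z
  ne : ∀ al ∈ Sg, al ≠ 0
  e1 : ∀ al ∈ Sg, ∃ x, x ≠ 0 ∧ Eig A z al x
  e2 : ∀ al ∈ Sg, ∃ x, x ≠ 0 ∧ Eig A z (-al) x
  disj : ∀ al ∈ Sg, -al ∉ Sg
  sep : SepG A z Sg
  pd : PPD A z q

theorem HDq.hq {Sg : Finset ℝ} {q : ℕ} (h : HDq A z Sg q) {al : ℝ} (ha : al ∈ Sg) :
    HQ A z al where
  mem := h.mem
  cen := h.cen
  skew := h.skew
  gen := h.gen
  ne := h.ne al ha
  ex := by
    obtain ⟨x, hx, hxe⟩ := h.e1 al ha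
    exact ⟨x, eig_mem_V0 h.mem rfl hxe, hx⟩

theorem hg_ofq {Sg : Finset ℝ} {q : ℕ} (h : HDq A z Sg q) : HG A z Sg where
  hq := fun _ ha => h.hq ha
  disj := h.disj
  sep := h.sep
  big := fun _ ha _ _ _ hW =>
    ⟨mixed_of (h.hq ha) (h.e1 _ ha) (h.e2 _ ha) hW, fun _ hq =>
      mainq Pool.Agent.N755.BGRR.main (h.hq ha) h.pd hW hq⟩

theorem rpartDq {Sg : Finset ℝ} {q : ℕ} (h : HDq A z Sg q) : RPart A (Pool.Agent.N208.BT.US A z Sg) :=
  rpartG (hg_ofq h)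

end Pool.Agent.H943.DP
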