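import Pool.Agent.H943.DP.Conn

/-!
# The canonical subspaces
-/

set_option autoImplicit false
set_option linter.unusedSectionVars false

open Module Matrix Function

noncomputable section

namespace Pool.Agent.H943.DP

namespace CD

variable {R : Type} [Fintype R] {n : ℕ} (C : CD R n)

theorem Q_add (v : ℤ) (x x' y : R → ℤ) : C.Q v (fun b => x b + x' b) y = C.Q v x y + C.Q v x' y := by
  unfold Q
  rw [← Finset.sum_add_distrib]
  exact Finset.sum_congr rfl fun _ _ => add_mul _ _ _

theorem n4_add {a b d : R} (h : ∀ x, C.c d x = C.c a x + C.c b x) : C.n4 d = C.n4 b := by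
  by_contra hne
  have h1 : C.c d b = 0 := by
    by_contra h2
    exact hne (C.k4 h2)
  rw [h, C.two] at h1
  have h2 : C.n4 a = C.n4 b := C.k4 (by omega)
  have h3 : C.c a d = 0 := by
    by_contra h4
    exact hne ((C.k4 h4).symm.trans h2)
  have h4 : C.c b d = 0 := by
    by_contra h4
    exact hne (C.k4 h4).symm
  have h5 := h d
  rw [C.two] at h5
  omega

theorem C1 {l : Fin n} {a b d : R} (h : ∀ x, C.c d x = C.c a x + C.c b x) (ha : 0 ≤ C.m l a)
    (hb : C.m l b = 1) : C.m l d = 1 := by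
  have e1 := C.b1 (v := C.n4 b) (a := d) (C.lin_m l)
  have e2 := C.b1 (v := C.n4 b) (a := a) (C.lin_m l)
  have e3 := C.b1 (v := C.n4 b) (a := b) (C.lin_m l)
  have e4 : C.Q (C.n4 b) (C.c d) (C.m l) = C.Q (C.n4 b) (C.c a) (C.m l) +
      C.Q (C.n4 b) (C.c b) (C.m l) := by
    rw [← C.Q_add]
    congr 1
    exact funext h
  have h1 := C.Qaa_pos (a := b)
  have h2 := C.Q_nonneg (C.n4 b) (C.c a)
  have h3 := C.Q_nonneg (C.n4 b) (C.c d)
  rw [hb, mul_one] at e3
  have h4 : 0 < C.Q (C.n4 b) (C.c d) (C.c d) * C.m l d := by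
    rw [← e1, e4]
    have := mul_nonneg h2 ha
    omega
  have h5 : 0 < C.m l d := by
    by_contra hcon
    push Not at hcon
    have := mul_nonpos_of_nonneg_of_nonpos h3 hcon
    omega
  have h6 := C.abs_m l d
  omega

theorem C2 {l : Fin n} {a b d : R} (h : ∀ x, C.c d x = C.c a x + C.c b x) (ha : 0 ≤ C.m l a)
    (hb : ∀ x, C.c b x = 2 * C.m l x) : False := by
  set v := C.n4 a with hv
  have hbf : C.c b = fun x => 2 * C.m l x := funext hb
  have hdf : C.c d = fun x => C.c a x + C.c b x := funext h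
  have e1 := C.b1 (v := v) (a := d) (C.lin_m l)
  have e2 := C.b1 (v := v) (a := a) (C.lin_m l)
  have hA := C.Qaa_pos (a := a)
  have hB := C.Q_nonneg v (C.c b)
  -- bilinearity
  have h2 : ∀ y, C.Q v y (C.c b) = 2 * C.Q v y (C.m l) := by
    intro y
    unfold Q
    rw [Finset.mul_sum]
    refine Finset.sum_congr rfl fun x _ => ?_
    rw [hb]
    ring
  have h3 : C.Q v (C.c d) (C.c b) = C.Q v (C.c a) (C.c b) + C.Q v (C.c b) (C.c b) := by
    conv_lhs => rw [hdf]
    rw [C.Q_add]
  have h4 : C.Q v (C.c d) (C.c d) = C.Q v (C.c a) (C.c a) + 2 * C.Q v (C.c a) (C.c b) +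
      C.Q v (C.c b) (C.c b) := by
    conv_lhs => rw [hdf]
    rw [C.Q_add, C.Q_comm v (C.c a), C.Q_comm v (C.c b), C.Q_add, C.Q_add, C.Q_comm v (C.c b) (C.c a)]
    ring
  rw [← h2, h3, h4, h2 (C.c a), e2] at e1
  rw [← hv] at hA
  have hX := mul_nonneg hA.le ha
  rcases C.abs_m l d with h5 | h5 | h5
  · rw [h5, mul_zero] at e1
    have e3 : C.Q v (C.c b) (C.c b) = 0 := by omega
    have e4 : C.Q v (C.c a) (C.c a) * C.m l a = 0 := by omega
    have e5 : C.m l a = 0 := (mul_eq_zero.1 e4).resolve_left hA.ne'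
    have e6 : C.n4 b ≠ v := by
      intro h6
      have := C.Q_zero e3 h6
      rw [C.two] at this
      omega
    have e7 : C.c a b = 0 := by
      by_contra h6
      exact e6 (C.k4 h6).symm
    have e8 : C.n4 d = C.n4 b := C.n4_add h
    have e9 : C.c d a = 2 := by rw [h, C.two, hb, e5]; norm_num
    have e10 : C.n4 d = C.n4 a := C.k4 (by omega)
    exact e6 (e8.symm.trans e10)
  · rw [h5, mul_one] at e1
    omega
  · rw [h5] at e1
    omega

end CD

variable {n : ℕ} {K : Type} [Field K] [CharZero K] {L : Submodule K (Mt n K)}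
    {xi : Fin n → K} {R : Type} [Fintype R]

/-- the bracket of two root vectors -/
theorem br_ee (hS : Sett L xi) (r : MD L xi R) {a b : R} (hab : a ≠ r.neg b) :
    r.e a * r.e b - r.e b * r.e a = 0 ∨ ∃ d, (∀ x, r.c d x = r.c a x + r.c b x) ∧ ∃ z : K,
      r.e a * r.e b - r.e b * r.e a = z • r.e d := by
  by_cases h0 : r.e a * r.e b - r.e b * r.e a = 0
  · exact Or.inl h0
  right
  obtain ⟨x, hx⟩ : ∃ x, r.c a x + r.c b x ≠ 0 := by
    by_contra hcon
    push Not at hcon
    apply hab
    apply r.c_inj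
    intro x
    have := hcon x
    rw [r.cn]
    omega
  obtain ⟨d, h1, z, -, h2⟩ := r.single (hS.br _ (r.eL a) _ (r.eL b)) h0
    (fun x => ((r.c a x + r.c b x : ℤ) : K)) (fun y => by
      have e1 := r.he a y
      have e2 := r.he b y
      set D := diagonal (r.h y) with hD
      have e : D * (r.e a * r.e b - r.e b * r.e a) - (r.e a * r.e b - r.e b * r.e a) * D =
          (D * r.e a - r.e a * D) * r.e b + r.e a * (D * r.e b - r.e b * D) -
            (D * r.e b - r.e b * D) * r.e a - r.e b * (D * r.e a - r.e a * D) := by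
        noncomm_ring
      rw [e, e1, e2]
      push_cast
      simp only [Matrix.smul_mul, Matrix.mul_smul, add_smul, smul_sub]
      abel) (b0 := x) (by exact_mod_cast hx)
  refine ⟨d, fun y => ?_, z, h2⟩
  have := h1 y
  exact_mod_cast this.symm

/-- the trace form on the root vectors -/
theorem tr_ee (r : MD L xi R) {a b : R} (hab : b ≠ r.neg a) : (r.e a * r.e b).trace = 0 := by
  obtain ⟨x, hx⟩ : ∃ x, r.c a x + r.c b x ≠ 0 := by
    by_contra hcon
    push Not at hcon
    apply hab
    apply r.c_inj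
    intro x
    have := hcon x
    rw [r.cn]
    omega
  have h1 := r.he a x
  have h2 := r.he b x
  have h3 : ((diagonal (r.h x) * r.e a - r.e a * diagonal (r.h x)) * r.e b).trace +
      (r.e a * (diagonal (r.h x) * r.e b - r.e b * diagonal (r.h x))).trace = 0 := by
    rw [Matrix.sub_mul, Matrix.mul_sub, trace_sub, trace_sub]
    have h4 : (r.e a * (r.e b * diagonal (r.h x))).trace = (diagonal (r.h x) * r.e a * r.e b).trace := by
      rw [← Matrix.mul_assoc, trace_mul_comm, Matrix.mul_assoc]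
    rw [h4, Matrix.mul_assoc (r.e a)]
    ring
  rw [h1, h2, Matrix.smul_mul, Matrix.mul_smul, trace_smul, trace_smul,
    smul_eq_mul, smul_eq_mul, ← add_mul] at h3
  refine (mul_eq_zero.1 h3).resolve_left fun h => hx ?_
  exact_mod_cast h

theorem tr_eh (r : MD L xi R) (a b : R) : (r.e a * diagonal (r.h b)).trace = 0 := by
  have h1 := r.he a a
  have h2 : ((diagonal (r.h a) * r.e a - r.e a * diagonal (r.h a)) * diagonal (r.h b)).trace = 0 := by
    rw [Matrix.sub_mul, trace_sub, Matrix.mul_assoc, trace_mul_comm, Matrix.mul_assoc,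
      Matrix.mul_assoc, sub_eq_zero]
    congr 2
    exact (sub_eq_zero.1 (diag_comm _ _))
  rw [h1, Matrix.smul_mul, trace_smul, smul_eq_mul] at h2
  exact (mul_eq_zero.1 h2).resolve_left (r.c2 a)

theorem SL.vec_inj (T : SL n K) {v w : Fin n → K} (h : T.vec v = T.vec w) : v = w := by
  have h1 := congrArg (fun v => T.Q *ᵥ v) h
  unfold SL.vec at h1
  rw [mulVec_mulVec, mulVec_mulVec, T.qp, one_mulVec, one_mulVec] at h1
  funext i
  exact T.g.injective (congrFun h1 i)

section

variable (hS : Sett L xi) (hT : Tra L xi) (r : MD L xi R)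

include hS hT

/-- the stabilizer of the weight vector -/
theorem stab_ps {l : Fin n} {Y : Mt n K} (hY : Y ∈ L) {y : K}
    (h : Y *ᵥ Pi.single l 1 = y • (Pi.single l 1 : Fin n → K)) : Y ∈ Submodule.span K (ps r l) := by
  obtain ⟨t, u, rfl⟩ := r.dec Y hY
  refine Submodule.add_mem _ ?_ ?_
  · exact Submodule.sum_mem _ fun a _ => Submodule.smul_mem _ _ (Submodule.subset_span (Or.inl ⟨a, rfl⟩))
  · refine Submodule.sum_mem _ fun a _ => ?_
    have h1 := (cd hS r hT).abs_m l a
    rw [cd_m] at h1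
    by_cases h2 : r.m l a = -1
    · -- the coefficient is zero
      have h3 : ∃ i, r.e (a) i l ≠ 0 := by
        have h4 : 1 ≤ r.m l (r.neg a) := by
          have := (cd hS r hT).mn l a
          rw [cd_m, cd_neg] at this
          omega
        obtain ⟨i, hi⟩ := r.low h4
        obtain ⟨k, hk⟩ := r.fe (r.neg a)
        rw [hk] at hi
        have h5 : r.neg (r.neg a) = a := (cd hS r hT).nn a
        rw [h5, Matrix.smul_apply, smul_eq_mul] at hi
        exact ⟨i, right_ne_zero_of_mul hi⟩
      obtain ⟨i, hi⟩ := h3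
      have hil : i ≠ l := by
        rintro rfl
        have := r.e_ne hi a
        rw [r.two] at this
        omega
      have h4 := congrFun h i
      rw [mulVec_single_one, Pi.smul_apply, Pi.single_eq_of_ne hil, smul_zero] at h4
      change (∑ a, t a • diagonal (r.h a) + ∑ a, u a • r.e a) i l = 0 at h4
      rw [Matrix.add_apply, Matrix.sum_apply, Matrix.sum_apply, Finset.sum_eq_zero, zero_add,
        Finset.sum_eq_single a] at h4
      · rw [Matrix.smul_apply, smul_eq_mul] at h4
        rw [(mul_eq_zero.1 h4).resolve_right hi, zero_smul]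
        exact Submodule.zero_mem _
      · intro b _ hb
        rw [Matrix.smul_apply, smul_eq_mul]
        by_cases h5 : r.e b i l = 0
        · rw [h5, mul_zero]
        · exfalso
          apply hb
          apply r.c_inj
          intro x
          have e1 := r.e_ne h5 x
          have e2 := r.e_ne hi x
          omega
      · intro h
        exact absurd (Finset.mem_univ _) h
      · intro b _
        rw [Matrix.smul_apply, diagonal_apply_ne _ hil, smul_zero]
    · exact Submodule.smul_mem _ _ (Submodule.subset_span (Or.inr ⟨a, by omega, rfl⟩))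

/-- the symmetry of the pair of `u` and `T` -/
theorem pre_mul {u : (Mt n K)ˣ} (hu : u ∈ UU L) {T : SL n K} (hT' : Pre L T) :
    Pre L ((SL.ofGL u).mul T) := by
  refine ⟨fun X hX => ?_, fun X hX => ?_⟩
  · rw [SL.mul_act, SL.ofGL_act]
    exact UU_conj L hS.br hu _ (hT'.h1 X hX)
  · have h1 : ∀ Y, ((SL.ofGL u).mul T).inv.act Y =
        T.inv.act (((u⁻¹ : (Mt n K)ˣ) : Mt n K) * Y * (u : Mt n K)) := by
      intro Y
      have h2 : ((SL.ofGL u).mul T).act (T.inv.act (((u⁻¹ : (Mt n K)ˣ) : Mt n K) * Y * (u : Mt n K))) = Y := by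
        rw [SL.mul_act, T.act_inv, SL.ofGL_act]
        calc (u : Mt n K) * (((u⁻¹ : (Mt n K)ˣ) : Mt n K) * Y * (u : Mt n K)) *
            ((u⁻¹ : (Mt n K)ˣ) : Mt n K) = ((u : Mt n K) * ((u⁻¹ : (Mt n K)ˣ) : Mt n K)) * Y *
            ((u : Mt n K) * ((u⁻¹ : (Mt n K)ˣ) : Mt n K)) := by simp only [Matrix.mul_assoc]
          _ = Y := by rw [Units.mul_inv, Matrix.one_mul, Matrix.mul_one]
      conv_lhs => rw [← h2]
      rw [SL.inv_act]
    rw [h1]
    apply hT'.h2
    have h3 := UU_conj L hS.br (UU_inv hu) X hX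
    rw [inv_inv] at h3
    exact h3

/-- the preimage of an element of the parabolic -/
theorem inv_ps {l : Fin n} {Θ : SL n K} (hΘ : Pre L Θ) {k : K}
    (hk : Θ.vec (Pi.single l 1) = k • Pi.single l 1) {Y : Mt n K} (hY : Y ∈ L) {y : K}
    (h : Y *ᵥ Pi.single l 1 = y • (Pi.single l 1 : Fin n → K)) :
    (Θ.inv.act Y) *ᵥ Pi.single l 1 = (Θ.g.symm y) • (Pi.single l 1 : Fin n → K) := by
  apply Θ.vec_inj
  rw [Θ.vec_act, Θ.act_inv, hk, mulVec_smul, h, Θ.vec_smul, hk, RingEquiv.apply_symm_apply, smul_comm]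

/-- the action of the parabolic on the highest root vector -/
theorem ps_b {l : Fin n} {b : R} (hb : ∀ x, r.c b x = 2 * r.m l x) {Y : Mt n K}
    (hY : Y ∈ Submodule.span K (ps r l)) : ∃ y : K, Y *ᵥ Pi.single l 1 = y • (Pi.single l 1 : Fin n → K) ∧
      Y * r.e b - r.e b * Y = (2 * y) • r.e b := by
  induction hY using Submodule.span_induction with
  | mem Y hY =>
    rcases hY with ⟨a, rfl⟩ | ⟨a, ha, rfl⟩
    · refine ⟨r.m l a, ?_, ?_⟩
      · rw [diagonal_mulVec_single, mul_one, ← Pi.single_smul', smul_eq_mul, mul_one, r.hm]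
      · rw [r.he, hb]
        push_cast
        rfl
    · refine ⟨0, ?_, ?_⟩
      · rw [mulVec_single_one, zero_smul]
        funext k
        exact e_kill hS hT r ha k
      · rw [mul_zero, zero_smul]
        have hab : a ≠ r.neg b := by
          rintro rfl
          have e1 := (cd hS r hT).mn l b
          have e2 := hb b
          rw [cd_m, cd_neg] at e1
          rw [r.two] at e2
          omega
        rcases br_ee hS r hab with h | ⟨d, hd, -⟩
        · exact h
        · exact ((cd hS r hT).C2 hd ha hb).elim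
  | zero => exact ⟨0, by rw [Matrix.zero_mulVec, zero_smul], by simp⟩
  | add a b _ _ ha hb =>
    obtain ⟨y, h1, h2⟩ := ha
    obtain ⟨y', h1', h2'⟩ := hb
    refine ⟨y + y', by rw [Matrix.add_mulVec, h1, h1', add_smul], ?_⟩
    rw [add_mul, mul_add, mul_add, add_smul, ← h2, ← h2']
    abel
  | smul c a _ ha =>
    obtain ⟨y, h1, h2⟩ := ha
    refine ⟨c * y, by rw [Matrix.smul_mulVec, h1, smul_smul], ?_⟩
    rw [Matrix.smul_mul, Matrix.mul_smul, ← smul_sub, h2, smul_smul]
    congr 1
    ring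

/-- **The data of the symplectic case.** -/
theorem mach_b {l : Fin n} {b : R} (hb : ∀ x, r.c b x = 2 * r.m l x) :
    Mach (J := Unit) (d := fun _ => 1) r l 2 (fun _ _ => b) where
  inj _ _ _ _ := Subsingleton.elim _ _
  H2 x := by simp [hb]
  H3 a' ha j a := by
    obtain ⟨y, h1, h2⟩ := ps_b hS hT r hb (Submodule.subset_span (Or.inr ⟨a', ha, rfl⟩) :
      r.e a' ∈ Submodule.span K (ps r l))
    rw [h2]
    exact Submodule.smul_mem _ _ (Submodule.subset_span ⟨0, rfl⟩)
  H4 u hu T hT1 hT2 hk j a := by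
    obtain ⟨k, hk⟩ := hk
    set Θ := (SL.ofGL u).mul T with hΘ
    have hpre : Pre L Θ := pre_mul hS hT hu hT1
    have hX0 : Θ.act (r.e b) ≠ 0 := by
      intro h
      have h7 := Θ.inv_act (r.e b)
      rw [h, Θ.inv.act_zero] at h7
      exact r.e0 b h7.symm
    obtain ⟨d, h1, z, -, h2⟩ := r.single (hpre.h1 _ (r.eL b)) hX0 (fun x => (r.c b x : K)) (fun x => by
      have h3 := inv_ps hS hT hpre hk (r.hL x) (y := (r.m l x : K)) (by
        rw [diagonal_mulVec_single, mul_one, ← Pi.single_smul', smul_eq_mul, mul_one, r.hm])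
      obtain ⟨y, h4, h5⟩ := ps_b hS hT r hb (stab_ps hS hT r (hpre.h2 _ (r.hL x)) h3)
      rw [h3] at h4
      have h6 := congrFun h4 l
      rw [Pi.smul_apply, Pi.smul_apply, Pi.single_eq_same, smul_eq_mul, smul_eq_mul, mul_one, mul_one,
        map_intCast] at h6
      rw [← h6] at h5
      have h7 := congrArg Θ.act h5
      rw [Θ.act_sub, Θ.act_mul, Θ.act_mul, Θ.act_inv, Θ.act_smul] at h7
      rw [h7, hb]
      congr 1
      push_cast
      rw [map_mul, map_intCast, map_ofNat]) (b0 := b) (r.c2 b)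
    have h3 : d = b := r.c_inj _ _ fun x => by exact_mod_cast (h1 x).symm
    rw [h3] at h2
    rw [h2]
    exact Submodule.smul_mem _ _ (Submodule.subset_span ⟨0, rfl⟩)

end

end Pool.Agent.H943.DP
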