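import Pool.Agent.H943.DP.Canon

/-!
# The canonical subspaces: the general case
-/

set_option autoImplicit false
set_option linter.unusedSectionVars false

open Module Matrix Function

noncomputable section

namespace Pool.Agent.H943.DP

variable {n : ℕ} {K : Type} [Field K] [CharZero K] {L : Submodule K (Mt n K)}
    {xi : Fin n → K} {R : Type} [Fintype R]

section

variable (hS : Sett L xi) (hT : Tra L xi) (r : MD L xi R)

include hS in
/-- the center is zero -/
theorem cen0 {t : Fin n → K} (htr : (diagonal t).trace = 0)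
    (h : ∀ X ∈ L, diagonal t * X = X * diagonal t) : diagonal t = 0 := by
  ext i j
  by_cases hij : i = j
  swap
  · rw [diagonal_apply_ne _ hij, Matrix.zero_apply]
  subst hij
  rw [diagonal_apply_eq, Matrix.zero_apply]
  let U : Submodule K (Fin n → K) := LinearMap.ker ((diagonal t - t i • (1 : Mt n K)).mulVecLin)
  have hmem : ∀ v, v ∈ U ↔ diagonal t *ᵥ v = t i • v := by
    intro v
    rw [LinearMap.mem_ker, mulVecLin_apply, Matrix.sub_mulVec, Matrix.smul_mulVec, one_mulVec,
      sub_eq_zero]
  have hU : ∀ X ∈ L, ∀ v ∈ U, X *ᵥ v ∈ U := by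
    intro X hX v hv
    rw [hmem] at hv ⊢
    rw [mulVec_mulVec, h X hX, ← mulVec_mulVec, hv, mulVec_smul]
  have hi : (Pi.single i 1 : Fin n → K) ∈ U := by
    rw [hmem, diagonal_mulVec_single, mul_one, ← Pi.single_smul', smul_eq_mul, mul_one]
  rcases hS.irr U hU with h1 | h1
  · exfalso
    rw [h1, Submodule.mem_bot] at hi
    have := congrFun hi i
    rw [Pi.single_eq_same] at this
    exact one_ne_zero this
  · have h2 : ∀ k, t k = t i := by
      intro k
      have h3 : (Pi.single k 1 : Fin n → K) ∈ U := by rw [h1]; trivial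
      rw [hmem, diagonal_mulVec_single, mul_one] at h3
      have := congrFun h3 k
      rwa [Pi.single_eq_same, Pi.smul_apply, Pi.single_eq_same, smul_eq_mul, mul_one] at this
    rw [trace_diagonal, Finset.sum_congr rfl fun k _ => h2 k, Finset.sum_const, Finset.card_univ,
      Fintype.card_fin, nsmul_eq_mul] at htr
    refine (mul_eq_zero.1 htr).resolve_left ?_
    have := hS.pos
    exact_mod_cast this.ne'

include hS hT

/-- the part of the Lie algebra -/
def Iv (v : ℤ) : Submodule K (Mt n K) :=
  Submodule.span K {Y | ∃ b, (cd hS r hT).n4 b = v ∧ (Y = r.e b ∨ Y = diagonal (r.h b))}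

theorem Iv_le (v : ℤ) : Iv hS hT r v ≤ L := by
  refine Submodule.span_le.2 ?_
  rintro _ ⟨b, -, rfl | rfl⟩
  · exact r.eL b
  · exact r.hL b

theorem Iv_e {b : R} : r.e b ∈ Iv hS hT r ((cd hS r hT).n4 b) :=
  Submodule.subset_span ⟨b, rfl, Or.inl rfl⟩

theorem Iv_h {b : R} : diagonal (r.h b) ∈ Iv hS hT r ((cd hS r hT).n4 b) :=
  Submodule.subset_span ⟨b, rfl, Or.inr rfl⟩

theorem f_ne0 (a : R) {k : K} (hk : r.f a = k • r.e (r.neg a)) : k ≠ 0 := by
  intro h
  rw [h, zero_smul] at hk
  have h1 := tr_ne hS hT r a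
  rw [hk, mul_zero, trace_zero] at h1
  exact h1 rfl

/-- the part is an ideal -/
theorem Iv_ideal (v : ℤ) : ∀ X ∈ L, ∀ Y ∈ Iv hS hT r v, X * Y - Y * X ∈ Iv hS hT r v := by
  intro X hX Y hY
  have key : ∀ Y, (∃ b, (cd hS r hT).n4 b = v ∧ (Y = r.e b ∨ Y = diagonal (r.h b))) →
      X * Y - Y * X ∈ Iv hS hT r v := by
    clear hY
    rintro Y ⟨b, rfl, hY⟩
    obtain ⟨t, u, rfl⟩ := r.dec X hX
    have e1 : ∀ Y : Mt n K, (∑ a, t a • diagonal (r.h a) + ∑ a, u a • r.e a) * Y -
        Y * (∑ a, t a • diagonal (r.h a) + ∑ a, u a • r.e a) =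
        ∑ a, t a • (diagonal (r.h a) * Y - Y * diagonal (r.h a)) +
          ∑ a, u a • (r.e a * Y - Y * r.e a) := by
      intro Y
      rw [add_mul, mul_add, Matrix.sum_mul, Matrix.sum_mul, Matrix.mul_sum, Matrix.mul_sum,
        add_sub_add_comm, ← Finset.sum_sub_distrib, ← Finset.sum_sub_distrib]
      simp only [Matrix.smul_mul, Matrix.mul_smul, smul_sub]
    rw [e1]
    refine Submodule.add_mem _ (Submodule.sum_mem _ fun a _ => Submodule.smul_mem _ _ ?_)
      (Submodule.sum_mem _ fun a _ => Submodule.smul_mem _ _ ?_)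
    · rcases hY with rfl | rfl
      · rw [r.he]
        exact Submodule.smul_mem _ _ (Iv_e hS hT r)
      · rw [diag_comm]
        exact Submodule.zero_mem _
    · rcases hY with rfl | rfl
      · by_cases hab : a = r.neg b
        · subst hab
          obtain ⟨k, hk⟩ := r.fe b
          have hk0 := f_ne0 hS hT r b hk
          have h1 := r.ef b
          rw [hk, Matrix.mul_smul, Matrix.smul_mul, ← smul_sub] at h1
          have h2 : r.e (r.neg b) * r.e b - r.e b * r.e (r.neg b) = (-k⁻¹) • diagonal (r.h b) := by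
            rw [← h1, smul_smul, neg_mul, inv_mul_cancel₀ hk0, neg_one_smul, neg_sub]
          rw [h2]
          exact Submodule.smul_mem _ _ (Iv_h hS hT r)
        · rcases br_ee hS r hab with h | ⟨d, hd, z, hz⟩
          · rw [h]
            exact Submodule.zero_mem _
          · rw [hz]
            refine Submodule.smul_mem _ _ ?_
            have : (cd hS r hT).n4 d = (cd hS r hT).n4 b := (cd hS r hT).n4_add hd
            rw [← this]
            exact Iv_e hS hT r
      · have h1 := r.he a b
        rw [← neg_sub, h1]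
        refine Submodule.neg_mem _ ?_
        by_cases h2 : r.c a b = 0
        · rw [h2, Int.cast_zero, zero_smul]
          exact Submodule.zero_mem _
        · have : (cd hS r hT).n4 a = (cd hS r hT).n4 b := (cd hS r hT).k4 h2
          rw [← this]
          exact Submodule.smul_mem _ _ (Iv_e hS hT r)
  unfold Iv at hY
  induction hY using Submodule.span_induction with
  | mem Y hY => exact key Y hY
  | zero => rw [mul_zero, zero_mul, sub_zero]; exact Submodule.zero_mem _
  | add a b _ _ ha hb =>
    have : X * (a + b) - (a + b) * X = (X * a - a * X) + (X * b - b * X) := by noncomm_ring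
    rw [this]
    exact Submodule.add_mem _ ha hb
  | smul c a _ ha =>
    rw [Matrix.mul_smul, Matrix.smul_mul, ← smul_sub]
    exact Submodule.smul_mem _ _ ha

/-- the part is stable under the symmetries -/
theorem Iv_T {T : SL n K} (hT1 : Pre L T) (hT2 : T.act (diagonal xi) = diagonal xi) (v : ℤ) :
    ∀ Y ∈ Iv hS hT r v, T.act Y ∈ Iv hS hT r v := by
  obtain ⟨p, h1, h2, h3, -⟩ := r.perm hS T hT1.h1 hT1.h2 hT2
  intro Y hY
  unfold Iv at hY
  induction hY using Submodule.span_induction with
  | mem Y hY =>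
    obtain ⟨b, rfl, hY⟩ := hY
    have hb : (cd hS r hT).n4 (p b) = (cd hS r hT).n4 b := (cd hS r hT).n4_p h3 b
    rw [← hb]
    rcases hY with rfl | rfl
    · obtain ⟨k, -, hk⟩ := h1 b
      rw [hk]
      exact Submodule.smul_mem _ _ (Iv_e hS hT r)
    · rw [h2]
      exact Iv_h hS hT r
  | zero => rw [T.act_zero]; exact Submodule.zero_mem _
  | add a b _ _ ha hb => rw [T.act_add]; exact Submodule.add_mem _ ha hb
  | smul c a _ ha => rw [T.act_smul]; exact Submodule.smul_mem _ _ ha

/-- the root vectors of the nilradical -/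
def Nv (l : Fin n) (v : ℤ) : Set (Mt n K) :=
  {Y | ∃ b, r.m l b = 1 ∧ (cd hS r hT).n4 b = v ∧ Y = r.e b}

/-- the nilradical is orthogonal to the parabolic -/
theorem nv_perp {l : Fin n} {b : R} (hb : r.m l b = 1) {Y : Mt n K}
    (hY : Y ∈ Submodule.span K (ps r l)) : (r.e b * Y).trace = 0 := by
  induction hY using Submodule.span_induction with
  | mem Y hY =>
    rcases hY with ⟨a, rfl⟩ | ⟨a, ha, rfl⟩
    · exact tr_eh r b a
    · refine tr_ee r ?_
      rintro rfl
      have := (cd hS r hT).mn l b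
      rw [cd_m, cd_neg] at this
      omega
  | zero => rw [mul_zero, trace_zero]
  | add a b _ _ ha hb => rw [mul_add, trace_add, ha, hb, add_zero]
  | smul c a _ ha => rw [Matrix.mul_smul, trace_smul, ha, smul_zero]

/-- the combinations of the part -/
theorem Iv_dec {v : ℤ} {X : Mt n K} (hX : X ∈ Iv hS hT r v) : ∃ t u : R → K,
    (∀ a, u a ≠ 0 → (cd hS r hT).n4 a = v) ∧ X = ∑ a, t a • diagonal (r.h a) + ∑ a, u a • r.e a := by
  classical
  unfold Iv at hX
  induction hX using Submodule.span_induction with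
  | mem X hX =>
    obtain ⟨b, hb, rfl | rfl⟩ := hX
    · refine ⟨0, Pi.single b 1, fun a ha => ?_, ?_⟩
      · by_cases h : a = b
        · rw [h, hb]
        · exact absurd (Pi.single_eq_of_ne h _) ha
      · simp [Pi.single_apply]
    · refine ⟨Pi.single b 1, 0, fun a ha => absurd rfl ha, ?_⟩
      simp [Pi.single_apply]
  | zero => exact ⟨0, 0, fun a ha => absurd rfl ha, by simp⟩
  | add X Y _ _ hX hY =>
    obtain ⟨t, u, h1, rfl⟩ := hX
    obtain ⟨t', u', h1', rfl⟩ := hY
    refine ⟨t + t', u + u', fun a ha => ?_, ?_⟩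
    · by_cases h : u a = 0
      · refine h1' a fun h' => ha ?_
        rw [Pi.add_apply, h, h', add_zero]
      · exact h1 a h
    · simp only [Pi.add_apply, add_smul, Finset.sum_add_distrib]
      abel
  | smul c X _ hX =>
    obtain ⟨t, u, h1, rfl⟩ := hX
    refine ⟨c • t, c • u, fun a ha => h1 a fun h => ha (by rw [Pi.smul_apply, h, smul_zero]), ?_⟩
    simp only [Pi.smul_apply, smul_add, Finset.smul_sum, smul_assoc]

/-- the orthogonal complement of the parabolic in the part -/
theorem perp_nv {l : Fin n} {v : ℤ} {X : Mt n K} (hX : X ∈ Iv hS hT r v)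
    (h : ∀ Y ∈ Submodule.span K (ps r l), (X * Y).trace = 0) : X ∈ Submodule.span K (Nv hS hT r l v) := by
  obtain ⟨t, u, hu, rfl⟩ := Iv_dec hS hT r hX
  -- the coefficients
  have h1 : ∀ a, r.m l a ≤ 0 → u a = 0 := by
    intro a ha
    have hneg : 0 ≤ r.m l (r.neg a) := by
      have := (cd hS r hT).mn l a
      rw [cd_m, cd_neg] at this
      omega
    have h2 := h _ (Submodule.subset_span (Or.inr ⟨r.neg a, hneg, rfl⟩))
    obtain ⟨k, hk⟩ := r.fe a
    have hk0 := f_ne0 hS hT r a hk
    have h3 := tr_ne hS hT r a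
    rw [hk, Matrix.mul_smul, trace_smul, smul_eq_mul] at h3
    have h4 := right_ne_zero_of_mul h3
    rw [add_mul, trace_add, Matrix.sum_mul, Matrix.sum_mul, trace_sum, trace_sum, Finset.sum_eq_zero,
      zero_add, Finset.sum_eq_single a] at h2
    · rw [Matrix.smul_mul, trace_smul, smul_eq_mul] at h2
      exact (mul_eq_zero.1 h2).resolve_right h4
    · intro b _ hb
      rw [Matrix.smul_mul, trace_smul, tr_ee r, smul_zero]
      intro h5
      apply hb
      have h6 := congrArg r.neg h5
      have h7 : ∀ x, r.neg (r.neg x) = x := fun x => (cd hS r hT).nn x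
      rw [h7, h7] at h6
      exact h6.symm
    · intro h
      exact absurd (Finset.mem_univ _) h
    · intro b _
      rw [Matrix.smul_mul, trace_smul, trace_mul_comm, tr_eh, smul_zero]
  -- the diagonal part
  obtain ⟨s, hs⟩ : ∃ s : Fin n → K, ∑ a, t a • diagonal (r.h a) = diagonal s := by
    refine ⟨∑ a, t a • r.h a, ?_⟩
    ext i j
    by_cases hij : i = j
    · subst hij
      rw [diagonal_apply_eq, Matrix.sum_apply, Finset.sum_apply]
      exact Finset.sum_congr rfl fun a _ => by
        rw [Matrix.smul_apply, diagonal_apply_eq, Pi.smul_apply]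
    · rw [diagonal_apply_ne _ hij, Matrix.sum_apply]
      exact Finset.sum_eq_zero fun a _ => by
        rw [Matrix.smul_apply, diagonal_apply_ne _ hij, smul_zero]
  have hsL : diagonal s ∈ L := by
    rw [← hs]
    exact Submodule.sum_mem _ fun a _ => Submodule.smul_mem _ _ (r.hL a)
  have h2 : ∀ a, diagonal s * r.e a - r.e a * diagonal s = (∑ b, t b * r.c a b) • r.e a := by
    intro a
    rw [← hs, Matrix.sum_mul, Matrix.mul_sum, ← Finset.sum_sub_distrib, Finset.sum_smul]
    refine Finset.sum_congr rfl fun b _ => ?_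
    rw [Matrix.smul_mul, Matrix.mul_smul, ← smul_sub, r.he, smul_smul]
  have h3 : ∀ a, ∑ b, t b * (r.c a b : K) = 0 := by
    intro a
    have h4 := tr_hX r a (h2 a)
    have h5 := h _ (Submodule.subset_span (Or.inl ⟨a, rfl⟩))
    have h6 : ((∑ b, u b • r.e b) * diagonal (r.h a)).trace = 0 := by
      rw [Matrix.sum_mul, trace_sum]
      exact Finset.sum_eq_zero fun b _ => by rw [Matrix.smul_mul, trace_smul, tr_eh, smul_zero]
    rw [hs, add_mul, trace_add, h4, h6, add_zero] at h5
    exact (mul_eq_zero.1 h5).resolve_right (tr_ne hS hT r a)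
  have h4 : diagonal s = 0 := by
    refine cen0 hS (hS.tr _ hsL) fun X hX => ?_
    obtain ⟨t', u', rfl⟩ := r.dec X hX
    rw [mul_add, add_mul, Matrix.mul_sum, Matrix.mul_sum, Matrix.sum_mul, Matrix.sum_mul]
    congr 1
    · refine Finset.sum_congr rfl fun a _ => ?_
      rw [Matrix.mul_smul, Matrix.smul_mul]
      congr 1
      exact sub_eq_zero.1 (diag_comm _ _)
    · refine Finset.sum_congr rfl fun a _ => ?_
      rw [Matrix.mul_smul, Matrix.smul_mul]
      congr 1
      have := h2 a
      rw [h3, zero_smul] at this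
      exact sub_eq_zero.1 this
  rw [hs, h4, zero_add]
  refine Submodule.sum_mem _ fun a _ => ?_
  by_cases h5 : u a = 0
  · rw [h5, zero_smul]
    exact Submodule.zero_mem _
  · refine Submodule.smul_mem _ _ (Submodule.subset_span ⟨a, ?_, hu a h5, rfl⟩)
    have h6 := (cd hS r hT).abs_m l a
    rw [cd_m] at h6
    have h7 : ¬ r.m l a ≤ 0 := fun h => h5 (h1 a h)
    omega

/-- the set of the roots -/
abbrev Sv (l : Fin n) (v : ℤ) : Type := {b : R // r.m l b = 1 ∧ (cd hS r hT).n4 b = v}

noncomputable instance (l : Fin n) (v : ℤ) : Fintype (Sv hS hT r l v) := Fintype.ofFinite _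

/-- the values -/
abbrev Iw : Type := {v : ℤ // v ∈ Finset.univ.image (cd hS r hT).n4}

/-- **The data of the general case.** -/
theorem mach_a (l : Fin n) (N : ℕ) (k : ℤ → ℕ) (hk : ∀ b, (k ((cd hS r hT).n4 b) : ℤ) *
    (cd hS r hT).n4 b = 4 * N) :
    Mach (J := Σ v : Iw hS hT r, Fin (k v.1)) (d := fun j => Fintype.card (Sv hS hT r l j.1.1)) r l N
      (fun j a => ((Fintype.equivFin (Sv hS hT r l j.1.1)).symm a).1) where
  inj j a b hab := (Fintype.equivFin (Sv hS hT r l j.1.1)).symm.injective (Subtype.ext hab)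
  H2 x := by
    classical
    have h1 : ∀ j : (Σ v : Iw hS hT r, Fin (k v.1)), (∑ a, r.c
        ((Fintype.equivFin (Sv hS hT r l j.1.1)).symm a).1 x) =
        if j.1.1 = (cd hS r hT).n4 x then ∑ b with r.m l b = 1, r.c b x else 0 := by
      intro j
      rw [Equiv.sum_comp (Fintype.equivFin (Sv hS hT r l j.1.1)).symm
        (fun b : Sv hS hT r l j.1.1 => r.c b.1 x)]
      have h2 : ∑ b : Sv hS hT r l j.1.1, r.c b.1 x =
          ∑ b with (r.m l b = 1 ∧ (cd hS r hT).n4 b = j.1.1), r.c b x := by
        rw [Finset.sum_subtype (Finset.univ.filter fun b => r.m l b = 1 ∧ (cd hS r hT).n4 b = j.1.1)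
          (p := fun b => r.m l b = 1 ∧ (cd hS r hT).n4 b = j.1.1) (by simp)]
      rw [h2]
      split_ifs with h3
      · rw [Finset.sum_filter, Finset.sum_filter]
        refine Finset.sum_congr rfl fun b _ => ?_
        by_cases h4 : r.m l b = 1
        · by_cases h5 : (cd hS r hT).n4 b = j.1.1
          · rw [if_pos ⟨h4, h5⟩, if_pos h4]
          · rw [if_neg fun h => h5 h.2, if_pos h4]
            by_contra h6
            exact h5 (((cd hS r hT).k4 (Ne.symm h6)).trans h3.symm)
        · rw [if_neg fun h => h4 h.1, if_neg h4]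
      · refine Finset.sum_eq_zero fun b hb => ?_
        rw [Finset.mem_filter] at hb
        by_contra h6
        exact h3 (hb.2.2.symm.trans ((cd hS r hT).k4 h6))
    have h7 : ∀ v : Iw hS hT r, ∑ _c : Fin (k v.1), (if v.1 = (cd hS r hT).n4 x then
        ∑ b with r.m l b = 1, r.c b x else 0) = k v.1 • (if v.1 = (cd hS r hT).n4 x then
        ∑ b with r.m l b = 1, r.c b x else 0) := by
      intro v
      rw [Finset.sum_const, Finset.card_univ, Fintype.card_fin]
    rw [Finset.sum_congr rfl fun j _ => h1 j, Fintype.sum_sigma]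
    refine (Finset.sum_congr rfl fun v _ => h7 v).trans ?_
    rw [Finset.sum_eq_single (⟨(cd hS r hT).n4 x, Finset.mem_image_of_mem _ (Finset.mem_univ _)⟩ :
      Iw hS hT r)]
    · rw [if_pos rfl, nsmul_eq_mul]
      have h2 : 4 * ∑ b with r.m l b = 1, r.c b x = (cd hS r hT).n4 x * r.m l x := by
        convert (cd hS r hT).e0 l x <;> rfl
      show (k ((cd hS r hT).n4 x) : ℤ) * ∑ b with r.m l b = 1, r.c b x = N * r.m l x
      generalize ∑ b with r.m l b = 1, r.c b x = S at h2 ⊢
      have h3 := hk x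
      have h4 : (4 : ℤ) * ((k ((cd hS r hT).n4 x) : ℤ) * S) = 4 * (N * r.m l x) := by
        linear_combination (k ((cd hS r hT).n4 x) : ℤ) * h2 + r.m l x * h3
      omega
    · intro v _ hv
      rw [if_neg, smul_zero]
      intro h
      exact hv (Subtype.ext h)
    · intro h
      exact absurd (Finset.mem_univ _) h
  H3 a' ha j a := by
    set b := (Fintype.equivFin (Sv hS hT r l j.1.1)).symm a with hb
    have h1 := b.2.1
    have h2 := b.2.2
    have hab : a' ≠ r.neg b.1 := by
      intro h
      have := (cd hS r hT).mn l b.1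
      rw [cd_m, cd_neg, ← h] at this
      omega
    rcases br_ee hS r hab with h | ⟨d, hd, z, hz⟩
    · rw [h]
      exact Submodule.zero_mem _
    · rw [hz]
      refine Submodule.smul_mem _ _ (Submodule.subset_span
        ⟨Fintype.equivFin (Sv hS hT r l j.1.1) ⟨d, (cd hS r hT).C1 hd ha h1, ?_⟩, ?_⟩)
      · rw [← h2]
        exact (cd hS r hT).n4_add hd
      · unfold Vr
        simp only [Equiv.symm_apply_apply]
  H4 u hu T hT1 hT2 hk' j a := by
    obtain ⟨k, hk⟩ := hk'
    set b := (Fintype.equivFin (Sv hS hT r l j.1.1)).symm a with hb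
    set Θ := (SL.ofGL u).mul T with hΘ
    have hpre : Pre L Θ := pre_mul hS hT hu hT1
    have h1 : Θ.act (r.e b.1) ∈ Iv hS hT r j.1.1 := by
      rw [hΘ, SL.mul_act, SL.ofGL_act]
      refine UU_conj _ (Iv_ideal hS hT r _) hu _ (Iv_T hS hT r hT1 hT2 _ _ ?_)
      have e : r.e b.1 ∈ Iv hS hT r ((cd hS r hT).n4 b.1) := Iv_e hS hT r
      rw [b.2.2] at e
      exact e
    have h2 : ∀ Y ∈ Submodule.span K (ps r l), (Θ.act (r.e b.1) * Y).trace = 0 := by
      intro Y hY
      have h3 : ∃ y : K, Y *ᵥ Pi.single l 1 = y • (Pi.single l 1 : Fin n → K) := by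
        clear h1
        induction hY using Submodule.span_induction with
        | mem Y hY =>
          rcases hY with ⟨a, rfl⟩ | ⟨a, ha, rfl⟩
          · refine ⟨r.m l a, ?_⟩
            rw [diagonal_mulVec_single, mul_one, ← Pi.single_smul', smul_eq_mul, mul_one, r.hm]
          · refine ⟨0, ?_⟩
            rw [mulVec_single_one, zero_smul]
            funext k
            exact e_kill hS hT r ha k
        | zero => exact ⟨0, by rw [Matrix.zero_mulVec, zero_smul]⟩
        | add a b _ _ ha hb =>
          obtain ⟨y, h1⟩ := ha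
          obtain ⟨y', h1'⟩ := hb
          exact ⟨y + y', by rw [Matrix.add_mulVec, h1, h1', add_smul]⟩
        | smul c a _ ha =>
          obtain ⟨y, h1⟩ := ha
          exact ⟨c * y, by rw [Matrix.smul_mulVec, h1, smul_smul]⟩
      obtain ⟨y, hy⟩ := h3
      have hYL : Y ∈ L := ps_le r l hY
      have h4 := inv_ps hS hT hpre hk hYL hy
      have h5 := nv_perp hS hT r b.2.1 (stab_ps hS hT r (hpre.h2 _ hYL) h4)
      have h6 := congrArg Θ.g h5
      rw [← Θ.trace_act, Θ.act_mul, Θ.act_inv, map_zero] at h6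
      exact h6
    refine Submodule.span_mono ?_ (perp_nv hS hT r h1 h2)
    rintro _ ⟨d, hd1, hd2, rfl⟩
    refine ⟨Fintype.equivFin (Sv hS hT r l j.1.1) ⟨d, hd1, hd2⟩, ?_⟩
    unfold Vr
    simp only [Equiv.symm_apply_apply]

end

end Pool.Agent.H943.DP
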