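import Mathlib

/-!
# Combinatorics of minuscule weights
-/

set_option autoImplicit false
set_option linter.unusedSectionVars false

noncomputable section

namespace Pool.Agent.H943.DP

open Finset

/-- roots `R`, weights `Fin n`; `c a b` is the value of the root `a` on the coroot of `b`, `m i a` is the
value of the weight `i` on the coroot of `a` -/
structure CD (R : Type) [Fintype R] (n : ℕ) where
  neg : R → R
  s : R → R → R
  c : R → R → ℤ
  m : Fin n → R → ℤ
  c_inj : ∀ a b, (∀ d, c a d = c b d) → a = b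
  two : ∀ a, c a a = 2
  cn : ∀ a b, c (neg a) b = - c a b
  cn' : ∀ a b, c a (neg b) = - c a b
  mn : ∀ i a, m i (neg a) = - m i a
  cs : ∀ a b d, c (s a b) d = c b d - c b a * c a d
  cs' : ∀ a b d, c d (s a b) = c d b - c a b * c d a
  ms : ∀ i a b, m i (s a b) = m i b - c a b * m i a
  step : ∀ i a, 1 ≤ m i a → ∃ j, ∀ b, m j b = m i b - c a b
  tra : ∀ i j, ∃ p : R ≃ R, (∀ a b, c (p a) (p b) = c a b) ∧ ∀ a, m j (p a) = m i a
  sum : ∀ a, ∑ i, m i a = 0
  nz : ∀ a, ∃ i, m i a ≠ 0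

variable {R : Type} [Fintype R] {n : ℕ} (C : CD R n)

namespace CD

/-- `y` behaves like a linear form on the coroots -/
def Lin (y : R → ℤ) : Prop := ∀ a b, y (C.s a b) = y b - C.c a b * y a

theorem lin_m (i : Fin n) : C.Lin (C.m i) := fun a b => C.ms i a b

theorem lin_c (d : R) : C.Lin (C.c d) := fun a b => C.cs' a b d

theorem nn (a : R) : C.neg (C.neg a) = a := by
  apply C.c_inj
  intro d
  rw [C.cn, C.cn, neg_neg]

theorem ss (a b : R) : C.s a (C.s a b) = b := by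
  apply C.c_inj
  intro d
  rw [C.cs, C.cs, C.cs, C.two]
  ring

/-- the reflection as a permutation -/
def se (a : R) : R ≃ R := ⟨C.s a, C.s a, C.ss a, C.ss a⟩

@[simp] theorem se_apply (a b : R) : C.se a b = C.s a b := rfl

/-- the negation as a permutation -/
def ne : R ≃ R := ⟨C.neg, C.neg, C.nn, C.nn⟩

@[simp] theorem ne_apply (a : R) : C.ne a = C.neg a := rfl

theorem cself (a b : R) : C.c a (C.s a b) = - C.c a b := by
  rw [C.cs', C.two]
  ring

theorem cself' (a b : R) : C.c (C.s a b) a = - C.c b a := by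
  rw [C.cs, C.two]
  ring

theorem css (a b d : R) : C.c (C.s a b) (C.s a d) = C.c b d := by
  rw [C.cs', C.cs, C.cself']
  ring

/-- four times the Coxeter number -/
def n4 (a : R) : ℤ := ∑ b, C.c a b * C.c b a

theorem n4_neg (a : R) : C.n4 (C.neg a) = C.n4 a := by
  unfold n4
  refine sum_congr rfl fun b _ => ?_
  rw [C.cn, C.cn']
  ring

theorem n4_s (a b : R) : C.n4 (C.s a b) = C.n4 b := by
  unfold n4
  rw [← Equiv.sum_comp (C.se a)]
  refine sum_congr rfl fun d _ => ?_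
  rw [se_apply, C.css, C.css]

theorem k1 (b d : R) : 2 * ∑ a, C.c b a * C.c a d = C.n4 b * C.c b d := by
  have h1 : ∑ a, C.c b a * C.c a d = - ∑ a, C.c b a * C.c a d + C.n4 b * C.c b d := by
    conv_lhs => rw [← Equiv.sum_comp (C.se b)]
    unfold n4
    rw [sum_mul, ← sum_neg_distrib, ← sum_add_distrib]
    refine sum_congr rfl fun a _ => ?_
    rw [se_apply, C.cself, C.cs]
    ring
  linarith

theorem k2 {y : R → ℤ} (hy : C.Lin y) (d : R) : 2 * ∑ b, C.c b d * y b = C.n4 d * y d := by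
  have h1 : ∑ b, C.c b d * y b = - ∑ b, C.c b d * y b + C.n4 d * y d := by
    conv_lhs => rw [← Equiv.sum_comp (C.se d)]
    unfold n4
    rw [sum_mul, ← sum_neg_distrib, ← sum_add_distrib]
    refine sum_congr rfl fun a _ => ?_
    rw [se_apply, C.cself', hy]
    ring
  linarith

theorem k4 {b d : R} (h : C.c b d ≠ 0) : C.n4 b = C.n4 d := by
  have h1 := C.k1 b d
  have h2 := C.k2 (C.lin_c b) d
  have h3 : ∑ a, C.c b a * C.c a d = ∑ a, C.c a d * C.c b a :=
    sum_congr rfl fun a _ => mul_comm _ _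
  rw [h3, h2] at h1
  exact (mul_right_cancel₀ h h1).symm

/-- the form of the part of the roots with `n4 = v` -/
def Q (v : ℤ) (x y : R → ℤ) : ℤ := ∑ b with C.n4 b = v, x b * y b

theorem Q_comm (v : ℤ) (x y : R → ℤ) : C.Q v x y = C.Q v y x :=
  sum_congr rfl fun _ _ => mul_comm _ _

theorem Q_sub (v : ℤ) (x x' y : R → ℤ) : C.Q v (fun b => x b - x' b) y = C.Q v x y - C.Q v x' y := by
  unfold Q
  rw [← sum_sub_distrib]
  exact sum_congr rfl fun _ _ => sub_mul _ _ _

theorem Q_sub' (v : ℤ) (x x' y : R → ℤ) : C.Q v y (fun b => x b - x' b) = C.Q v y x - C.Q v y x' := by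
  rw [C.Q_comm, C.Q_sub, C.Q_comm v x, C.Q_comm v x']

theorem Q_nonneg (v : ℤ) (x : R → ℤ) : 0 ≤ C.Q v x x :=
  sum_nonneg fun _ _ => mul_self_nonneg _

theorem Q_zero {v : ℤ} {x : R → ℤ} (h : C.Q v x x = 0) {b : R} (hb : C.n4 b = v) : x b = 0 := by
  unfold Q at h
  rw [sum_eq_zero_iff_of_nonneg fun _ _ => mul_self_nonneg _] at h
  have h1 := h b (mem_filter.2 ⟨mem_univ _, hb⟩)
  exact mul_self_eq_zero.1 h1

theorem Q_perm (v : ℤ) (x y : R → ℤ) (p : R ≃ R) (hp : ∀ a, C.n4 (p a) = C.n4 a) :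
    C.Q v x y = C.Q v (fun a => x (p a)) (fun a => y (p a)) := by
  unfold Q
  rw [sum_filter, sum_filter, ← Equiv.sum_comp p]
  refine sum_congr rfl fun a _ => ?_
  rw [hp]

theorem b1 {v : ℤ} {a : R} {y : R → ℤ} (hy : C.Lin y) :
    2 * C.Q v (C.c a) y = C.Q v (C.c a) (C.c a) * y a := by
  have h1 : C.Q v (C.c a) y = - C.Q v (C.c a) y + C.Q v (C.c a) (C.c a) * y a := by
    conv_lhs => rw [C.Q_perm v _ _ (C.se a) (fun b => C.n4_s a b)]
    unfold Q
    rw [sum_mul, ← sum_neg_distrib, ← sum_add_distrib]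
    refine sum_congr rfl fun b _ => ?_
    simp only [se_apply]
    rw [C.cself, hy]
    ring
  linarith

theorem Qaa_pos {a : R} : 0 < C.Q (C.n4 a) (C.c a) (C.c a) := by
  refine lt_of_le_of_ne (C.Q_nonneg _ _) fun h => ?_
  have := C.Q_zero h.symm (b := a) rfl
  rw [C.two] at this
  norm_num at this

theorem n4_p {p : R ≃ R} (hp : ∀ a b, C.c (p a) (p b) = C.c a b) (a : R) : C.n4 (p a) = C.n4 a := by
  unfold n4
  rw [← Equiv.sum_comp p]
  exact sum_congr rfl fun b _ => by rw [hp, hp]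

theorem Q_const (v : ℤ) (i j : Fin n) : C.Q v (C.m i) (C.m i) = C.Q v (C.m j) (C.m j) := by
  obtain ⟨p, h1, h2⟩ := C.tra i j
  rw [C.Q_perm v (C.m j) (C.m j) p (C.n4_p h1)]
  simp only [h2]

theorem Q_step {v : ℤ} {i j : Fin n} {a : R} (h : ∀ b, C.m j b = C.m i b - C.c a b)
    (ha : C.n4 a = v) : C.m i a = 1 := by
  have h1 : C.m j = fun b => C.m i b - C.c a b := funext h
  have h2 : C.Q v (C.m j) (C.m j) = C.Q v (C.m i) (C.m i) - 2 * C.Q v (C.c a) (C.m i) +
      C.Q v (C.c a) (C.c a) := by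
    conv_lhs => rw [h1]
    rw [C.Q_sub, C.Q_comm v (C.m i), C.Q_comm v (C.c a) (fun b => _), C.Q_sub, C.Q_sub,
      C.Q_comm v (C.m i) (C.c a)]
    ring
  rw [C.Q_const v j i, C.b1 (C.lin_m i)] at h2
  have h3 : C.Q v (C.c a) (C.c a) * (C.m i a - 1) = 0 := by linarith
  rcases mul_eq_zero.1 h3 with h4 | h4
  · exfalso
    have h5 := C.Qaa_pos (a := a)
    rw [ha, h4] at h5
    exact lt_irrefl _ h5
  · linarith

theorem abs_m (i : Fin n) (a : R) : C.m i a = 0 ∨ C.m i a = 1 ∨ C.m i a = -1 := by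
  rcases lt_trichotomy (C.m i a) 0 with h | h | h
  · obtain ⟨j, hj⟩ := C.step i (C.neg a) (by rw [C.mn]; omega)
    have := C.Q_step hj rfl
    rw [C.mn] at this
    omega
  · exact Or.inl h
  · obtain ⟨j, hj⟩ := C.step i a (by omega)
    exact Or.inr (Or.inl (C.Q_step hj rfl))

theorem exists_one (a : R) : ∃ i, C.m i a = 1 := by
  by_contra hcon
  push Not at hcon
  have h1 : ∀ i, C.m i a ≤ 0 := by
    intro i
    rcases C.abs_m i a with h | h | h
    · omega
    · exact absurd h (hcon i)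
    · omega
  have h2 := (sum_eq_zero_iff_of_nonpos fun i _ => h1 i).1 (C.sum a)
  obtain ⟨i, hi⟩ := C.nz a
  exact hi (h2 i (mem_univ _))

theorem sum_pm (i : Fin n) (y : R → ℤ) (hy : ∀ a, y (C.neg a) = - y a) :
    ∑ b, C.m i b * y b = 2 * ∑ b with C.m i b = 1, y b := by
  classical
  have h1 : ∑ b, C.m i b * y b = ∑ b with C.m i b = 1, y b - ∑ b with C.m i b = -1, y b := by
    rw [sum_filter, sum_filter, ← sum_sub_distrib]
    refine sum_congr rfl fun b _ => ?_
    rcases C.abs_m i b with h | h | h <;> rw [h] <;> norm_num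
  have h2 : ∑ b with C.m i b = -1, y b = - ∑ b with C.m i b = 1, y b := by
    rw [sum_filter, sum_filter, ← sum_neg_distrib, ← Equiv.sum_comp C.ne]
    refine sum_congr rfl fun b _ => ?_
    rw [ne_apply, C.mn, hy]
    by_cases h : C.m i b = 1
    · rw [if_pos h, if_pos (by omega)]
    · rw [if_neg h, if_neg (by omega), neg_zero]
  rw [h1, h2]
  ring

theorem e0 (i : Fin n) (d : R) : 4 * ∑ b with C.m i b = 1, C.c b d = C.n4 d * C.m i d := by
  rw [← C.k2 (C.lin_m i) d]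
  have h1 := C.sum_pm i (fun b => C.c b d) (fun a => C.cn a d)
  have h2 : ∑ b, C.c b d * C.m i b = ∑ b, C.m i b * C.c b d :=
    sum_congr rfl fun _ _ => mul_comm _ _
  rw [h2, h1]
  ring

theorem cc_nonneg (a b : R) : 0 ≤ C.c a b * C.c b a := by
  by_cases h0 : C.c a b = 0
  · rw [h0, zero_mul]
  have h1 := C.k4 h0
  have h2 := C.b1 (v := C.n4 a) (a := a) (C.lin_c b)
  have h3 := C.b1 (v := C.n4 a) (a := b) (C.lin_c a)
  rw [C.Q_comm _ (C.c b) (C.c a), h2] at h3
  have h4 := C.Qaa_pos (a := a)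
  have h5 := C.Qaa_pos (a := b)
  rw [← h1] at h5
  by_contra hcon
  push Not at hcon
  have h6 : C.Q (C.n4 a) (C.c a) (C.c a) * (C.c a b * C.c b a) =
      C.Q (C.n4 a) (C.c b) (C.c b) * (C.c a b * C.c a b) := by
    linear_combination (C.c a b) * h3
  have h7 : C.Q (C.n4 a) (C.c a) (C.c a) * (C.c a b * C.c b a) < 0 := mul_neg_of_pos_of_neg h4 hcon
  have h8 : 0 ≤ C.Q (C.n4 a) (C.c b) (C.c b) * (C.c a b * C.c a b) :=
    mul_nonneg h5.le (mul_self_nonneg _)
  linarith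

theorem n4_pos (a : R) : 0 < C.n4 a := by
  unfold n4
  refine lt_of_lt_of_le ?_ (single_le_sum (fun b _ => C.cc_nonneg a b) (mem_univ a))
  rw [C.two]
  norm_num

/-- The Coxeter number. -/
theorem exists_N (a : R) : ∃ N : ℕ, 0 < N ∧ C.n4 a = 4 * N := by
  obtain ⟨i, hi⟩ := C.exists_one a
  have h1 := C.e0 i a
  rw [hi, mul_one] at h1
  have h2 := C.n4_pos a
  refine ⟨(∑ b with C.m i b = 1, C.c b a).toNat, ?_, ?_⟩
  · omega
  · omega

theorem Qi_pos (a : R) (i : Fin n) : 0 < C.Q (C.n4 a) (C.m i) (C.m i) := by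
  obtain ⟨j, hj⟩ := C.exists_one a
  rw [C.Q_const _ i j]
  refine lt_of_le_of_ne (C.Q_nonneg _ _) fun h => ?_
  have := C.Q_zero h.symm (b := a) rfl
  omega

/-- the weight `i - a` -/
theorem exists_st (i : Fin n) (a : R) (h : C.m i a = 1) : ∃ j, ∀ b, C.m j b = C.m i b - C.c a b :=
  C.step i a (by omega)

theorem Q_comb (v : ℤ) (i : Fin n) :
    4 * ∑ b with C.m i b = 1 ∧ C.n4 b = v, C.Q v (C.m i) (C.c b) =
      v * C.Q v (C.m i) (C.m i) := by
  classical
  have h1 : ∑ b with C.m i b = 1 ∧ C.n4 b = v, C.Q v (C.m i) (C.c b) =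
      ∑ d with C.n4 d = v, C.m i d * ∑ b with C.m i b = 1 ∧ C.n4 b = v, C.c b d := by
    unfold Q
    rw [sum_comm]
    exact sum_congr rfl fun d _ => by rw [mul_sum]
  rw [h1, mul_sum]
  unfold Q
  rw [mul_sum]
  refine sum_congr rfl fun d hd => ?_
  rw [mem_filter] at hd
  have h2 : ∑ b with C.m i b = 1 ∧ C.n4 b = v, C.c b d = ∑ b with C.m i b = 1, C.c b d := by
    rw [sum_filter, sum_filter]
    refine sum_congr rfl fun b _ => ?_
    by_cases h3 : C.m i b = 1
    · by_cases h4 : C.n4 b = v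
      · rw [if_pos ⟨h3, h4⟩, if_pos h3]
      · rw [if_neg fun h => h4 h.2, if_pos h3]
        by_contra h5
        exact h4 ((C.k4 (Ne.symm h5)).trans hd.2)
    · rw [if_neg fun h => h3 h.1, if_neg h3]
  rw [h2]
  have h3 := C.e0 i d
  rw [hd.2] at h3
  linear_combination (C.m i d) * h3

theorem sumQ (v : ℤ) (i : Fin n) :
    ∑ j, (C.Q v (C.m i) (C.m i) - C.Q v (C.m i) (C.m j)) = n * C.Q v (C.m i) (C.m i) := by
  rw [sum_sub_distrib, sum_const, card_univ, Fintype.card_fin, nsmul_eq_mul]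
  have h1 : ∑ j, C.Q v (C.m i) (C.m j) = 0 := by
    unfold Q
    rw [sum_comm]
    refine sum_eq_zero fun b _ => ?_
    rw [← mul_sum, C.sum, mul_zero]
  rw [h1, sub_zero]

theorem D_eq (v : ℤ) (i j : Fin n) : C.Q v (fun b => C.m i b - C.m j b) (fun b => C.m i b - C.m j b) =
    2 * (C.Q v (C.m i) (C.m i) - C.Q v (C.m i) (C.m j)) := by
  rw [C.Q_sub, C.Q_sub', C.Q_sub', C.Q_const v j i, C.Q_comm v (C.m j) (C.m i)]
  ring

theorem term_nonneg (v : ℤ) (i j : Fin n) : 0 ≤ C.Q v (C.m i) (C.m i) - C.Q v (C.m i) (C.m j) := by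
  have h1 := C.D_eq v i j
  have h2 := C.Q_nonneg v (fun b => C.m i b - C.m j b)
  omega

/-- the weights `i - b`, `b` in the part `v` -/
theorem exists_sg (v : ℤ) (i : Fin n) : ∃ g : R → Fin n, ∀ b, C.m i b = 1 ∧ C.n4 b = v →
    ∀ d, C.m (g b) d = C.m i d - C.c b d := by
  classical
  have h1 : ∀ b, ∃ j, (C.m i b = 1 ∧ C.n4 b = v) → ∀ d, C.m j d = C.m i d - C.c b d := by
    intro b
    by_cases h : C.m i b = 1
    · obtain ⟨j, hj⟩ := C.exists_st i b h
      exact ⟨j, fun _ => hj⟩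
    · exact ⟨i, fun h' => absurd h'.1 h⟩
  choose g hg using h1
  exact ⟨g, hg⟩

theorem bound_aux (v : ℤ) (i : Fin n) (g : R → Fin n)
    (hg : ∀ b, C.m i b = 1 ∧ C.n4 b = v → ∀ d, C.m (g b) d = C.m i d - C.c b d) :
    v * C.Q v (C.m i) (C.m i) + 4 * ∑ j ∈ univ \ (univ.filter fun b => C.m i b = 1 ∧ C.n4 b = v).image g,
      (C.Q v (C.m i) (C.m i) - C.Q v (C.m i) (C.m j)) = 4 * (n * C.Q v (C.m i) (C.m i)) := by
  classical
  rw [← C.sumQ v i, ← C.Q_comb v i, ← mul_add]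
  congr 1
  rw [← sum_sdiff (subset_univ ((univ.filter fun b => C.m i b = 1 ∧ C.n4 b = v).image g)), add_comm]
  congr 1
  rw [sum_image]
  · refine sum_congr rfl fun b hb => ?_
    rw [mem_filter] at hb
    have h1 : C.m (g b) = fun d => C.m i d - C.c b d := funext (hg b hb.2)
    rw [h1, C.Q_sub']
    ring
  · intro b hb b' hb' h
    rw [mem_coe, mem_filter] at hb hb'
    apply C.c_inj
    intro d
    have h1 := hg b hb.2 d
    have h2 := hg b' hb'.2 d
    rw [h] at h1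
    linarith

theorem bound (a : R) : C.n4 a ≤ 4 * n := by
  obtain ⟨i, -⟩ := C.exists_one a
  obtain ⟨g, hg⟩ := C.exists_sg (C.n4 a) i
  have h1 := C.bound_aux (C.n4 a) i g hg
  have h2 := C.Qi_pos a i
  have h3 := sum_nonneg (s := univ \ (univ.filter fun b => C.m i b = 1 ∧ C.n4 b = C.n4 a).image g)
    fun j _ => C.term_nonneg (C.n4 a) i j
  by_contra hcon
  push Not at hcon
  nlinarith

/-- different weights are different functions -/
def Inj : Prop := ∀ i j, (∀ a, C.m i a = C.m j a) → i = j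

/-- In the case of equality all differences of weights are roots. -/
theorem diff (hm : C.Inj) {a : R} (ha : C.n4 a = 4 * n) {i j : Fin n} (hij : i ≠ j) :
    ∃ b, C.n4 b = C.n4 a ∧ C.m i b = 1 ∧ ∀ d, C.m j d = C.m i d - C.c b d := by
  classical
  have key : ∀ i j, (∃ b, C.n4 b = C.n4 a ∧ C.m i b = 1 ∧ ∀ d, C.m j d = C.m i d - C.c b d) ∨
      ∀ d, C.n4 d = C.n4 a → C.m i d = C.m j d := by
    intro i j
    obtain ⟨g, hg⟩ := C.exists_sg (C.n4 a) i
    by_cases hj : j ∈ (univ.filter fun b => C.m i b = 1 ∧ C.n4 b = C.n4 a).image g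
    · left
      rw [mem_image] at hj
      obtain ⟨b, hb, rfl⟩ := hj
      rw [mem_filter] at hb
      exact ⟨b, hb.2.2, hb.2.1, hg b hb.2⟩
    · right
      have h1 := C.bound_aux (C.n4 a) i g hg
      rw [ha] at h1
      have h2 : ∑ j ∈ univ \ (univ.filter fun b => C.m i b = 1 ∧ C.n4 b = 4 * (n : ℤ)).image g,
        (C.Q (4 * n) (C.m i) (C.m i) - C.Q (4 * n) (C.m i) (C.m j)) = 0 := by linarith
      rw [sum_eq_zero_iff_of_nonneg fun j _ => C.term_nonneg _ i j] at h2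
      have h3 := h2 j (mem_sdiff.2 ⟨mem_univ _, by rw [← ha]; exact hj⟩)
      have h4 := C.D_eq (4 * n) i j
      rw [h3, mul_zero] at h4
      intro d hd
      have h5 := C.Q_zero h4 (b := d) (by rw [hd, ha])
      linarith
  rcases key i j with h | h
  · exact h
  · exfalso
    -- a weight which is not equivalent to `i`
    obtain ⟨i0, hi0⟩ := C.exists_one a
    have h0 := C.Qi_pos a i
    have h1 : ∃ b, C.m i b = 1 ∧ C.n4 b = C.n4 a := by
      by_contra hcon
      push Not at hcon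
      have h2 := C.Q_comb (C.n4 a) i
      rw [filter_false_of_mem (fun b _ => fun h => hcon b h.1 h.2), sum_empty, mul_zero] at h2
      have h3 := C.n4_pos a
      have := mul_pos h3 h0
      omega
    obtain ⟨b, hb1, hb2⟩ := h1
    obtain ⟨k, hk⟩ := C.exists_st i b hb1
    have hkb : C.m k b = -1 := by rw [hk, hb1, C.two]; norm_num
    rcases key j k with h2 | h2
    · obtain ⟨b', hb1', hb2', hk'⟩ := h2
      apply hij
      apply hm
      intro d
      by_cases hd : C.n4 d = C.n4 a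
      · exact h d hd
      · have e1 : C.c b d = 0 := by
          by_contra h3
          exact hd ((C.k4 h3).symm.trans hb2)
        have e2 : C.c b' d = 0 := by
          by_contra h3
          exact hd ((C.k4 h3).symm.trans hb1')
        have e3 := hk d
        have e4 := hk' d
        rw [e1] at e3
        rw [e2] at e4
        linarith
    · have h3 := h2 b hb2
      have h4 := h b hb2
      omega

/-- the distance of the weights -/
def D (v : ℤ) (i j : Fin n) : ℤ :=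
  C.Q v (fun b => C.m i b - C.m j b) (fun b => C.m i b - C.m j b)

theorem D_comm (v : ℤ) (i j : Fin n) : C.D v i j = C.D v j i := by
  unfold D Q
  exact sum_congr rfl fun b _ => by ring

theorem D_eq' (v : ℤ) (i j : Fin n) :
    C.D v i j = 2 * (C.Q v (C.m i) (C.m i) - C.Q v (C.m i) (C.m j)) := C.D_eq v i j

theorem tri (hm : C.Inj) {a : R} (ha : C.n4 a = 4 * n) {i j : Fin n} (hij : i ≠ j) :
    ∃ b, C.m i b = 1 ∧ (∀ d, C.m j d = C.m i d - C.c b d) ∧ 0 < C.D (C.n4 a) i j ∧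
      ∀ k, C.D (C.n4 a) j k = C.D (C.n4 a) i k + C.D (C.n4 a) i j * C.m k b := by
  obtain ⟨b, hb, hb1, hb2⟩ := C.diff hm ha hij
  have h1 : C.D (C.n4 a) i j = C.Q (C.n4 a) (C.c b) (C.c b) := by
    unfold D Q
    refine sum_congr rfl fun d _ => ?_
    simp only [hb2]
    ring
  refine ⟨b, hb1, hb2, ?_, fun k => ?_⟩
  · rw [h1, ← hb]
    exact C.Qaa_pos
  · rw [h1, ← C.b1 (C.lin_m k), C.D_eq', C.D_eq', C.Q_const _ j i]
    have h2 : C.m j = fun d => C.m i d - C.c b d := funext hb2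
    rw [h2, C.Q_sub]
    ring

/-- Two weights at the minimal distance. -/
theorem near (hm : C.Inj) {a : R} (ha : C.n4 a = 4 * n) {z : ℤ}
    (hz : ∀ i j, i ≠ j → z ≤ C.D (C.n4 a) i j) {p q k : Fin n} (hpq : C.D (C.n4 a) p q = z)
    (h1 : p ≠ q) (h2 : k ≠ p) (h3 : k ≠ q) :
    (C.D (C.n4 a) k p = z ∧ C.D (C.n4 a) k q = z) ∨ (C.D (C.n4 a) k p = z ∧ C.D (C.n4 a) k q = 2 * z)
      ∨ (C.D (C.n4 a) k p = 2 * z ∧ C.D (C.n4 a) k q = z) := by
  obtain ⟨b, -, -, hp, hb⟩ := C.tri hm ha h1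
  obtain ⟨b', -, -, -, hb'⟩ := C.tri hm ha h2
  obtain ⟨b'', -, -, -, hb''⟩ := C.tri hm ha h3
  have e1 := hb k
  have e2 := hb' q
  have e3 := hb'' p
  have g1 := hz k p h2
  have g2 := hz k q h3
  rw [C.D_comm _ q k, C.D_comm _ p k, hpq] at e1
  rw [hpq] at e2 hp
  rw [C.D_comm _ q p, hpq] at e3
  rcases C.abs_m k b with h | h | h <;> rcases C.abs_m q b' with h' | h' | h' <;>
    rcases C.abs_m p b'' with h'' | h'' | h'' <;> rw [h] at e1 <;> rw [h'] at e2 <;>
    rw [h''] at e3 <;> omega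

theorem exists_near (hm : C.Inj) {a : R} (ha : C.n4 a = 4 * n) {z : ℤ}
    (hz : ∀ i j, i ≠ j → z ≤ C.D (C.n4 a) i j) {p q : Fin n} (hpq : C.D (C.n4 a) p q = z)
    (h1 : p ≠ q) (k : Fin n) : ∃ x, x ≠ k ∧ C.D (C.n4 a) k x = z := by
  by_cases h2 : k = p
  · subst h2
    exact ⟨q, h1.symm, hpq⟩
  by_cases h3 : k = q
  · subst h3
    exact ⟨p, h1, by rw [C.D_comm]; exact hpq⟩
  rcases C.near hm ha hz hpq h1 h2 h3 with h | h | h
  · exact ⟨p, Ne.symm h2, h.1⟩
  · exact ⟨p, Ne.symm h2, h.1⟩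
  · exact ⟨q, Ne.symm h3, h.2⟩

theorem values (hm : C.Inj) {a : R} (ha : C.n4 a = 4 * n) {z : ℤ}
    (hz : ∀ i j, i ≠ j → z ≤ C.D (C.n4 a) i j) {p q : Fin n} (hpq : C.D (C.n4 a) p q = z)
    (h1 : p ≠ q) {k l : Fin n} (hkl : k ≠ l) :
    C.D (C.n4 a) k l = z ∨ C.D (C.n4 a) k l = 2 * z := by
  obtain ⟨x, hx, hx'⟩ := C.exists_near hm ha hz hpq h1 k
  by_cases h2 : l = x
  · subst h2
    exact Or.inl hx'
  rcases C.near hm ha hz hx' (Ne.symm hx) (Ne.symm hkl) h2 with h | h | h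
  · left; rw [C.D_comm]; exact h.1
  · left; rw [C.D_comm]; exact h.1
  · right; rw [C.D_comm]; exact h.1

/-- the weight `p + l - m` -/
theorem partner (hm : C.Inj) {a : R} (ha : C.n4 a = 4 * n) {z : ℤ} {p l m : Fin n} (hpm : p ≠ m)
    (hz0 : 0 < z) (h1 : C.D (C.n4 a) p l = 2 * z)
    (h2 : C.D (C.n4 a) m p = z) (h3 : C.D (C.n4 a) m l = z) :
    ∃ k, (∀ d, C.m k d = C.m p d + C.m l d - C.m m d) ∧ C.D (C.n4 a) m k = 2 * z := by
  obtain ⟨b, hb1, hb2, hb3, hb4⟩ := C.tri hm ha hpm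
  have e1 := hb4 l
  rw [h3, h1, C.D_comm _ p m, h2] at e1
  have e2 : C.m l b = -1 := by
    have : z * (C.m l b + 1) = 0 := by linarith
    rcases mul_eq_zero.1 this with h | h
    · omega
    · omega
  obtain ⟨k, hk⟩ := C.exists_st l (C.neg b) (by rw [C.mn, e2]; norm_num)
  have hk' : ∀ d, C.m k d = C.m p d + C.m l d - C.m m d := by
    intro d
    rw [hk, C.cn, hb2]
    ring
  refine ⟨k, hk', ?_⟩
  have e3 : C.D (C.n4 a) m k + C.D (C.n4 a) p l = 2 * (C.D (C.n4 a) m p + C.D (C.n4 a) m l) := by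
    unfold D Q
    rw [← sum_add_distrib, ← sum_add_distrib, mul_sum]
    refine sum_congr rfl fun d _ => ?_
    simp only [hk']
    ring
  rw [h1, h2, h3] at e3
  linarith

theorem far (hm : C.Inj) {a : R} (ha : C.n4 a = 4 * n) {z : ℤ} (hz0 : 0 < z)
    (hz : ∀ i j, i ≠ j → z ≤ C.D (C.n4 a) i j) {p' q' : Fin n} (hpq : C.D (C.n4 a) p' q' = z)
    (hpq' : p' ≠ q') {p l m : Fin n} (hpl : p ≠ l) (h1 : C.D (C.n4 a) p l = 2 * z) (hmp : m ≠ p)
    (hml : m ≠ l) : C.D (C.n4 a) m p = z ∧ C.D (C.n4 a) m l = z := by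
  have hv : ∀ {k l : Fin n}, k ≠ l → C.D (C.n4 a) k l = z ∨ C.D (C.n4 a) k l = 2 * z :=
    fun h => C.values hm ha hz hpq hpq' h
  -- the two distances are equal
  have heq : ∀ {k : Fin n}, k ≠ p → k ≠ l → C.D (C.n4 a) k p = C.D (C.n4 a) k l := by
    intro k hk1 hk2
    obtain ⟨b, -, -, -, hb⟩ := C.tri hm ha hpl
    have e1 := hb k
    rw [C.D_comm _ l k, C.D_comm _ p k, h1] at e1
    have g1 := hv hk1
    have g2 := hv hk2
    rcases C.abs_m k b with h | h | h <;> rw [h] at e1 <;> omega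
  have e0 := heq hmp hml
  rcases hv hmp with h2 | h2
  · exact ⟨h2, by rw [← e0]; exact h2⟩
  exfalso
  have h3 : C.D (C.n4 a) m l = 2 * z := by rw [← e0]; exact h2
  -- a weight near to `p`
  obtain ⟨x, hx, hx'⟩ := C.exists_near hm ha hz hpq hpq' p
  have hxp : C.D (C.n4 a) x p = z := by rw [C.D_comm]; exact hx'
  have hxl : x ≠ l := by
    rintro rfl
    rw [h1] at hx'
    omega
  have hxm : x ≠ m := by
    rintro rfl
    rw [h2] at hxp
    omega
  have hxl' : C.D (C.n4 a) x l = z := by rw [← heq hx hxl]; exact hxp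
  have hxm' : C.D (C.n4 a) x m = z := by
    rcases C.near hm ha hz hx' (Ne.symm hx) hmp (Ne.symm hxm) with h | h | h
    · rw [C.D_comm]; exact h.2
    · omega
    · rw [C.D_comm]; exact h.2
  obtain ⟨k, hk, hk'⟩ := C.partner hm ha (Ne.symm hx) hz0 h1 hxp hxl'
  have e3 : C.D (C.n4 a) k m + C.D (C.n4 a) p l + C.D (C.n4 a) x m =
      C.D (C.n4 a) m p + C.D (C.n4 a) m l + C.D (C.n4 a) x p + C.D (C.n4 a) x l := by
    unfold D Q
    rw [← sum_add_distrib, ← sum_add_distrib, ← sum_add_distrib, ← sum_add_distrib,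
      ← sum_add_distrib]
    refine sum_congr rfl fun d _ => ?_
    simp only [hk]
    ring
  rw [h1, h2, h3, hxp, hxl', hxm'] at e3
  by_cases hkm : k = m
  · subst hkm
    have : C.D (C.n4 a) k k = 0 := by
      unfold D Q
      exact sum_eq_zero fun b _ => by ring
    omega
  · rcases hv hkm with h | h <;> omega

/-- **The case of equality.** -/
theorem dich (hm : C.Inj) {a : R} (ha : C.n4 a = 4 * n) :
    (∀ b i k, C.m i b = 1 → C.m k b = 1 → i = k) ∨ ∀ i, ∃ b, ∀ d, C.c b d = 2 * C.m i d := by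
  classical
  obtain ⟨i0, hi0⟩ := C.exists_one a
  obtain ⟨j0, hj0⟩ := C.exists_st i0 a hi0
  have h0 : i0 ≠ j0 := by
    rintro rfl
    have := hj0 a
    rw [C.two] at this
    omega
  obtain ⟨⟨p, q⟩, hpq, hz⟩ := exists_min_image (univ.filter fun x : Fin n × Fin n => x.1 ≠ x.2)
    (fun x => C.D (C.n4 a) x.1 x.2) ⟨(i0, j0), mem_filter.2 ⟨mem_univ _, h0⟩⟩
  rw [mem_filter] at hpq
  have hpq' : p ≠ q := hpq.2
  obtain ⟨z, hzd⟩ : ∃ z, C.D (C.n4 a) p q = z := ⟨_, rfl⟩
  have hz' : ∀ i j, i ≠ j → z ≤ C.D (C.n4 a) i j := by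
    intro i j hij
    have := hz (i, j) (mem_filter.2 ⟨mem_univ _, hij⟩)
    rw [← hzd]
    exact this
  have hz0 : 0 < z := by
    obtain ⟨b, -, -, h, -⟩ := C.tri hm ha hpq'
    rw [hzd] at h
    exact h
  by_cases hall : ∀ i j, i ≠ j → C.D (C.n4 a) i j = z
  · left
    intro b i k hi hk
    by_contra hik
    obtain ⟨j, hj⟩ := C.exists_st i b hi
    have hjb : C.m j b = -1 := by rw [hj, hi, C.two]; norm_num
    have hij : i ≠ j := by
      rintro rfl
      omega
    have hjk : j ≠ k := by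
      rintro rfl
      omega
    obtain ⟨b', -, hb', -, hb⟩ := C.tri hm ha hij
    have hbb : b' = b := by
      apply C.c_inj
      intro d
      have e1 := hb' d
      have e2 := hj d
      linarith
    subst hbb
    have e1 := hb k
    rw [hk, hall j k hjk, hall i k hik, hall i j hij] at e1
    omega
  · right
    push Not at hall
    obtain ⟨p0, l0, hpl, hD⟩ := hall
    have hD' : C.D (C.n4 a) p0 l0 = 2 * z := (C.values hm ha hz' hzd hpq' hpl).resolve_left hD
    -- the partners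
    have hpart : ∀ i, ∃ k, i ≠ k ∧ C.D (C.n4 a) i k = 2 * z ∧
        ∀ d, C.m i d + C.m k d = C.m p0 d + C.m l0 d := by
      intro i
      by_cases h1 : i = p0
      · subst h1
        exact ⟨l0, hpl, hD', fun d => rfl⟩
      by_cases h2 : i = l0
      · subst h2
        exact ⟨p0, hpl.symm, by rw [C.D_comm]; exact hD', fun d => add_comm _ _⟩
      obtain ⟨h3, h4⟩ := C.far hm ha hz0 hz' hzd hpq' hpl hD' h1 h2
      obtain ⟨k, hk, hk'⟩ := C.partner hm ha (Ne.symm h1) hz0 hD' h3 h4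
      refine ⟨k, ?_, hk', fun d => by rw [hk]; ring⟩
      rintro rfl
      have : C.D (C.n4 a) i i = 0 := by
        unfold D Q
        exact sum_eq_zero fun b _ => by ring
      omega
    choose g hg1 hg2 hg3 using hpart
    have huniq : ∀ i k, i ≠ k → C.D (C.n4 a) i k = 2 * z → k = g i := by
      intro i k hik hk
      by_contra hne
      have := (C.far hm ha hz0 hz' hzd hpq' (hg1 i) (hg2 i) (Ne.symm hik) hne).1
      rw [C.D_comm, hk] at this
      omega
    have hinv : ∀ i, g (g i) = i := fun i =>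
      (huniq (g i) i (hg1 i).symm (by rw [C.D_comm]; exact hg2 i)).symm
    let G : Fin n ≃ Fin n := ⟨g, g, hinv, hinv⟩
    have hsum : ∀ d, C.m p0 d + C.m l0 d = 0 := by
      intro d
      have e1 : ∑ i, (C.m i d + C.m (g i) d) = n * (C.m p0 d + C.m l0 d) := by
        rw [sum_congr rfl fun i _ => hg3 i d, sum_const, card_univ, Fintype.card_fin, nsmul_eq_mul]
      have e2 : ∑ i, C.m (g i) d = ∑ i, C.m i d := Equiv.sum_comp G fun i => C.m i d
      rw [sum_add_distrib, e2, C.sum, add_zero] at e1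
      have hn : (n : ℤ) ≠ 0 := by
        have := i0.pos
        omega
      rcases mul_eq_zero.1 e1.symm with h | h
      · exact absurd h hn
      · exact h
    intro i
    obtain ⟨b, -, hb, -⟩ := C.tri hm ha (hg1 i)
    refine ⟨b, fun d => ?_⟩
    have e1 := hb d
    have e2 := hg3 i d
    rw [hsum] at e2
    linarith

end CD

end Pool.Agent.H943.DP
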