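import Pool.Agent.H943.DP.Mach

/-!
# The functions of the weights
-/

set_option autoImplicit false
set_option linter.unusedSectionVars false

open Module Matrix Function

noncomputable section

namespace Pool.Agent.H943.DP

variable {n : ℕ} {K : Type} [Field K] [CharZero K] {L : Submodule K (Mt n K)}
    {xi : Fin n → K} {R : Type} [Fintype R] {J : Type} [Fintype J] [DecidableEq J] {d : J → ℕ}

/-- the image of a unit -/
def actU (T : SL n K) (u : (Mt n K)ˣ) : (Mt n K)ˣ :=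
  ⟨T.act u, T.act ((u⁻¹ : (Mt n K)ˣ) : Mt n K), by rw [← T.act_mul, Units.mul_inv, T.act_one],
    by rw [← T.act_mul, Units.inv_mul, T.act_one]⟩

theorem actU_val (T : SL n K) (u : (Mt n K)ˣ) : (actU T u : Mt n K) = T.act u := rfl

theorem actU_inv (T : SL n K) (u : (Mt n K)ˣ) :
    (((actU T u)⁻¹ : (Mt n K)ˣ) : Mt n K) = T.act ((u⁻¹ : (Mt n K)ˣ) : Mt n K) := rfl

theorem UU_act (T : SL n K) (hT : Pre L T) {u : (Mt n K)ˣ} (hu : u ∈ UU L) : actU T u ∈ UU L := by
  refine Submonoid.closure_induction (motive := fun (u : (Mt n K)ˣ) _ => actU T u ∈ UU L) ?_ ?_ ?_ hu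
  · rintro u ⟨X, hXL, hX, h1⟩
    refine Submonoid.subset_closure ⟨T.act X, hT.h1 X hXL, ?_, ?_⟩
    · rw [← T.act_mul, hX, T.act_zero]
    · rw [actU_val, h1, T.act_add, T.act_one]
  · have : actU T (1 : (Mt n K)ˣ) = 1 := Units.ext (by rw [actU_val, Units.val_one, T.act_one])
    rw [this]
    exact Submonoid.one_mem _
  · intro u v _ _ hu hv
    have : actU T (u * v) = actU T u * actU T v :=
      Units.ext (by rw [actU_val, Units.val_mul, T.act_mul, Units.val_mul, actU_val, actU_val])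
    rw [this]
    exact Submonoid.mul_mem _ hu hv

section

variable (hS : Sett L xi) (hT : Tra L xi) (r : MD L xi R)

include hS hT r

theorem e_sq (a : R) : r.e a * r.e a = 0 := by
  ext i k
  rw [mul_apply, Matrix.zero_apply]
  refine Finset.sum_eq_zero fun x _ => ?_
  by_contra hne
  have h1 := r.e_ne (left_ne_zero_of_mul hne) a
  have h2 := r.e_ne (right_ne_zero_of_mul hne) a
  have h3 := (cd hS r hT).abs_m i a
  have h4 := (cd hS r hT).abs_m k a
  rw [cd_m] at h3 h4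
  rw [r.two] at h1 h2
  omega

theorem f_sq (a : R) : r.f a * r.f a = 0 := by
  ext i k
  rw [mul_apply, Matrix.zero_apply]
  refine Finset.sum_eq_zero fun x _ => ?_
  by_contra hne
  have h1 := r.f_ne (left_ne_zero_of_mul hne) a
  have h2 := r.f_ne (right_ne_zero_of_mul hne) a
  have h3 := (cd hS r hT).abs_m i a
  have h4 := (cd hS r hT).abs_m k a
  rw [cd_m] at h3 h4
  rw [r.two] at h1 h2
  omega

/-- the root vectors on the weight vectors -/
theorem e_col {a : R} {i j : Fin n} (h : r.e a i j ≠ 0) :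
    r.e a *ᵥ (Pi.single j 1) = r.e a i j • (Pi.single i 1 : Fin n → K) := by
  rw [mulVec_single_one]
  funext k
  rw [Pi.smul_apply]
  by_cases hk : k = i
  · subst hk
    rw [Pi.single_eq_same, smul_eq_mul, mul_one]
    rfl
  · rw [Pi.single_eq_of_ne hk, smul_zero]
    by_contra hne
    apply hk
    apply xi_inj hS hT r
    apply r.xi_m
    intro b
    rw [r.e_ne hne b, r.e_ne h b]

theorem e_wt {a : R} {i j : Fin n} (h : r.e a i j ≠ 0) : r.m i a = 1 ∧ r.m j a = -1 := by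
  have h1 := r.e_ne h a
  have h3 := (cd hS r hT).abs_m i a
  have h4 := (cd hS r hT).abs_m j a
  rw [cd_m] at h3 h4
  rw [r.two] at h1
  omega

/-- one step -/
theorem e_step {a : R} {i j : Fin n} (h : r.e a i j ≠ 0) : ∃ w ∈ UU L,
    (w : Mt n K) *ᵥ Pi.single j 1 = r.e a i j • (Pi.single i 1 : Fin n → K) := by
  obtain ⟨u1, h1, -⟩ := unip (e_sq hS hT r a)
  obtain ⟨u2, h2, h2'⟩ := unip (f_sq hS hT r a)
  have m1 : u1 ∈ UU L := Submonoid.subset_closure ⟨_, r.eL a, e_sq hS hT r a, h1⟩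
  have m2 : u2 ∈ UU L := Submonoid.subset_closure ⟨_, r.fL a, f_sq hS hT r a, h2⟩
  refine ⟨u2⁻¹ * u1, Submonoid.mul_mem _ (UU_inv m2) m1, ?_⟩
  have hf0 : r.f a *ᵥ (Pi.single j 1) = (0 : Fin n → K) := by
    rw [mulVec_single_one]
    funext k
    by_contra hne
    have h5 := r.f_ne (i := k) (j := j) hne a
    have h6 := (e_wt hS hT r h).2
    have h7 := (cd hS r hT).abs_m k a
    rw [cd_m] at h7
    rw [r.two] at h5
    omega
  have hf1 : r.e a i j • (r.f a *ᵥ (Pi.single i 1 : Fin n → K)) = Pi.single j 1 := by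
    have h5 := congrArg (fun X : Mt n K => X *ᵥ (Pi.single j 1 : Fin n → K)) (r.ef a)
    simp only [Matrix.sub_mulVec, ← mulVec_mulVec] at h5
    rw [hf0, mulVec_zero, e_col hS hT r h, mulVec_smul, diagonal_mulVec_single, mul_one, r.hm,
      (e_wt hS hT r h).2, zero_sub] at h5
    have h6 : (Pi.single j (((-1 : ℤ) : ℤ) : K) : Fin n → K) = -Pi.single j 1 := by
      rw [← Pi.single_neg]
      congr 1
      push_cast
      rfl
    rw [h6] at h5
    exact neg_injective h5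
  rw [Units.val_mul, h2', h1, ← mulVec_mulVec, Matrix.add_mulVec, one_mulVec, e_col hS hT r h,
    Matrix.sub_mulVec, one_mulVec, mulVec_add, hf0, mulVec_smul, hf1]
  abel

/-- **The group acts transitively on the weights.** -/
theorem conn (l j : Fin n) : ∃ w ∈ UU L, ∃ c : K, c ≠ 0 ∧
    (w : Mt n K) *ᵥ Pi.single l 1 = c • (Pi.single j 1 : Fin n → K) := by
  let S : Set (Fin n) := {j | ∃ w ∈ UU L, ∃ c : K, c ≠ 0 ∧
    (w : Mt n K) *ᵥ Pi.single l 1 = c • (Pi.single j 1 : Fin n → K)}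
  have hl : l ∈ S := ⟨1, Submonoid.one_mem _, 1, one_ne_zero, by
    rw [Units.val_one, one_mulVec, one_smul]⟩
  have hstep : ∀ a i j, j ∈ S → r.e a i j ≠ 0 → i ∈ S := by
    rintro a i j ⟨w, hw, c, hc, h1⟩ h2
    obtain ⟨w', hw', h3⟩ := e_step hS hT r h2
    refine ⟨w' * w, Submonoid.mul_mem _ hw' hw, c * r.e a i j, mul_ne_zero hc h2, ?_⟩
    rw [Units.val_mul, ← mulVec_mulVec, h1, mulVec_smul, h3, smul_smul]
  let U : Submodule K (Fin n → K) :=
    { carrier := {v | ∀ k, k ∉ S → v k = 0}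
      zero_mem' := fun k _ => rfl
      add_mem' := fun {v w} hv hw k hk => by rw [Pi.add_apply, hv k hk, hw k hk, add_zero]
      smul_mem' := fun c v hv k hk => by rw [Pi.smul_apply, hv k hk, smul_zero] }
  have hU : ∀ X ∈ L, ∀ v ∈ U, X *ᵥ v ∈ U := by
    intro X hX v hv k hk
    show ∑ j, X k j * v j = 0
    refine Finset.sum_eq_zero fun j _ => ?_
    by_cases hj : j ∈ S
    · have hkj : k ≠ j := fun h => hk (h ▸ hj)
      obtain ⟨t, b, rfl⟩ := r.dec X hX
      have h1 : (∑ a, t a • diagonal (r.h a) + ∑ a, b a • r.e a) k j = 0 := by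
        rw [Matrix.add_apply, Matrix.sum_apply, Matrix.sum_apply, Finset.sum_eq_zero, Finset.sum_eq_zero,
          add_zero]
        · intro a _
          rw [Matrix.smul_apply]
          by_cases h : r.e a k j = 0
          · rw [h, smul_zero]
          · exact absurd (hstep a k j hj h) hk
        · intro a _
          rw [Matrix.smul_apply, diagonal_apply_ne _ hkj, smul_zero]
      rw [h1, zero_mul]
    · rw [hv j hj, mul_zero]
  have hsl : (Pi.single l 1 : Fin n → K) ∈ U := by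
    intro k hk
    rw [Pi.single_eq_of_ne]
    rintro rfl
    exact hk hl
  rcases hS.irr U hU with h | h
  · exfalso
    rw [h, Submodule.mem_bot] at hsl
    have := congrFun hsl l
    rw [Pi.single_eq_same] at this
    exact one_ne_zero this
  · by_contra hcon
    have h1 : (Pi.single j 1 : Fin n → K) ∈ U := by rw [h]; trivial
    have h2 := h1 j hcon
    rw [Pi.single_eq_same] at h2
    exact one_ne_zero h2

end

omit [CharZero K] in
/-- the monomial matrix of a symmetry -/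
theorem mono (T : SL n K) {p : Fin n → Fin n} (h : ∀ i j, T.P i j ≠ 0 → i = p j) :
    (∀ j, T.P (p j) j * T.Q j (p j) = 1) ∧ (∀ i j, i ≠ p j → T.Q j i = 0) ∧ Function.Injective p := by
  have h1 : ∀ j, T.P (p j) j ≠ 0 := by
    intro j h2
    have h3 := congrFun (congrFun T.qp j) j
    rw [Matrix.mul_apply, Finset.sum_eq_zero, one_apply_eq] at h3
    · exact zero_ne_one h3
    · intro k _
      by_cases hk : T.P k j = 0
      · rw [hk, mul_zero]
      · rw [h k j hk, h2, mul_zero]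
  have h2 : ∀ j, T.Q j (p j) * T.P (p j) j = 1 := by
    intro j
    have h3 := congrFun (congrFun T.qp j) j
    rw [Matrix.mul_apply, Finset.sum_eq_single (p j), one_apply_eq] at h3
    · exact h3
    · intro k _ hk
      by_cases hk' : T.P k j = 0
      · rw [hk', mul_zero]
      · exact absurd (h k j hk') hk
    · intro h
      exact absurd (Finset.mem_univ _) h
  have h4 : Function.Injective p := by
    intro j j' hjj
    by_contra hne
    have h3 := congrFun (congrFun T.qp j) j'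
    rw [Matrix.mul_apply, Finset.sum_eq_single (p j'), one_apply_ne hne] at h3
    · rcases mul_eq_zero.1 h3 with h5 | h5
      · rw [← hjj] at h5
        have := h2 j
        rw [h5, zero_mul] at this
        exact zero_ne_one this
      · exact h1 j' h5
    · intro k _ hk
      by_cases hk' : T.P k j' = 0
      · rw [hk', mul_zero]
      · exact absurd (h k j' hk') hk
    · intro h
      exact absurd (Finset.mem_univ _) h
  refine ⟨fun j => by rw [mul_comm]; exact h2 j, fun i j hij => ?_, h4⟩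
  have h3 := congrFun (congrFun T.pq (p j)) i
  rw [Matrix.mul_apply, Finset.sum_eq_single j, one_apply_ne (Ne.symm hij)] at h3
  · exact (mul_eq_zero.1 h3).resolve_left (h1 j)
  · intro k _ hk
    by_cases hk' : T.P (p j) k = 0
    · rw [hk', zero_mul]
    · exact absurd (h4 (h _ _ hk')) hk.symm
  · intro h
    exact absurd (Finset.mem_univ _) h

section

variable {l : Fin n} {N : ℕ} {q : ∀ j, Fin (d j) → R} (hS : Sett L xi) (hT : Tra L xi)
  {r : MD L xi R} (M : Mach r l N q)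

include hS hT M

theorem fact2 {T : SL n K} (h1 : Pre L T) (h2 : T.act (diagonal xi) = diagonal xi) {w : (Mt n K)ˣ}
    (hw : w ∈ UU L) {k : K} (hk : ((w⁻¹ : (Mt n K)ˣ) : Mt n K) *ᵥ T.vec (Pi.single l 1) = k • Pi.single l 1) :
    ∃ h : K, ∀ Z : Sl d → Mt n K, T.g (yv (Vr r q) Z) = h * yv (Vr r q) (fun s =>
      ((w⁻¹ : (Mt n K)ˣ) : Mt n K) * (T.act (Z s) * w)) := by
  have hmem : ∀ j a, ∃ C : Fin (d j) → K, ((SL.ofGL w⁻¹).mul T).act (r.e (q j a)) =
      ∑ b, C b • r.e (q j b) := by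
    intro j a
    have h5 := M.H4 w⁻¹ (UU_inv hw) T h1 h2 ⟨k, by rw [SL.mul_vec, SL.ofGL_vec, hk]⟩ j a
    obtain ⟨C, hC⟩ := (Submodule.mem_span_range_iff_exists_fun K).1 h5
    exact ⟨C, hC.symm⟩
  choose C hC using hmem
  refine ⟨∏ j, (Matrix.of fun a b => C j a b).det, fun Z => ?_⟩
  rw [← yv_change (X := Vr r q) (X' := fun j a => ((SL.ofGL w⁻¹).mul T).act (r.e (q j a)))
    (fun j => Matrix.of fun a b => C j a b) (fun j a => hC j a)]
  unfold yv
  rw [map_prod]
  refine Finset.prod_congr rfl fun j _ => ?_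
  have e1 : T.g (gm (Vr r q j) fun b => Z ⟨j, b⟩).det =
      ((gm (Vr r q j) fun b => Z ⟨j, b⟩).map (T.g : K →+* K)).det :=
    RingHom.map_det (T.g : K →+* K) _
  rw [e1]
  congr 1
  ext a b
  unfold gm Vr
  rw [map_apply, of_apply, of_apply]
  have e2 : ((w⁻¹ : (Mt n K)ˣ) : Mt n K) * (T.act (Z ⟨j, b⟩) * w) =
      ((SL.ofGL w⁻¹).mul T).act (Z ⟨j, b⟩) := by
    rw [SL.mul_act, SL.ofGL_act, inv_inv, Matrix.mul_assoc]
  show T.g (r.e (q j a) * Z ⟨j, b⟩).trace = (((SL.ofGL w⁻¹).mul T).act (r.e (q j a)) *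
    (((w⁻¹ : (Mt n K)ˣ) : Mt n K) * (T.act (Z ⟨j, b⟩) * w))).trace
  rw [e2, ← SL.act_mul, SL.trace_act]
  rfl

/-- **The functions of the weights.** -/
theorem machine : ∃ Y : Fin n → US K (Mt n K) (Sl d), (∀ j, ∃ Z, (Y j).ev Z ≠ 0) ∧
    ∀ T : SL n K, Pre L T → T.act (diagonal xi) = diagonal xi → ∃ (κ : K) (p : Fin n → Fin n),
      (∀ i j, T.P i j ≠ 0 → i = p j) ∧ ∀ j Z, (∀ s, T.act (Z s) = Z s) →
        T.g ((Y j).ev Z) = κ * T.P (p j) j ^ N * (Y (p j)).ev Z := by
  have hw := conn hS hT r l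
  choose w hw c hc hwc using hw
  have hwi : ∀ j, (((w j)⁻¹ : (Mt n K)ˣ) : Mt n K) *ᵥ Pi.single j 1 = (c j)⁻¹ • (Pi.single l 1 : Fin n → K) := by
    intro j
    have h1 := congrArg (fun v : Fin n → K => (((w j)⁻¹ : (Mt n K)ˣ) : Mt n K) *ᵥ v) (hwc j)
    beta_reduce at h1
    rw [mulVec_mulVec, Units.inv_mul, one_mulVec, mulVec_smul] at h1
    rw [h1, smul_smul, inv_mul_cancel₀ (hc j), one_smul]
  refine ⟨fun j => ((c j)⁻¹ ^ N) • Cm (fun _ => G1 (w j)) (yf (Vr r q)), fun j => ?_, ?_⟩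
  · refine ⟨fun s => (w j : Mt n K) * r.f (q s.1 s.2) * (((w j)⁻¹ : (Mt n K)ˣ) : Mt n K), ?_⟩
    rw [ev_smul, Cm_ev, yf_ev]
    refine mul_ne_zero (pow_ne_zero _ (inv_ne_zero (hc j))) ?_
    have h1 : (fun s : Sl d => G1 (w j) ((w j : Mt n K) * r.f (q s.1 s.2) *
        (((w j)⁻¹ : (Mt n K)ˣ) : Mt n K))) = fun s => r.f (q s.1 s.2) := by
      funext s
      rw [G1_apply]
      calc (((w j)⁻¹ : (Mt n K)ˣ) : Mt n K) * ((w j : Mt n K) * r.f (q s.1 s.2) *
          (((w j)⁻¹ : (Mt n K)ˣ) : Mt n K) * (w j : Mt n K)) =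
          ((((w j)⁻¹ : (Mt n K)ˣ) : Mt n K) * (w j : Mt n K)) * r.f (q s.1 s.2) *
          ((((w j)⁻¹ : (Mt n K)ˣ) : Mt n K) * (w j : Mt n K)) := by simp only [Matrix.mul_assoc]
        _ = _ := by rw [Units.inv_mul, Matrix.one_mul, Matrix.mul_one]
    rw [h1]
    exact yv_ne hS hT r q M.inj
  intro T hT1 hT2
  have hp : ∀ j, ∃ i, T.P i j ≠ 0 := fun j => MD.m_col T j
  choose p hp using hp
  have hp' : ∀ i j, T.P i j ≠ 0 → i = p j := by
    intro i j hij
    apply xi_inj hS hT r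
    rw [T.xi_of hT2 hij, T.xi_of hT2 (hp j)]
  have hv : ∀ j, T.vec (Pi.single j 1) = T.P (p j) j • (Pi.single (p j) 1 : Fin n → K) := by
    intro j
    have e : (fun i => T.g ((Pi.single j 1 : Fin n → K) i)) = Pi.single j 1 := by
      funext i
      by_cases h : i = j
      · subst h; rw [Pi.single_eq_same, map_one]
      · rw [Pi.single_eq_of_ne h, map_zero]
    unfold SL.vec
    rw [e, mulVec_single_one]
    funext i
    by_cases h : i = p j
    · rw [h, Pi.smul_apply, Pi.single_eq_same, smul_eq_mul, mul_one]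
      rfl
    · rw [Pi.smul_apply, Pi.single_eq_of_ne h, smul_zero]
      by_contra hne
      exact h (hp' i j hne)
  obtain ⟨h, hh⟩ := fact2 hS hT M hT1 hT2 (hw (p l)) (k := T.P (p l) l * (c (p l))⁻¹) (by
    rw [hv, mulVec_smul, hwi, smul_smul])
  refine ⟨h * (c (p l) / T.P (p l) l) ^ N, p, hp', fun j Z hZ => ?_⟩
  rw [ev_smul, Cm_ev, yf_ev, ev_smul, Cm_ev, yf_ev, map_mul, hh]
  set W : (Mt n K)ˣ := actU T (w j) with hW
  have hWU : W ∈ UU L := UU_act T hT1 (hw j)
  set u : (Mt n K)ˣ := (w (p j))⁻¹ * W * w (p l) with hu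
  have huU : u ∈ UU L := Submonoid.mul_mem _ (Submonoid.mul_mem _ (UU_inv (hw _)) hWU) (hw _)
  have hWv : (W : Mt n K) *ᵥ Pi.single (p l) 1 = (T.g (c j) * T.P (p j) j / T.P (p l) l) •
      (Pi.single (p j) 1 : Fin n → K) := by
    have h1 := congrArg T.vec (hwc j)
    rw [T.vec_act, hv, mulVec_smul, T.vec_smul, hv, smul_smul] at h1
    have h2 := congrArg (fun v => (T.P (p l) l)⁻¹ • v) h1
    simp only [smul_smul] at h2
    rw [inv_mul_cancel₀ (hp l), one_smul] at h2
    rw [hW, actU_val, h2]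
    congr 1
    rw [div_eq_inv_mul]
  have hut : (u : Mt n K) *ᵥ Pi.single l 1 = (c (p l) * (T.g (c j) * T.P (p j) j / T.P (p l) l) *
      (c (p j))⁻¹) • (Pi.single l 1 : Fin n → K) := by
    rw [hu, Units.val_mul, Units.val_mul, ← mulVec_mulVec, hwc, mulVec_smul, ← mulVec_mulVec, hWv,
      mulVec_smul, hwi, smul_smul, smul_smul]
  have h3 := fact1 hS hT M huU hut (fun s => (((w (p j))⁻¹ : (Mt n K)ˣ) : Mt n K) * (Z s * w (p j)))
  have h4 : (fun s : Sl d => (((w (p l))⁻¹ : (Mt n K)ˣ) : Mt n K) *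
      (T.act (G1 (w j) (Z s)) * (w (p l) : Mt n K))) = fun s => ((u⁻¹ : (Mt n K)ˣ) : Mt n K) *
        ((((w (p j))⁻¹ : (Mt n K)ˣ) : Mt n K) * (Z s * w (p j)) * u) := by
    funext s
    rw [G1_apply, T.act_mul, T.act_mul, hZ, ← actU_inv T (w j), ← actU_val T (w j), ← hW, hu,
      _root_.mul_inv_rev, _root_.mul_inv_rev, inv_inv, Units.val_mul, Units.val_mul, Units.val_mul,
      Units.val_mul]
    calc (((w (p l))⁻¹ : (Mt n K)ˣ) : Mt n K) * (((W⁻¹ : (Mt n K)ˣ) : Mt n K) * (Z s * W) * (w (p l) : Mt n K))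
        = (((w (p l))⁻¹ : (Mt n K)ˣ) : Mt n K) * (((W⁻¹ : (Mt n K)ˣ) : Mt n K) * 1) * Z s * 1 * W *
          (w (p l) : Mt n K) := by simp only [Matrix.mul_assoc, Matrix.mul_one, Matrix.one_mul]
      _ = _ := by
        rw [← Units.mul_inv (w (p j))]
        simp only [Matrix.mul_assoc]
  rw [h4, h3]
  have h5 : (fun s : Sl d => G1 (w (p j)) (Z s)) = fun s =>
      (((w (p j))⁻¹ : (Mt n K)ˣ) : Mt n K) * (Z s * w (p j)) := rfl
  rw [h5]
  have e1 := hc (p j)
  have e2 := hp l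
  have e3 : T.g (c j) ≠ 0 := fun h => hc j ((map_eq_zero_iff _ T.g.injective).1 h)
  rw [map_pow, map_inv₀]
  have e4 : T.P (p j) j ^ N * ((c (p j))⁻¹) ^ N * (c (p l) / T.P (p l) l) ^ N =
      (T.g (c j))⁻¹ ^ N * (c (p l) * (T.g (c j) * T.P (p j) j / T.P (p l) l) * (c (p j))⁻¹) ^ N := by
    rw [← mul_pow, ← mul_pow, ← mul_pow]
    congr 1
    field_simp
  linear_combination (-(h * yv (Vr r q) fun s => (((w (p j))⁻¹ : (Mt n K)ˣ) : Mt n K) *
    (Z s * w (p j)))) * e4

end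

end Pool.Agent.H943.DP
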