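import Mathlib

/-!
# Semilinear automorphisms
-/

set_option autoImplicit false
set_option linter.unusedSectionVars false

open Matrix

noncomputable section

namespace Pool.Agent.H943.DP

/-- the semilinear map `v ↦ P g(v)` -/
structure SL (n : ℕ) (K : Type) [Field K] where
  P : Matrix (Fin n) (Fin n) K
  Q : Matrix (Fin n) (Fin n) K
  g : K ≃+* K
  pq : P * Q = 1
  qp : Q * P = 1

variable {n : ℕ} {K : Type} [Field K]

namespace SL

/-- the action on matrices -/
def act (T : SL n K) (X : Matrix (Fin n) (Fin n) K) : Matrix (Fin n) (Fin n) K :=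
  T.P * X.map T.g * T.Q

/-- the action on vectors -/
def vec (T : SL n K) (v : Fin n → K) : Fin n → K := T.P *ᵥ (fun i => T.g (v i))

variable (T : SL n K)

theorem map_mul' (X Y : Matrix (Fin n) (Fin n) K) : (X * Y).map T.g = X.map T.g * Y.map T.g :=
  Matrix.map_mul (f := (T.g : K →+* K))

theorem act_mul (X Y : Matrix (Fin n) (Fin n) K) : T.act (X * Y) = T.act X * T.act Y := by
  unfold act
  rw [T.map_mul']
  calc T.P * (X.map T.g * Y.map T.g) * T.Q
      = T.P * X.map T.g * (1 * Y.map T.g) * T.Q := by rw [one_mul]; simp only [Matrix.mul_assoc]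
    _ = T.P * X.map T.g * T.Q * (T.P * Y.map T.g * T.Q) := by
        rw [← T.qp]; simp only [Matrix.mul_assoc]

theorem act_add (X Y : Matrix (Fin n) (Fin n) K) : T.act (X + Y) = T.act X + T.act Y := by
  unfold act
  rw [Matrix.map_add _ (map_add T.g), Matrix.mul_add, Matrix.add_mul]

theorem act_smul (k : K) (X : Matrix (Fin n) (Fin n) K) : T.act (k • X) = T.g k • T.act X := by
  unfold act
  have : (k • X).map T.g = T.g k • X.map T.g := by
    ext i j
    simp
  rw [this, Matrix.mul_smul, Matrix.smul_mul]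

theorem act_zero : T.act 0 = 0 := by
  have := T.act_smul 0 0
  rwa [zero_smul, map_zero, zero_smul] at this

theorem act_one : T.act 1 = 1 := by
  unfold act
  rw [Matrix.map_one _ (map_zero _) (map_one _), Matrix.mul_one, T.pq]

theorem act_neg (X : Matrix (Fin n) (Fin n) K) : T.act (-X) = -T.act X := by
  have := T.act_smul (-1) X
  rwa [neg_one_smul, map_neg, map_one, neg_one_smul] at this

theorem act_sub (X Y : Matrix (Fin n) (Fin n) K) : T.act (X - Y) = T.act X - T.act Y := by
  rw [sub_eq_add_neg, act_add, act_neg, ← sub_eq_add_neg]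

theorem act_sum {ι : Type*} (s : Finset ι) (X : ι → Matrix (Fin n) (Fin n) K) :
    T.act (∑ i ∈ s, X i) = ∑ i ∈ s, T.act (X i) := by
  classical
  induction s using Finset.induction_on with
  | empty => rw [Finset.sum_empty, Finset.sum_empty, act_zero]
  | insert a s ha ih => rw [Finset.sum_insert ha, Finset.sum_insert ha, act_add, ih]

theorem vec_add (v w : Fin n → K) : T.vec (v + w) = T.vec v + T.vec w := by
  unfold vec
  rw [← Matrix.mulVec_add]
  congr 1
  funext i
  exact map_add T.g _ _

theorem vec_smul (k : K) (v : Fin n → K) : T.vec (k • v) = T.g k • T.vec v := by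
  unfold vec
  rw [← Matrix.mulVec_smul]
  congr 1
  funext i
  exact map_mul T.g _ _

theorem vec_act (X : Matrix (Fin n) (Fin n) K) (v : Fin n → K) :
    T.vec (X *ᵥ v) = T.act X *ᵥ T.vec v := by
  unfold vec act
  rw [Matrix.mulVec_mulVec, Matrix.mul_assoc, T.qp, Matrix.mul_one, ← Matrix.mulVec_mulVec]
  congr 1
  funext i
  simp only [Matrix.mulVec, dotProduct, Matrix.map_apply, map_sum, map_mul]

theorem trace_act (X : Matrix (Fin n) (Fin n) K) : (T.act X).trace = T.g X.trace := by
  unfold act
  rw [Matrix.trace_mul_comm, ← Matrix.mul_assoc, T.qp, Matrix.one_mul]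
  simp only [Matrix.trace, Matrix.diag_apply, Matrix.map_apply, map_sum]

/-- the inverse -/
def inv : SL n K where
  P := T.Q.map T.g.symm
  Q := T.P.map T.g.symm
  g := T.g.symm
  pq := by
    have h1 : (T.Q * T.P).map T.g.symm = T.Q.map T.g.symm * T.P.map T.g.symm :=
      Matrix.map_mul (f := (T.g.symm : K →+* K))
    rw [T.qp] at h1
    rw [Matrix.map_one _ (map_zero _) (map_one _)] at h1
    exact h1.symm
  qp := by
    have h1 : (T.P * T.Q).map T.g.symm = T.P.map T.g.symm * T.Q.map T.g.symm :=
      Matrix.map_mul (f := (T.g.symm : K →+* K))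
    rw [T.pq] at h1
    rw [Matrix.map_one _ (map_zero _) (map_one _)] at h1
    exact h1.symm

theorem map_symm (X : Matrix (Fin n) (Fin n) K) : (X.map T.g.symm).map T.g = X := by
  ext i j
  simp

theorem map_symm' (X : Matrix (Fin n) (Fin n) K) : (X.map T.g).map T.g.symm = X := by
  ext i j
  simp

theorem act_inv (X : Matrix (Fin n) (Fin n) K) : T.act (T.inv.act X) = X := by
  unfold act inv
  simp only
  rw [T.map_mul', T.map_mul', T.map_symm, T.map_symm, T.map_symm]
  calc T.P * (T.Q * X * T.P) * T.Q = (T.P * T.Q) * X * (T.P * T.Q) := by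
        simp only [Matrix.mul_assoc]
    _ = X := by rw [T.pq, Matrix.one_mul, Matrix.mul_one]

theorem inv_act (X : Matrix (Fin n) (Fin n) K) : T.inv.act (T.act X) = X := by
  have h1 : T.act (T.inv.act (T.act X)) = T.act X := T.act_inv _
  have hinj : ∀ Y, T.act Y = 0 → Y = 0 := by
    intro Y hY
    have h2 : T.Q * (T.P * Y.map T.g * T.Q) * T.P = 0 := by
      have : T.P * Y.map T.g * T.Q = 0 := hY
      rw [this, Matrix.mul_zero, Matrix.zero_mul]
    have h3 : T.Q * (T.P * Y.map T.g * T.Q) * T.P = Y.map T.g := by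
      calc T.Q * (T.P * Y.map T.g * T.Q) * T.P = (T.Q * T.P) * Y.map T.g * (T.Q * T.P) := by
            simp only [Matrix.mul_assoc]
        _ = _ := by rw [T.qp, Matrix.one_mul, Matrix.mul_one]
    rw [h3] at h2
    ext i j
    have h4 := congrFun (congrFun h2 i) j
    simp only [Matrix.map_apply, Matrix.zero_apply] at h4 ⊢
    exact (map_eq_zero_iff _ T.g.injective).1 h4
  have h2 := hinj (T.inv.act (T.act X) - X) (by rw [act_sub, h1, sub_self])
  exact sub_eq_zero.1 h2

/-- composition -/
def mul (T S : SL n K) : SL n K where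
  P := T.P * S.P.map T.g
  Q := S.Q.map T.g * T.Q
  g := S.g.trans T.g
  pq := by
    calc T.P * S.P.map T.g * (S.Q.map T.g * T.Q) = T.P * (S.P.map T.g * S.Q.map T.g) * T.Q := by
          simp only [Matrix.mul_assoc]
      _ = 1 := by
          rw [← T.map_mul', S.pq, Matrix.map_one _ (map_zero _) (map_one _), Matrix.mul_one, T.pq]
  qp := by
    calc S.Q.map T.g * T.Q * (T.P * S.P.map T.g) = S.Q.map T.g * (T.Q * T.P) * S.P.map T.g := by
          simp only [Matrix.mul_assoc]
      _ = 1 := by
          rw [T.qp, Matrix.mul_one, ← T.map_mul', S.qp, Matrix.map_one _ (map_zero _) (map_one _)]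

theorem mul_act (S : SL n K) (X : Matrix (Fin n) (Fin n) K) : (T.mul S).act X = T.act (S.act X) := by
  unfold act mul
  simp only
  rw [T.map_mul', T.map_mul']
  have : X.map (S.g.trans T.g) = (X.map S.g).map T.g := by
    ext i j
    simp
  rw [this]
  simp only [Matrix.mul_assoc]

theorem mul_vec (S : SL n K) (v : Fin n → K) : (T.mul S).vec v = T.vec (S.vec v) := by
  unfold vec mul
  simp only
  rw [← Matrix.mulVec_mulVec]
  congr 1
  funext i
  simp only [Matrix.mulVec, dotProduct, Matrix.map_apply, map_sum, map_mul]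
  rfl

/-- a linear automorphism -/
def ofGL (u : (Matrix (Fin n) (Fin n) K)ˣ) : SL n K where
  P := u
  Q := ((u⁻¹ : (Matrix (Fin n) (Fin n) K)ˣ) : Matrix (Fin n) (Fin n) K)
  g := RingEquiv.refl K
  pq := u.mul_inv
  qp := u.inv_mul

theorem ofGL_act (u : (Matrix (Fin n) (Fin n) K)ˣ) (X : Matrix (Fin n) (Fin n) K) :
    (ofGL u).act X = u * X * ((u⁻¹ : (Matrix (Fin n) (Fin n) K)ˣ) : Matrix (Fin n) (Fin n) K) := by
  unfold act ofGL
  simp only
  congr 2

theorem ofGL_vec (u : (Matrix (Fin n) (Fin n) K)ˣ) (v : Fin n → K) :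
    (ofGL u).vec v = (u : Matrix (Fin n) (Fin n) K) *ᵥ v := rfl

end SL

end Pool.Agent.H943.DP
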