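import Pool.Agent.H943.DP.Multi
import Pool.Agent.H943.DP.Semi

/-!
# The determinant functions
-/

set_option autoImplicit false
set_option linter.unusedSectionVars false

open Module Matrix Function

noncomputable section

namespace Pool.Agent.H943.DP

variable {n : ℕ} {K : Type} [Field K]

abbrev Mt (n : ℕ) (K : Type) : Type := Matrix (Fin n) (Fin n) K

/-- the Gram matrix -/
def gm {d : ℕ} (X Z : Fin d → Mt n K) : Matrix (Fin d) (Fin d) K := Matrix.of fun a b => (X a * Z b).trace

theorem gm_upd {d : ℕ} (X Z : Fin d → Mt n K) (b : Fin d) (x : Mt n K) :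
    gm X (update Z b x) = (gm X Z).updateCol b fun a => (X a * x).trace := by
  ext i j
  unfold gm
  rw [of_apply, updateCol_apply]
  by_cases h : j = b
  · subst h
    rw [update_self, if_pos rfl]
  · rw [update_of_ne h, if_neg h, of_apply]

variable {J : Type} [Fintype J] [DecidableEq J] {d : J → ℕ}

/-- the slots -/
abbrev Sl (d : J → ℕ) : Type := Σ j : J, Fin (d j)

theorem gm_sl (X : ∀ j, Fin (d j) → Mt n K) (Z : Sl d → Mt n K) (s : Sl d) (x : Mt n K) (j : J) :
    gm (X j) (fun b => update Z s x ⟨j, b⟩) = if h : s.1 = j then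
      (gm (X j) (fun b => Z ⟨j, b⟩)).updateCol (h ▸ s.2) fun a => (X j a * x).trace
      else gm (X j) fun b => Z ⟨j, b⟩ := by
  obtain ⟨j', b'⟩ := s
  by_cases h : j' = j
  · subst h
    rw [dif_pos rfl, ← gm_upd]
    congr 1
    funext b
    by_cases hb : b = b'
    · subst hb
      rw [update_self, update_self]
    · rw [update_of_ne hb, update_of_ne]
      intro h
      apply hb
      simpa using h
  · rw [dif_neg h]
    congr 1
    funext b
    rw [update_of_ne]
    intro h'
    exact h (congrArg Sigma.fst h').symm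

/-- the product of the determinants -/
def yv (X : ∀ j, Fin (d j) → Mt n K) (Z : Sl d → Mt n K) : K :=
  ∏ j, (gm (X j) fun b => Z ⟨j, b⟩).det

theorem yv_upd (X : ∀ j, Fin (d j) → Mt n K) (Z : Sl d → Mt n K) (s : Sl d) (x : Mt n K) :
    yv X (update Z s x) = ((gm (X s.1) (fun b => Z ⟨s.1, b⟩)).updateCol s.2
      fun a => (X s.1 a * x).trace).det * ∏ j ∈ Finset.univ.erase s.1,
        (gm (X j) fun b => Z ⟨j, b⟩).det := by
  unfold yv
  rw [← Finset.mul_prod_erase _ _ (Finset.mem_univ s.1)]
  congr 1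
  · rw [gm_sl, dif_pos rfl]
  · refine Finset.prod_congr rfl fun j hj => ?_
    rw [gm_sl, dif_neg (Ne.symm (Finset.ne_of_mem_erase hj))]

/-- the function -/
def yf (X : ∀ j, Fin (d j) → Mt n K) : US K (Mt n K) (Sl d) :=
  (MultilinearMap.mk' (yv X) (by
    intro Z s x y
    rw [yv_upd, yv_upd, yv_upd, ← add_mul]
    congr 1
    rw [← det_updateCol_add]
    congr 2
    funext a
    rw [Matrix.mul_add, trace_add]
    rfl) (by
    intro Z s c x
    rw [yv_upd, yv_upd, smul_eq_mul, ← mul_assoc]
    congr 1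
    rw [← det_updateCol_smul]
    congr 2
    funext a
    rw [Matrix.mul_smul, trace_smul]
    rfl) : MultilinearMap K (fun _ : Sl d => Mt n K) K)

theorem yf_ev (X : ∀ j, Fin (d j) → Mt n K) (Z : Sl d → Mt n K) : (yf X).ev Z = yv X Z := rfl

/-- the product of entries -/
def xf (N : ℕ) (l : Fin n) : US K (Mt n K) (Fin N) :=
  ((MultilinearMap.mkPiAlgebra K (Fin N) K).compLinearMap fun _ =>
    (Matrix.entryLinearMap K K l l : Mt n K →ₗ[K] K) : MultilinearMap K (fun _ : Fin N => Mt n K) K)

theorem xf_ev (N : ℕ) (l : Fin n) (Z : Fin N → Mt n K) : (xf N l).ev Z = ∏ k, Z k l l := rfl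

/-- change of the vectors -/
theorem yv_change {X X' : ∀ j, Fin (d j) → Mt n K} (C : ∀ j, Matrix (Fin (d j)) (Fin (d j)) K)
    (h : ∀ j a, X' j a = ∑ b, C j a b • X j b) (Z : Sl d → Mt n K) :
    yv X' Z = (∏ j, (C j).det) * yv X Z := by
  unfold yv
  rw [← Finset.prod_mul_distrib]
  refine Finset.prod_congr rfl fun j _ => ?_
  rw [← det_mul]
  congr 1
  ext a b
  unfold gm
  rw [mul_apply, of_apply, h, Matrix.sum_mul, trace_sum]
  refine Finset.sum_congr rfl fun a' _ => ?_
  rw [Matrix.smul_mul, trace_smul, of_apply, smul_eq_mul]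

/-- the formula of Jacobi -/
theorem jacobi {m : ℕ} (C M : Matrix (Fin m) (Fin m) K) :
    ∑ b, (M.updateCol b fun a => (C * M) a b).det = C.trace * M.det := by
  have h1 : ∀ b, (M.updateCol b fun a => (C * M) a b).det = (M.adjugate * (C * M)) b b := by
    intro b
    rw [← cramer_apply, cramer_eq_adjugate_mulVec]
    rfl
  rw [Finset.sum_congr rfl fun b _ => h1 b]
  have h2 : ∑ b, (M.adjugate * (C * M)) b b = (M.adjugate * (C * M)).trace := rfl
  rw [h2, trace_mul_comm, Matrix.mul_assoc, mul_adjugate, Matrix.mul_smul, Matrix.mul_one, trace_smul,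
    smul_eq_mul, mul_comm]

end Pool.Agent.H943.DP
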