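import Pool.Agent.H943.DP.Gal
import Pool.Agent.H943.DP.Fun

/-!
# The descent
-/

set_option autoImplicit false
set_option linter.unusedSectionVars false

open Module Matrix Function

noncomputable section

namespace Pool.Agent.H943.DP

section

variable {n : ℕ} {K : Type} [Field K]

/-- a product of entries -/
def entp {N : ℕ} (i : Fin n) (J : Fin N → Fin n) : US K (Mt n K) (Fin N) :=
  ((MultilinearMap.mkPiAlgebra K (Fin N) K).compLinearMap fun k =>
    (Matrix.entryLinearMap K K i (J k) : Mt n K →ₗ[K] K) : MultilinearMap K (fun _ : Fin N => Mt n K) K)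

theorem entp_ev {N : ℕ} (i : Fin n) (J : Fin N → Fin n) (W : Fin N → Mt n K) :
    (entp i J).ev W = ∏ k, W k i (J k) := rfl

/-- the second factor -/
def Gm {N : ℕ} (y : Fin n → K) (ψ : (Fin N → Fin n) → K) : US K (Mt n K) (Fin N) :=
  ∑ i, y i • ∑ J, ψ J • entp i J

theorem Gm_ev {N : ℕ} (y : Fin n → K) (ψ : (Fin N → Fin n) → K) (W : Fin N → Mt n K) :
    (Gm y ψ).ev W = ∑ i, y i * ∑ J, ψ J * ∏ k, W k i (J k) := by
  unfold Gm
  rw [ev_sum]
  refine Finset.sum_congr rfl fun i _ => ?_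
  rw [ev_smul, ev_sum]
  rfl

/-- the change of the coefficients -/
def sh {N : ℕ} (A : Fin N → Mt n K) (ψ : (Fin N → Fin n) → K) : (Fin N → Fin n) → K :=
  fun J' => ∑ J, ψ J * ∏ k, A k (J' k) (J k)

theorem shift {N : ℕ} (A : Fin N → Mt n K) (ψ : (Fin N → Fin n) → K) (M : Fin N → Mt n K) (i : Fin n) :
    ∑ J, ψ J * ∏ k, (M k * A k) i (J k) = ∑ J', sh A ψ J' * ∏ k, M k i (J' k) := by
  have h1 : ∀ J : Fin N → Fin n, ∏ k, (M k * A k) i (J k) =
      ∑ J' : Fin N → Fin n, ∏ k, (M k i (J' k) * A k (J' k) (J k)) := by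
    intro J
    have h2 : ∀ k, (M k * A k) i (J k) = ∑ j' ∈ (Finset.univ : Finset (Fin n)),
        M k i j' * A k j' (J k) := fun k => rfl
    rw [Finset.prod_congr rfl fun k _ => h2 k, Finset.prod_univ_sum, Fintype.piFinset_univ]
  rw [Finset.sum_congr rfl fun J _ => by rw [h1 J, Finset.mul_sum], Finset.sum_comm]
  refine Finset.sum_congr rfl fun J' _ => ?_
  unfold sh
  rw [Finset.sum_mul]
  refine Finset.sum_congr rfl fun J _ => ?_
  rw [Finset.prod_mul_distrib]
  ring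

theorem Gm_shift {N : ℕ} (y : Fin n → K) (A : Fin N → Mt n K) (ψ : (Fin N → Fin n) → K)
    (M : Fin N → Mt n K) : (Gm y ψ).ev (fun k => M k * A k) = (Gm y (sh A ψ)).ev M := by
  rw [Gm_ev, Gm_ev]
  exact Finset.sum_congr rfl fun i _ => by rw [shift]

theorem Gm_add {N : ℕ} (y : Fin n → K) (ψ ψ' : (Fin N → Fin n) → K) (M : Fin N → Mt n K) :
    (Gm y (ψ + ψ')).ev M = (Gm y ψ).ev M + (Gm y ψ').ev M := by
  rw [Gm_ev, Gm_ev, Gm_ev, ← Finset.sum_add_distrib]
  refine Finset.sum_congr rfl fun i _ => ?_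
  rw [← mul_add, ← Finset.sum_add_distrib]
  congr 1
  refine Finset.sum_congr rfl fun J _ => ?_
  rw [Pi.add_apply, add_mul]

theorem Gm_smul {N : ℕ} (y : Fin n → K) (c : K) (ψ : (Fin N → Fin n) → K) (M : Fin N → Mt n K) :
    (Gm y (c • ψ)).ev M = c * (Gm y ψ).ev M := by
  rw [Gm_ev, Gm_ev, Finset.mul_sum]
  refine Finset.sum_congr rfl fun i _ => ?_
  have : ∑ J, (c • ψ) J * ∏ k, M k i (J k) = c * ∑ J, ψ J * ∏ k, M k i (J k) := by
    rw [Finset.mul_sum]
    refine Finset.sum_congr rfl fun J _ => ?_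
    rw [Pi.smul_apply, smul_eq_mul, mul_assoc]
  rw [this]
  ring

end

variable {F Ω B : Type} [Field F] [Field Ω] [Algebra F Ω] [Ring B] [Algebra F B] {n : ℕ}

/-- a nonzero multilinear function is nonzero on the algebra -/
theorem ev_nz (ρ : B →ₐ[F] Mt n Ω) (hspan : Submodule.span Ω (Set.range ρ) = ⊤) {S : Type} [Finite S]
    (f : US Ω (Mt n Ω) S) (hf : ∃ Z, f.ev Z ≠ 0) : ∃ z : S → B, f.ev (fun s => ρ (z s)) ≠ 0 := by
  by_contra hcon
  push Not at hcon
  obtain ⟨κ, a, -, h2, h3⟩ := exists_linearIndependent' Ω ρ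
  rw [hspan] at h2
  let b : Basis κ Ω (Mt n Ω) := Basis.mk h3 h2.ge
  have h4 : (f : MultilinearMap Ω (fun _ : S => Mt n Ω) Ω) = 0 := by
    refine Basis.ext_multilinear (fun _ => b) fun v => ?_
    have h5 : (fun i => b (v i)) = fun i => ρ (a (v i)) := by
      funext i
      rw [Basis.mk_apply]
      rfl
    rw [h5]
    exact hcon fun s => a (v s)
  obtain ⟨Z, hZ⟩ := hf
  apply hZ
  have : f = 0 := h4
  rw [this, ev_zero]

section

variable (ρ : B →ₐ[F] Mt n Ω) {S : Type} (N : ℕ) (Y : Fin n → US Ω (Mt n Ω) S)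

/-- the functions -/
def FF : ((Fin N → Fin n) → Ω) →ₗ[Ω] ((S → B) × (Fin N → B) → Ω) where
  toFun ψ x := (Gm (fun i => (Y i).ev fun s => ρ (x.1 s)) ψ).ev fun k => ρ (x.2 k)
  map_add' ψ ψ' := by
    funext x
    rw [Gm_add]
    rfl
  map_smul' c ψ := by
    funext x
    rw [Gm_smul]
    rfl

theorem FF_apply (ψ : (Fin N → Fin n) → Ω) (x : (S → B) × (Fin N → B)) :
    FF ρ N Y ψ x = (Gm (fun i => (Y i).ev fun s => ρ (x.1 s)) ψ).ev fun k => ρ (x.2 k) := rfl

theorem finrank_FF : finrank Ω (LinearMap.range (FF ρ N Y)) ≤ n ^ N := by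
  refine (LinearMap.finrank_range_le _).trans ?_
  rw [finrank_fintype_fun_eq_card, Fintype.card_fun, Fintype.card_fin, Fintype.card_fin]

theorem FF_nz (hspan : Submodule.span Ω (Set.range ρ) = ⊤) [Finite S] (hN : 0 < N) {j : Fin n}
    (hj : ∃ Z, (Y j).ev Z ≠ 0) : LinearMap.range (FF ρ N Y) ≠ ⊥ := by
  intro h
  obtain ⟨z, hz⟩ := ev_nz ρ hspan (Y j) hj
  obtain ⟨w, hw⟩ := ev_nz ρ hspan (Gm (N := N) (fun i => (Y i).ev fun s => ρ (z s))
      (Pi.single (fun _ => j) 1)) ⟨fun _ => Matrix.single j j 1, by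
    rw [Gm_ev, Finset.sum_eq_single j]
    · refine mul_ne_zero hz ?_
      rw [Finset.sum_eq_single (fun _ => j)]
      · rw [Pi.single_eq_same]
        simp
      · intro J _ hJ
        rw [Pi.single_eq_of_ne hJ, zero_mul]
      · intro h
        exact absurd (Finset.mem_univ _) h
    · intro i _ hi
      have : ∑ J : Fin N → Fin n, (Pi.single (fun _ => j) (1 : Ω) : (Fin N → Fin n) → Ω) J *
          ∏ k, (Matrix.single j j (1 : Ω)) i (J k) = 0 := by
        refine Finset.sum_eq_zero fun J _ => ?_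
        rw [Finset.prod_eq_zero (Finset.mem_univ (⟨0, hN⟩ : Fin N)), mul_zero]
        rw [Matrix.single_apply, if_neg]
        intro h
        exact hi h.1.symm
      rw [this, mul_zero]
    · intro h
      exact absurd (Finset.mem_univ _) h⟩
  apply hw
  have h1 : FF ρ N Y (Pi.single (fun _ => j) 1) ∈ LinearMap.range (FF ρ N Y) := ⟨_, rfl⟩
  rw [h, Submodule.mem_bot] at h1
  exact congrFun h1 (z, w)

theorem FF_gal (T : SL n Ω) (hTρ : ∀ b, T.act (ρ b) = ρ b) (κ : Ω) (p : Fin n → Fin n)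
    (hp : ∀ i j, T.P i j ≠ 0 → i = p j) (hp1 : ∀ j, T.P (p j) j * T.Q j (p j) = 1)
    (hp2 : ∀ i j, i ≠ p j → T.Q j i = 0) (hp3 : Function.Injective p)
    (hY : ∀ j Z, (∀ s, T.act (Z s) = Z s) → T.g ((Y j).ev Z) = κ * T.P (p j) j ^ N * (Y (p j)).ev Z)
    (ψ : (Fin N → Fin n) → Ω) : (fun x => T.g (FF ρ N Y ψ x)) ∈ LinearMap.range (FF ρ N Y) := by
  refine ⟨κ • sh (fun _ => T.P) (fun J => T.g (ψ J)), ?_⟩
  funext x
  rw [map_smul, Pi.smul_apply, FF_apply, FF_apply, smul_eq_mul, Gm_ev, Gm_ev, map_sum]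
  have h1 : ∀ b i j, T.g (ρ b i j) = T.Q i (p i) * (ρ b * T.P) (p i) j := by
    intro b i j
    have h2 : (ρ b).map T.g = T.Q * (ρ b * T.P) := by
      conv_rhs => rw [← hTρ b]
      unfold SL.act
      calc (ρ b).map T.g = (T.Q * T.P) * (ρ b).map T.g * (T.Q * T.P) := by
            rw [T.qp, Matrix.one_mul, Matrix.mul_one]
        _ = _ := by simp only [Matrix.mul_assoc]
    have h3 := congrFun (congrFun h2 i) j
    rw [map_apply] at h3
    rw [h3, Matrix.mul_apply, Finset.sum_eq_single (p i)]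
    · intro k _ hk
      rw [hp2 k i hk, zero_mul]
    · intro h
      exact absurd (Finset.mem_univ _) h
  have h2 : ∀ i, T.g ((Y i).ev (fun s => ρ (x.1 s)) * ∑ J, ψ J * ∏ k, ρ (x.2 k) i (J k)) =
      κ * ((Y (p i)).ev (fun s => ρ (x.1 s)) * ∑ J', sh (fun _ => T.P) (fun J => T.g (ψ J)) J' *
        ∏ k, ρ (x.2 k) (p i) (J' k)) := by
    intro i
    rw [map_mul, hY i _ (fun s => hTρ _), map_sum, ← shift]
    have h3 : ∀ J : Fin N → Fin n, T.g (ψ J * ∏ k, ρ (x.2 k) i (J k)) =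
        T.Q i (p i) ^ N * (T.g (ψ J) * ∏ k, (ρ (x.2 k) * T.P) (p i) (J k)) := by
      intro J
      rw [map_mul, map_prod, Finset.prod_congr rfl fun k _ => h1 (x.2 k) i (J k),
        Finset.prod_mul_distrib, Finset.prod_const, Finset.card_univ, Fintype.card_fin]
      ring
    rw [Finset.sum_congr rfl fun J _ => h3 J, ← Finset.mul_sum]
    have h4 : T.P (p i) i ^ N * T.Q i (p i) ^ N = 1 := by rw [← mul_pow, hp1, one_pow]
    linear_combination (κ * (Y (p i)).ev (fun s => ρ (x.1 s)) *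
      ∑ J, T.g (ψ J) * ∏ k, (ρ (x.2 k) * T.P) (p i) (J k)) * h4
  rw [Finset.sum_congr rfl fun i _ => h2 i, ← Finset.mul_sum]
  congr 1
  have hb : Function.Bijective p := Finite.injective_iff_bijective.1 hp3
  exact (Function.Bijective.sum_comp hb (fun i => (Y i).ev (fun s => ρ (x.1 s)) *
    ∑ J', sh (fun _ => T.P) (fun J => T.g (ψ J)) J' * ∏ k, ρ (x.2 k) i (J' k))).symm

/-- right multiplication in one slot -/
def rm (k : Fin N) (b : B) (x : (S → B) × (Fin N → B)) : (S → B) × (Fin N → B) :=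
  (x.1, update x.2 k (x.2 k * b))

theorem FF_rm (k : Fin N) (b : B) {f : (S → B) × (Fin N → B) → Ω} (hf : f ∈ LinearMap.range (FF ρ N Y)) :
    (fun x => f (rm N k b x)) ∈ LinearMap.range (FF ρ N Y) := by
  obtain ⟨ψ, rfl⟩ := hf
  refine ⟨sh (fun k' => update (1 : Fin N → Mt n Ω) k (ρ b) k') ψ, ?_⟩
  funext x
  rw [FF_apply, FF_apply, ← Gm_shift]
  unfold rm
  congr 1
  funext k'
  show ρ (x.2 k') * update (1 : Fin N → Mt n Ω) k (ρ b) k' = ρ (update x.2 k (x.2 k * b) k')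
  by_cases h : k' = k
  · subst h
    rw [update_self, update_self, map_mul]
  · rw [update_of_ne h, update_of_ne h, Pi.one_apply, mul_one]

theorem FF_add (k : Fin N) {f : (S → B) × (Fin N → B) → Ω} (hf : f ∈ LinearMap.range (FF ρ N Y))
    (z : S → B) (w : Fin N → B) (x y : B) :
    f (z, update w k (x + y)) = f (z, update w k x) + f (z, update w k y) := by
  obtain ⟨ψ, rfl⟩ := hf
  have h1 : ∀ x, (fun k' => ρ (update w k x k')) = update (fun k' => ρ (w k')) k (ρ x) := by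
    intro x
    funext k'
    by_cases h : k' = k
    · subst h
      rw [update_self, update_self]
    · rw [update_of_ne h, update_of_ne h]
  rw [FF_apply, FF_apply, FF_apply]
  simp only [h1]
  rw [map_add, ev_upd_add]

theorem FF_smul (k : Fin N) {f : (S → B) × (Fin N → B) → Ω} (hf : f ∈ LinearMap.range (FF ρ N Y))
    (z : S → B) (w : Fin N → B) (c : F) (x : B) :
    f (z, update w k (c • x)) = algebraMap F Ω c * f (z, update w k x) := by
  obtain ⟨ψ, rfl⟩ := hf
  have h1 : ∀ x, (fun k' => ρ (update w k x k')) = update (fun k' => ρ (w k')) k (ρ x) := by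
    intro x
    funext k'
    by_cases h : k' = k
    · subst h
      rw [update_self, update_self]
    · rw [update_of_ne h, update_of_ne h]
  rw [FF_apply, FF_apply]
  simp only [h1]
  rw [map_smul, ← ev_upd_smul, algebraMap_smul]

end

/-- the action of the algebra on the functions -/
def actF {S : Type} (N : ℕ) (V : Submodule Ω ((S → B) × (Fin N → B) → Ω)) (k : Fin N)
    (h1 : ∀ b, ∀ f ∈ V, (fun x => f (rm N k b x)) ∈ V)
    (h2 : ∀ f ∈ V, ∀ (z : S → B) (w : Fin N → B) (x y : B),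
      f (z, update w k (x + y)) = f (z, update w k x) + f (z, update w k y))
    (h3 : ∀ f ∈ V, ∀ (z : S → B) (w : Fin N → B) (c : F) (x : B),
      f (z, update w k (c • x)) = algebraMap F Ω c * f (z, update w k x)) :
    B →ₐ[F] Module.End F (VF F V) :=
  AlgHom.ofLinearMap
    { toFun := fun b =>
        { toFun := fun g => ⟨fun x => g.1 (rm N k b x), h1 b (fun x => algebraMap F Ω (g.1 x)) g.2⟩
          map_add' := fun _ _ => rfl
          map_smul' := fun _ _ => rfl }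
      map_add' := by
        intro b b'
        refine LinearMap.ext fun g => Subtype.ext (funext fun x => ?_)
        apply (algebraMap F Ω).injective
        show algebraMap F Ω ((g.1 : _ → F) (x.1, update x.2 k (x.2 k * (b + b')))) =
          algebraMap F Ω ((g.1 : _ → F) (x.1, update x.2 k (x.2 k * b)) +
            (g.1 : _ → F) (x.1, update x.2 k (x.2 k * b')))
        rw [map_add, mul_add]
        exact h2 _ g.2 x.1 x.2 _ _
      map_smul' := by
        intro c b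
        refine LinearMap.ext fun g => Subtype.ext (funext fun x => ?_)
        apply (algebraMap F Ω).injective
        show algebraMap F Ω ((g.1 : _ → F) (x.1, update x.2 k (x.2 k * (c • b)))) =
          algebraMap F Ω (c * (g.1 : _ → F) (x.1, update x.2 k (x.2 k * b)))
        rw [map_mul, mul_smul_comm]
        exact h3 _ g.2 x.1 x.2 _ _ }
    (by
      refine LinearMap.ext fun g => Subtype.ext (funext fun x => ?_)
      show (g.1 : _ → F) (x.1, update x.2 k (x.2 k * 1)) = (g.1 : _ → F) x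
      rw [mul_one, update_eq_self])
    (by
      intro b b'
      refine LinearMap.ext fun g => Subtype.ext (funext fun x => ?_)
      show (g.1 : _ → F) (x.1, update x.2 k (x.2 k * (b * b'))) =
        (g.1 : _ → F) (x.1, update (update x.2 k (x.2 k * b)) k (update x.2 k (x.2 k * b) k * b'))
      rw [update_self, update_idem, mul_assoc])

theorem actF_apply {S : Type} (N : ℕ) (V : Submodule Ω ((S → B) × (Fin N → B) → Ω)) (k : Fin N)
    (h1 : ∀ b, ∀ f ∈ V, (fun x => f (rm N k b x)) ∈ V)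
    (h2 : ∀ f ∈ V, ∀ (z : S → B) (w : Fin N → B) (x y : B),
      f (z, update w k (x + y)) = f (z, update w k x) + f (z, update w k y))
    (h3 : ∀ f ∈ V, ∀ (z : S → B) (w : Fin N → B) (c : F) (x : B),
      f (z, update w k (c • x)) = algebraMap F Ω c * f (z, update w k x)) (b : B) (g : VF F V)
    (x : (S → B) × (Fin N → B)) :
    (actF N V k h1 h2 h3 b g).1 x = (g.1 : _ → F) (rm N k b x) := rfl

/-- **The descent.** -/
theorem descent (hfix : ∀ x : Ω, (∀ γ : Ω ≃ₐ[F] Ω, γ x = x) → ∃ a : F, algebraMap F Ω a = x)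
    (ρ : B →ₐ[F] Mt n Ω) (hspan : Submodule.span Ω (Set.range ρ) = ⊤) {S : Type} [Finite S] {N : ℕ}
    (hN : 0 < N) (TT : (Ω ≃ₐ[F] Ω) → SL n Ω) (hg : ∀ γ x, (TT γ).g x = γ x)
    (hTT : ∀ γ b, (TT γ).act (ρ b) = ρ b) (Y : Fin n → US Ω (Mt n Ω) S) {j : Fin n}
    (hj : ∃ Z, (Y j).ev Z ≠ 0)
    (hY : ∀ γ, ∃ (κ : Ω) (p : Fin n → Fin n), (∀ i j, (TT γ).P i j ≠ 0 → i = p j) ∧
      (∀ j, (TT γ).P (p j) j * (TT γ).Q j (p j) = 1) ∧ (∀ i j, i ≠ p j → (TT γ).Q j i = 0) ∧
      Function.Injective p ∧ ∀ j Z, (∀ s, (TT γ).act (Z s) = Z s) →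
        (TT γ).g ((Y j).ev Z) = κ * (TT γ).P (p j) j ^ N * (Y (p j)).ev Z) :
    ∃ d : ℕ, 0 < d ∧ d ≤ n ^ N ∧ ∃ φ : Fin N → (B →ₐ[F] Matrix (Fin d) (Fin d) F),
      ∀ k k', k ≠ k' → ∀ b b', φ k b * φ k' b' = φ k' b' * φ k b := by
  set V := LinearMap.range (FF ρ N Y) with hV
  obtain ⟨e⟩ := gal_descent hfix V (by
    rintro γ f ⟨ψ, rfl⟩
    obtain ⟨κ, p, h1, h2, h3, h4, h5⟩ := hY γ
    have := FF_gal ρ N Y (TT γ) (hTT γ) κ p h1 h2 h3 h4 h5 ψ
    simp only [hg] at this
    exact this)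
  have hd : 0 < finrank Ω V := by
    rw [Nat.pos_iff_ne_zero]
    intro h
    exact FF_nz ρ N Y hspan hN hj (Submodule.finrank_eq_zero.1 h)
  let A : Fin N → (B →ₐ[F] Module.End F (VF F V)) := fun k =>
    actF N V k (fun b f hf => FF_rm ρ N Y k b hf) (fun f hf z w x y => FF_add ρ N Y k hf z w x y)
      (fun f hf z w c x => FF_smul ρ N Y k hf z w c x)
  let E : Module.End F (VF F V) ≃ₐ[F] Matrix (Fin (finrank Ω V)) (Fin (finrank Ω V)) F :=
    (e.conjAlgEquiv F).trans LinearMap.toMatrixAlgEquiv'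
  refine ⟨finrank Ω V, hd, finrank_FF ρ N Y, fun k => (E : _ →ₐ[F] _).comp (A k), ?_⟩
  intro k k' hkk b b'
  show E (A k b) * E (A k' b') = E (A k' b') * E (A k b)
  rw [← map_mul, ← map_mul]
  congr 1
  refine LinearMap.ext fun g => Subtype.ext (funext fun x => ?_)
  show (g.1 : _ → F) (x.1, update (update x.2 k (x.2 k * b)) k' (update x.2 k (x.2 k * b) k' * b')) =
    (g.1 : _ → F) (x.1, update (update x.2 k' (x.2 k' * b')) k (update x.2 k' (x.2 k' * b') k * b))
  rw [update_of_ne hkk.symm, update_of_ne hkk, update_comm hkk]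

end Pool.Agent.H943.DP
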