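import Pool.Agent.H943.DP.Fun

/-!
# Diagonal matrices
-/

set_option autoImplicit false
set_option linter.unusedSectionVars false

open Module Matrix Function

noncomputable section

namespace Pool.Agent.H943.DP

theorem exists_diag {n : ℕ} {Ω : Type} [Field Ω] [IsAlgClosed Ω] (X : Mt n Ω) (f : Polynomial Ω)
    (hf : Squarefree f) (hX : Polynomial.aeval X f = 0) :
    ∃ D E : Mt n Ω, D * E = 1 ∧ E * D = 1 ∧ ∃ xi : Fin n → Ω, E * X * D = diagonal xi := by
  classical
  let s : Module.End Ω (Fin n → Ω) := Matrix.toLinAlgEquiv' X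
  have hs : s.IsSemisimple := by
    refine Module.End.isSemisimple_of_squarefree_aeval_eq_zero (p := f) hf ?_
    have h1 : Polynomial.aeval s f = Matrix.toLinAlgEquiv' (Polynomial.aeval X f) :=
      Polynomial.aeval_algHom_apply (Matrix.toLinAlgEquiv' : Mt n Ω ≃ₐ[Ω] _) X f
    rw [h1, hX, map_zero]
  let eigenDecomp := DirectSum.isInternal_submodule_of_iSupIndep_of_iSup_eq_top
    s.eigenspaces_iSupIndep hs.iSup_eigenspace_eq_top
  let I := (ν : Ω) × Fin (finrank Ω (s.eigenspace ν))
  let v : Basis I Ω (Fin n → Ω) := eigenDecomp.collectedBasis fun μ => finBasis Ω (s.eigenspace μ)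
  have : Fintype I := FiniteDimensional.fintypeBasisIndex v
  have hsv (i : I) : s (v i) = i.1 • v i :=
    Module.End.mem_eigenspace_iff.mp (eigenDecomp.collectedBasis_mem _ i)
  have hcard : Fintype.card I = Fintype.card (Fin n) := by
    rw [← finrank_eq_card_basis v, finrank_fintype_fun_eq_card]
  let e : I ≃ Fin n := Fintype.equivOfCardEq hcard
  let w : Basis (Fin n) Ω (Fin n → Ω) := v.reindex e
  have hw : ∀ j, X *ᵥ (w j) = (e.symm j).1 • w j := by
    intro j
    have : w j = v (e.symm j) := Basis.reindex_apply _ _ _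
    rw [this]
    exact hsv (e.symm j)
  refine ⟨(Pi.basisFun Ω (Fin n)).toMatrix w, w.toMatrix (Pi.basisFun Ω (Fin n)),
    Basis.toMatrix_mul_toMatrix_flip _ _, Basis.toMatrix_mul_toMatrix_flip _ _,
    fun j => (e.symm j).1, ?_⟩
  have h1 : X * (Pi.basisFun Ω (Fin n)).toMatrix w =
      (Pi.basisFun Ω (Fin n)).toMatrix w * diagonal fun j => (e.symm j).1 := by
    ext i j
    rw [mul_diagonal]
    have h2 := congrFun (hw j) i
    rw [Pi.smul_apply, smul_eq_mul] at h2
    rw [mul_comm]
    exact h2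
  rw [Matrix.mul_assoc, h1, ← Matrix.mul_assoc, Basis.toMatrix_mul_toMatrix_flip, Matrix.one_mul]

end Pool.Agent.H943.DP
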