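import Pool.Agent.H943.DP.LieK
import Pool.Agent.H943.DP.Desc

/-!
# The theorem for a diagonal element
-/

set_option autoImplicit false
set_option linter.unusedSectionVars false

open Module Matrix Function

noncomputable section

namespace Pool.Agent.H943.DP

theorem pp_lcm {ι : Type} {n : ℕ} (hn : IsPrimePow n) (s : Finset ι) (f : ι → ℕ)
    (h0 : ∀ b ∈ s, f b ≠ 0) (h : n ∣ s.lcm f) : ∃ b ∈ s, n ∣ f b := by
  classical
  induction s using Finset.induction_on with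
  | empty =>
    rw [Finset.lcm_empty, Nat.dvd_one] at h
    exact absurd h hn.ne_one
  | insert a s ha ih =>
    rw [Finset.lcm_insert] at h
    have h1 : f a ≠ 0 := h0 a (Finset.mem_insert_self _ _)
    have h2 : s.lcm f ≠ 0 := by
      rw [Ne, Finset.lcm_eq_zero_iff]
      rintro ⟨b, hb, hb0⟩
      exact h0 b (Finset.mem_insert_of_mem hb) hb0
    obtain ⟨p, k, hp, hk, rfl⟩ := hn
    have hp' : p.Prime := Nat.prime_iff.2 hp
    have h3 : k ≤ (Nat.lcm (f a) (s.lcm f)).factorization p :=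
      (hp'.pow_dvd_iff_le_factorization (Nat.lcm_ne_zero h1 h2)).1 h
    rw [Nat.factorization_lcm h1 h2, Finsupp.sup_apply, le_sup_iff] at h3
    rcases h3 with h3 | h3
    · exact ⟨a, Finset.mem_insert_self _ _, (hp'.pow_dvd_iff_le_factorization h1).2 h3⟩
    · obtain ⟨b, hb, hb'⟩ := ih (fun b hb => h0 b (Finset.mem_insert_of_mem hb))
        ((hp'.pow_dvd_iff_le_factorization h2).2 h3)
      exact ⟨b, Finset.mem_insert_of_mem hb, hb'⟩

variable {F Ω B : Type} [Field F] [CharZero F] [Field Ω] [CharZero Ω] [Algebra F Ω] [Ring B] [Algebra F B]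
  [FiniteDimensional F B] {n : ℕ} {ρ : B →ₐ[F] Mt n Ω} {𝔨 : Submodule F B}

/-- the condition on the exponent -/
def Ex (F B : Type) [Field F] [Ring B] [Algebra F B] (n : ℕ) : Prop :=
  ∀ N r : ℕ, 0 < N → 0 < r → r ≤ n ^ N → ∀ φ : Fin N → (B →ₐ[F] Matrix (Fin r) (Fin r) F),
    (∀ k k', k ≠ k' → ∀ b b', φ k b * φ k' b' = φ k' b' * φ k b) → n ∣ N

theorem dvd_of_mach (hfix : ∀ x : Ω, (∀ γ : Ω ≃ₐ[F] Ω, γ x = x) → ∃ a : F, algebraMap F Ω a = x)
    (hspan : Submodule.span Ω (Set.range ρ) = ⊤)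
    (TT : (Ω ≃ₐ[F] Ω) → SL n Ω) (hg : ∀ γ x, (TT γ).g x = γ x)
    (hTT : ∀ γ b, (TT γ).act (ρ b) = ρ b) (hexp : Ex F B n) {x : B} {xi : Fin n → Ω}
    (hxi : ρ x = diagonal xi) (hS : Sett (LK ρ 𝔨) xi) (hT : Tra (LK ρ 𝔨) xi) {R : Type} [Fintype R]
    {r : MD (LK ρ 𝔨) xi R} {J : Type} [Fintype J] [DecidableEq J] {d : J → ℕ} {l : Fin n} {N : ℕ}
    {q : ∀ j, Fin (d j) → R} (M : Mach r l N q) (hN : 0 < N) : n ∣ N := by
  obtain ⟨Y, hY1, hY2⟩ := machine hS hT M
  obtain ⟨dd, h1, h2, φ, h3⟩ := descent hfix ρ hspan hN TT hg hTT Y (hY1 l) (fun γ => by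
    obtain ⟨κ, p, e1, e2⟩ := hY2 (TT γ) (LK_pre (hTT γ)) (by rw [← hxi]; exact hTT γ x)
    obtain ⟨e3, e4, e5⟩ := mono (TT γ) e1
    exact ⟨κ, p, e1, e3, e4, e5, e2⟩)
  exact hexp N dd hN h1 h2 φ h3

theorem tra_K [Normal F Ω] (TT : (Ω ≃ₐ[F] Ω) → SL n Ω) (hg : ∀ γ x, (TT γ).g x = γ x)
    (hTT : ∀ γ b, (TT γ).act (ρ b) = ρ b) [IsDomain B] {x : B} {xi : Fin n → Ω}
    (hxi : ρ x = diagonal xi) : Tra (LK ρ 𝔨) xi := by
  intro i j
  have hirr : Irreducible (minpoly F x) := minpoly.irreducible (Algebra.IsIntegral.isIntegral x)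
  have hmon : (minpoly F x).Monic := minpoly.monic (Algebra.IsIntegral.isIntegral x)
  have h1 : ∀ i, Polynomial.aeval (xi i) (minpoly F x) = 0 := by
    intro i
    have h2 : Polynomial.aeval (diagonal xi) (minpoly F x) = 0 := by
      rw [← hxi, Polynomial.aeval_algHom_apply, minpoly.aeval, map_zero]
    have h3 : ∀ p : Polynomial F, Polynomial.aeval (diagonal xi) p =
        diagonal fun i => Polynomial.aeval (xi i) p := by
      intro p
      have h4 := Polynomial.aeval_algHom_apply (Matrix.diagonalAlgHom F : (Fin n → Ω) →ₐ[F] Mt n Ω) xi p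
      rw [Matrix.diagonalAlgHom_apply] at h4
      rw [h4, Matrix.diagonalAlgHom_apply]
      congr 1
      funext i
      exact (Polynomial.aeval_algHom_apply (Pi.evalAlgHom F (fun _ : Fin n => Ω) i) xi p).symm
    rw [h3] at h2
    have h5 := congrFun (congrFun h2 i) i
    rw [diagonal_apply_eq] at h5
    exact h5
  have h2 : ∀ i, minpoly F x = minpoly F (xi i) := fun i =>
    minpoly.eq_of_irreducible_of_monic hirr (h1 i) hmon
  have h3 : IsConjRoot F (xi j) (xi i) := by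
    rw [isConjRoot_def, ← h2, ← h2]
  obtain ⟨γ, hγ⟩ := h3.exists_algEquiv
  exact ⟨TT γ, LK_pre (hTT γ), by rw [← hxi]; exact hTT γ x, by rw [hg]; exact hγ⟩

/-- the span is everything -/
theorem full_of (hn : finrank F B = n ^ 2) (h : SK ρ 𝔨 = ⊤) : 𝔨 = ⊤ := by
  refine Submodule.eq_top_of_finrank_eq ?_
  refine le_antisymm (Submodule.finrank_le 𝔨) ?_
  let w := finBasis F 𝔨
  have h1 : SK ρ 𝔨 ≤ Submodule.span Ω (Set.range fun j => ρ (w j : B)) := by
    unfold SK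
    rw [Submodule.span_le]
    rintro _ ⟨y, hy, rfl⟩
    have h3 : y = ∑ j, w.repr ⟨y, hy⟩ j • (w j : B) := by
      have h4 := congrArg Subtype.val (w.sum_repr ⟨y, hy⟩)
      rw [Submodule.coe_sum] at h4
      exact h4.symm
    rw [h3, map_sum]
    refine Submodule.sum_mem _ fun j _ => ?_
    rw [map_smul, ← algebraMap_smul Ω]
    exact Submodule.smul_mem _ _ (Submodule.subset_span ⟨j, rfl⟩)
  rw [h, top_le_iff] at h1
  have h2 := finrank_range_le_card (R := Ω) (fun j => ρ (w j : B))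
  unfold Set.finrank at h2
  rw [h1, finrank_top, finrank_matrix, finrank_self, Fintype.card_fin, mul_one, Fintype.card_fin] at h2
  rw [hn, pow_two]
  exact h2

/-- the Lie algebra contains the elementary matrices -/
theorem SK_top (h1 : (1 : B) ∈ 𝔨) (hbr : ∀ x ∈ 𝔨, ∀ y ∈ 𝔨, x * y - y * x ∈ 𝔨) (hn : 0 < n)
    (h : ∀ i j : Fin n, i ≠ j → Matrix.single i j (1 : Ω) ∈ SK ρ 𝔨) : SK ρ 𝔨 = ⊤ := by
  have hone : (1 : Mt n Ω) ∈ SK ρ 𝔨 := by
    have := SK_mem (ρ := ρ) h1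
    rwa [map_one] at this
  have hdd : ∀ i j : Fin n, Matrix.single i i (1 : Ω) - Matrix.single j j 1 ∈ SK ρ 𝔨 := by
    intro i j
    by_cases hij : i = j
    · subst hij
      rw [sub_self]
      exact Submodule.zero_mem _
    · have h2 := SK_br hbr _ (h i j hij) _ (h j i (Ne.symm hij))
      rwa [Matrix.single_mul_single_same, Matrix.single_mul_single_same, mul_one] at h2
  have hd : ∀ i : Fin n, Matrix.single i i (1 : Ω) ∈ SK ρ 𝔨 := by
    intro i
    have h2 : (n : Ω) • Matrix.single i i (1 : Ω) = 1 + ∑ j : Fin n, (Matrix.single i i (1 : Ω) -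
        Matrix.single j j 1) := by
      rw [Finset.sum_sub_distrib, Finset.sum_const, Finset.card_univ, Fintype.card_fin, Nat.cast_smul_eq_nsmul]
      have h3 : ∑ j : Fin n, Matrix.single j j (1 : Ω) = 1 := by
        ext a b
        rw [Matrix.sum_apply]
        by_cases hab : a = b
        · subst hab
          rw [one_apply_eq, Finset.sum_eq_single a]
          · rw [Matrix.single_apply_same]
          · intro j _ hj
            rw [Matrix.single_apply, if_neg fun h => hj h.1]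
          · intro h
            exact absurd (Finset.mem_univ _) h
        · rw [one_apply_ne hab]
          exact Finset.sum_eq_zero fun j _ => by
            rw [Matrix.single_apply, if_neg fun h => hab (h.1.symm.trans h.2)]
      rw [h3]
      abel
    have h3 : (n : Ω) ≠ 0 := by exact_mod_cast hn.ne'
    have h4 : Matrix.single i i (1 : Ω) = (n : Ω)⁻¹ • ((n : Ω) • Matrix.single i i (1 : Ω)) := by
      rw [smul_smul, inv_mul_cancel₀ h3, one_smul]
    rw [h4, h2]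
    exact Submodule.smul_mem _ _ (Submodule.add_mem _ hone (Submodule.sum_mem _ fun j _ => hdd i j))
  rw [eq_top_iff]
  intro X _
  rw [Matrix.matrix_eq_sum_single X]
  refine Submodule.sum_mem _ fun i _ => Submodule.sum_mem _ fun j _ => ?_
  have h2 : Matrix.single i j (X i j) = X i j • Matrix.single i j (1 : Ω) := by
    rw [Matrix.smul_single, smul_eq_mul, mul_one]
  rw [h2]
  refine Submodule.smul_mem _ _ ?_
  by_cases hij : i = j
  · subst hij
    exact hd i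
  · exact h i j hij

section

variable {xi : Fin n → Ω} {R : Type} [Fintype R]

/-- the roots of maximal Coxeter number -/
theorem case_a (h1 : (1 : B) ∈ 𝔨) (hbr : ∀ x ∈ 𝔨, ∀ y ∈ 𝔨, x * y - y * x ∈ 𝔨)
    (hS : Sett (LK ρ 𝔨) xi) (hT : Tra (LK ρ 𝔨) xi) (r : MD (LK ρ 𝔨) xi R) {a : R}
    (ha : (cd hS r hT).n4 a = 4 * n) (hA : ∀ b i k, r.m i b = 1 → r.m k b = 1 → i = k) :
    SK ρ 𝔨 = ⊤ := by
  refine SK_top h1 hbr hS.pos fun i j hij => ?_
  obtain ⟨b, -, hb, hb'⟩ := (cd hS r hT).diff (cd_inj hS hT r) ha hij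
  simp only [cd_m, cd_c] at hb hb'
  obtain ⟨i', j', hne⟩ : ∃ i' j', r.e b i' j' ≠ 0 := by
    by_contra hcon
    push Not at hcon
    exact r.e0 b (by ext i j; exact hcon i j)
  have key : ∀ i' j', r.e b i' j' ≠ 0 → i' = i ∧ j' = j := by
    intro i' j' hne
    have h2 := e_wt hS hT r hne
    have h3 : i' = i := hA b i' i h2.1 hb
    refine ⟨h3, xi_inj hS hT r (r.xi_m fun x => ?_)⟩
    have h4 := r.e_ne hne x
    rw [h3] at h4
    rw [hb', h4]
    ring
  obtain ⟨rfl, rfl⟩ := key i' j' hne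
  have h2 : r.e b = r.e b i' j' • Matrix.single i' j' (1 : Ω) := by
    ext a c
    rw [Matrix.smul_apply, smul_eq_mul]
    by_cases hac : r.e b a c = 0
    · by_cases h3 : i' = a ∧ j' = c
      · exfalso
        obtain ⟨rfl, rfl⟩ := h3
        exact hne hac
      · rw [Matrix.single_apply, if_neg h3, mul_zero, hac]
    · obtain ⟨rfl, rfl⟩ := key a c hac
      rw [Matrix.single_apply_same, mul_one]
  obtain ⟨z, hz⟩ : ∃ z, r.e b i' j' = z := ⟨_, rfl⟩
  rw [hz] at h2 hne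
  have h3 : Matrix.single i' j' (1 : Ω) = z⁻¹ • r.e b := by
    rw [h2, smul_smul, inv_mul_cancel₀ hne, one_smul]
  rw [h3]
  exact Submodule.smul_mem _ _ (mem_LK.1 (r.eL b)).1

end

/-- **The theorem for a diagonal element.** -/
theorem diag_case [IsAlgClosed Ω] [Normal F Ω] [IsDomain B]
    (hfix : ∀ x : Ω, (∀ γ : Ω ≃ₐ[F] Ω, γ x = x) → ∃ a : F, algebraMap F Ω a = x)
    (hn : finrank F B = n ^ 2) (hpp : IsPrimePow n)
    (hspan : Submodule.span Ω (Set.range ρ) = ⊤)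
    (TT : (Ω ≃ₐ[F] Ω) → SL n Ω) (hg : ∀ γ x, (TT γ).g x = γ x)
    (hTT : ∀ γ b, (TT γ).act (ρ b) = ρ b) (hexp : Ex F B n)
    (h1 : (1 : B) ∈ 𝔨) (hbr : ∀ x ∈ 𝔨, ∀ y ∈ 𝔨, x * y - y * x ∈ 𝔨)
    (hgen : Algebra.adjoin F (𝔨 : Set B) = ⊤) {x : B} (hx : x ∈ 𝔨) {xi : Fin n → Ω}
    (hxi : ρ x = diagonal xi) (htr : (diagonal xi).trace = 0)
    (hc : ∀ y ∈ 𝔨, x * y = y * x → y ∈ Algebra.adjoin F {x}) : 𝔨 = ⊤ := by
  classical
  have hn1 : 1 < n := hpp.one_lt
  have hn0 : 0 < n := by omega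
  have hS : Sett (LK ρ 𝔨) xi := sett_K hspan hn hn0 h1 hbr hgen hx hxi htr hc
  have hT : Tra (LK ρ 𝔨) xi := tra_K TT hg hTT hxi
  obtain ⟨R, _, ⟨r⟩⟩ := exists_md hS
  have hR : Nonempty R := by
    by_contra hcon
    rw [not_nonempty_iff] at hcon
    have h0 : ∀ X ∈ LK ρ 𝔨, X = 0 := by
      intro X hX
      obtain ⟨t, u, h⟩ := r.dec X hX
      rw [h]
      simp
    rcases hS.irr (Submodule.span Ω {(Pi.single ⟨0, hn0⟩ 1 : Fin n → Ω)}) (fun X hX u _ => by
      rw [h0 X hX, Matrix.zero_mulVec]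
      exact Submodule.zero_mem _) with h | h
    · rw [Submodule.span_singleton_eq_bot] at h
      have := congrFun h ⟨0, hn0⟩
      rw [Pi.single_eq_same] at this
      exact one_ne_zero this
    · have h2 : (Pi.single ⟨1, hn1⟩ 1 : Fin n → Ω) ∈
          Submodule.span Ω {(Pi.single ⟨0, hn0⟩ 1 : Fin n → Ω)} := by rw [h]; trivial
      obtain ⟨c, hc⟩ := Submodule.mem_span_singleton.1 h2
      have h3 := congrFun hc ⟨1, hn1⟩
      rw [Pi.smul_apply, Pi.single_eq_of_ne (by simp), smul_zero, Pi.single_eq_same] at h3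
      exact zero_ne_one h3
  -- the Coxeter numbers
  have hNb : ∀ b, ∃ N : ℕ, 0 < N ∧ (cd hS r hT).n4 b = 4 * N := (cd hS r hT).exists_N
  choose Nb hNb0 hNb using hNb
  let Λ : ℕ := Finset.univ.lcm Nb
  have hΛ : ∀ b, Nb b ∣ Λ := fun b => Finset.dvd_lcm (Finset.mem_univ b)
  have hΛ0 : 0 < Λ := by
    rw [Nat.pos_iff_ne_zero, Ne, Finset.lcm_eq_zero_iff]
    rintro ⟨b, -, hb⟩
    exact (hNb0 b).ne' hb
  let k : ℤ → ℕ := fun v => Λ / (v / 4).toNat
  have hk : ∀ b, (k ((cd hS r hT).n4 b) : ℤ) * (cd hS r hT).n4 b = 4 * Λ := by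
    intro b
    have e1 : ((cd hS r hT).n4 b / 4).toNat = Nb b := by
      rw [hNb]
      omega
    show ((Λ / ((cd hS r hT).n4 b / 4).toNat : ℕ) : ℤ) * (cd hS r hT).n4 b = 4 * Λ
    rw [e1, hNb]
    have e2 := Nat.div_mul_cancel (hΛ b)
    have e3 : ((Λ / Nb b : ℕ) : ℤ) * (Nb b : ℤ) = Λ := by exact_mod_cast e2
    linear_combination 4 * e3
  have hdvd : n ∣ Λ := dvd_of_mach hfix hspan TT hg hTT hexp hxi hS hT
    (mach_a hS hT r ⟨0, hn0⟩ Λ k hk) hΛ0
  obtain ⟨a, -, ha⟩ := pp_lcm hpp _ _ (fun b _ => (hNb0 b).ne') hdvd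
  have ha' : (cd hS r hT).n4 a = 4 * n := by
    have e1 := (cd hS r hT).bound a
    rw [hNb] at e1
    have e2 := Nat.le_of_dvd (hNb0 a) ha
    rw [hNb]
    omega
  refine full_of (ρ := ρ) hn ?_
  rcases (cd hS r hT).dich (cd_inj hS hT r) ha' with hA | hB
  · exact case_a h1 hbr hS hT r ha' hA
  · obtain ⟨b, hb⟩ := hB ⟨0, hn0⟩
    have hdvd2 : n ∣ 2 := dvd_of_mach hfix hspan TT hg hTT hexp hxi hS hT
      (mach_b hS hT r hb) (by norm_num)
    have hn2 : n = 2 := by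
      have := Nat.le_of_dvd (by norm_num) hdvd2
      omega
    refine case_a h1 hbr hS hT r ha' fun b i k hi hk => ?_
    by_contra hik
    have h2 : ({i, k} : Finset (Fin n)) = Finset.univ := by
      refine Finset.eq_univ_of_card _ ?_
      rw [Finset.card_pair hik, Fintype.card_fin, hn2]
    have h3 := (cd hS r hT).sum b
    simp only [cd_m] at h3
    rw [← h2, Finset.sum_pair hik, hi, hk] at h3
    norm_num at h3

end Pool.Agent.H943.DP
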