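import Mathlib

/-!
# Galois descent for spaces of functions
-/

set_option autoImplicit false
set_option linter.unusedSectionVars false

open Module Function

noncomputable section

namespace Pool.Agent.H943.DP

variable {F Ω X : Type} [Field F] [Field Ω] [Algebra F Ω]

/-- points which give coordinates -/
theorem exists_points (V : Submodule Ω (X → Ω)) [FiniteDimensional Ω V] :
    ∃ (κ : Type) (_ : Fintype κ) (x : κ → X), Fintype.card κ = finrank Ω V ∧
      (∀ f ∈ V, (∀ k, f (x k) = 0) → f = 0) ∧ ∀ c : κ → Ω, ∃ f ∈ V, ∀ k, f (x k) = c k := by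
  let E : X → Module.Dual Ω V := fun x => (LinearMap.proj x).comp V.subtype
  have hE : ∀ x (f : V), E x f = (f : X → Ω) x := fun _ _ => rfl
  have h1 : Submodule.span Ω (Set.range E) = ⊤ := by
    have h2 : (Submodule.span Ω (Set.range E)).dualCoannihilator = ⊥ := by
      rw [eq_bot_iff]
      intro f hf
      rw [Submodule.mem_dualCoannihilator] at hf
      rw [Submodule.mem_bot]
      apply Subtype.ext
      funext x
      exact hf (E x) (Submodule.subset_span ⟨x, rfl⟩)
    have h3 := Subspace.finrank_add_finrank_dualCoannihilator_eq (Submodule.span Ω (Set.range E))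
    rw [h2, finrank_bot, add_zero, ← Subspace.dual_finrank_eq] at h3
    exact Submodule.eq_top_of_finrank_eq h3
  obtain ⟨κ, a, -, h2, h3⟩ := exists_linearIndependent' Ω E
  rw [h1] at h2
  let b : Basis κ Ω (Module.Dual Ω V) := Basis.mk h3 h2.ge
  have : Fintype κ := FiniteDimensional.fintypeBasisIndex b
  have hcard : Fintype.card κ = finrank Ω V := by
    rw [← Subspace.dual_finrank_eq, finrank_eq_card_basis b]
  have hinj : ∀ f ∈ V, (∀ k, f (a k) = 0) → f = 0 := by
    intro f hf h
    have h4 : ∀ φ : Module.Dual Ω V, φ ⟨f, hf⟩ = 0 := by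
      intro φ
      have h5 : φ ∈ Submodule.span Ω (Set.range (E ∘ a)) := by rw [h2]; trivial
      induction h5 using Submodule.span_induction with
      | mem φ hφ =>
        obtain ⟨k, rfl⟩ := hφ
        exact h k
      | zero => rfl
      | add x y _ _ hx hy => rw [LinearMap.add_apply, hx, hy, add_zero]
      | smul c x _ hx => rw [LinearMap.smul_apply, hx, smul_zero]
    have h5 := (Module.forall_dual_apply_eq_zero_iff Ω (⟨f, hf⟩ : V)).1 h4
    exact congrArg Subtype.val h5
  refine ⟨κ, this, a, hcard, hinj, fun c => ?_⟩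
  let Φ : V →ₗ[Ω] (κ → Ω) := LinearMap.pi fun k => E (a k)
  have hΦ : Function.Injective Φ := by
    rw [← LinearMap.ker_eq_bot, LinearMap.ker_eq_bot']
    intro f hf
    exact Subtype.ext (hinj f.1 f.2 fun k => congrFun hf k)
  have hsurj : Function.Surjective Φ := by
    refine (LinearMap.injective_iff_surjective_of_finrank_eq_finrank ?_).1 hΦ
    rw [finrank_fintype_fun_eq_card, hcard]
  obtain ⟨f, hf⟩ := hsurj c
  exact ⟨f.1, f.2, fun k => congrFun hf k⟩

/-- the functions with values in the small field -/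
def VF (F : Type) [Field F] [Algebra F Ω] (V : Submodule Ω (X → Ω)) : Submodule F (X → F) where
  carrier := {g | (fun x => algebraMap F Ω (g x)) ∈ V}
  zero_mem' := by
    show (fun x => algebraMap F Ω 0) ∈ V
    simp only [map_zero]
    exact V.zero_mem
  add_mem' := by
    intro f g hf hg
    show (fun x => algebraMap F Ω (f x + g x)) ∈ V
    simp only [map_add]
    exact V.add_mem hf hg
  smul_mem' := by
    intro c f hf
    show (fun x => algebraMap F Ω (c * f x)) ∈ V
    simp only [map_mul]
    exact V.smul_mem (algebraMap F Ω c) hf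

theorem mem_VF {V : Submodule Ω (X → Ω)} {g : X → F} :
    g ∈ VF F V ↔ (fun x => algebraMap F Ω (g x)) ∈ V := Iff.rfl

/-- **Galois descent.** -/
theorem gal_descent (hfix : ∀ x : Ω, (∀ γ : Ω ≃ₐ[F] Ω, γ x = x) → ∃ a : F, algebraMap F Ω a = x)
    (V : Submodule Ω (X → Ω)) [FiniteDimensional Ω V]
    (hV : ∀ γ : Ω ≃ₐ[F] Ω, ∀ f ∈ V, (fun x => γ (f x)) ∈ V) :
    Nonempty (VF F V ≃ₗ[F] (Fin (finrank Ω V) → F)) := by
  obtain ⟨κ, _, x, hcard, hinj, hsurj⟩ := exists_points V
  let Φ : VF F V →ₗ[F] (κ → F) := (LinearMap.pi fun k => LinearMap.proj (x k)).comp (VF F V).subtype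
  have hΦ : ∀ g k, Φ g k = (g : X → F) (x k) := fun _ _ => rfl
  have h1 : Function.Injective Φ := by
    rw [← LinearMap.ker_eq_bot, LinearMap.ker_eq_bot']
    intro g hg
    have h2 := hinj _ g.2 fun k => by
      have : (g : X → F) (x k) = 0 := congrFun hg k
      show algebraMap F Ω ((g : X → F) (x k)) = 0
      rw [this, map_zero]
    apply Subtype.ext
    funext y
    have h3 := congrFun h2 y
    exact (map_eq_zero_iff _ (algebraMap F Ω).injective).1 h3
  have h2 : Function.Surjective Φ := by
    intro c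
    obtain ⟨f, hf, hfc⟩ := hsurj fun k => algebraMap F Ω (c k)
    have h3 : ∀ y, ∃ a : F, algebraMap F Ω a = f y := by
      intro y
      apply hfix
      intro γ
      have h4 := hinj _ (V.sub_mem (hV γ f hf) hf) fun k => by
        rw [Pi.sub_apply, hfc, AlgEquiv.commutes, sub_self]
      have h5 := congrFun h4 y
      rw [Pi.sub_apply, Pi.zero_apply] at h5
      exact sub_eq_zero.1 h5
    choose g hg using h3
    refine ⟨⟨g, ?_⟩, ?_⟩
    · rw [mem_VF]
      have : (fun y => algebraMap F Ω (g y)) = f := funext hg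
      rw [this]
      exact hf
    · funext k
      apply (algebraMap F Ω).injective
      rw [hΦ]
      show algebraMap F Ω (g (x k)) = _
      rw [hg, hfc]
  have e : VF F V ≃ₗ[F] (κ → F) := LinearEquiv.ofBijective Φ ⟨h1, h2⟩
  have e2 : κ ≃ Fin (finrank Ω V) := Fintype.equivFinOfCardEq hcard
  exact ⟨e.trans (LinearEquiv.funCongrLeft F F e2.symm)⟩

end Pool.Agent.H943.DP
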