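import Pool.Agent.H943.DP.Wt
import Pool.Agent.H943.DP.Pbw

/-!
# The weights have multiplicity one
-/

set_option autoImplicit false
set_option linter.unusedSectionVars false

open Module Matrix

noncomputable section

namespace Pool.Agent.H943.DP

variable {n : ℕ} {K : Type} [Field K] [CharZero K] {L : Submodule K (Matrix (Fin n) (Fin n) K)}
    {xi : Fin n → K} {R : Type} [Fintype R]

/-- the nilpotent part below the weight `l` -/
def qs (r : MD L xi R) (l : Fin n) : Set (Matrix (Fin n) (Fin n) K) := {Y | ∃ a, r.m l a = -1 ∧ Y = r.e a}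

/-- the parabolic part -/
def ps (r : MD L xi R) (l : Fin n) : Set (Matrix (Fin n) (Fin n) K) :=
  {Y | (∃ a, Y = diagonal (r.h a)) ∨ ∃ a, 0 ≤ r.m l a ∧ Y = r.e a}

theorem ps_le (r : MD L xi R) (l : Fin n) : Submodule.span K (ps r l) ≤ L := by
  rw [Submodule.span_le]
  rintro _ (⟨a, rfl⟩ | ⟨a, -, rfl⟩)
  · exact r.hL a
  · exact r.eL a

theorem qs_le (r : MD L xi R) (l : Fin n) : Submodule.span K (qs r l) ≤ L := by
  rw [Submodule.span_le]
  rintro _ ⟨a, -, rfl⟩
  exact r.eL a

variable (hS : Sett L xi) (hT : Tra L xi)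

include hS hT

theorem pq_top (r : MD L xi R) (l : Fin n) :
    L ≤ Submodule.span K (ps r l) ⊔ Submodule.span K (qs r l) := by
  intro X hX
  obtain ⟨t, u, rfl⟩ := r.dec X hX
  refine Submodule.add_mem _ (Submodule.mem_sup_left ?_) ?_
  · exact Submodule.sum_mem _ fun a _ => Submodule.smul_mem _ _
      (Submodule.subset_span (Or.inl ⟨a, rfl⟩))
  · refine Submodule.sum_mem _ fun a _ => Submodule.smul_mem _ _ ?_
    have h := (cd hS r hT).abs_m l a
    rw [cd_m] at h
    rcases h with h | h | h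
    · exact Submodule.mem_sup_left (Submodule.subset_span (Or.inr ⟨a, by omega, rfl⟩))
    · exact Submodule.mem_sup_left (Submodule.subset_span (Or.inr ⟨a, by omega, rfl⟩))
    · exact Submodule.mem_sup_right (Submodule.subset_span ⟨a, h, rfl⟩)

theorem e_kill (r : MD L xi R) {l : Fin n} {a : R} (h : 0 ≤ r.m l a) (j : Fin n) :
    r.e a j l = 0 := by
  by_contra hne
  have h1 := r.e_ne hne a
  have h2 := (cd hS r hT).abs_m j a
  rw [cd_m] at h2
  rw [r.two] at h1
  omega

omit hS hT in
/-- the grading element -/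
def hh (r : MD L xi R) (l : Fin n) : Matrix (Fin n) (Fin n) K :=
  ∑ b, (r.m l b : K) • diagonal (r.h b)

omit hS hT in
theorem hh_mem (r : MD L xi R) (l : Fin n) : hh r l ∈ L :=
  Submodule.sum_mem _ fun b _ => Submodule.smul_mem _ _ (r.hL b)

omit hS hT in
theorem hh_e (r : MD L xi R) (l : Fin n) (a : R) :
    hh r l * r.e a - r.e a * hh r l = ((∑ b, r.m l b * r.c a b : ℤ) : K) • r.e a := by
  unfold hh
  rw [Matrix.sum_mul, Matrix.mul_sum, ← Finset.sum_sub_distrib, Int.cast_sum, Finset.sum_smul]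
  refine Finset.sum_congr rfl fun b _ => ?_
  rw [Matrix.smul_mul, Matrix.mul_smul, ← smul_sub, r.he, smul_smul, Int.cast_mul]

omit hS hT in
theorem hh_diag (r : MD L xi R) (l : Fin n) :
    hh r l = diagonal fun j => ((∑ b, r.m l b * r.m j b : ℤ) : K) := by
  unfold hh
  ext i j
  by_cases hij : i = j
  · subst hij
    rw [diagonal_apply_eq, Matrix.sum_apply, Int.cast_sum]
    refine Finset.sum_congr rfl fun b _ => ?_
    rw [Matrix.smul_apply, diagonal_apply_eq, r.hm, smul_eq_mul, Int.cast_mul]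
  · rw [diagonal_apply_ne _ hij, Matrix.sum_apply]
    exact Finset.sum_eq_zero fun b _ => by
      rw [Matrix.smul_apply, diagonal_apply_ne _ hij, smul_zero]

theorem grade (r : MD L xi R) {l : Fin n} {a : R} (h : r.m l a = -1) :
    0 < -(∑ b, r.m l b * r.c a b) := by
  classical
  have h1 := (cd hS r hT).b1 (v := (cd hS r hT).n4 a) (a := a) ((cd hS r hT).lin_m l)
  have h2 := (cd hS r hT).Qaa_pos (a := a)
  rw [cd_m, h] at h1
  have h3 : (cd hS r hT).Q ((cd hS r hT).n4 a) ((cd hS r hT).c a) (r.m l) =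
      ∑ b, r.m l b * r.c a b := by
    unfold CD.Q
    rw [Finset.sum_filter]
    refine Finset.sum_congr rfl fun b _ => ?_
    rw [cd_c]
    by_cases h4 : r.c a b = 0
    · rw [h4, zero_mul, mul_zero, ite_self]
    · rw [if_pos ((cd hS r hT).k4 h4).symm, mul_comm]
  rw [h3] at h1
  omega

/-- **The diagonal element has different entries.** -/
theorem xi_inj (r : MD L xi R) {i j : Fin n} (hij : xi i = xi j) : i = j := by
  let D : Matrix (Fin n) (Fin n) K →ₗ[K] Module.End K (Fin n → K) :=
    (Matrix.toLinAlgEquiv' : Matrix (Fin n) (Fin n) K ≃ₐ[K] _).toLinearMap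
  have hDa : ∀ X v, D X v = X *ᵥ v := fun X v => rfl
  obtain ⟨N, h1, h2, h3⟩ := pbw D L (Submodule.span K (ps r i)) (Submodule.span K (qs r i))
    (ps_le r i) (qs_le r i) (pq_top hS hT r i) hS.br (fun X _ Y _ => by
      show Matrix.toLinAlgEquiv' X * Matrix.toLinAlgEquiv' Y -
        Matrix.toLinAlgEquiv' Y * Matrix.toLinAlgEquiv' X = Matrix.toLinAlgEquiv' (X * Y - Y * X)
      rw [map_sub, map_mul, map_mul]) (Pi.single i 1) (fun X hX => by
      induction hX using Submodule.span_induction with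
      | mem X hX =>
        rcases hX with ⟨a, rfl⟩ | ⟨a, ha, rfl⟩
        · refine ⟨r.h a i, ?_⟩
          rw [hDa, diagonal_mulVec_single, mul_one, ← Pi.single_smul', smul_eq_mul, mul_one]
        · refine ⟨0, ?_⟩
          rw [hDa, mulVec_single_one, zero_smul]
          funext k
          exact e_kill hS hT r ha k
      | zero => exact ⟨0, by rw [map_zero, zero_smul, LinearMap.zero_apply]⟩
      | add a b _ _ ha hb =>
        obtain ⟨k, hk⟩ := ha
        obtain ⟨k', hk'⟩ := hb
        exact ⟨k + k', by rw [map_add, LinearMap.add_apply, hk, hk', add_smul]⟩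
      | smul c a _ ha =>
        obtain ⟨k, hk⟩ := ha
        exact ⟨c * k, by rw [map_smul, LinearMap.smul_apply, hk, smul_smul]⟩)
  have h4 : N = ⊤ := by
    refine (hS.irr N h2).resolve_left fun h => ?_
    rw [h, Submodule.mem_bot] at h1
    have := congrFun h1 i
    rw [Pi.single_eq_same] at this
    exact one_ne_zero this
  have hDh : ∀ k, D (hh r i) (Pi.single k 1) =
      ((∑ b, r.m i b * r.m k b : ℤ) : K) • (Pi.single k 1 : Fin n → K) := by
    intro k
    rw [hDa, hh_diag, diagonal_mulVec_single, mul_one, ← Pi.single_smul', smul_eq_mul, mul_one]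
  obtain ⟨k, hk⟩ := top_unique D (qs r i) N (Pi.single i 1) h3 (D (hh r i))
    (∑ b, r.m i b * r.m i b) (hDh i) (by
      rintro _ ⟨a, ha, rfl⟩
      refine ⟨_, grade hS hT r ha, ?_⟩
      have h5 : D (hh r i) * D (r.e a) - D (r.e a) * D (hh r i) =
          D (hh r i * r.e a - r.e a * hh r i) := by
        show Matrix.toLinAlgEquiv' _ * Matrix.toLinAlgEquiv' _ -
          Matrix.toLinAlgEquiv' _ * Matrix.toLinAlgEquiv' _ = Matrix.toLinAlgEquiv' _
        rw [map_sub, map_mul, map_mul]
      rw [h5, hh_e, map_smul, Int.cast_neg]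
      module) (u := Pi.single j 1)
    (by rw [h4]; trivial) (by
      rw [hDh j]
      congr 2
      exact Finset.sum_congr rfl fun b _ => by rw [r.m_xi hij])
  by_contra hne
  have h5 := congrFun hk j
  rw [Pi.single_eq_same, Pi.smul_apply, Pi.single_eq_of_ne (Ne.symm hne), smul_zero] at h5
  exact one_ne_zero h5

theorem cd_inj (r : MD L xi R) : (cd hS r hT).Inj := fun _ _ h => xi_inj hS hT r (r.xi_m h)

end Pool.Agent.H943.DP
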