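import Pool.Agent.H943.DP.Act
import Pool.Agent.H943.DP.One

/-!
# The group generated by the exponentials
-/

set_option autoImplicit false
set_option linter.unusedSectionVars false

open Module Matrix Function

noncomputable section

namespace Pool.Agent.H943.DP

variable {n : ℕ} {K : Type} [Field K] [CharZero K] {J : Type} [Fintype J] [DecidableEq J] {d : J → ℕ}

/-- the group generated by the unipotent elements `1 + X`, `X² = 0` -/
def UU (L : Submodule K (Mt n K)) : Submonoid (Mt n K)ˣ :=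
  Submonoid.closure {u | ∃ X ∈ L, X * X = 0 ∧ (u : Mt n K) = 1 + X}

theorem unip {X : Mt n K} (hX : X * X = 0) : ∃ u : (Mt n K)ˣ, (u : Mt n K) = 1 + X ∧
    ((u⁻¹ : (Mt n K)ˣ) : Mt n K) = 1 - X := by
  refine ⟨⟨1 + X, 1 - X, ?_, ?_⟩, rfl, rfl⟩
  · have : (1 + X) * (1 - X) = 1 - X * X := by noncomm_ring
    rw [this, hX, sub_zero]
  · have : (1 - X) * (1 + X) = 1 - X * X := by noncomm_ring
    rw [this, hX, sub_zero]

theorem inv_unip {X : Mt n K} (hX : X * X = 0) {u : (Mt n K)ˣ} (hu : (u : Mt n K) = 1 + X) :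
    ((u⁻¹ : (Mt n K)ˣ) : Mt n K) = 1 - X := by
  obtain ⟨u', h1, h2⟩ := unip hX
  have : u = u' := Units.ext (hu.trans h1.symm)
  rw [this, h2]

/-- stable subspaces of an algebra of matrices -/
theorem conj_mem {L : Submodule K (Mt n K)} (V : Submodule K (Mt n K))
    (hV : ∀ X ∈ L, ∀ Y ∈ V, X * Y - Y * X ∈ V) {X : Mt n K} (hXL : X ∈ L) (hX : X * X = 0)
    {Y : Mt n K} (hY : Y ∈ V) : (1 + X) * Y * (1 - X) ∈ V := by
  have h1 := hV X hXL Y hY
  have h2 := hV X hXL _ h1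
  have h3 : (1 + X) * Y * (1 - X) = Y + (X * Y - Y * X) +
      (2⁻¹ : K) • (X * (X * Y - Y * X) - (X * Y - Y * X) * X) := by
    have h4 : X * (X * Y - Y * X) - (X * Y - Y * X) * X =
        (X * X) * Y + Y * (X * X) - (2 : K) • (X * Y * X) := by
      rw [two_smul]
      noncomm_ring
    rw [h4, hX, zero_mul, mul_zero, zero_add, zero_sub, smul_neg, smul_smul,
      inv_mul_cancel₀ (two_ne_zero), one_smul]
    noncomm_ring
  rw [h3]
  exact V.add_mem (V.add_mem hY h1) (V.smul_mem _ h2)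

theorem UU_conj {L : Submodule K (Mt n K)} (V : Submodule K (Mt n K))
    (hV : ∀ X ∈ L, ∀ Y ∈ V, X * Y - Y * X ∈ V) {u : (Mt n K)ˣ} (hu : u ∈ UU L) :
    ∀ Y ∈ V, (u : Mt n K) * Y * ((u⁻¹ : (Mt n K)ˣ) : Mt n K) ∈ V := by
  refine Submonoid.closure_induction (motive := fun (u : (Mt n K)ˣ) _ => ∀ Y ∈ V, (u : Mt n K) * Y *
    ((u⁻¹ : (Mt n K)ˣ) : Mt n K) ∈ V) ?_ ?_ ?_ hu
  · rintro u ⟨X, hXL, hX, h1⟩ Y hY
    rw [inv_unip hX h1, h1]
    exact conj_mem V hV hXL hX hY
  · intro Y hY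
    simpa using hY
  · intro u v _ _ hu hv Y hY
    have h1 : ((u * v : (Mt n K)ˣ) : Mt n K) * Y * (((u * v)⁻¹ : (Mt n K)ˣ) : Mt n K) =
        u * (v * Y * ((v⁻¹ : (Mt n K)ˣ) : Mt n K)) * ((u⁻¹ : (Mt n K)ˣ) : Mt n K) := by
      rw [_root_.mul_inv_rev, Units.val_mul, Units.val_mul]
      simp only [Matrix.mul_assoc]
    rw [h1]
    exact hu _ (hv _ hY)

theorem UU_inv {L : Submodule K (Mt n K)} {u : (Mt n K)ˣ} (hu : u ∈ UU L) : u⁻¹ ∈ UU L := by
  refine Submonoid.closure_induction (motive := fun (u : (Mt n K)ˣ) _ => u⁻¹ ∈ UU L) ?_ ?_ ?_ hu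
  · rintro u ⟨X, hXL, hX, h1⟩
    refine Submonoid.subset_closure ⟨-X, L.neg_mem hXL, ?_, ?_⟩
    · rw [neg_mul_neg, hX]
    · rw [inv_unip hX h1, sub_eq_add_neg]
  · rw [inv_one]
    exact Submonoid.one_mem _
  · intro u v _ _ hu hv
    rw [_root_.mul_inv_rev]
    exact Submonoid.mul_mem _ hv hu

/-- right multiplication by a unit -/
def G0 (u : (Mt n K)ˣ) : Module.End K (Mt n K) := LinearMap.mulRight K (u : Mt n K)

/-- conjugation -/
def G1 (u : (Mt n K)ˣ) : Module.End K (Mt n K) :=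
  LinearMap.mulLeft K ((u⁻¹ : (Mt n K)ˣ) : Mt n K) * LinearMap.mulRight K (u : Mt n K)

theorem G0_apply (u : (Mt n K)ˣ) (Z : Mt n K) : G0 u Z = Z * u := rfl

theorem G1_apply (u : (Mt n K)ˣ) (Z : Mt n K) :
    G1 u Z = ((u⁻¹ : (Mt n K)ˣ) : Mt n K) * (Z * u) := rfl

/-- the pair of spaces of functions -/
abbrev W2 (n : ℕ) (K : Type) [Field K] (N : ℕ) (S : Type) : Type :=
  US K (Mt n K) (Fin N) × US K (Mt n K) S

/-- the action of the Lie algebra -/
def DD (N : ℕ) (d : J → ℕ) : Mt n K →ₗ[K] Module.End K (W2 n K N (Sl d)) where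
  toFun X := LinearMap.prodMap (Der (A0 X)) (Der (A1 X))
  map_add' X Y := by
    refine LinearMap.ext fun f => ?_
    simp only [map_add, LinearMap.prodMap_apply, LinearMap.add_apply, Prod.mk_add_mk]
  map_smul' c X := by
    refine LinearMap.ext fun f => ?_
    simp only [map_smul, LinearMap.prodMap_apply, LinearMap.smul_apply, Prod.smul_mk,
      RingHom.id_apply]

theorem DD_apply (N : ℕ) (X : Mt n K) (f : W2 n K N (Sl d)) :
    DD N d X f = (Der (A0 X) f.1, Der (A1 X) f.2) := rfl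

theorem DD_br (N : ℕ) (X Y : Mt n K) :
    DD N d X * DD N d Y - DD N d Y * DD N d X = DD N d (X * Y - Y * X) := by
  refine LinearMap.ext fun f => ?_
  rw [LinearMap.sub_apply, Module.End.mul_apply, Module.End.mul_apply, DD_apply, DD_apply, DD_apply,
    DD_apply, DD_apply]
  have h1 := congrArg (fun T : Module.End K (US K (Mt n K) (Fin N)) => T f.1) (Der_br (A0 X) (A0 Y))
  have h2 := congrArg (fun T : Module.End K (US K (Mt n K) (Sl d)) => T f.2) (Der_br (A1 X) (A1 Y))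
  simp only [LinearMap.sub_apply, Module.End.mul_apply] at h1 h2
  rw [A0_br] at h1
  rw [A1_br] at h2
  rw [← h1, ← h2]
  rfl

theorem grp_stab {L : Submodule K (Mt n K)} {N : ℕ} (V : Submodule K (W2 n K N (Sl d)))
    (hV : ∀ X ∈ L, ∀ f ∈ V, DD N d X f ∈ V) {u : (Mt n K)ˣ} (hu : u ∈ UU L) :
    ∀ f ∈ V, ((Cm (fun _ => G0 u) f.1, Cm (fun _ => G1 u) f.2) : W2 n K N (Sl d)) ∈ V := by
  refine Submonoid.closure_induction (motive := fun (u : (Mt n K)ˣ) _ => ∀ f ∈ V,
    ((Cm (fun _ => G0 u) f.1, Cm (fun _ => G1 u) f.2) : W2 n K N (Sl d)) ∈ V) ?_ ?_ ?_ hu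
  · rintro u ⟨X, hXL, hX, h1⟩ f hf
    have e1 : (fun _ : Fin N => G0 u) = fun _ => IsNilpotent.exp (A0 X) := by
      funext _
      refine LinearMap.ext fun Z => ?_
      rw [exp_A0 hX, G0_apply, h1]
    have e2 : (fun _ : Sl d => G1 u) = fun _ => IsNilpotent.exp (A1 X) := by
      funext _
      refine LinearMap.ext fun Z => ?_
      rw [exp_A1 hX, G1_apply, h1, inv_unip hX h1, ← Matrix.mul_assoc]
    have n0 : IsNilpotent (A0 X) := ⟨2, A0_sq hX⟩
    have n1 : IsNilpotent (A1 X) := ⟨3, A1_cu hX⟩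
    rw [e1, e2, ← exp_Der n0, ← exp_Der n1]
    obtain ⟨k0, hk0⟩ := isNil_Der (S := Fin N) n0
    obtain ⟨k1, hk1⟩ := isNil_Der (S := Sl d) n1
    rw [IsNilpotent.exp_eq_sum (k := k0 + k1) (by rw [pow_add, hk0, zero_mul]),
      IsNilpotent.exp_eq_sum (k := k0 + k1) (by rw [pow_add, hk1, mul_zero])]
    have hpow : ∀ i, ((Der (A0 X) ^ i) f.1, (Der (A1 X) ^ i) f.2) ∈ V := by
      intro i
      induction i with
      | zero => exact hf
      | succ i ih =>
        rw [pow_succ', pow_succ', Module.End.mul_apply, Module.End.mul_apply]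
        exact hV X hXL _ ih
    have h2 : ∀ s : Finset ℕ, (((∑ i ∈ s, (i.factorial : ℚ)⁻¹ • Der (A0 X) ^ i) f.1,
        (∑ i ∈ s, (i.factorial : ℚ)⁻¹ • Der (A1 X) ^ i) f.2) : W2 n K N (Sl d)) ∈ V := by
      intro s
      induction s using Finset.induction_on with
      | empty =>
        rw [Finset.sum_empty, Finset.sum_empty]
        exact V.zero_mem
      | insert a s ha ih =>
        rw [Finset.sum_insert ha, Finset.sum_insert ha]
        have h3 := V.smul_mem (((a.factorial : ℚ)⁻¹ : ℚ) : K) (hpow a)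
        have h4 := V.add_mem h3 ih
        have h5 : ((((a.factorial : ℚ)⁻¹ : ℚ) : K) • (((Der (A0 X) ^ a) f.1,
            (Der (A1 X) ^ a) f.2) : W2 n K N (Sl d)) +
            (((∑ i ∈ s, (i.factorial : ℚ)⁻¹ • Der (A0 X) ^ i) f.1,
        (∑ i ∈ s, (i.factorial : ℚ)⁻¹ • Der (A1 X) ^ i) f.2) : W2 n K N (Sl d))) =
          (((a.factorial : ℚ)⁻¹ • Der (A0 X) ^ a +
            ∑ i ∈ s, (i.factorial : ℚ)⁻¹ • Der (A0 X) ^ i :
              Module.End K (US K (Mt n K) (Fin N))) f.1,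
          ((a.factorial : ℚ)⁻¹ • Der (A1 X) ^ a +
            ∑ i ∈ s, (i.factorial : ℚ)⁻¹ • Der (A1 X) ^ i :
              Module.End K (US K (Mt n K) (Sl d))) f.2) := by
          refine Prod.ext ?_ ?_
          · show (((a.factorial : ℚ)⁻¹ : ℚ) : K) • (Der (A0 X) ^ a) f.1 + _ = _
            rw [Rat.cast_smul_eq_qsmul]
            rfl
          · show (((a.factorial : ℚ)⁻¹ : ℚ) : K) • (Der (A1 X) ^ a) f.2 + _ = _
            rw [Rat.cast_smul_eq_qsmul]
            rfl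
        rw [← h5]
        exact h4
    exact h2 _
  · intro f hf
    have e1 : (fun _ : Fin N => G0 (1 : (Mt n K)ˣ)) = 1 := by
      funext _
      refine LinearMap.ext fun Z => ?_
      rw [G0_apply, Units.val_one, Matrix.mul_one]
      rfl
    have e2 : (fun _ : Sl d => G1 (1 : (Mt n K)ˣ)) = 1 := by
      funext _
      refine LinearMap.ext fun Z => ?_
      rw [G1_apply, inv_one, Units.val_one, Matrix.mul_one, Matrix.one_mul]
      rfl
    rw [e1, e2, Cm_one, Cm_one]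
    exact hf
  · intro u v _ _ hu hv f hf
    have e1 : (fun _ : Fin N => G0 (u * v)) = (fun _ => G0 v) * fun _ => G0 u := by
      funext _
      refine LinearMap.ext fun Z => ?_
      rw [G0_apply, Units.val_mul, ← Matrix.mul_assoc]
      rfl
    have e2 : (fun _ : Sl d => G1 (u * v)) = (fun _ => G1 v) * fun _ => G1 u := by
      funext _
      refine LinearMap.ext fun Z => ?_
      rw [G1_apply, _root_.mul_inv_rev, Units.val_mul, Units.val_mul]
      rw [Pi.mul_apply, Module.End.mul_apply, G1_apply, G1_apply]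
      simp only [Matrix.mul_assoc]
    rw [e1, e2, ← Cm_mul, ← Cm_mul]
    exact hu _ (hv _ hf)

end Pool.Agent.H943.DP
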