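import Mathlib

/-!
# Elements of maximal degree
-/

set_option autoImplicit false
set_option linter.unusedSectionVars false

open Module

noncomputable section

namespace Pool.Agent.H943.DP

variable {F B : Type} [Field F] [CharZero F] [Ring B] [IsDomain B] [Algebra F B] [FiniteDimensional F B]

theorem prim_pair {x y : B} (hxy : x * y = y * x) : ∃ c : F,
    x ∈ Algebra.adjoin F {x + c • y} ∧ y ∈ Algebra.adjoin F {x + c • y} := by
  have hcomm : ∀ a ∈ ({x, y} : Set B), ∀ b ∈ ({x, y} : Set B), a * b = b * a := by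
    rintro a (rfl | rfl) b (rfl | rfl)
    · rfl
    · exact hxy
    · exact hxy.symm
    · rfl
  let _ : CommRing (Algebra.adjoin F ({x, y} : Set B)) := Algebra.adjoinCommRingOfComm F hcomm
  let _ : Field (Algebra.adjoin F ({x, y} : Set B)) :=
    fieldOfFiniteDimensional F (Algebra.adjoin F ({x, y} : Set B))
  have hx : x ∈ Algebra.adjoin F ({x, y} : Set B) := Algebra.subset_adjoin (Or.inl rfl)
  have hy : y ∈ Algebra.adjoin F ({x, y} : Set B) := Algebra.subset_adjoin (Or.inr rfl)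
  have hfin : Finite (IntermediateField F (Algebra.adjoin F ({x, y} : Set B))) := by
    rw [← Field.exists_primitive_element_iff_finite_intermediateField]
    exact ⟨inferInstance, Field.exists_primitive_element F _⟩
  obtain ⟨c, c', hcc, hM⟩ := Finite.exists_ne_map_eq_of_infinite
    (fun c : F => IntermediateField.adjoin F
      {((⟨x, hx⟩ : Algebra.adjoin F ({x, y} : Set B)) + c • ⟨y, hy⟩)})
  have h1 : (⟨x, hx⟩ : Algebra.adjoin F ({x, y} : Set B)) + c • ⟨y, hy⟩ ∈ IntermediateField.adjoin F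
      {((⟨x, hx⟩ : Algebra.adjoin F ({x, y} : Set B)) + c • ⟨y, hy⟩)} :=
    IntermediateField.mem_adjoin_simple_self F _
  have h2 : (⟨x, hx⟩ : Algebra.adjoin F ({x, y} : Set B)) + c' • ⟨y, hy⟩ ∈ IntermediateField.adjoin F
      {((⟨x, hx⟩ : Algebra.adjoin F ({x, y} : Set B)) + c • ⟨y, hy⟩)} := by
    have := IntermediateField.mem_adjoin_simple_self F
      ((⟨x, hx⟩ : Algebra.adjoin F ({x, y} : Set B)) + c' • ⟨y, hy⟩)
    beta_reduce at hM
    rw [← hM] at this
    exact this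
  have h3 : (⟨y, hy⟩ : Algebra.adjoin F ({x, y} : Set B)) ∈ IntermediateField.adjoin F
      {((⟨x, hx⟩ : Algebra.adjoin F ({x, y} : Set B)) + c • ⟨y, hy⟩)} := by
    have h4 := sub_mem h1 h2
    have h5 : ((⟨x, hx⟩ : Algebra.adjoin F ({x, y} : Set B)) + c • ⟨y, hy⟩) -
        (⟨x, hx⟩ + c' • ⟨y, hy⟩) = (c - c') • ⟨y, hy⟩ := by
      rw [sub_smul]
      abel
    rw [h5] at h4
    have h6 := IntermediateField.smul_mem _ h4 (x := (c - c')⁻¹)
    rwa [smul_smul, inv_mul_cancel₀ (sub_ne_zero.2 hcc), one_smul] at h6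
  have h4 : (⟨x, hx⟩ : Algebra.adjoin F ({x, y} : Set B)) ∈ IntermediateField.adjoin F
      {((⟨x, hx⟩ : Algebra.adjoin F ({x, y} : Set B)) + c • ⟨y, hy⟩)} := by
    have h5 := sub_mem h1 (IntermediateField.smul_mem _ h3 (x := c))
    rwa [add_sub_cancel_right] at h5
  have key : ∀ u : Algebra.adjoin F ({x, y} : Set B), u ∈ IntermediateField.adjoin F
      {((⟨x, hx⟩ : Algebra.adjoin F ({x, y} : Set B)) + c • ⟨y, hy⟩)} →
      (u : B) ∈ Algebra.adjoin F {x + c • y} := by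
    intro u hu
    rw [← IntermediateField.mem_toSubalgebra, IntermediateField.adjoin_simple_toSubalgebra_of_isAlgebraic
      (Algebra.IsAlgebraic.isAlgebraic _)] at hu
    have h5 := AlgHom.map_adjoin_singleton (Algebra.adjoin F ({x, y} : Set B)).val
      ((⟨x, hx⟩ : Algebra.adjoin F ({x, y} : Set B)) + c • ⟨y, hy⟩)
    have h6 : (u : B) ∈ (Algebra.adjoin F {((⟨x, hx⟩ : Algebra.adjoin F ({x, y} : Set B)) +
        c • ⟨y, hy⟩)}).map (Algebra.adjoin F ({x, y} : Set B)).val := ⟨u, hu, rfl⟩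
    rw [h5] at h6
    exact h6
  exact ⟨c, key _ h4, key _ h3⟩

/-- **Elements of maximal degree.** -/
theorem exists_gen (𝔨 : Submodule F B) : ∃ x ∈ 𝔨, ∀ y ∈ 𝔨, x * y = y * x → y ∈ Algebra.adjoin F {x} := by
  classical
  have hb : ∀ x : B, finrank F (Algebra.adjoin F {x}) ≤ finrank F B := fun x =>
    Submodule.finrank_le (Algebra.adjoin F {x}).toSubmodule
  obtain ⟨m, ⟨x, hx, hm⟩, hmax⟩ : ∃ m, (∃ x ∈ 𝔨, finrank F (Algebra.adjoin F {x}) = m) ∧
      ∀ y ∈ 𝔨, finrank F (Algebra.adjoin F {y}) ≤ m := by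
    let P : ℕ → Prop := fun m => ∃ x ∈ 𝔨, finrank F (Algebra.adjoin F {x}) = m
    have h0 : P (finrank F (Algebra.adjoin F {(0 : B)})) := ⟨0, 𝔨.zero_mem, rfl⟩
    refine ⟨Nat.findGreatest P (finrank F B), Nat.findGreatest_spec (hb 0) h0, fun y hy => ?_⟩
    exact Nat.le_findGreatest (hb y) ⟨y, hy, rfl⟩
  refine ⟨x, hx, fun y hy hxy => ?_⟩
  obtain ⟨c, h1, h2⟩ := prim_pair (F := F) hxy
  have h3 : Algebra.adjoin F {x} ≤ Algebra.adjoin F {x + c • y} := by
    rw [Algebra.adjoin_le_iff]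
    rintro _ rfl
    exact h1
  have h4 : Algebra.adjoin F {x} = Algebra.adjoin F {x + c • y} := by
    refine Subalgebra.eq_of_le_of_finrank_le h3 ?_
    rw [hm]
    exact hmax _ (𝔨.add_mem hx (𝔨.smul_mem c hy))
  rw [h4]
  exact h2

end Pool.Agent.H943.DP
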