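import Pool.Agent.H943.DP.Rep
import Pool.Agent.H943.DP.Diag
import Pool.Agent.H943.DP.Prim
import Pool.Agent.H943.DP.CanonB

/-!
# The Lie algebra of matrices of a Lie subalgebra of a division algebra
-/

set_option autoImplicit false
set_option linter.unusedSectionVars false

open Module Matrix Function

noncomputable section

namespace Pool.Agent.H943.DP

variable {F Ω B : Type} [Field F] [CharZero F] [Field Ω] [CharZero Ω] [Algebra F Ω] [Ring B] [Algebra F B]
  [FiniteDimensional F B] {n : ℕ}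

/-- the span -/
def SK (ρ : B →ₐ[F] Mt n Ω) (𝔨 : Submodule F B) : Submodule Ω (Mt n Ω) :=
  Submodule.span Ω (ρ '' (𝔨 : Set B))

/-- the elements of trace zero -/
def LK (ρ : B →ₐ[F] Mt n Ω) (𝔨 : Submodule F B) : Submodule Ω (Mt n Ω) :=
  SK ρ 𝔨 ⊓ LinearMap.ker (Matrix.traceLinearMap (Fin n) Ω Ω)

variable {ρ : B →ₐ[F] Mt n Ω} {𝔨 : Submodule F B}

theorem mem_LK {X : Mt n Ω} : X ∈ LK ρ 𝔨 ↔ X ∈ SK ρ 𝔨 ∧ X.trace = 0 := Iff.rfl

theorem SK_mem {b : B} (hb : b ∈ 𝔨) : ρ b ∈ SK ρ 𝔨 := Submodule.subset_span ⟨b, hb, rfl⟩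

theorem SK_br (hbr : ∀ x ∈ 𝔨, ∀ y ∈ 𝔨, x * y - y * x ∈ 𝔨) :
    ∀ X ∈ SK ρ 𝔨, ∀ Y ∈ SK ρ 𝔨, X * Y - Y * X ∈ SK ρ 𝔨 := by
  intro X hX Y hY
  unfold SK at hX
  induction hX using Submodule.span_induction with
  | mem X hX =>
    obtain ⟨x, hx, rfl⟩ := hX
    unfold SK at hY
    induction hY using Submodule.span_induction with
    | mem Y hY =>
      obtain ⟨y, hy, rfl⟩ := hY
      rw [← map_mul, ← map_mul, ← map_sub]
      exact SK_mem (hbr x hx y hy)
    | zero => rw [mul_zero, zero_mul, sub_zero]; exact Submodule.zero_mem _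
    | add a b _ _ ha hb =>
      rw [mul_add, add_mul, add_sub_add_comm]
      exact Submodule.add_mem _ ha hb
    | smul c a _ ha =>
      rw [Matrix.mul_smul, Matrix.smul_mul, ← smul_sub]
      exact Submodule.smul_mem _ _ ha
  | zero => rw [mul_zero, zero_mul, sub_zero]; exact Submodule.zero_mem _
  | add a b _ _ ha hb =>
    rw [mul_add, add_mul, add_sub_add_comm]
    exact Submodule.add_mem _ ha hb
  | smul c a _ ha =>
    rw [Matrix.mul_smul, Matrix.smul_mul, ← smul_sub]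
    exact Submodule.smul_mem _ _ ha

theorem SK_dec (h1 : (1 : B) ∈ 𝔨) (hn : 0 < n) {X : Mt n Ω} (hX : X ∈ SK ρ 𝔨) :
    ∃ c : Ω, X - c • 1 ∈ LK ρ 𝔨 := by
  refine ⟨X.trace / n, ?_⟩
  rw [mem_LK]
  refine ⟨Submodule.sub_mem _ hX (Submodule.smul_mem _ _ ?_), ?_⟩
  · have := SK_mem (ρ := ρ) h1
    rwa [map_one] at this
  · rw [trace_sub, trace_smul, trace_one, Fintype.card_fin, smul_eq_mul, div_mul_cancel₀, sub_self]
    exact_mod_cast hn.ne'

theorem SK_act {T : SL n Ω} (hT : ∀ b, T.act (ρ b) = ρ b) : ∀ X ∈ SK ρ 𝔨, T.act X ∈ SK ρ 𝔨 := by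
  intro X hX
  unfold SK at hX
  induction hX using Submodule.span_induction with
  | mem X hX =>
    obtain ⟨x, hx, rfl⟩ := hX
    rw [hT]
    exact SK_mem hx
  | zero => rw [T.act_zero]; exact Submodule.zero_mem _
  | add a b _ _ ha hb => rw [T.act_add]; exact Submodule.add_mem _ ha hb
  | smul c a _ ha => rw [T.act_smul]; exact Submodule.smul_mem _ _ ha

theorem LK_pre {T : SL n Ω} (hT : ∀ b, T.act (ρ b) = ρ b) : Pre (LK ρ 𝔨) T := by
  have hT' : ∀ b, T.inv.act (ρ b) = ρ b := by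
    intro b
    conv_lhs => rw [← hT b]
    exact T.inv_act _
  refine ⟨fun X hX => ?_, fun X hX => ?_⟩
  · rw [mem_LK] at hX ⊢
    exact ⟨SK_act hT X hX.1, by rw [T.trace_act, hX.2, map_zero]⟩
  · rw [mem_LK] at hX ⊢
    exact ⟨SK_act hT' X hX.1, by rw [T.inv.trace_act, hX.2, map_zero]⟩

/-- the elements which commute with an element of the algebra -/
theorem SK_comm (hspan : Submodule.span Ω (Set.range ρ) = ⊤) (hn : finrank F B = n ^ 2) (x : B)
    {X : Mt n Ω} (hX : X ∈ SK ρ 𝔨) (hXx : X * ρ x = ρ x * X) :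
    X ∈ Submodule.span Ω (ρ '' {y | y ∈ 𝔨 ∧ x * y = y * x}) := by
  let A : B →ₗ[F] B := LinearMap.mulLeft F x - LinearMap.mulRight F x
  have hA : ∀ y, A y = x * y - y * x := fun _ => rfl
  obtain ⟨C, hC⟩ := (𝔨 ⊓ LinearMap.ker A).exists_isCompl
  obtain ⟨K1, hK1⟩ : ∃ K1 : Submodule F B, K1 = C ⊓ 𝔨 := ⟨_, rfl⟩
  have hsup : (𝔨 ⊓ LinearMap.ker A) ⊔ K1 = 𝔨 := by
    rw [hK1, ← sup_inf_assoc_of_le C (inf_le_left : 𝔨 ⊓ LinearMap.ker A ≤ 𝔨), hC.sup_eq_top, top_inf_eq]
  let w := finBasis F K1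
  have hker : LinearMap.ker (A.comp K1.subtype) = ⊥ := by
    rw [LinearMap.ker_eq_bot']
    intro y hy
    have hy1 : (y : B) ∈ C ⊓ 𝔨 := hK1.le y.2
    have h1 : (y : B) ∈ (𝔨 ⊓ LinearMap.ker A) ⊓ C := ⟨⟨hy1.2, hy⟩, hy1.1⟩
    rw [hC.inf_eq_bot, Submodule.mem_bot] at h1
    exact Subtype.ext h1
  have hind := indep ρ hspan hn _ (w.linearIndependent.map' (A.comp K1.subtype) hker)
  have key : ∀ X ∈ SK ρ 𝔨, ∃ X0 ∈ Submodule.span Ω (ρ '' {y | y ∈ 𝔨 ∧ x * y = y * x}),
      ∃ ω : Fin (finrank F K1) → Ω, X = X0 + ∑ j, ω j • ρ (w j : B) := by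
    intro X hX
    unfold SK at hX
    induction hX using Submodule.span_induction with
    | mem X hX =>
      obtain ⟨y, hy, rfl⟩ := hX
      have h1 : y ∈ (𝔨 ⊓ LinearMap.ker A) ⊔ K1 := by rw [hsup]; exact hy
      obtain ⟨y0, h0, y1, h1, h01⟩ := Submodule.mem_sup.1 h1
      refine ⟨ρ y0, Submodule.subset_span ⟨y0, ⟨h0.1, sub_eq_zero.1 h0.2⟩, rfl⟩,
        fun j => algebraMap F Ω (w.repr ⟨y1, h1⟩ j), ?_⟩
      have h3 : y1 = ∑ j, w.repr ⟨y1, h1⟩ j • (w j : B) := by
        have h4 := congrArg Subtype.val (w.sum_repr ⟨y1, h1⟩)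
        rw [Submodule.coe_sum] at h4
        exact h4.symm
      rw [← h01, map_add]
      congr 1
      conv_lhs => rw [h3]
      rw [map_sum]
      refine Finset.sum_congr rfl fun j _ => ?_
      rw [map_smul, algebraMap_smul]
    | zero => exact ⟨0, Submodule.zero_mem _, 0, by simp⟩
    | add a b _ _ ha hb =>
      obtain ⟨a0, ha0, ω, rfl⟩ := ha
      obtain ⟨b0, hb0, ω', rfl⟩ := hb
      refine ⟨a0 + b0, Submodule.add_mem _ ha0 hb0, ω + ω', ?_⟩
      simp only [Pi.add_apply, add_smul, Finset.sum_add_distrib]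
      abel
    | smul c a _ ha =>
      obtain ⟨a0, ha0, ω, rfl⟩ := ha
      refine ⟨c • a0, Submodule.smul_mem _ _ ha0, c • ω, ?_⟩
      simp only [Pi.smul_apply, smul_add, Finset.smul_sum, smul_assoc]
  obtain ⟨X0, hX0, ω, rfl⟩ := key X hX
  have h0 : X0 * ρ x = ρ x * X0 := by
    clear hX hXx
    induction hX0 using Submodule.span_induction with
    | mem X hX =>
      obtain ⟨y, hy, rfl⟩ := hX
      rw [← map_mul, ← map_mul, hy.2]
    | zero => rw [mul_zero, zero_mul]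
    | add a b _ _ ha hb => rw [add_mul, mul_add, ha, hb]
    | smul c a _ ha => rw [Matrix.smul_mul, Matrix.mul_smul, ha]
  have h1 : ∑ j, ω j • ρ ((A.comp K1.subtype) (w j)) = 0 := by
    have h2 : ∀ j, ω j • ρ ((A.comp K1.subtype) (w j)) = ρ x * (ω j • ρ (w j : B)) -
        (ω j • ρ (w j : B)) * ρ x := by
      intro j
      rw [Matrix.mul_smul, Matrix.smul_mul, ← smul_sub, ← map_mul, ← map_mul, ← map_sub]
      rfl
    rw [add_mul, mul_add, h0] at hXx
    have h3 := add_left_cancel hXx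
    rw [Finset.sum_congr rfl fun j _ => h2 j, Finset.sum_sub_distrib, ← Matrix.mul_sum,
      ← Matrix.sum_mul, h3, sub_self]
  have h2 := Fintype.linearIndependent_iff.1 hind ω h1
  rw [Finset.sum_eq_zero fun j _ => by rw [h2 j, zero_smul], add_zero]
  exact hX0

/-- polynomials in a diagonal matrix -/
theorem adj_diag {x : B} {xi : Fin n → Ω} (hx : ρ x = diagonal xi) {y : B}
    (hy : y ∈ Algebra.adjoin F {x}) : ∃ t : Fin n → Ω, ρ y = diagonal t ∧ ∀ i j, xi i = xi j → t i = t j := by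
  induction hy using Algebra.adjoin_induction with
  | mem y hy =>
    obtain rfl : y = x := hy
    exact ⟨xi, hx, fun i j h => h⟩
  | algebraMap c =>
    refine ⟨fun _ => algebraMap F Ω c, ?_, fun _ _ _ => rfl⟩
    rw [AlgHom.commutes]
    rfl
  | add a b _ _ ha hb =>
    obtain ⟨t, h1, h2⟩ := ha
    obtain ⟨t', h1', h2'⟩ := hb
    refine ⟨fun i => t i + t' i, ?_, fun i j h => by show _ = _; simp only [h2 i j h, h2' i j h]⟩
    rw [map_add, h1, h1', diagonal_add]
  | mul a b _ _ ha hb =>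
    obtain ⟨t, h1, h2⟩ := ha
    obtain ⟨t', h1', h2'⟩ := hb
    refine ⟨fun i => t i * t' i, ?_, fun i j h => by show _ = _; simp only [h2 i j h, h2' i j h]⟩
    rw [map_mul, h1, h1', diagonal_mul_diagonal]

/-- **The setting.** -/
theorem sett_K (hspan : Submodule.span Ω (Set.range ρ) = ⊤) (hn : finrank F B = n ^ 2) (hn0 : 0 < n)
    (h1 : (1 : B) ∈ 𝔨) (hbr : ∀ x ∈ 𝔨, ∀ y ∈ 𝔨, x * y - y * x ∈ 𝔨)
    (hgen : Algebra.adjoin F (𝔨 : Set B) = ⊤) {x : B} (hx : x ∈ 𝔨) {xi : Fin n → Ω}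
    (hxi : ρ x = diagonal xi) (htr : (diagonal xi).trace = 0)
    (hc : ∀ y ∈ 𝔨, x * y = y * x → y ∈ Algebra.adjoin F {x}) : Sett (LK ρ 𝔨) xi where
  br X hX Y hY := by
    rw [mem_LK] at *
    exact ⟨SK_br hbr X hX.1 Y hY.1, by rw [trace_sub, trace_mul_comm, sub_self]⟩
  tr X hX := (mem_LK.1 hX).2
  irr U hU := by
    have h2 : ∀ X ∈ SK ρ 𝔨, ∀ u ∈ U, X *ᵥ u ∈ U := by
      intro X hX u hu
      obtain ⟨c, hc⟩ := SK_dec h1 hn0 hX
      have h3 := U.add_mem (hU _ hc u hu) (U.smul_mem c hu)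
      rwa [Matrix.sub_mulVec, Matrix.smul_mulVec, one_mulVec, sub_add_cancel] at h3
    have h3 : ∀ b : B, ∀ u ∈ U, ρ b *ᵥ u ∈ U := by
      intro b
      have hb : b ∈ Algebra.adjoin F (𝔨 : Set B) := by rw [hgen]; trivial
      induction hb using Algebra.adjoin_induction with
      | mem b hb => exact h2 _ (SK_mem hb)
      | algebraMap c =>
        intro u hu
        rw [AlgHom.commutes, Algebra.algebraMap_eq_smul_one, ← algebraMap_smul Ω, Matrix.smul_mulVec,
          one_mulVec]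
        exact U.smul_mem _ hu
      | add a b _ _ ha hb =>
        intro u hu
        rw [map_add, Matrix.add_mulVec]
        exact U.add_mem (ha u hu) (hb u hu)
      | mul a b _ _ ha hb =>
        intro u hu
        rw [map_mul, ← mulVec_mulVec]
        exact ha _ (hb u hu)
    have h4 : ∀ X : Mt n Ω, ∀ u ∈ U, X *ᵥ u ∈ U := by
      intro X
      have hX : X ∈ Submodule.span Ω (Set.range ρ) := by rw [hspan]; trivial
      induction hX using Submodule.span_induction with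
      | mem X hX =>
        obtain ⟨b, rfl⟩ := hX
        exact h3 b
      | zero => intro u _; rw [Matrix.zero_mulVec]; exact U.zero_mem
      | add a b _ _ ha hb =>
        intro u hu
        rw [Matrix.add_mulVec]
        exact U.add_mem (ha u hu) (hb u hu)
      | smul c a _ ha =>
        intro u hu
        rw [Matrix.smul_mulVec]
        exact U.smul_mem _ (ha u hu)
    by_cases hb : U = ⊥
    · exact Or.inl hb
    right
    obtain ⟨u, hu, hu0⟩ := Submodule.exists_mem_ne_zero_of_ne_bot hb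
    obtain ⟨i, hi⟩ : ∃ i, u i ≠ 0 := by
      by_contra hcon
      push Not at hcon
      exact hu0 (funext hcon)
    rw [eq_top_iff]
    intro v _
    have h5 := h4 (Matrix.of fun j k => if k = i then v j / u i else 0) u hu
    have h6 : (Matrix.of fun j k => if k = i then v j / u i else 0) *ᵥ u = v := by
      funext j
      rw [mulVec, dotProduct, Finset.sum_eq_single i]
      · rw [of_apply, if_pos rfl, div_mul_cancel₀ _ hi]
      · intro k _ hk
        rw [of_apply, if_neg hk, zero_mul]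
      · intro h
        exact absurd (Finset.mem_univ _) h
    rw [h6] at h5
    exact h5
  pos := hn0
  mem := by
    rw [mem_LK]
    exact ⟨by rw [← hxi]; exact SK_mem hx, htr⟩
  cen X hX hXx := by
    rw [← hxi] at hXx
    have h2 := SK_comm hspan hn x (mem_LK.1 hX).1 hXx
    clear hX hXx
    induction h2 using Submodule.span_induction with
    | mem X hX =>
      obtain ⟨y, hy, rfl⟩ := hX
      exact adj_diag hxi (hc y hy.1 hy.2)
    | zero => exact ⟨0, by rw [← diagonal_zero]; rfl, fun _ _ _ => rfl⟩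
    | add a b _ _ ha hb =>
      obtain ⟨t, h1, h2⟩ := ha
      obtain ⟨t', h1', h2'⟩ := hb
      refine ⟨fun i => t i + t' i, ?_, fun i j h => by show _ = _; simp only [h2 i j h, h2' i j h]⟩
      rw [h1, h1', diagonal_add]
    | smul c a _ ha =>
      obtain ⟨t, h1, h2⟩ := ha
      refine ⟨c • t, ?_, fun i j h => by rw [Pi.smul_apply, Pi.smul_apply, h2 i j h]⟩
      rw [h1, diagonal_smul]

end Pool.Agent.H943.DP
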