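import Pool.Agent.H943.DP.Grp

/-!
# The highest weight vector
-/

set_option autoImplicit false
set_option linter.unusedSectionVars false

open Module Matrix Function

noncomputable section

namespace Pool.Agent.H943.DP

variable {n : ℕ} {K : Type} [Field K] [CharZero K] {L : Submodule K (Mt n K)}
    {xi : Fin n → K} {R : Type} [Fintype R] {J : Type} [Fintype J] [DecidableEq J] {d : J → ℕ}

/-- the trace form and the root vectors -/
theorem tr_ef (r : MD L xi R) {a b : R} (hab : a ≠ b) : (r.e a * r.f b).trace = 0 := by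
  obtain ⟨x, hx⟩ : ∃ x, r.c a x ≠ r.c b x := by
    by_contra hcon
    push Not at hcon
    exact hab (r.c_inj a b hcon)
  have h1 := r.he a x
  have h2 := r.hf b x
  have h3 : ((diagonal (r.h x) * r.e a - r.e a * diagonal (r.h x)) * r.f b).trace +
      (r.e a * (diagonal (r.h x) * r.f b - r.f b * diagonal (r.h x))).trace = 0 := by
    rw [Matrix.sub_mul, Matrix.mul_sub, trace_sub, trace_sub]
    have h4 : (r.e a * (r.f b * diagonal (r.h x))).trace = (diagonal (r.h x) * r.e a * r.f b).trace := by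
      rw [← Matrix.mul_assoc, trace_mul_comm, Matrix.mul_assoc]
    rw [h4, Matrix.mul_assoc (r.e a)]
    ring
  rw [h1, h2, Matrix.smul_mul, Matrix.mul_neg, Matrix.mul_smul, trace_neg, trace_smul, trace_smul,
    smul_eq_mul, smul_eq_mul, ← sub_eq_add_neg, ← sub_mul] at h3
  refine (mul_eq_zero.1 h3).resolve_left fun h => hx ?_
  have := sub_eq_zero.1 h
  exact_mod_cast this

theorem tr_hX (r : MD L xi R) (a : R) {X : Mt n K} {z : K}
    (h : X * r.e a - r.e a * X = z • r.e a) :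
    (X * diagonal (r.h a)).trace = z * (r.e a * r.f a).trace := by
  have h1 : ((X * r.e a - r.e a * X) * r.f a).trace = z * (r.e a * r.f a).trace := by
    rw [h, Matrix.smul_mul, trace_smul, smul_eq_mul]
  rw [← r.ef, ← h1, Matrix.mul_sub, Matrix.sub_mul, trace_sub, trace_sub]
  congr 1
  · rw [Matrix.mul_assoc]
  · rw [← Matrix.mul_assoc, trace_mul_comm, ← Matrix.mul_assoc]

theorem tr_ne (hS : Sett L xi) (hT : Tra L xi) (r : MD L xi R) (a : R) :
    (r.e a * r.f a).trace ≠ 0 := by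
  intro h
  have h1 := tr_hX r a (r.he a a)
  rw [h, mul_zero, diagonal_mul_diagonal, trace_diagonal] at h1
  have h2 : ∑ i, r.m i a * r.m i a = 0 := by
    have h3 : ((∑ i, r.m i a * r.m i a : ℤ) : K) = 0 := by
      rw [← h1]
      push_cast
      exact Finset.sum_congr rfl fun i _ => by rw [r.hm]
    exact_mod_cast h3
  obtain ⟨i, hi⟩ := (cd hS r hT).nz a
  rw [Finset.sum_eq_zero_iff_of_nonneg fun _ _ => mul_self_nonneg _] at h2
  exact hi (mul_self_eq_zero.1 (h2 i (Finset.mem_univ _)))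

/-- the root vectors -/
def Vr (r : MD L xi R) (q : ∀ j, Fin (d j) → R) : ∀ j, Fin (d j) → Mt n K := fun j a => r.e (q j a)

/-- the data of the machine -/
structure Mach (r : MD L xi R) (l : Fin n) (N : ℕ) (q : ∀ j, Fin (d j) → R) : Prop where
  inj : ∀ j, Function.Injective (q j)
  H2 : ∀ b, ∑ j, ∑ a, r.c (q j a) b = N * r.m l b
  H3 : ∀ a', 0 ≤ r.m l a' → ∀ j a, r.e a' * r.e (q j a) - r.e (q j a) * r.e a' ∈
    Submodule.span K (Set.range (Vr r q j))
  H4 : ∀ u ∈ UU L, ∀ T : SL n K, Pre L T → T.act (diagonal xi) = diagonal xi →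
    (∃ k : K, ((SL.ofGL u).mul T).vec (Pi.single l 1) = k • Pi.single l 1) → ∀ j a,
    ((SL.ofGL u).mul T).act (r.e (q j a)) ∈ Submodule.span K (Set.range (Vr r q j))

theorem yv_ne (hS : Sett L xi) (hT : Tra L xi) (r : MD L xi R) (q : ∀ j, Fin (d j) → R)
    (hq : ∀ j, Function.Injective (q j)) : yv (Vr r q) (fun s => r.f (q s.1 s.2)) ≠ 0 := by
  unfold yv
  rw [Finset.prod_ne_zero_iff]
  intro j _
  have h1 : (gm (Vr r q j) fun b => r.f (q j b)) = diagonal fun a => (r.e (q j a) * r.f (q j a)).trace := by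
    ext a b
    unfold gm Vr
    rw [of_apply]
    by_cases hab : a = b
    · subst hab
      rw [diagonal_apply_eq]
    · rw [diagonal_apply_ne _ hab]
      exact tr_ef r fun h => hab (hq j h)
  show (gm (Vr r q j) fun b => r.f (q j b)).det ≠ 0
  rw [h1, det_diagonal, Finset.prod_ne_zero_iff]
  intro a _
  exact tr_ne hS hT r _

theorem DD_z {N : ℕ} {l : Fin n} {X : Mt n K} {a : K} (V : ∀ j, Fin (d j) → Mt n K)
    (h1 : X *ᵥ Pi.single l 1 = a • Pi.single l 1) (C : ∀ j, Matrix (Fin (d j)) (Fin (d j)) K)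
    (h2 : ∀ j a, X * V j a - V j a * X = ∑ b, C j a b • V j b)
    (h3 : ∑ j, (C j).trace = N * a) :
    DD N d X ((xf N l, yf V) : W2 n K N (Sl d)) = ((N : K) * a) • ((xf N l, yf V) : W2 n K N (Sl d)) := by
  rw [DD_apply, Der0_xf N h1, Der1_yf V C h2, h3]
  rfl

/-- the coefficient on the diagonal is zero -/
theorem coef0 (r : MD L xi R) (q : ∀ j, Fin (d j) → R) (hq : ∀ j, Function.Injective (q j))
    {a' : R} {j : J} {a : Fin (d j)} {C : Fin (d j) → K}
    (h : r.e a' * r.e (q j a) - r.e (q j a) * r.e a' = ∑ b, C b • r.e (q j b)) : C a = 0 := by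
  have h1 := r.he a' a'
  have h2 := r.he (q j a) a'
  set D := diagonal (r.h a') with hD
  set W := r.e a' * r.e (q j a) - r.e (q j a) * r.e a' with hW
  have h3 : D * W - W * D = ((r.c a' a' : K) + r.c (q j a) a') • W := by
    have e : D * W - W * D = (D * r.e a' - r.e a' * D) * r.e (q j a) +
        r.e a' * (D * r.e (q j a) - r.e (q j a) * D) - (D * r.e (q j a) - r.e (q j a) * D) * r.e a' -
        r.e (q j a) * (D * r.e a' - r.e a' * D) := by
      rw [hW]
      noncomm_ring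
    rw [e, h1, h2, hW]
    simp only [Matrix.smul_mul, Matrix.mul_smul, add_smul, smul_sub]
    abel
  have h4 : D * W - W * D = ∑ b, (C b * r.c (q j b) a') • r.e (q j b) := by
    rw [h, Matrix.mul_sum, Matrix.sum_mul, ← Finset.sum_sub_distrib]
    refine Finset.sum_congr rfl fun b _ => ?_
    rw [Matrix.mul_smul, Matrix.smul_mul, ← smul_sub, r.he, smul_smul]
  have h5 : ∑ b, (C b * r.c (q j b) a' - ((r.c a' a' : K) + r.c (q j a) a') * C b) • r.e (q j b) = 0 := by
    simp only [sub_smul, Finset.sum_sub_distrib]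
    rw [← h4, h3, h, Finset.smul_sum, sub_eq_zero]
    exact Finset.sum_congr rfl fun b _ => by rw [smul_smul]
  have h6 := Fintype.linearIndependent_iff.1 (r.ind.comp (q j) (hq j)) _ h5 a
  have h7 : C a * (r.c a' a' : K) = 0 := by linear_combination -h6
  exact (mul_eq_zero.1 h7).resolve_right (r.c2 a')

section

variable {l : Fin n} {N : ℕ} {q : ∀ j, Fin (d j) → R} (hS : Sett L xi) (hT : Tra L xi)
  {r : MD L xi R} (M : Mach r l N q)

include hS hT M

theorem hz_h (b : R) : DD N d (diagonal (r.h b)) ((xf N l, yf (Vr r q)) : W2 n K N (Sl d)) =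
    ((N : K) * r.m l b) • ((xf N l, yf (Vr r q)) : W2 n K N (Sl d)) := by
  refine DD_z _ ?_ (fun j => diagonal fun a => (r.c (q j a) b : K)) ?_ ?_
  · rw [diagonal_mulVec_single, mul_one, ← Pi.single_smul', smul_eq_mul, mul_one, r.hm]
  · intro j a
    unfold Vr
    rw [r.he, Finset.sum_eq_single a]
    · rw [diagonal_apply_eq]
    · intro b _ hb
      rw [diagonal_apply_ne _ hb.symm, zero_smul]
    · intro h
      exact absurd (Finset.mem_univ _) h
  · have h1 := M.H2 b
    have h2 : ((∑ j, ∑ a, r.c (q j a) b : ℤ) : K) = ((N * r.m l b : ℤ) : K) := by rw [h1]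
    push_cast at h2
    rw [← h2]
    exact Finset.sum_congr rfl fun j _ => trace_diagonal _

theorem hz_e {a' : R} (ha : 0 ≤ r.m l a') :
    DD N d (r.e a') ((xf N l, yf (Vr r q)) : W2 n K N (Sl d)) = 0 := by
  have h1 : ∀ j a, ∃ C : Fin (d j) → K, r.e a' * r.e (q j a) - r.e (q j a) * r.e a' =
      ∑ b, C b • r.e (q j b) := by
    intro j a
    obtain ⟨C, hC⟩ := (Submodule.mem_span_range_iff_exists_fun K).1 (M.H3 a' ha j a)
    exact ⟨C, hC.symm⟩
  choose C hC using h1
  have h2 := DD_z (N := N) (l := l) (X := r.e a') (a := 0) (Vr r q) (by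
      rw [mulVec_single_one, zero_smul]
      funext k
      exact e_kill hS hT r ha k) (fun j => Matrix.of fun a b => C j a b) (fun j a => hC j a) (by
      rw [mul_zero]
      refine Finset.sum_eq_zero fun j _ => Finset.sum_eq_zero fun a _ => ?_
      show C j a a = 0
      exact coef0 r q M.inj (hC j a))
  rw [h2, mul_zero, zero_smul]

theorem hz_p : ∀ X ∈ Submodule.span K (ps r l), ∃ k : K,
    DD N d X ((xf N l, yf (Vr r q)) : W2 n K N (Sl d)) = k • ((xf N l, yf (Vr r q)) : W2 n K N (Sl d)) := by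
  intro X hX
  induction hX using Submodule.span_induction with
  | mem X hX =>
    rcases hX with ⟨a, rfl⟩ | ⟨a, ha, rfl⟩
    · exact ⟨_, hz_h hS hT M a⟩
    · exact ⟨0, by rw [hz_e hS hT M ha, zero_smul]⟩
  | zero => exact ⟨0, by rw [map_zero, zero_smul, LinearMap.zero_apply]⟩
  | add a b _ _ ha hb =>
    obtain ⟨k, hk⟩ := ha
    obtain ⟨k', hk'⟩ := hb
    exact ⟨k + k', by rw [map_add, LinearMap.add_apply, hk, hk', add_smul]⟩
  | smul c a _ ha =>
    obtain ⟨k, hk⟩ := ha
    exact ⟨c * k, by rw [map_smul, LinearMap.smul_apply, hk, smul_smul]⟩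

theorem hz_hh : DD N d (hh r l) ((xf N l, yf (Vr r q)) : W2 n K N (Sl d)) =
    ((N * ∑ b, r.m l b * r.m l b : ℤ) : K) • ((xf N l, yf (Vr r q)) : W2 n K N (Sl d)) := by
  unfold hh
  rw [map_sum, LinearMap.sum_apply]
  push_cast
  rw [Finset.mul_sum, Finset.sum_smul]
  refine Finset.sum_congr rfl fun b _ => ?_
  rw [map_smul, LinearMap.smul_apply, hz_h hS hT M, smul_smul]
  congr 1
  ring

/-- the action of `u` on the root vectors -/
theorem fact0 {u : (Mt n K)ˣ} (hu : u ∈ UU L) {t : K}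
    (ht : (u : Mt n K) *ᵥ Pi.single l 1 = t • Pi.single l 1) :
    ∃ z : K, ∀ Z : Sl d → Mt n K,
    yv (Vr r q) (fun s => ((u⁻¹ : (Mt n K)ˣ) : Mt n K) * (Z s * u)) = z * yv (Vr r q) Z := by
  have hmem : ∀ j a, ∃ C : Fin (d j) → K, (u : Mt n K) * r.e (q j a) * ((u⁻¹ : (Mt n K)ˣ) : Mt n K) =
      ∑ b, C b • r.e (q j b) := by
    intro j a
    have h5 := M.H4 u hu (SL.ofGL 1) ⟨fun X hX => by rw [SL.ofGL_act]; simpa using hX, fun X hX => by
      have e : (SL.ofGL (1 : (Mt n K)ˣ)).inv.act X = X := by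
        have := (SL.ofGL (1 : (Mt n K)ˣ)).inv_act X
        rwa [SL.ofGL_act, inv_one, Units.val_one, Matrix.one_mul, Matrix.mul_one] at this
      rw [e]
      exact hX⟩ (by rw [SL.ofGL_act]; simp) ⟨t, by
        rw [SL.mul_vec, SL.ofGL_vec, SL.ofGL_vec, Units.val_one, one_mulVec, ht]⟩ j a
    rw [SL.mul_act, SL.ofGL_act, SL.ofGL_act, inv_one, Units.val_one, Matrix.one_mul,
      Matrix.mul_one] at h5
    obtain ⟨C, hC⟩ := (Submodule.mem_span_range_iff_exists_fun K).1 h5
    exact ⟨C, hC.symm⟩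
  choose C hC using hmem
  refine ⟨∏ j, (Matrix.of fun a b => C j a b).det, fun Z => ?_⟩
  rw [← yv_change (X := Vr r q) (X' := fun j a => (u : Mt n K) * r.e (q j a) *
    ((u⁻¹ : (Mt n K)ˣ) : Mt n K)) (fun j => Matrix.of fun a b => C j a b) (fun j a => hC j a)]
  unfold yv
  refine Finset.prod_congr rfl fun j _ => ?_
  congr 1
  ext a b
  unfold gm Vr
  rw [of_apply, of_apply]
  rw [show r.e (q j a) * (((u⁻¹ : (Mt n K)ˣ) : Mt n K) * (Z ⟨j, b⟩ * u)) =
    (r.e (q j a) * (((u⁻¹ : (Mt n K)ˣ) : Mt n K) * Z ⟨j, b⟩)) * u by simp only [Matrix.mul_assoc],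
    trace_mul_comm]
  simp only [Matrix.mul_assoc]

omit hS hT M in
theorem xf_conj {u : (Mt n K)ˣ} {t : K}
    (ht : (u : Mt n K) *ᵥ Pi.single l 1 = t • Pi.single l 1) :
    Cm (fun _ => G0 u) (xf (K := K) N l) = (t ^ N) • xf N l := by
  refine US.ext fun Z => ?_
  rw [Cm_ev, ev_smul, xf_ev, xf_ev]
  have : ∀ k, G0 u (Z k) l l = t * Z k l l := by
    intro k
    rw [G0_apply]
    have h5 : (Z k * (u : Mt n K)) l l = ((Z k) *ᵥ ((u : Mt n K) *ᵥ Pi.single l 1)) l := by
      rw [mulVec_mulVec, mulVec_single_one]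
      rfl
    rw [h5, ht, mulVec_smul, mulVec_single_one]
    rfl
  simp only [this]
  rw [Finset.prod_mul_distrib, Finset.prod_const, Finset.card_univ, Fintype.card_fin]

/-- **The function is an eigenfunction of the stabilizer.** -/
theorem fact1 {u : (Mt n K)ˣ} (hu : u ∈ UU L) {t : K}
    (ht : (u : Mt n K) *ᵥ Pi.single l 1 = t • Pi.single l 1) (Z : Sl d → Mt n K) :
    yv (Vr r q) (fun s => ((u⁻¹ : (Mt n K)ˣ) : Mt n K) * (Z s * u)) = t ^ N * yv (Vr r q) Z := by
  obtain ⟨V, h1, h2, h3⟩ := pbw (DD N d) L (Submodule.span K (ps r l)) (Submodule.span K (qs r l))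
    (ps_le r l) (qs_le r l) (pq_top hS hT r l) hS.br (fun X _ Y _ => DD_br N X Y)
    ((xf N l, yf (Vr r q)) : W2 n K N (Sl d)) (hz_p hS hT M)
  have h4 := grp_stab V h2 hu _ h1
  obtain ⟨z, e2⟩ := fact0 hS hT M hu ht
  have e3 : Cm (fun _ => G1 u) (yf (Vr r q)) = z • yf (Vr r q) := by
    refine US.ext fun Z => ?_
    rw [Cm_ev, ev_smul, yf_ev, yf_ev, ← e2]
    rfl
  have h4' : ((t ^ N • xf N l, z • yf (Vr r q)) : W2 n K N (Sl d)) ∈ V := by
    rw [← xf_conj (N := N) ht, ← e3]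
    exact h4
  have hh5 := hz_hh hS hT M
  have e4 : DD N d (hh r l) ((t ^ N • xf N l, z • yf (Vr r q)) : W2 n K N (Sl d)) =
      ((N * ∑ b, r.m l b * r.m l b : ℤ) : K) •
        ((t ^ N • xf N l, z • yf (Vr r q)) : W2 n K N (Sl d)) := by
    rw [DD_apply] at hh5 ⊢
    have h6 := congrArg Prod.fst hh5
    have h7 := congrArg Prod.snd hh5
    rw [Prod.smul_mk] at h6 h7
    rw [Prod.smul_mk]
    refine Prod.ext ?_ ?_
    · show Der (A0 (hh r l)) (t ^ N • xf N l) = _ • t ^ N • xf N l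
      rw [map_smul, smul_comm]
      exact congrArg _ h6
    · show Der (A1 (hh r l)) (z • yf (Vr r q)) = _ • z • yf (Vr r q)
      rw [map_smul, smul_comm]
      exact congrArg _ h7
  obtain ⟨k, hk⟩ := top_unique (DD N d) (qs r l) V _ h3 (DD N d (hh r l))
    (N * ∑ b, r.m l b * r.m l b) hh5 (by
      rintro _ ⟨a, ha, rfl⟩
      refine ⟨_, grade hS hT r ha, ?_⟩
      rw [DD_br, hh_e, map_smul, Int.cast_neg]
      module) h4' e4
  have h5 : t ^ N • xf (K := K) N l = k • xf N l := congrArg Prod.fst hk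
  have h6 : z • yf (Vr r q) = k • yf (Vr r q) := congrArg Prod.snd hk
  have h7 : t ^ N = k := by
    have := congrArg (fun f : US K (Mt n K) (Fin N) => f.ev fun _ => 1) h5
    simp only [ev_smul, xf_ev, one_apply_eq, Finset.prod_const_one, mul_one] at this
    exact this
  rw [e2, h7, ← yf_ev, ← ev_smul, ← ev_smul, h6]

end

end Pool.Agent.H943.DP
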