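import Mathlib

/-!
# Multilinear functions: the derivation and the exponential
-/

set_option autoImplicit false
set_option linter.unusedSectionVars false

open Module Function

noncomputable section

namespace Pool.Agent.H943.DP

/-- multilinear functions -/
def US (K M S : Type) [Field K] [AddCommGroup M] [Module K M] : Type :=
  MultilinearMap K (fun _ : S => M) K

section

variable {K M : Type} [Field K] [AddCommGroup M] [Module K M] {S : Type}

instance : AddCommGroup (US K M S) := inferInstanceAs (AddCommGroup (MultilinearMap K (fun _ : S => M) K))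

instance : Module K (US K M S) := inferInstanceAs (Module K (MultilinearMap K (fun _ : S => M) K))

instance [CharZero K] : Module ℚ (US K M S) :=
  inferInstanceAs (Module ℚ (MultilinearMap K (fun _ : S => M) K))

/-- the value -/
def US.ev (f : US K M S) (v : S → M) : K := MultilinearMap.toFun f v

theorem US.ext {f g : US K M S} (h : ∀ v, f.ev v = g.ev v) : f = g := MultilinearMap.ext h

theorem ev_add (f g : US K M S) (v : S → M) : (f + g).ev v = f.ev v + g.ev v := rfl

theorem ev_smul (c : K) (f : US K M S) (v : S → M) : (c • f).ev v = c * f.ev v := rfl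

theorem ev_zero (v : S → M) : (0 : US K M S).ev v = 0 := rfl

theorem ev_sum {ι : Type*} (s : Finset ι) (f : ι → US K M S) (v : S → M) :
    (∑ i ∈ s, f i).ev v = ∑ i ∈ s, (f i).ev v := by
  classical
  induction s using Finset.induction_on with
  | empty => rfl
  | insert a s ha ih => rw [Finset.sum_insert ha, Finset.sum_insert ha, ev_add, ih]

theorem ev_upd_add [DecidableEq S] (f : US K M S) (v : S → M) (s : S) (x y : M) :
    f.ev (update v s (x + y)) = f.ev (update v s x) + f.ev (update v s y) :=
  MultilinearMap.map_update_add (f := (f : MultilinearMap K (fun _ : S => M) K)) v s x y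

theorem ev_upd_smul [DecidableEq S] (f : US K M S) (v : S → M) (s : S) (c : K) (x : M) :
    f.ev (update v s (c • x)) = c * f.ev (update v s x) :=
  MultilinearMap.map_update_smul (f := (f : MultilinearMap K (fun _ : S => M) K)) v s c x

/-- composition with endomorphisms in the slots -/
def Cm (g : S → Module.End K M) : Module.End K (US K M S) where
  toFun f := (MultilinearMap.compLinearMap (f : MultilinearMap K (fun _ : S => M) K) g : _)
  map_add' _ _ := rfl
  map_smul' _ _ := rfl

theorem Cm_ev (g : S → Module.End K M) (f : US K M S) (v : S → M) :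
    (Cm g f).ev v = f.ev fun s => g s (v s) := rfl

theorem Cm_mul (g g' : S → Module.End K M) : Cm g * Cm g' = Cm (g' * g) := rfl

theorem Cm_one : Cm (1 : S → Module.End K M) = 1 := rfl

end

variable {K M : Type} [Field K] [CharZero K] [AddCommGroup M] [Module K M] {S : Type} [Fintype S]
  [DecidableEq S]

theorem Cm_upd (s : S) (A : Module.End K M) (f : US K M S) (v : S → M) :
    (Cm (update 1 s A) f).ev v = f.ev (update v s (A (v s))) := by
  rw [Cm_ev]
  congr 1
  funext t
  by_cases h : t = s
  · subst h
    rw [update_self, update_self]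
  · rw [update_of_ne h, update_of_ne h]
    rfl

/-- the derivation in one slot -/
def Der0 (s : S) : Module.End K M →ₗ[K] Module.End K (US K M S) where
  toFun A := Cm (update 1 s A)
  map_add' A B := by
    refine LinearMap.ext fun f => US.ext fun v => ?_
    rw [Cm_upd, LinearMap.add_apply, LinearMap.add_apply, ev_add, Cm_upd, Cm_upd, ev_upd_add]
  map_smul' c A := by
    refine LinearMap.ext fun f => US.ext fun v => ?_
    rw [Cm_upd, LinearMap.smul_apply, RingHom.id_apply, LinearMap.smul_apply, ev_smul, Cm_upd,
      ev_upd_smul]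

theorem Der0_eq (s : S) (A : Module.End K M) : Der0 s A = Cm (update 1 s A) := rfl

theorem Der0_ev (s : S) (A : Module.End K M) (f : US K M S) (v : S → M) :
    (Der0 s A f).ev v = f.ev (update v s (A (v s))) := by
  rw [Der0_eq, Cm_upd]

theorem Der0_one (s : S) : Der0 s (1 : Module.End K M) = 1 := by
  rw [Der0_eq]
  have : update (1 : S → Module.End K M) s 1 = 1 := update_eq_self s 1
  rw [this, Cm_one]

theorem Der0_mul (s : S) (A B : Module.End K M) : Der0 s A * Der0 s B = Der0 s (B * A) := by
  rw [Der0_eq, Der0_eq, Cm_mul, Der0_eq]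
  congr 1
  funext t
  by_cases h : t = s
  · subst h
    simp
  · simp [update_of_ne h]

theorem Der0_comm {s t : S} (hst : s ≠ t) (A B : Module.End K M) :
    Der0 s A * Der0 t B = Der0 t B * Der0 s A := by
  rw [Der0_eq, Der0_eq, Cm_mul, Cm_mul]
  congr 1
  funext u
  by_cases h : u = s
  · subst h
    simp [update_of_ne hst]
  · by_cases h' : u = t
    · subst h'
      simp [update_of_ne h]
    · simp [update_of_ne h, update_of_ne h']

theorem Der0_pow (s : S) (A : Module.End K M) (k : ℕ) : Der0 s A ^ k = Der0 s (A ^ k) := by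
  induction k with
  | zero => rw [pow_zero, pow_zero, Der0_one]
  | succ k ih => rw [pow_succ, ih, Der0_mul, ← pow_succ']

/-- the derivation -/
def Der : Module.End K M →ₗ[K] Module.End K (US K M S) :=
  ∑ s, Der0 s

theorem Der_eq (A : Module.End K M) : Der (S := S) A = ∑ s, Der0 s A := by
  unfold Der
  rw [LinearMap.sum_apply]

theorem Der_ev (A : Module.End K M) (f : US K M S) (v : S → M) :
    (Der A f).ev v = ∑ s, f.ev (update v s (A (v s))) := by
  rw [Der_eq, LinearMap.sum_apply, ev_sum]
  exact Finset.sum_congr rfl fun s _ => Der0_ev s A f v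

theorem Der_br (A B : Module.End K M) :
    Der (S := S) A * Der B - Der B * Der A = Der (B * A - A * B) := by
  have h2 : Der (S := S) B * Der A = ∑ s, ∑ t, Der0 t B * Der0 s A := by
    rw [Der_eq, Der_eq, Finset.sum_mul_sum, Finset.sum_comm]
  rw [h2, Der_eq, Der_eq, Der_eq, Finset.sum_mul_sum, ← Finset.sum_sub_distrib]
  refine Finset.sum_congr rfl fun s _ => ?_
  rw [← Finset.sum_sub_distrib, Finset.sum_eq_single s]
  · rw [Der0_mul, Der0_mul, ← map_sub]
  · intro t _ ht
    rw [Der0_comm (Ne.symm ht), sub_self]
  · intro h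
    exact absurd (Finset.mem_univ _) h

variable [Module ℚ M]

theorem isNil_Der0 (s : S) {A : Module.End K M} (hA : IsNilpotent A) : IsNilpotent (Der0 s A) := by
  obtain ⟨k, hk⟩ := hA
  exact ⟨k, by rw [Der0_pow, hk, map_zero]⟩

theorem exp_Der0 (s : S) {A : Module.End K M} (hA : IsNilpotent A) :
    IsNilpotent.exp (Der0 s A) = Cm (update 1 s (IsNilpotent.exp A)) := by
  obtain ⟨k, hk⟩ := hA
  rw [IsNilpotent.exp_eq_sum (k := k) (by rw [Der0_pow, hk, map_zero]),
    IsNilpotent.exp_eq_sum hk, ← Der0_eq, map_sum]
  refine Finset.sum_congr rfl fun i _ => ?_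
  rw [Der0_pow, map_rat_smul]

theorem exp_part {A : Module.End K M} (hA : IsNilpotent A) (F : Finset S) :
    IsNilpotent (∑ s ∈ F, Der0 s A) ∧
    IsNilpotent.exp (∑ s ∈ F, Der0 s A) = Cm fun s => if s ∈ F then IsNilpotent.exp A else 1 := by
  induction F using Finset.induction_on with
  | empty =>
    refine ⟨?_, ?_⟩
    · rw [Finset.sum_empty]
      exact IsNilpotent.zero
    · rw [Finset.sum_empty, IsNilpotent.exp_zero]
      simp only [Finset.notMem_empty, if_false]
      exact Cm_one.symm
  | insert a F ha ih =>
    have hc : Commute (Der0 a A) (∑ s ∈ F, Der0 s A) := by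
      refine Commute.sum_right _ _ _ fun s hs => ?_
      exact Der0_comm (fun h : a = s => ha (by rw [h]; exact hs)) A A
    rw [Finset.sum_insert ha]
    refine ⟨hc.isNilpotent_add (isNil_Der0 a hA) ih.1, ?_⟩
    rw [IsNilpotent.exp_add_of_commute hc (isNil_Der0 a hA) ih.1, exp_Der0 a hA, ih.2, Cm_mul]
    congr 1
    funext s
    rw [Pi.mul_apply]
    by_cases h : s = a
    · subst h
      rw [update_self, if_neg ha, if_pos (Finset.mem_insert_self _ _), one_mul]
    · rw [update_of_ne h, Pi.one_apply, mul_one]
      simp [Finset.mem_insert, h]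

theorem isNil_Der {A : Module.End K M} (hA : IsNilpotent A) : IsNilpotent (Der (S := S) A) := by
  rw [Der_eq]
  exact (exp_part hA Finset.univ).1

/-- **The exponential of the derivation.** -/
theorem exp_Der {A : Module.End K M} (hA : IsNilpotent A) :
    IsNilpotent.exp (Der (S := S) A) = Cm fun _ => IsNilpotent.exp A := by
  rw [Der_eq, (exp_part hA Finset.univ).2]
  simp

/-- a stable subspace is stable under the exponential -/
theorem exp_stab {U : Type} [AddCommGroup U] [Module K U] [Module ℚ U] {T : Module.End K U}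
    (hT : IsNilpotent T) (N : Submodule K U) (hN : ∀ u ∈ N, T u ∈ N) {u : U} (hu : u ∈ N) :
    IsNilpotent.exp T u ∈ N := by
  obtain ⟨k, hk⟩ := hT
  rw [IsNilpotent.exp_eq_sum hk, LinearMap.sum_apply]
  have hpow : ∀ i, (T ^ i) u ∈ N := by
    intro i
    induction i with
    | zero => exact hu
    | succ i ih =>
      rw [pow_succ', Module.End.mul_apply]
      exact hN _ ih
  refine Submodule.sum_mem _ fun i _ => ?_
  rw [LinearMap.smul_apply]
  have : ((i.factorial : ℚ)⁻¹) • (T ^ i) u = ((((i.factorial : ℚ)⁻¹ : ℚ)) : K) • (T ^ i) u := by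
    rw [Rat.cast_smul_eq_qsmul]
  rw [this]
  exact N.smul_mem _ (hpow i)

end Pool.Agent.H943.DP
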