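import Pool.Agent.H943.DP.Weights
import Pool.Agent.H943.DP.Semi

/-!
# Semilinear automorphisms permute the roots
-/

set_option autoImplicit false
set_option linter.unusedSectionVars false

open Module Matrix

noncomputable section

namespace Pool.Agent.H943.DP

variable {n : ℕ} {K : Type} [Field K] [CharZero K] {L : Submodule K (Matrix (Fin n) (Fin n) K)}
    {xi : Fin n → K} {R : Type} [Fintype R]

theorem diag_comm (s t : Fin n → K) : diagonal s * diagonal t - diagonal t * diagonal s = 0 := by
  rw [diagonal_mul_diagonal, diagonal_mul_diagonal]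
  simp [mul_comm]

/-- the bracket with a coroot -/
theorem MD.br_sum (r : MD L xi R) (b : R) (t u : R → K) :
    diagonal (r.h b) * (∑ a, t a • diagonal (r.h a) + ∑ a, u a • r.e a) -
      (∑ a, t a • diagonal (r.h a) + ∑ a, u a • r.e a) * diagonal (r.h b) =
      ∑ a, (u a * r.c a b) • r.e a := by
  have h1 : diagonal (r.h b) * (∑ a, t a • diagonal (r.h a)) -
      (∑ a, t a • diagonal (r.h a)) * diagonal (r.h b) = 0 := by
    rw [Matrix.mul_sum, Matrix.sum_mul, ← Finset.sum_sub_distrib]
    refine Finset.sum_eq_zero fun a _ => ?_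
    rw [Matrix.mul_smul, Matrix.smul_mul, ← smul_sub, diag_comm, smul_zero]
  have h2 : diagonal (r.h b) * (∑ a, u a • r.e a) - (∑ a, u a • r.e a) * diagonal (r.h b) =
      ∑ a, (u a * r.c a b) • r.e a := by
    rw [Matrix.mul_sum, Matrix.sum_mul, ← Finset.sum_sub_distrib]
    refine Finset.sum_congr rfl fun a _ => ?_
    rw [Matrix.mul_smul, Matrix.smul_mul, ← smul_sub, r.he, smul_smul]
  rw [← h2, mul_add, add_mul, add_sub_add_comm, h1, zero_add]

theorem MD.br_e (r : MD L xi R) (b : R) (u : R → K) :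
    diagonal (r.h b) * (∑ a, u a • r.e a) - (∑ a, u a • r.e a) * diagonal (r.h b) =
      ∑ a, (u a * r.c a b) • r.e a := by
  have h1 := r.br_sum b 0 u
  simpa using h1

theorem MD.ind0 (r : MD L xi R) {u : R → K} (h : ∑ a, u a • r.e a = 0) (a : R) : u a = 0 :=
  Fintype.linearIndependent_iff.1 r.ind u h a

theorem MD.c2 (r : MD L xi R) (a : R) : ((r.c a a : ℤ) : K) ≠ 0 := by
  rw [r.two]
  norm_num

/-- an element which commutes with the coroots is a combination of coroots -/
theorem MD.dec_diag (r : MD L xi R) {X : Matrix (Fin n) (Fin n) K} (hX : X ∈ L)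
    (h : ∀ b, diagonal (r.h b) * X - X * diagonal (r.h b) = 0) :
    ∃ t : R → K, X = ∑ a, t a • diagonal (r.h a) := by
  obtain ⟨t, u, rfl⟩ := r.dec X hX
  refine ⟨t, ?_⟩
  have h1 : ∀ a, u a = 0 := by
    intro a
    have h2 := h a
    rw [r.br_sum] at h2
    exact (mul_eq_zero.1 (r.ind0 h2 a)).resolve_right (r.c2 a)
  simp [h1]

theorem MD.single (r : MD L xi R) {X : Matrix (Fin n) (Fin n) K} (hX : X ∈ L) (hX0 : X ≠ 0)
    (k : R → K) (h : ∀ b, diagonal (r.h b) * X - X * diagonal (r.h b) = k b • X) {b0 : R}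
    (hb0 : k b0 ≠ 0) : ∃ d, (∀ b, k b = r.c d b) ∧ ∃ z : K, z ≠ 0 ∧ X = z • r.e d := by
  obtain ⟨t, u, rfl⟩ := r.dec X hX
  have h1 : ∀ b d, u d * ((r.c d b : K) - k b) = 0 := by
    intro b d
    have h2 := h b
    rw [r.br_sum, smul_add] at h2
    have h3 : ∑ a, (u a * ((r.c a b : K) - k b)) • r.e a =
        k b • ∑ a, t a • diagonal (r.h a) := by
      have h4 : ∑ a, (u a * ((r.c a b : K) - k b)) • r.e a = ∑ a, (u a * r.c a b) • r.e a -
          k b • ∑ a, u a • r.e a := by
        rw [Finset.smul_sum, ← Finset.sum_sub_distrib]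
        refine Finset.sum_congr rfl fun a _ => ?_
        rw [smul_smul, ← sub_smul]
        congr 1
        ring
      rw [h4, h2]
      abel
    have h5 := r.br_e d (fun a => u a * ((r.c a b : K) - k b))
    rw [h3] at h5
    have h6 : diagonal (r.h d) * (k b • ∑ a, t a • diagonal (r.h a)) -
        (k b • ∑ a, t a • diagonal (r.h a)) * diagonal (r.h d) = 0 := by
      have h7 := r.br_sum d (fun a => k b * t a) 0
      simp only [mul_smul, ← Finset.smul_sum] at h7
      simpa using h7
    rw [h6] at h5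
    exact (mul_eq_zero.1 (r.ind0 h5.symm d)).resolve_right (r.c2 d)
  have h0 : ∑ a, t a • diagonal (r.h a) = 0 := by
    have h2 := h b0
    rw [r.br_sum, smul_add] at h2
    have h3 : ∑ a, (u a * (r.c a b0 : K)) • r.e a = k b0 • ∑ a, u a • r.e a := by
      rw [Finset.smul_sum]
      refine Finset.sum_congr rfl fun a _ => ?_
      rw [smul_smul]
      congr 1
      linear_combination h1 b0 a
    rw [h3] at h2
    have h4 : k b0 • ∑ a, t a • diagonal (r.h a) = 0 := by
      have h5 : k b0 • ∑ a, t a • diagonal (r.h a) = (k b0 • ∑ a, t a • diagonal (r.h a) +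
        k b0 • ∑ a, u a • r.e a) - k b0 • ∑ a, u a • r.e a := by abel
      rw [h5, ← h2, sub_self]
    exact (smul_eq_zero.1 h4).resolve_left hb0
  rw [h0, zero_add] at hX0 ⊢
  obtain ⟨d, hd⟩ : ∃ d, u d ≠ 0 := by
    by_contra hcon
    push Not at hcon
    exact hX0 (by simp [hcon])
  have h2 : ∀ d', u d' ≠ 0 → ∀ b, k b = r.c d' b := by
    intro d' hd' b
    exact (sub_eq_zero.1 ((mul_eq_zero.1 (h1 b d')).resolve_left hd')).symm
  refine ⟨d, h2 d hd, u d, hd, ?_⟩
  refine Finset.sum_eq_single d (fun d' _ hne => ?_) fun h => absurd (Finset.mem_univ _) h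
  by_cases hd' : u d' = 0
  · rw [hd', zero_smul]
  · exfalso
    apply hne
    apply r.c_inj
    intro b
    have h3 := h2 d' hd' b
    rw [h2 d hd b] at h3
    exact_mod_cast h3.symm

/-- the element `xi` commutes with what commutes with the coroots -/
theorem MD.comm_xi (r : MD L xi R) {X : Matrix (Fin n) (Fin n) K}
    (h : ∀ b, diagonal (r.h b) * X - X * diagonal (r.h b) = 0) :
    X * diagonal xi = diagonal xi * X := by
  obtain ⟨t, ht⟩ := r.dec0
  rw [ht, Matrix.mul_sum, Matrix.sum_mul]
  refine Finset.sum_congr rfl fun a _ => ?_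
  rw [Matrix.mul_smul, Matrix.smul_mul, sub_eq_zero.1 (h a)]

theorem MD.e_not_diag (hS : Sett L xi) (r : MD L xi R) (a : R) :
    ¬ (r.e a * diagonal xi = diagonal xi * r.e a) := by
  intro h
  obtain ⟨t, ht, -⟩ := hS.cen _ (r.eL a) h
  have h1 := r.he a a
  rw [ht, diag_comm, ← ht] at h1
  exact r.e0 a ((smul_eq_zero.1 h1.symm).resolve_left (r.c2 a))

/-- **Semilinear automorphisms permute the roots.** -/
theorem MD.perm (hS : Sett L xi) (r : MD L xi R) (T : SL n K) (h1 : ∀ X ∈ L, T.act X ∈ L)
    (h2 : ∀ X ∈ L, T.inv.act X ∈ L) (h3 : T.act (diagonal xi) = diagonal xi) :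
    ∃ p : R ≃ R, (∀ a, ∃ k : K, k ≠ 0 ∧ T.act (r.e a) = k • r.e (p a)) ∧
      (∀ a, T.act (diagonal (r.h a)) = diagonal (r.h (p a))) ∧
      (∀ a b, r.c (p a) (p b) = r.c a b) ∧ ∀ i j, T.P i j ≠ 0 → ∀ a, r.m i (p a) = r.m j a := by
  classical
  have h3' : T.inv.act (diagonal xi) = diagonal xi := by
    conv_lhs => rw [← h3]
    exact T.inv_act _
  -- diagonal elements
  have hd : ∀ b, ∃ t : R → K, T.inv.act (diagonal (r.h b)) = ∑ a, t a • diagonal (r.h a) := by
    intro b
    refine r.dec_diag (h2 _ (r.hL b)) fun b' => ?_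
    obtain ⟨t, ht, -⟩ := hS.cen _ (h2 _ (r.hL b)) (by
      conv_lhs => rw [← h3']
      conv_rhs => rw [← h3']
      rw [← T.inv.act_mul, ← T.inv.act_mul]
      exact congrArg _ (sub_eq_zero.1 (diag_comm _ _)))
    rw [ht, diag_comm]
  have key : ∀ a, ∃ d, ∃ z : K, z ≠ 0 ∧ T.act (r.e a) = z • r.e d := by
    intro a
    have h4 : ∀ b, ∃ k : K, diagonal (r.h b) * T.act (r.e a) - T.act (r.e a) * diagonal (r.h b) =
        k • T.act (r.e a) := by
      intro b
      obtain ⟨t, ht⟩ := hd b
      refine ⟨T.g (∑ d, t d * r.c a d), ?_⟩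
      rw [← T.act_smul]
      have h5 : diagonal (r.h b) = T.act (T.inv.act (diagonal (r.h b))) := (T.act_inv _).symm
      rw [h5, ← T.act_mul, ← T.act_mul, ← T.act_sub, ht]
      congr 1
      rw [Matrix.mul_sum, Matrix.sum_mul, ← Finset.sum_sub_distrib, Finset.sum_smul]
      refine Finset.sum_congr rfl fun d _ => ?_
      rw [Matrix.mul_smul, Matrix.smul_mul, ← smul_sub, r.he, smul_smul]
    choose k hk using h4
    have h6 : T.act (r.e a) ≠ 0 := by
      intro h
      have h7 := T.inv_act (r.e a)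
      rw [h, T.inv.act_zero] at h7
      exact r.e0 a h7.symm
    obtain ⟨b0, hb0⟩ : ∃ b0, k b0 ≠ 0 := by
      by_contra hcon
      push Not at hcon
      have h7 := r.comm_xi (X := T.act (r.e a)) fun b => by rw [hk, hcon, zero_smul]
      apply r.e_not_diag hS a
      have h8 := congrArg T.inv.act h7
      rw [T.inv.act_mul, T.inv.act_mul, T.inv_act, h3'] at h8
      exact h8
    obtain ⟨d, -, z, hz, hzz⟩ := r.single (h1 _ (r.eL a)) h6 k hk hb0
    exact ⟨d, z, hz, hzz⟩
  choose p z hz hp using key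
  have hinj : Function.Injective p := by
    intro a a' haa
    have h4 := hp a
    have h5 := hp a'
    rw [← haa] at h5
    -- the elements are proportional
    have h6 : r.e a = T.inv.g (z a / z a') • r.e a' := by
      rw [← T.inv_act (r.e a), ← T.inv_act (r.e a'), ← T.inv.act_smul]
      congr 1
      rw [h4, h5, smul_smul, div_mul_cancel₀ _ (hz a')]
    by_contra hne
    have h7 := r.ind0 (u := Pi.single a 1 - Pi.single a' (T.inv.g (z a / z a'))) (by
      classical
      simp only [Pi.sub_apply, sub_smul, Finset.sum_sub_distrib]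
      rw [Finset.sum_eq_single a, Finset.sum_eq_single a']
      · rw [Pi.single_eq_same, Pi.single_eq_same, one_smul, ← h6, sub_self]
      · intro b _ hb; rw [Pi.single_eq_of_ne hb, zero_smul]
      · intro h; exact absurd (Finset.mem_univ _) h
      · intro b _ hb; rw [Pi.single_eq_of_ne hb, zero_smul]
      · intro h; exact absurd (Finset.mem_univ _) h) a
    rw [Pi.sub_apply, Pi.single_eq_same, Pi.single_eq_of_ne hne, sub_zero] at h7
    exact one_ne_zero h7
  let pe : R ≃ R := Equiv.ofBijective p (Finite.injective_iff_bijective.1 hinj)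
  have hpe : ∀ a, pe a = p a := fun a => rfl
  -- the coroots
  have hh0 : ∀ a, T.act (diagonal (r.h a)) ≠ 0 := by
    intro a h
    have h7 := T.inv_act (diagonal (r.h a))
    rw [h, T.inv.act_zero] at h7
    have h8 := r.he a a
    rw [← h7, zero_mul, mul_zero, sub_zero] at h8
    exact r.e0 a ((smul_eq_zero.1 h8.symm).resolve_left (r.c2 a))
  have hdg : ∀ a b, diagonal (r.h b) * T.act (diagonal (r.h a)) -
      T.act (diagonal (r.h a)) * diagonal (r.h b) = 0 := by
    intro a b
    have h5 : diagonal (r.h b) = T.act (T.inv.act (diagonal (r.h b))) := (T.act_inv _).symm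
    obtain ⟨t, ht⟩ := hd b
    rw [h5, ← T.act_mul, ← T.act_mul, ← T.act_sub, ht, Matrix.mul_sum, Matrix.sum_mul,
      ← Finset.sum_sub_distrib, Finset.sum_eq_zero, T.act_zero]
    intro d _
    rw [Matrix.mul_smul, Matrix.smul_mul, ← smul_sub, diag_comm, smul_zero]
  have hcor : ∀ a, T.act (diagonal (r.h a)) = diagonal (r.h (p a)) := by
    intro a
    obtain ⟨k, hk⟩ := r.fe a
    obtain ⟨k', hk'⟩ := r.fe (p a)
    have h4 : T.act (diagonal (r.h a)) = (z a * (T.g k * z (r.neg a))) •
        (r.e (p a) * r.e (p (r.neg a)) - r.e (p (r.neg a)) * r.e (p a)) := by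
      rw [← r.ef a, T.act_sub, T.act_mul, T.act_mul, hk, T.act_smul, hp, hp]
      simp only [Matrix.smul_mul, Matrix.mul_smul, smul_smul, smul_sub]
      congr 2
      ring
    set w := r.e (p a) * r.e (p (r.neg a)) - r.e (p (r.neg a)) * r.e (p a) with hw
    have hw0 : w ≠ 0 := by
      intro h
      rw [h, smul_zero] at h4
      exact hh0 a h4
    have h5 : ∀ b, diagonal (r.h b) * w - w * diagonal (r.h b) =
        ((r.c (p a) b : K) + r.c (p (r.neg a)) b) • w := by
      intro b
      have e1 := r.he (p a) b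
      have e2 := r.he (p (r.neg a)) b
      rw [sub_eq_iff_eq_add] at e1 e2
      have : diagonal (r.h b) * w - w * diagonal (r.h b) =
          (diagonal (r.h b) * r.e (p a)) * r.e (p (r.neg a)) -
          (diagonal (r.h b) * r.e (p (r.neg a))) * r.e (p a) -
          r.e (p a) * (r.e (p (r.neg a)) * diagonal (r.h b)) +
          r.e (p (r.neg a)) * (r.e (p a) * diagonal (r.h b)) := by
        rw [hw]
        noncomm_ring
      rw [this, e1, e2, hw]
      have e3 : r.e (p (r.neg a)) * diagonal (r.h b) = diagonal (r.h b) * r.e (p (r.neg a)) -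
        (r.c (p (r.neg a)) b : K) • r.e (p (r.neg a)) := by rw [e2]; abel
      have e4 : r.e (p a) * diagonal (r.h b) = diagonal (r.h b) * r.e (p a) -
        (r.c (p a) b : K) • r.e (p a) := by rw [e1]; abel
      simp only [add_mul, Matrix.smul_mul, smul_sub, add_smul, Matrix.mul_assoc]
      rw [e3, e4]
      simp only [Matrix.mul_sub, Matrix.mul_smul]
      abel
    have h6 : ∀ b, (r.c (p a) b : K) + r.c (p (r.neg a)) b = 0 := by
      intro b
      have h7 := hdg a b
      rw [h4, Matrix.mul_smul, Matrix.smul_mul, ← smul_sub, h5, smul_smul] at h7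
      rcases smul_eq_zero.1 h7 with h8 | h8
      · rcases mul_eq_zero.1 h8 with h9 | h9
        · exfalso
          rw [h9, zero_smul] at h4
          exact hh0 a h4
        · exact h9
      · exact absurd h8 hw0
    have h7 : p (r.neg a) = r.neg (p a) := by
      apply r.c_inj
      intro b
      rw [r.cn]
      have : r.c (p a) b + r.c (p (r.neg a)) b = 0 := by exact_mod_cast h6 b
      linarith
    have hk0 : k' ≠ 0 := by
      intro h
      rw [h, zero_smul] at hk'
      have h8 := r.ef (p a)
      rw [hk', mul_zero, zero_mul, sub_zero] at h8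
      have h9 := r.he (p a) (p a)
      rw [← h8, zero_mul, mul_zero, sub_zero] at h9
      exact r.e0 (p a) ((smul_eq_zero.1 h9.symm).resolve_left (r.c2 _))
    have h8 : ∃ k'' : K, T.act (diagonal (r.h a)) = k'' • diagonal (r.h (p a)) := by
      refine ⟨z a * (T.g k * z (r.neg a)) * k'⁻¹, ?_⟩
      rw [h4, ← r.ef (p a), hk', ← h7, hw]
      simp only [Matrix.mul_smul, Matrix.smul_mul, ← smul_sub, smul_smul]
      congr 1
      rw [mul_assoc, inv_mul_cancel₀ hk0, mul_one]
    obtain ⟨k'', h9⟩ := h8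
    have h10 : k'' = 1 := by
      have e1 := congrArg T.act (r.he a a)
      rw [T.act_sub, T.act_mul, T.act_mul, T.act_smul, h9, hp, map_intCast, r.two] at e1
      simp only [Matrix.smul_mul, Matrix.mul_smul, smul_smul, ← smul_sub] at e1
      rw [mul_comm (z a) k'', ← smul_sub, r.he, r.two, smul_smul] at e1
      have e2 : (k'' * z a * ((2 : ℤ) : K) - ((2 : ℤ) : K) * z a) • r.e (p a) = 0 := by
        rw [sub_smul, e1, sub_self]
      have e3 := (smul_eq_zero.1 e2).resolve_right (r.e0 _)
      have e4 : (k'' - 1) * z a = 0 := by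
        push_cast at e3
        linear_combination (1 / 2 : K) * e3
      exact sub_eq_zero.1 ((mul_eq_zero.1 e4).resolve_right (hz a))
    rw [h9, h10, one_smul]
  refine ⟨pe, fun a => ⟨z a, hz a, hp a⟩, hcor, fun a b => ?_, fun i j hij a => ?_⟩
  · have e1 := congrArg T.act (r.he a b)
    rw [T.act_sub, T.act_mul, T.act_mul, T.act_smul, hcor, hp, map_intCast] at e1
    simp only [Matrix.smul_mul, Matrix.mul_smul] at e1
    rw [← smul_sub] at e1
    rw [r.he, smul_smul, smul_smul] at e1
    have e2 : (z a * (r.c (p a) (p b) : K) - (r.c a b : K) * z a) • r.e (p a) = 0 := by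
      rw [sub_smul, e1, sub_self]
    have e3 := (smul_eq_zero.1 e2).resolve_right (r.e0 _)
    have e4 : z a * ((r.c (p a) (p b) : K) - (r.c a b : K)) = 0 := by linear_combination e3
    have e5 := sub_eq_zero.1 ((mul_eq_zero.1 e4).resolve_left (hz a))
    exact_mod_cast e5
  · have e1 := hcor a
    have e2 : T.P * (diagonal (r.h a)).map T.g = diagonal (r.h (p a)) * T.P := by
      rw [← e1]
      unfold SL.act
      rw [Matrix.mul_assoc, T.qp, Matrix.mul_one]
    have e3 := congrFun (congrFun e2 i) j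
    rw [Matrix.diagonal_map (map_zero T.g), mul_diagonal, diagonal_mul] at e3
    have e4 : T.g (r.h a j) = r.h (p a) i := by
      apply mul_left_cancel₀ hij
      rw [mul_comm (T.P i j) (r.h (p a) i)]
      exact e3
    rw [r.hm, r.hm, map_intCast] at e4
    exact_mod_cast e4.symm

end Pool.Agent.H943.DP
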