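import Pool.Graph.R_seed8.Helper18.Br.TensorCSA
import Pool.Agent.H943.DP.Fun

/-!
# The absolutely irreducible representation of a central division algebra
-/

set_option autoImplicit false
set_option linter.unusedSectionVars false

open Module Matrix Function TensorProduct

noncomputable section

namespace Pool.Agent.H943.DP

variable {F Ω B : Type} [Field F] [Field Ω] [Algebra F Ω] [Ring B] [Algebra F B]

theorem exists_rho [IsAlgClosed Ω] [FiniteDimensional F B] [Algebra.IsCentral F B] [IsSimpleRing B]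
    {n : ℕ} (hn : finrank F B = n ^ 2) :
    ∃ ρ : B →ₐ[F] Mt n Ω, Submodule.span Ω (Set.range ρ) = ⊤ := by
  have h1 : IsSimpleRing (B ⊗[F] Ω) := Pool.Agent.Helper18.Br.isSimple_tensor
  have h2 : IsSimpleRing (Ω ⊗[F] B) :=
    IsSimpleRing.of_surjective ((Algebra.TensorProduct.comm F B Ω) : B ⊗[F] Ω →ₐ[F] Ω ⊗[F] B).toRingHom
      h1 (Algebra.TensorProduct.comm F B Ω).surjective
  obtain ⟨m, _, ⟨e⟩⟩ := IsSimpleRing.exists_algEquiv_matrix_of_isAlgClosed Ω (Ω ⊗[F] B)
  have h3 : finrank Ω (Ω ⊗[F] B) = m ^ 2 := by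
    rw [e.toLinearEquiv.finrank_eq, finrank_matrix, finrank_self, Fintype.card_fin, mul_one, pow_two]
  rw [finrank_baseChange, hn] at h3
  have h4 : n = m := Nat.pow_left_injective (n := 2) two_ne_zero h3
  subst h4
  refine ⟨(e.restrictScalars F : Ω ⊗[F] B →ₐ[F] Mt n Ω).comp Algebra.TensorProduct.includeRight, ?_⟩
  rw [eq_top_iff]
  rintro X -
  obtain ⟨t, rfl⟩ := e.surjective X
  induction t using TensorProduct.induction_on with
  | zero => rw [map_zero]; exact Submodule.zero_mem _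
  | tmul ω b =>
    have h5 : ω ⊗ₜ[F] b = ω • ((1 : Ω) ⊗ₜ[F] b) := by rw [TensorProduct.smul_tmul', smul_eq_mul, mul_one]
    rw [h5, map_smul]
    exact Submodule.smul_mem _ _ (Submodule.subset_span ⟨b, rfl⟩)
  | add x y hx hy => rw [map_add]; exact Submodule.add_mem _ hx hy

/-- the basis of the matrices given by a basis of the algebra -/
def bas {n : ℕ} (ρ : B →ₐ[F] Mt n Ω) (hspan : Submodule.span Ω (Set.range ρ) = ⊤)
    (hn : finrank F B = n ^ 2) {ι : Type} [Fintype ι] (β : Basis ι F B) : Basis ι Ω (Mt n Ω) :=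
  have h1 : ⊤ ≤ Submodule.span Ω (Set.range (ρ ∘ β)) := by
    rw [← hspan, Submodule.span_le]
    rintro _ ⟨b, rfl⟩
    rw [← β.sum_repr b, map_sum]
    refine Submodule.sum_mem _ fun i _ => ?_
    rw [map_smul, ← algebraMap_smul Ω]
    exact Submodule.smul_mem _ _ (Submodule.subset_span ⟨i, rfl⟩)
  Basis.mk (linearIndependent_of_top_le_span_of_card_eq_finrank h1 (by
    rw [finrank_matrix, finrank_self, Fintype.card_fin, mul_one, ← pow_two, ← hn,
      finrank_eq_card_basis β])) h1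

theorem bas_apply {n : ℕ} (ρ : B →ₐ[F] Mt n Ω) (hspan : Submodule.span Ω (Set.range ρ) = ⊤)
    (hn : finrank F B = n ^ 2) {ι : Type} [Fintype ι] (β : Basis ι F B) (i : ι) :
    bas ρ hspan hn β i = ρ (β i) := by
  unfold bas
  rw [Basis.mk_apply]
  rfl

/-- independent elements are independent over the large field -/
theorem indep {n : ℕ} (ρ : B →ₐ[F] Mt n Ω) (hspan : Submodule.span Ω (Set.range ρ) = ⊤)
    (hn : finrank F B = n ^ 2) [FiniteDimensional F B] {ι : Type} (v : ι → B)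
    (hv : LinearIndependent F v) : LinearIndependent Ω (fun i => ρ (v i)) := by
  let β := Basis.extend hv.linearIndepOn_id
  have : Fintype ↑(hv.linearIndepOn_id.extend (Set.subset_univ _)) :=
    FiniteDimensional.fintypeBasisIndex β
  let a : ι → ↑(hv.linearIndepOn_id.extend (Set.subset_univ _)) := fun i =>
    ⟨v i, hv.linearIndepOn_id.subset_extend _ ⟨i, rfl⟩⟩
  have ha : Function.Injective a := fun i j h => hv.injective (congrArg Subtype.val h)
  have h1 := (bas ρ hspan hn β).linearIndependent.comp a ha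
  have h2 : (⇑(bas ρ hspan hn β) ∘ a) = fun i => ρ (v i) := by
    funext i
    rw [Function.comp_apply, bas_apply]
    congr 1
    exact Basis.extend_apply_self hv.linearIndepOn_id (a i)
  rw [h2] at h1
  exact h1

/-- inner automorphisms -/
theorem skolem {n : ℕ} (Φ : Mt n Ω ≃ₐ[Ω] Mt n Ω) : ∃ P Q : Mt n Ω, P * Q = 1 ∧ Q * P = 1 ∧
    ∀ X, Φ X = P * X * Q := by
  let f : Module.End Ω (Fin n → Ω) ≃ₐ[Ω] Module.End Ω (Fin n → Ω) :=
    (Matrix.toLinAlgEquiv'.symm.trans Φ).trans Matrix.toLinAlgEquiv'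
  obtain ⟨T, hT⟩ := f.eq_linearEquivConjAlgEquiv
  refine ⟨LinearMap.toMatrix' T.toLinearMap, LinearMap.toMatrix' T.symm.toLinearMap, ?_, ?_, ?_⟩
  · rw [← LinearMap.toMatrix'_comp, ← LinearMap.toMatrix'_one]
    congr 1
    ext x
    simp
  · rw [← LinearMap.toMatrix'_comp, ← LinearMap.toMatrix'_one]
    congr 1
    ext x
    simp
  · intro X
    have h1 : f (Matrix.toLinAlgEquiv' X) = T.toLinearMap ∘ₗ (Matrix.toLinAlgEquiv' X) ∘ₗ
        T.symm.toLinearMap := by
      rw [hT, LinearEquiv.conjAlgEquiv_apply]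
    have h2 : f (Matrix.toLinAlgEquiv' X) = Matrix.toLinAlgEquiv' (Φ X) := by
      show Matrix.toLinAlgEquiv' (Φ (Matrix.toLinAlgEquiv'.symm (Matrix.toLinAlgEquiv' X))) = _
      rw [AlgEquiv.symm_apply_apply]
    rw [h2] at h1
    have h3 := congrArg LinearMap.toMatrix' h1
    rw [LinearMap.toMatrix'_comp, LinearMap.toMatrix'_comp] at h3
    have h4 : ∀ X : Mt n Ω, LinearMap.toMatrix' (Matrix.toLinAlgEquiv' X) = X := fun X =>
      LinearMap.toMatrix'_toLin' X
    rw [h4, h4] at h3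
    rw [h3, Matrix.mul_assoc]

/-- **The symmetries.** -/
theorem exists_T {n : ℕ} (ρ : B →ₐ[F] Mt n Ω) (hspan : Submodule.span Ω (Set.range ρ) = ⊤)
    (hn : finrank F B = n ^ 2) [FiniteDimensional F B] (hn0 : 0 < n) (γ : Ω ≃ₐ[F] Ω) :
    ∃ T : SL n Ω, (∀ x, T.g x = γ x) ∧ ∀ b, T.act (ρ b) = ρ b := by
  have : Nonempty (Fin n) := ⟨⟨0, hn0⟩⟩
  let β := finBasis F B
  let b := bas ρ hspan hn β
  let Φ : Mt n Ω →ₗ[Ω] Mt n Ω := b.constr Ω fun i => (ρ (β i)).map γ
  have hΦ : ∀ x, Φ (ρ x) = (ρ x).map γ := by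
    intro x
    have h1 : ρ x = ∑ i, (algebraMap F Ω (β.repr x i)) • ρ (β i) := by
      conv_lhs => rw [← β.sum_repr x, map_sum]
      exact Finset.sum_congr rfl fun i _ => by rw [map_smul, algebraMap_smul]
    have h2 : ∀ i, Φ (ρ (β i)) = (ρ (β i)).map γ := by
      intro i
      have : ρ (β i) = b i := (bas_apply ρ hspan hn β i).symm
      rw [this]
      exact (b.constr_basis Ω _ i).trans (by rw [← this])
    rw [h1, map_sum]
    have h3 : (∑ i, (algebraMap F Ω (β.repr x i)) • ρ (β i)).map γ =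
        ∑ i, (algebraMap F Ω (β.repr x i)) • (ρ (β i)).map γ := by
      ext j k
      rw [map_apply, Matrix.sum_apply, Matrix.sum_apply, map_sum]
      refine Finset.sum_congr rfl fun i _ => ?_
      rw [Matrix.smul_apply, Matrix.smul_apply, smul_eq_mul, smul_eq_mul, map_mul, AlgEquiv.commutes,
        map_apply]
    rw [h3]
    exact Finset.sum_congr rfl fun i _ => by rw [map_smul, h2]
  have hmul0 : ∀ x y, Φ (ρ x * ρ y) = Φ (ρ x) * Φ (ρ y) := by
    intro x y
    rw [← map_mul, hΦ, hΦ, hΦ, map_mul]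
    exact Matrix.map_mul (f := (γ : Ω →+* Ω))
  have hmul : ∀ X Y, Φ (X * Y) = Φ X * Φ Y := by
    intro X Y
    have hX : X ∈ Submodule.span Ω (Set.range ρ) := by rw [hspan]; trivial
    have hY : Y ∈ Submodule.span Ω (Set.range ρ) := by rw [hspan]; trivial
    induction hX using Submodule.span_induction with
    | mem X hX =>
      obtain ⟨x, rfl⟩ := hX
      induction hY using Submodule.span_induction with
      | mem Y hY =>
        obtain ⟨y, rfl⟩ := hY
        exact hmul0 x y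
      | zero => rw [mul_zero, map_zero, mul_zero]
      | add a b _ _ ha hb => rw [mul_add, map_add, map_add, mul_add, ha, hb]
      | smul c a _ ha => rw [Matrix.mul_smul, map_smul, map_smul, Matrix.mul_smul, ha]
    | zero => rw [zero_mul, map_zero, zero_mul]
    | add a b _ _ ha hb => rw [add_mul, map_add, map_add, add_mul, ha, hb]
    | smul c a _ ha => rw [Matrix.smul_mul, map_smul, map_smul, Matrix.smul_mul, ha]
  have hone : Φ 1 = 1 := by
    have := hΦ 1
    rw [map_one] at this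
    rw [this]
    exact Matrix.map_one _ (map_zero γ) (map_one γ)
  let Ψ : Mt n Ω →ₐ[Ω] Mt n Ω := AlgHom.ofLinearMap Φ hone hmul
  have hinj : Function.Injective Ψ := Ψ.toRingHom.injective
  have hsurj : Function.Surjective Ψ :=
    (LinearMap.injective_iff_surjective (f := Ψ.toLinearMap)).1 hinj
  obtain ⟨P, Q, h1, h2, h3⟩ := skolem (AlgEquiv.ofBijective Ψ ⟨hinj, hsurj⟩)
  refine ⟨⟨Q, P, γ.toRingEquiv, h2, h1⟩, fun x => rfl, fun x => ?_⟩
  have h4 : (ρ x).map γ = P * ρ x * Q := by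
    rw [← hΦ]
    exact h3 (ρ x)
  show Q * (ρ x).map γ * P = ρ x
  rw [h4]
  calc Q * (P * ρ x * Q) * P = (Q * P) * ρ x * (Q * P) := by simp only [Matrix.mul_assoc]
    _ = ρ x := by rw [h2, Matrix.one_mul, Matrix.mul_one]

end Pool.Agent.H943.DP
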