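import Mathlib

/-!
# The root decomposition of a semisimple Lie algebra, in elementary form
-/

set_option autoImplicit false

open Module

noncomputable section

namespace Pool.Agent.H943.DP

/-- the root data, for a Lie algebra `L` with a Cartan subalgebra `H` -/
structure RD (K L : Type) [Field K] [LieRing L] [LieAlgebra K L] (H : LieSubalgebra K L)
    (R : Type) [Fintype R] where
  neg : R → R
  s : R → R → R
  c : R → R → ℤ
  e : R → L
  f : R → L
  h : R → H
  al : R → Dual K H
  al_inj : Function.Injective al
  he : ∀ a (t : H), ⁅(t : L), e a⁆ = al a t • e a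
  hf : ∀ a (t : H), ⁅(t : L), f a⁆ = -(al a t • f a)
  hef : ∀ a, ⁅e a, f a⁆ = (h a : L)
  e0 : ∀ a, e a ≠ 0
  alh : ∀ a b, al a (h b) = (c a b : K)
  two : ∀ a, c a a = 2
  aln : ∀ a, al (neg a) = - al a
  hn : ∀ a, h (neg a) = - h a
  als : ∀ a b, al (s a b) = al b - (c b a : K) • al a
  hs : ∀ a b, h (s a b) = h b - (c a b : K) • h a
  dec : ∀ X : L, ∃ (t : H) (b : R → K), X = t + ∑ a, b a • e a
  top : Submodule.span K (Set.range h) = ⊤
  fe : ∀ a, ∃ k : K, f a = k • e (neg a)
  ind : LinearIndependent K e

open LieAlgebra LieAlgebra.IsKilling LieModule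

theorem exists_rd (K L : Type) [Field K] [CharZero K] [LieRing L] [LieAlgebra K L]
    [FiniteDimensional K L] [IsKilling K L] (H : LieSubalgebra K L) [H.IsCartanSubalgebra]
    [IsTriangularizable K H L] : ∃ (R : Type) (_ : Fintype R), Nonempty (RD K L H R) := by
  classical
  have hnz : ∀ a : H.root, (a : Weight K H L).IsNonZero := fun a => H.isNonZero_coe_root a
  have h1 : ∀ a : H.root, ∃ ef : L × L, IsSl2Triple ((coroot (a : Weight K H L) : H) : L) ef.1 ef.2 ∧
      ef.1 ∈ rootSpace H (a : Weight K H L) ∧ ef.2 ∈ rootSpace H (-(a : Weight K H L) : H → K) := by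
    intro a
    obtain ⟨h, e, f, ht, he, hf⟩ := exists_isSl2Triple_of_weight_isNonZero (hnz a)
    have h2 := ht.h_eq_coroot (hnz a) he hf
    subst h2
    exact ⟨(e, f), ht, he, hf⟩
  choose ef ht he hf using h1
  have hmemneg : ∀ a : H.root, (-(a : Weight K H L)) ∈ H.root := by
    intro a
    simpa [LieSubalgebra.root] using hnz a
  have hmems : ∀ a b : H.root, reflectRoot (a : Weight K H L) b ∈ H.root := by
    intro a b
    simpa [LieSubalgebra.root] using reflectRoot_isNonZero _ _ (hnz b)
  have hc : ∀ a b : H.root, ∃ c : ℤ, (a : Weight K H L) (coroot (b : Weight K H L)) = (c : K) := by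
    intro a b
    exact ⟨_, apply_coroot_eq_cast (b : Weight K H L) (a : Weight K H L)⟩
  choose c hc using hc
  have hsp : ∀ (a : H.root) (x : L), x ∈ rootSpace H (a : Weight K H L) →
      ∃ k : K, x = k • (ef a).1 := by
    intro a x hx
    have h2 := finrank_rootSpace_eq_one (a : Weight K H L) (hnz a)
    have h3 : (⟨(ef a).1, he a⟩ : rootSpace H (a : Weight K H L)) ≠ 0 := by
      intro h
      exact (ht a).e_ne_zero (congrArg Subtype.val h)
    obtain ⟨k, hk⟩ := (finrank_eq_one_iff_of_nonzero' _ h3).1 h2 ⟨x, hx⟩
    exact ⟨k, (congrArg Subtype.val hk).symm⟩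
  have hlie : ∀ (χ : H → K) (t : H) (x : L), x ∈ rootSpace H χ → ⁅(t : L), x⁆ = χ t • x := by
    intro χ t x hx
    exact lie_eq_smul_of_mem_rootSpace hx t
  refine ⟨H.root, inferInstance, ⟨{
    neg := fun a => ⟨-a, hmemneg a⟩
    s := fun a b => ⟨reflectRoot (a : Weight K H L) b, hmems a b⟩
    c := c
    e := fun a => (ef a).1
    f := fun a => (ef a).2
    h := fun a => coroot (a : Weight K H L)
    al := fun a => Weight.toLinear K H L (a : Weight K H L)
    al_inj := ?_
    he := ?_
    hf := ?_
    hef := ?_
    e0 := ?_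
    alh := ?_
    two := ?_
    aln := ?_
    hn := ?_
    als := ?_
    hs := ?_
    dec := ?_
    top := ?_
    fe := ?_
    ind := ?_ }⟩⟩
  · intro a b hab
    apply Subtype.ext
    ext x
    simpa using LinearMap.congr_fun hab x
  · intro a t
    exact hlie _ t _ (he a)
  · intro a t
    rw [hlie _ t _ (hf a)]
    simp
  · intro a
    exact (ht a).lie_e_f
  · intro a
    exact (ht a).e_ne_zero
  · intro a b
    exact hc a b
  · intro a
    have h2 := root_apply_coroot (hnz a)
    rw [hc a a] at h2
    exact_mod_cast h2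
  · intro a
    ext x
    simp
  · intro a
    simp
  · intro a b
    ext x
    have h2 := hc b a
    simp [reflectRoot, h2]
  · intro a b
    have h2 : (rootSystem H).reflectionPerm a b =
        ⟨reflectRoot (a : Weight K H L) b, hmems a b⟩ := by
      apply (rootSystem H).root.injective
      rw [RootPairing.root_reflectionPerm, RootPairing.reflection_apply_root]
      ext x
      simp [reflectRoot]
    have h3 := (rootSystem H).coroot_reflectionPerm a b
    rw [h2, RootPairing.coreflection_apply_coroot] at h3
    simp only [rootSystem_coroot_apply, rootSystem_pairing_apply, hc] at h3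
    exact h3
  · intro X
    have h2 : X ∈ (⊤ : LieSubmodule K H L) := LieSubmodule.mem_top X
    rw [← iSup_genWeightSpace_eq_top' K H L] at h2
    rw [← LieSubmodule.mem_toSubmodule, LieSubmodule.iSup_toSubmodule] at h2
    induction h2 using Submodule.iSup_induction' with
    | mem χ x hx =>
      by_cases h0 : χ.IsZero
      · have h3 : x ∈ H.toLieSubmodule := by
          have h4 := (eq_rootSpace_zero_iff_isCartan K L H).2 inferInstance
          rw [h4]
          have h5 : (χ : H → K) = 0 := h0
          rw [← h5]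
          exact hx
        refine ⟨⟨x, h3⟩, 0, ?_⟩
        simp
      · have h3 : χ ∈ H.root := by simpa [LieSubalgebra.root] using h0
        obtain ⟨k, hk⟩ := hsp ⟨χ, h3⟩ x hx
        refine ⟨0, Pi.single ⟨χ, h3⟩ k, ?_⟩
        rw [Finset.sum_eq_single (⟨χ, h3⟩ : H.root)]
        · rw [Pi.single_eq_same, ← hk]
          simp
        · intro b _ hb
          rw [Pi.single_eq_of_ne hb, zero_smul]
        · intro h
          exact absurd (Finset.mem_univ _) h
    | zero => exact ⟨0, 0, by simp⟩
    | add x y _ _ hx hy =>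
      obtain ⟨t, b, rfl⟩ := hx
      obtain ⟨t', b', rfl⟩ := hy
      refine ⟨t + t', b + b', ?_⟩
      simp only [Pi.add_apply, add_smul, Finset.sum_add_distrib]
      have h6 : ((t + t' : H) : L) = t + t' := rfl
      rw [h6]
      abel
  · have h2 := RootPairing.IsRootSystem.span_coroot_eq_top (P := rootSystem H)
    rw [← h2]
    congr 1
  · intro a
    exact hsp ⟨-a, hmemneg a⟩ _ (hf a)
  · have h2 := (LieSubmodule.iSupIndep_toSubmodule.2 (iSupIndep_genWeightSpace' K H L)).comp
      (f := fun a : H.root => (a : Weight K H L)) Subtype.val_injective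
    exact h2.linearIndependent _ (fun a => he a) (fun a => (ht a).e_ne_zero)

end Pool.Agent.H943.DP
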