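import Pool.Agent.H943.DP.RootA

/-!
# The root decomposition of an irreducible Lie algebra of matrices
-/

set_option autoImplicit false
set_option linter.unusedSectionVars false

open Module Matrix

noncomputable section

namespace Pool.Agent.H943.DP

attribute [local instance 100] LieRing.ofAssociativeRing

/-- An irreducible Lie algebra of matrices of trace zero, with a diagonal element such that the
elements which commute with it are diagonal matrices. -/
structure Sett {n : ℕ} {K : Type} [Field K] (L : Submodule K (Matrix (Fin n) (Fin n) K))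
    (xi : Fin n → K) : Prop where
  br : ∀ X ∈ L, ∀ Y ∈ L, X * Y - Y * X ∈ L
  tr : ∀ X ∈ L, X.trace = 0
  irr : ∀ U : Submodule K (Fin n → K), (∀ X ∈ L, ∀ u ∈ U, X *ᵥ u ∈ U) → U = ⊥ ∨ U = ⊤
  pos : 0 < n
  mem : diagonal xi ∈ L
  cen : ∀ X ∈ L, X * diagonal xi = diagonal xi * X →
    ∃ t : Fin n → K, X = diagonal t ∧ ∀ i j, xi i = xi j → t i = t j

/-- the root data -/
structure MD {n : ℕ} {K : Type} [Field K] (L : Submodule K (Matrix (Fin n) (Fin n) K))
    (xi : Fin n → K) (R : Type) [Fintype R] where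
  neg : R → R
  s : R → R → R
  c : R → R → ℤ
  e : R → Matrix (Fin n) (Fin n) K
  f : R → Matrix (Fin n) (Fin n) K
  h : R → Fin n → K
  eL : ∀ a, e a ∈ L
  fL : ∀ a, f a ∈ L
  hL : ∀ a, diagonal (h a) ∈ L
  c_inj : ∀ a b, (∀ d, c a d = c b d) → a = b
  he : ∀ a b, diagonal (h b) * e a - e a * diagonal (h b) = (c a b : K) • e a
  hf : ∀ a b, diagonal (h b) * f a - f a * diagonal (h b) = -((c a b : K) • f a)
  ef : ∀ a, e a * f a - f a * e a = diagonal (h a)
  e0 : ∀ a, e a ≠ 0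
  two : ∀ a, c a a = 2
  cn : ∀ a b, c (neg a) b = - c a b
  hn : ∀ a, h (neg a) = - h a
  cs : ∀ a b d, c (s a b) d = c b d - c b a * c a d
  hs : ∀ a b, h (s a b) = h b - (c a b : K) • h a
  hxi : ∀ a i j, xi i = xi j → h a i = h a j
  dec : ∀ X ∈ L, ∃ (t b : R → K), X = ∑ a, t a • diagonal (h a) + ∑ a, b a • e a
  dec0 : ∃ (t : R → K), diagonal xi = ∑ a, t a • diagonal (h a)
  fe : ∀ a, ∃ k : K, f a = k • e (neg a)
  ind : LinearIndependent K e

variable {n : ℕ} {K : Type} [Field K] [CharZero K] {L : Submodule K (Matrix (Fin n) (Fin n) K)}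
    {xi : Fin n → K}

/-- the Lie algebra of endomorphisms -/
def LL (hS : Sett L xi) : LieSubalgebra K (Module.End K (Fin n → K)) where
  toSubmodule := L.map (Matrix.toLinAlgEquiv' : Matrix (Fin n) (Fin n) K ≃ₐ[K] _).toLinearMap
  lie_mem' := by
    rintro _ _ ⟨X, hX, rfl⟩ ⟨Y, hY, rfl⟩
    refine ⟨X * Y - Y * X, hS.br X hX Y hY, ?_⟩
    rw [LieRing.of_associative_ring_bracket]
    simp

theorem mem_LL {hS : Sett L xi} {X : Module.End K (Fin n → K)} :
    X ∈ LL hS ↔ ∃ Y ∈ L, Matrix.toLinAlgEquiv' Y = X := Iff.rfl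

/-- the Cartan subalgebra -/
def HH (hS : Sett L xi) : LieSubalgebra K (LL hS) where
  carrier := {X | ∃ t : Fin n → K, (X : Module.End K (Fin n → K)) = Matrix.toLinAlgEquiv' (diagonal t)}
  zero_mem' := ⟨0, by simp⟩
  add_mem' := by
    rintro X Y ⟨t, ht⟩ ⟨t', ht'⟩
    refine ⟨t + t', ?_⟩
    have : ((X + Y : LL hS) : Module.End K (Fin n → K)) = X + Y := rfl
    rw [this, ht, ht', ← map_add, diagonal_add]
    rfl
  smul_mem' := by
    rintro c X ⟨t, ht⟩
    refine ⟨c • t, ?_⟩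
    have : ((c • X : LL hS) : Module.End K (Fin n → K)) = c • (X : Module.End K (Fin n → K)) := rfl
    rw [this, ht, ← map_smul, diagonal_smul]
  lie_mem' := by
    rintro X Y ⟨t, ht⟩ ⟨t', ht'⟩
    refine ⟨0, ?_⟩
    have : ((⁅X, Y⁆ : LL hS) : Module.End K (Fin n → K)) =
      (X : Module.End K (Fin n → K)) * Y - Y * X := rfl
    rw [this, ht, ht', ← map_mul, ← map_mul, diagonal_mul_diagonal, diagonal_mul_diagonal]
    simp [mul_comm]

theorem mem_HH {hS : Sett L xi} {X : LL hS} :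
    X ∈ HH hS ↔ ∃ t : Fin n → K, (X : Module.End K (Fin n → K)) =
      Matrix.toLinAlgEquiv' (diagonal t) := Iff.rfl

theorem act_LL {hS : Sett L xi} (X : Matrix (Fin n) (Fin n) K) (hX : X ∈ L) (v : Fin n → K) :
    ⁅(⟨Matrix.toLinAlgEquiv' X, X, hX, rfl⟩ : LL hS), v⁆ = X *ᵥ v := rfl

theorem nontriv (hS : Sett L xi) : Nontrivial (Fin n → K) := by
  have := Fin.pos_iff_nonempty.1 hS.pos
  infer_instance

theorem irred (hS : Sett L xi) : LieModule.IsIrreducible K (LL hS) (Fin n → K) := by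
  have := nontriv hS
  refine LieModule.IsIrreducible.mk fun N hN => ?_
  have h0 : ∀ X ∈ L, ∀ u ∈ N.toSubmodule, X *ᵥ u ∈ N.toSubmodule := by
    intro X hX u hu
    exact N.lie_mem (x := (⟨Matrix.toLinAlgEquiv' X, X, hX, rfl⟩ : LL hS)) hu
  rcases hS.irr N.toSubmodule h0 with h | h
  · exact absurd ((LieSubmodule.toSubmodule_eq_bot N).1 h) hN
  · exact (LieSubmodule.toSubmodule_eq_top N).1 h

theorem faith (hS : Sett L xi) : LieModule.IsFaithful K (LL hS) (Fin n → K) := by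
  rw [LieModule.isFaithful_iff']
  intro X hX
  apply Subtype.ext
  exact LinearMap.ext fun m => hX m

theorem killing [IsAlgClosed K] (hS : Sett L xi) : LieAlgebra.IsKilling K (LL hS) := by
  have := irred hS
  have := faith hS
  have h1 : LieAlgebra.HasTrivialRadical K (LL hS) := by
    refine LieAlgebra.hasTrivialRadical_of_isIrreducible_of_isFaithful K (LL hS) (Fin n → K) ?_
    rintro ⟨_, X, hX, rfl⟩
    have h2 : LieModule.toEnd K (LL hS) (Fin n → K) ⟨Matrix.toLinAlgEquiv' X, X, hX, rfl⟩ =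
      Matrix.toLin' X := rfl
    have h3 := hS.tr X hX
    rw [← h3]
    exact Matrix.trace_toLin'_eq X
  infer_instance

theorem abelian (hS : Sett L xi) : IsLieAbelian (HH hS) := by
  refine ⟨?_⟩
  rintro ⟨X, t, ht⟩ ⟨Y, t', ht'⟩
  apply Subtype.ext
  apply Subtype.ext
  have h1 : (((⁅(⟨X, t, ht⟩ : HH hS), (⟨Y, t', ht'⟩ : HH hS)⁆ : HH hS) : LL hS) :
    Module.End K (Fin n → K)) = (X : Module.End K (Fin n → K)) * Y - Y * X := rfl
  rw [h1, ht, ht', ← map_mul, ← map_mul, diagonal_mul_diagonal, diagonal_mul_diagonal]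
  simp [mul_comm]

/-- the element of the Lie algebra of a matrix -/
def mk (hS : Sett L xi) (X : Matrix (Fin n) (Fin n) K) (hX : X ∈ L) : LL hS :=
  ⟨Matrix.toLinAlgEquiv' X, X, hX, rfl⟩

theorem mk_surj (hS : Sett L xi) (X : LL hS) : ∃ Y, ∃ hY : Y ∈ L, X = mk hS Y hY := by
  obtain ⟨_, Y, hY, rfl⟩ := X
  exact ⟨Y, hY, rfl⟩

theorem mk_inj (hS : Sett L xi) {X Y : Matrix (Fin n) (Fin n) K} {hX : X ∈ L} {hY : Y ∈ L}
    (h : mk hS X hX = mk hS Y hY) : X = Y :=
  (Matrix.toLinAlgEquiv' : Matrix (Fin n) (Fin n) K ≃ₐ[K] _).injective (congrArg Subtype.val h)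

theorem mk_lie (hS : Sett L xi) {X Y : Matrix (Fin n) (Fin n) K} {hX : X ∈ L} {hY : Y ∈ L} :
    ⁅mk hS X hX, mk hS Y hY⁆ = mk hS (X * Y - Y * X) (hS.br X hX Y hY) := by
  apply Subtype.ext
  have h1 : ((⁅mk hS X hX, mk hS Y hY⁆ : LL hS) : Module.End K (Fin n → K)) =
    Matrix.toLinAlgEquiv' X * Matrix.toLinAlgEquiv' Y -
      Matrix.toLinAlgEquiv' Y * Matrix.toLinAlgEquiv' X := rfl
  rw [h1, ← map_mul, ← map_mul, ← map_sub]
  rfl

theorem mk_mem (hS : Sett L xi) {X : Matrix (Fin n) (Fin n) K} {hX : X ∈ L} :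
    mk hS X hX ∈ HH hS ↔ ∃ t, X = diagonal t := by
  constructor
  · rintro ⟨t, ht⟩
    exact ⟨t, (Matrix.toLinAlgEquiv' : Matrix (Fin n) (Fin n) K ≃ₐ[K] _).injective ht⟩
  · rintro ⟨t, rfl⟩
    exact ⟨t, rfl⟩

theorem cartan (hS : Sett L xi) : (HH hS).IsCartanSubalgebra := by
  have := abelian hS
  refine ⟨inferInstance, le_antisymm ?_ (LieSubalgebra.le_normalizer _)⟩
  intro X hX
  rw [LieSubalgebra.mem_normalizer_iff] at hX
  obtain ⟨Y, hY, rfl⟩ := mk_surj hS X
  have h1 := hX (mk hS _ hS.mem) ((mk_mem hS).2 ⟨xi, rfl⟩)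
  rw [mk_lie, mk_mem] at h1
  obtain ⟨t, ht⟩ := h1
  have h2 : t = 0 := by
    funext i
    have h3 := congrFun (congrFun ht i) i
    rw [diagonal_apply_eq, Matrix.sub_apply, mul_diagonal, diagonal_mul, mul_comm, sub_self] at h3
    exact h3.symm
  rw [h2, show (0 : Fin n → K) = fun _ => 0 from rfl, diagonal_zero, sub_eq_zero] at ht
  obtain ⟨t', ht', -⟩ := hS.cen Y hY ht
  exact (mk_mem hS).2 ⟨t', ht'⟩

/-- the matrix -/
def un (hS : Sett L xi) : LL hS →ₗ[K] Matrix (Fin n) (Fin n) K :=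
  (Matrix.toLinAlgEquiv' : Matrix (Fin n) (Fin n) K ≃ₐ[K] _).symm.toLinearMap ∘ₗ
    (LL hS).toSubmodule.subtype

theorem un_mk (hS : Sett L xi) {X : Matrix (Fin n) (Fin n) K} {hX : X ∈ L} :
    un hS (mk hS X hX) = X :=
  (Matrix.toLinAlgEquiv' : Matrix (Fin n) (Fin n) K ≃ₐ[K] _).symm_apply_apply X

theorem un_mem (hS : Sett L xi) (X : LL hS) : un hS X ∈ L := by
  obtain ⟨Y, hY, rfl⟩ := mk_surj hS X
  rw [un_mk]
  exact hY

theorem un_inj (hS : Sett L xi) {X Y : LL hS} (h : un hS X = un hS Y) : X = Y := by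
  obtain ⟨X, hX, rfl⟩ := mk_surj hS X
  obtain ⟨Y, hY, rfl⟩ := mk_surj hS Y
  rw [un_mk, un_mk] at h
  subst h
  rfl

theorem un_lie (hS : Sett L xi) (X Y : LL hS) :
    un hS ⁅X, Y⁆ = un hS X * un hS Y - un hS Y * un hS X := by
  obtain ⟨X, hX, rfl⟩ := mk_surj hS X
  obtain ⟨Y, hY, rfl⟩ := mk_surj hS Y
  rw [mk_lie, un_mk, un_mk, un_mk]

/-- the diagonal -/
def dg (hS : Sett L xi) : HH hS →ₗ[K] (Fin n → K) where
  toFun X i := un hS X i i
  map_add' X Y := by
    funext i
    have : ((X + Y : HH hS) : LL hS) = X + Y := rfl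
    rw [this, map_add]
    rfl
  map_smul' c X := by
    funext i
    have : ((c • X : HH hS) : LL hS) = c • (X : LL hS) := rfl
    rw [this, map_smul]
    rfl

theorem un_dg (hS : Sett L xi) (X : HH hS) : un hS X = diagonal (dg hS X) := by
  obtain ⟨X, t, ht⟩ := X
  have h1 : un hS X = diagonal t := by
    show Matrix.toLinAlgEquiv'.symm (X : Module.End K (Fin n → K)) = _
    rw [ht, AlgEquiv.symm_apply_apply]
  have h2 : dg hS ⟨X, t, ht⟩ = t := by
    funext i
    show un hS X i i = t i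
    rw [h1, diagonal_apply_eq]
  rw [h2]
  exact h1

theorem exists_md [IsAlgClosed K] (hS : Sett L xi) :
    ∃ (R : Type) (_ : Fintype R), Nonempty (MD L xi R) := by
  have h1 := killing hS
  have h2 := cartan hS
  obtain ⟨R, hR, ⟨r⟩⟩ := exists_rd K (LL hS) (HH hS)
  refine ⟨R, hR, ⟨{
    neg := r.neg
    s := r.s
    c := r.c
    e := fun a => un hS (r.e a)
    f := fun a => un hS (r.f a)
    h := fun a => dg hS (r.h a)
    eL := fun a => un_mem hS _
    fL := fun a => un_mem hS _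
    hL := fun a => by rw [← un_dg]; exact un_mem hS _
    c_inj := ?_
    he := ?_
    hf := ?_
    ef := ?_
    e0 := ?_
    two := r.two
    cn := ?_
    hn := ?_
    cs := ?_
    hs := ?_
    hxi := ?_
    dec := ?_
    dec0 := ?_
    fe := ?_
    ind := ?_ }⟩⟩
  · intro a b hab
    apply r.al_inj
    refine LinearMap.ext fun x => ?_
    have h3 : x ∈ Submodule.span K (Set.range r.h) := by rw [r.top]; trivial
    induction h3 using Submodule.span_induction with
    | mem x hx =>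
      obtain ⟨d, rfl⟩ := hx
      rw [r.alh, r.alh, hab]
    | zero => rw [map_zero, map_zero]
    | add x y _ _ hx hy => rw [map_add, map_add, hx, hy]
    | smul k x _ hx => rw [map_smul, map_smul, hx]
  · intro a b
    rw [← un_dg, ← un_lie, r.he, map_smul, r.alh]
  · intro a b
    rw [← un_dg, ← un_lie, r.hf, map_neg, map_smul, r.alh]
  · intro a
    rw [← un_dg, ← un_lie, r.hef]
  · intro a h
    exact r.e0 a (un_inj hS (h.trans (map_zero _).symm))
  · intro a b
    have h3 := r.alh (r.neg a) b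
    rw [r.aln, LinearMap.neg_apply, r.alh] at h3
    exact_mod_cast h3.symm
  · intro a
    show dg hS (r.h (r.neg a)) = _
    rw [r.hn, map_neg]
  · intro a b d
    have h3 := r.alh (r.s a b) d
    rw [r.als, LinearMap.sub_apply, LinearMap.smul_apply, r.alh, r.alh, smul_eq_mul] at h3
    exact_mod_cast h3.symm
  · intro a b
    show dg hS (r.h (r.s a b)) = _
    rw [r.hs, map_sub, map_smul]
  · intro a i j hij
    obtain ⟨t, ht, h4⟩ := hS.cen _ (un_mem hS (r.h a : LL hS)) (by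
      rw [un_dg, diagonal_mul_diagonal, diagonal_mul_diagonal]
      simp [mul_comm])
    rw [un_dg] at ht
    have h5 := diagonal_injective ht
    rw [h5]
    exact h4 i j hij
  · intro X hX
    obtain ⟨t, b, hb⟩ := r.dec (mk hS X hX)
    have h3 : t ∈ Submodule.span K (Set.range r.h) := by rw [r.top]; trivial
    rw [← Finsupp.range_linearCombination] at h3
    obtain ⟨l, hl⟩ := h3
    refine ⟨l, b, ?_⟩
    have h4 := congrArg (un hS) hb
    rw [un_mk, map_add, map_sum] at h4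
    rw [h4]
    congr 1
    · rw [un_dg, ← hl, Finsupp.linearCombination_apply, Finsupp.sum_fintype _ _ (by simp), map_sum]
      have h5 : ∀ (v : R → (Fin n → K)), diagonal (∑ a, v a) = ∑ a, diagonal (v a) := by
        intro v
        exact map_sum (Matrix.diagonalAddMonoidHom (Fin n) K) v _
      rw [h5]
      refine Finset.sum_congr rfl fun a _ => ?_
      rw [map_smul, diagonal_smul]
  · have h3 : (⟨mk hS _ hS.mem, (mk_mem hS).2 ⟨xi, rfl⟩⟩ : HH hS) ∈
      Submodule.span K (Set.range r.h) := by rw [r.top]; trivial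
    rw [← Finsupp.range_linearCombination] at h3
    obtain ⟨l, hl⟩ := h3
    refine ⟨l, ?_⟩
    have h4 : diagonal xi = un hS ((⟨mk hS _ hS.mem, (mk_mem hS).2 ⟨xi, rfl⟩⟩ : HH hS) : LL hS) :=
      (un_mk hS (hX := hS.mem)).symm
    rw [h4, ← hl, un_dg, Finsupp.linearCombination_apply, Finsupp.sum_fintype _ _ (by simp), map_sum]
    have h5 : ∀ (v : R → (Fin n → K)), diagonal (∑ a, v a) = ∑ a, diagonal (v a) := by
      intro v
      exact map_sum (Matrix.diagonalAddMonoidHom (Fin n) K) v _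
    rw [h5]
    refine Finset.sum_congr rfl fun a _ => ?_
    rw [map_smul, diagonal_smul]
  · intro a
    obtain ⟨k, hk⟩ := r.fe a
    exact ⟨k, by rw [hk, map_smul]⟩
  · have h3 := r.ind.map' (un hS) (LinearMap.ker_eq_bot.2 fun X Y h => un_inj hS h)
    exact h3

end Pool.Agent.H943.DP
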