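import Pool.Agent.H943.DP.Fin

/-!
# Lie subalgebras of division algebras of prime power degree
-/

set_option autoImplicit false
set_option linter.unusedSectionVars false

open Module Matrix Function

noncomputable section

namespace Pool.Agent.H943.DP

/-- conjugation of a representation -/
def cj {F Ω B : Type} [Field F] [Field Ω] [Algebra F Ω] [Ring B] [Algebra F B] {n : ℕ}
    (ρ : B →ₐ[F] Mt n Ω) (D E : Mt n Ω) (hED : E * D = 1) (hDE : D * E = 1) : B →ₐ[F] Mt n Ω :=
  AlgHom.ofLinearMap
    { toFun := fun b => E * ρ b * D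
      map_add' := fun a b => by rw [map_add, mul_add, add_mul]
      map_smul' := fun c b => by
        rw [map_smul, Matrix.mul_smul, Matrix.smul_mul]
        rfl }
    (by
      show E * ρ 1 * D = 1
      rw [map_one, Matrix.mul_one, hED])
    (by
      intro a b
      show E * ρ (a * b) * D = E * ρ a * D * (E * ρ b * D)
      rw [map_mul]
      calc E * (ρ a * ρ b) * D = E * ρ a * 1 * ρ b * D := by
            simp only [Matrix.mul_assoc, Matrix.one_mul]
        _ = _ := by
            rw [← hDE]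
            simp only [Matrix.mul_assoc])

theorem cj_apply {F Ω B : Type} [Field F] [Field Ω] [Algebra F Ω] [Ring B] [Algebra F B] {n : ℕ}
    (ρ : B →ₐ[F] Mt n Ω) (D E : Mt n Ω) (hED : E * D = 1) (hDE : D * E = 1) (b : B) :
    cj ρ D E hED hDE b = E * ρ b * D := rfl

variable {F B : Type} [Field F] [CharZero F] [Ring B] [IsDomain B] [Algebra F B] [FiniteDimensional F B]

/-- **Theorem A.** Lie subalgebras which generate a central division algebra of prime power degree, whose
exponent is equal to the degree. -/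
theorem thmA1 [Algebra.IsCentral F B] {n : ℕ} (hn : finrank F B = n ^ 2) (hpp : IsPrimePow n)
    (hexp : Ex F B n) (𝔨 : Submodule F B) (h1 : (1 : B) ∈ 𝔨)
    (hbr : ∀ x ∈ 𝔨, ∀ y ∈ 𝔨, x * y - y * x ∈ 𝔨) (hgen : Algebra.adjoin F (𝔨 : Set B) = ⊤) : 𝔨 = ⊤ := by
  have hsimple : IsSimpleRing B := by
    let _ : DivisionRing B := divisionRingOfFiniteDimensional F B
    infer_instance
  have hgal : IsGalois F (AlgebraicClosure F) := ⟨⟩
  have hfix : ∀ x : AlgebraicClosure F, (∀ γ : AlgebraicClosure F ≃ₐ[F] AlgebraicClosure F, γ x = x) →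
      ∃ a : F, algebraMap F (AlgebraicClosure F) a = x := by
    intro x hx
    exact (InfiniteGalois.mem_range_algebraMap_iff_fixed x).2 hx
  have hn0 : 0 < n := hpp.pos
  obtain ⟨ρ0, hspan0⟩ := exists_rho (Ω := AlgebraicClosure F) (F := F) (B := B) hn
  obtain ⟨x0, hx0, hc0⟩ := exists_gen (F := F) 𝔨
  have hint := Algebra.IsIntegral.isIntegral (R := F) x0
  have hsep : ((minpoly F x0).map (algebraMap F (AlgebraicClosure F))).Separable :=
    ((minpoly.irreducible hint).separable).map
  obtain ⟨D, E, hDE, hED, xi0, hxi0⟩ := exists_diag (ρ0 x0)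
    ((minpoly F x0).map (algebraMap F (AlgebraicClosure F))) hsep.squarefree (by
      rw [Polynomial.aeval_map_algebraMap, Polynomial.aeval_algHom_apply, minpoly.aeval, map_zero])
  let ρ := cj ρ0 D E hED hDE
  have hρ : ∀ b, ρ b = E * ρ0 b * D := fun b => rfl
  have hspan : Submodule.span (AlgebraicClosure F) (Set.range ρ) = ⊤ := by
    rw [eq_top_iff]
    intro X _
    have h2 : D * X * E ∈ Submodule.span (AlgebraicClosure F) (Set.range ρ0) := by
      rw [hspan0]; trivial
    have h3 : ∀ Y ∈ Submodule.span (AlgebraicClosure F) (Set.range ρ0),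
        E * Y * D ∈ Submodule.span (AlgebraicClosure F) (Set.range ρ) := by
      intro Y hY
      induction hY using Submodule.span_induction with
      | mem Y hY =>
        obtain ⟨b, rfl⟩ := hY
        exact Submodule.subset_span ⟨b, rfl⟩
      | zero => rw [mul_zero, zero_mul]; exact Submodule.zero_mem _
      | add a b _ _ ha hb => rw [mul_add, add_mul]; exact Submodule.add_mem _ ha hb
      | smul c a _ ha =>
        rw [Matrix.mul_smul, Matrix.smul_mul]
        exact Submodule.smul_mem _ _ ha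
    have h4 := h3 _ h2
    have h5 : E * (D * X * E) * D = X := by
      calc E * (D * X * E) * D = (E * D) * X * (E * D) := by simp only [Matrix.mul_assoc]
        _ = X := by rw [hED, Matrix.one_mul, Matrix.mul_one]
    rwa [h5] at h4
  have hT := fun γ => exists_T ρ hspan hn hn0 γ
  choose TT hg hTT using hT
  -- the trace
  obtain ⟨c, hc⟩ := hfix (ρ x0).trace (fun γ => by
    have h2 := (TT γ).trace_act (ρ x0)
    rw [hTT, hg] at h2
    exact h2.symm)
  let x : B := x0 - algebraMap F B (c / n)
  have hxk : x ∈ 𝔨 := by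
    refine 𝔨.sub_mem hx0 ?_
    rw [Algebra.algebraMap_eq_smul_one]
    exact 𝔨.smul_mem _ h1
  have hx0x : x0 = x + algebraMap F B (c / n) := (sub_add_cancel _ _).symm
  let xi : Fin n → AlgebraicClosure F := fun i => xi0 i - algebraMap F (AlgebraicClosure F) (c / n)
  have hxi : ρ x = diagonal xi := by
    have h2 : ρ x0 = diagonal xi0 := by rw [hρ, hxi0]
    rw [map_sub, h2, AlgHom.commutes]
    ext i j
    by_cases hij : i = j
    · subst hij
      rw [Matrix.sub_apply, diagonal_apply_eq, diagonal_apply_eq, Matrix.algebraMap_matrix_apply,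
        if_pos rfl]
    · rw [Matrix.sub_apply, diagonal_apply_ne _ hij, diagonal_apply_ne _ hij,
        Matrix.algebraMap_matrix_apply, if_neg hij, sub_zero]
  have htr : (diagonal xi).trace = 0 := by
    have h2 : (algebraMap F (Mt n (AlgebraicClosure F)) (c / n)).trace =
        algebraMap F (AlgebraicClosure F) c := by
      have h3 : algebraMap F (Mt n (AlgebraicClosure F)) (c / n) =
          diagonal fun _ => algebraMap F (AlgebraicClosure F) (c / n) := rfl
      rw [h3, trace_diagonal, Finset.sum_const, Finset.card_univ, Fintype.card_fin, nsmul_eq_mul,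
        map_div₀, map_natCast, mul_div_cancel₀]
      exact_mod_cast hn0.ne'
    rw [← hxi, map_sub, trace_sub, ← hc, AlgHom.commutes, h2, sub_self]
  refine diag_case hfix hn hpp hspan TT hg hTT hexp h1 hbr hgen hxk hxi htr fun y hy hxy => ?_
  have h2 : x0 * y = y * x0 := by
    rw [hx0x, add_mul, mul_add, hxy, Algebra.commutes]
  have h3 := hc0 y hy h2
  have h4 : Algebra.adjoin F {x0} ≤ Algebra.adjoin F {x} := by
    rw [Algebra.adjoin_le_iff]
    rintro _ rfl
    rw [hx0x]
    exact Subalgebra.add_mem _ (Algebra.subset_adjoin rfl) (Subalgebra.algebraMap_mem _ _)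
  exact h4 h3

/-- **Theorem A**, without the unit element. -/
theorem thmA [Algebra.IsCentral F B] {n : ℕ} (hn : finrank F B = n ^ 2) (hpp : IsPrimePow n)
    (hexp : Ex F B n) (𝔨 : Submodule F B)
    (hbr : ∀ x ∈ 𝔨, ∀ y ∈ 𝔨, x * y - y * x ∈ 𝔨) (hgen : Algebra.adjoin F (𝔨 : Set B) = ⊤) (a b : B) :
    a * b - b * a ∈ 𝔨 := by
  have key : 𝔨 ⊔ Submodule.span F {(1 : B)} = ⊤ := by
    refine thmA1 hn hpp hexp _ (Submodule.mem_sup_right (Submodule.mem_span_singleton_self 1)) ?_ ?_
    · intro x hx y hy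
      obtain ⟨x1, hx1, x2, hx2, rfl⟩ := Submodule.mem_sup.1 hx
      obtain ⟨y1, hy1, y2, hy2, rfl⟩ := Submodule.mem_sup.1 hy
      obtain ⟨s, rfl⟩ := Submodule.mem_span_singleton.1 hx2
      obtain ⟨t, rfl⟩ := Submodule.mem_span_singleton.1 hy2
      have h : (x1 + s • 1) * (y1 + t • 1) - (y1 + t • 1) * (x1 + s • 1) = x1 * y1 - y1 * x1 := by
        simp only [mul_add, add_mul, smul_mul_assoc, mul_smul_comm, one_mul, mul_one, smul_add,
          smul_smul, mul_comm s t]
        abel
      rw [h]
      exact Submodule.mem_sup_left (hbr _ hx1 _ hy1)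
    · rw [eq_top_iff, ← hgen]
      exact Algebra.adjoin_mono fun x hx => Submodule.mem_sup_left hx
  have hdec : ∀ a : B, ∃ a1 ∈ 𝔨, ∃ s : F, a = a1 + s • 1 := by
    intro a
    have ha : a ∈ 𝔨 ⊔ Submodule.span F {(1 : B)} := by rw [key]; trivial
    obtain ⟨x1, hx1, x2, hx2, rfl⟩ := Submodule.mem_sup.1 ha
    obtain ⟨s, rfl⟩ := Submodule.mem_span_singleton.1 hx2
    exact ⟨x1, hx1, s, rfl⟩
  obtain ⟨a1, ha1, s, rfl⟩ := hdec a
  obtain ⟨b1, hb1, t, rfl⟩ := hdec b
  have h : (a1 + s • 1) * (b1 + t • 1) - (b1 + t • 1) * (a1 + s • 1) = a1 * b1 - b1 * a1 := by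
    simp only [mul_add, add_mul, smul_mul_assoc, mul_smul_comm, one_mul, mul_one, smul_add,
      smul_smul, mul_comm s t]
    abel
  rw [h]
  exact hbr _ ha1 _ hb1

end Pool.Agent.H943.DP
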