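import Pool.Agent.H943.DP.RootB
import Pool.Agent.H943.DP.Comb

/-!
# The weights of an irreducible Lie algebra of matrices
-/

set_option autoImplicit false
set_option linter.unusedSectionVars false

open Module Matrix

noncomputable section

namespace Pool.Agent.H943.DP

attribute [local instance 100] LieRing.ofAssociativeRing

section sl2

variable {K V : Type} [Field K] [CharZero K] [AddCommGroup V] [Module K V] [FiniteDimensional K V]

theorem sl2_int {h e f : Module.End K V} (t : IsSl2Triple h e f) {v : V} (hv : v ≠ 0) {z : K}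
    (hz : h v = z • v) : ∃ k : ℤ, z = k := by
  have hm : ⁅h, v⁆ = z • v := hz
  let evals (n : ℕ) : K := z + 2 * (n : K)
  let e_vecs (n : ℕ) : V := ((LieModule.toEnd K (Module.End K V) V e) ^ n) v
  have h_exists_zero : ∃ k, e_vecs k = 0 := by
    by_contra! contra
    have h_inj : Function.Injective evals := fun a b hab ↦ by
      simpa [evals, add_right_inj, mul_eq_mul_left_iff, Nat.cast_inj] using hab
    have aux (μ : Set.range evals) : (LieModule.toEnd K (Module.End K V) V h).HasEigenvector μ
        (e_vecs μ.property.choose) := by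
      set n := μ.property.choose
      refine ⟨?_, contra n⟩
      rw [Module.End.mem_eigenspace_iff, LieModule.toEnd_apply_apply, ← μ.property.choose_spec]
      exact t.lie_h_pow_toEnd_e hm n
    have _i := ((LieModule.toEnd K (Module.End K V) V h).eigenvectors_linearIndependent
      (Set.range evals) _ aux).finite
    exact (Set.infinite_range_of_injective h_inj) (Set.toFinite _)
  obtain ⟨n, hn_ne, hn_zero⟩ := Nat.exists_not_and_succ_of_not_zero_of_exists hv h_exists_zero
  have P : t.HasPrimitiveVectorWith (e_vecs n) (evals n) :=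
    { ne_zero := hn_ne
      lie_h := t.lie_h_pow_toEnd_e hm n
      lie_e := by
        have h1 : e_vecs (n + 1) = ⁅e, e_vecs n⁆ := by
          show ((LieModule.toEnd K (Module.End K V) V e) ^ (n + 1)) v = _
          rw [pow_succ', Module.End.mul_apply]
          rfl
        rw [← h1]
        exact hn_zero }
  obtain ⟨k, hk⟩ := P.exists_nat
  refine ⟨k - 2 * n, ?_⟩
  have : z + 2 * (n : K) = k := hk
  push_cast
  linear_combination this

theorem sl2_low {h e f : Module.End K V} (t : IsSl2Triple h e f) {v : V} (hv : v ≠ 0) {k : ℤ}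
    (hz : h v = (k : K) • v) (hk : 1 ≤ k) : f v ≠ 0 := by
  intro hf
  have P : t.symm.HasPrimitiveVectorWith v (-(k : K)) :=
    { ne_zero := hv
      lie_h := by
        show (-h) v = _
        rw [LinearMap.neg_apply, hz, neg_smul]
      lie_e := hf }
  obtain ⟨j, hj⟩ := P.exists_nat
  have : (-k : ℤ) = j := by exact_mod_cast hj
  omega

end sl2

variable {n : ℕ} {K : Type} [Field K] [CharZero K] {L : Submodule K (Matrix (Fin n) (Fin n) K)}
    {xi : Fin n → K} {R : Type} [Fintype R]

/-- the triple -/
theorem MD.sl2 (r : MD L xi R) (a : R) : IsSl2Triple (Matrix.toLinAlgEquiv' (diagonal (r.h a)))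
    (Matrix.toLinAlgEquiv' (r.e a)) (Matrix.toLinAlgEquiv' (r.f a)) where
  h_ne_zero := by
    intro h
    rw [EmbeddingLike.map_eq_zero_iff] at h
    have h1 := r.he a a
    rw [h, r.two, zero_mul, mul_zero, sub_zero] at h1
    have h2 := r.e0 a
    have h3 : ((2 : ℤ) : K) ≠ 0 := by norm_num
    exact h2 ((smul_eq_zero.1 h1.symm).resolve_left h3)
  lie_e_f := by
    rw [LieRing.of_associative_ring_bracket, ← map_mul, ← map_mul, ← map_sub, r.ef]
  lie_h_e_nsmul := by
    rw [LieRing.of_associative_ring_bracket, ← map_mul, ← map_mul, ← map_sub, r.he, r.two,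
      map_smul]
    norm_num [two_smul]
  lie_h_f_nsmul := by
    rw [LieRing.of_associative_ring_bracket, ← map_mul, ← map_mul, ← map_sub, r.hf, r.two,
      map_neg, map_smul]
    norm_num [two_smul]

theorem MD.eig (r : MD L xi R) (a : R) (i : Fin n) :
    (Matrix.toLinAlgEquiv' (diagonal (r.h a))) (Pi.single i 1) = r.h a i • (Pi.single i 1 : Fin n → K) := by
  show (diagonal (r.h a)) *ᵥ (Pi.single i 1) = _
  rw [diagonal_mulVec_single, mul_one, ← Pi.single_smul', smul_eq_mul, mul_one]

theorem MD.exists_m (r : MD L xi R) : ∃ m : Fin n → R → ℤ, ∀ i a, r.h a i = (m i a : K) := by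
  have h1 : ∀ i a, ∃ k : ℤ, r.h a i = (k : K) := by
    intro i a
    refine sl2_int (r.sl2 a) (v := Pi.single i 1) ?_ (r.eig a i)
    intro h
    have := congrFun h i
    rw [Pi.single_eq_same] at this
    exact one_ne_zero this
  choose m hm using h1
  exact ⟨m, hm⟩

/-- the weights -/
def MD.m (r : MD L xi R) : Fin n → R → ℤ := r.exists_m.choose

theorem MD.hm (r : MD L xi R) (i : Fin n) (a : R) : r.h a i = (r.m i a : K) :=
  r.exists_m.choose_spec i a

theorem MD.e_ne (r : MD L xi R) {a : R} {i j : Fin n} (h : r.e a i j ≠ 0) (b : R) :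
    r.m i b = r.m j b + r.c a b := by
  have h1 := congrFun (congrFun (r.he a b) i) j
  rw [Matrix.sub_apply, diagonal_mul, mul_diagonal, Matrix.smul_apply, smul_eq_mul, r.hm, r.hm] at h1
  have h2 : ((r.m i b : K) - r.m j b - r.c a b) * r.e a i j = 0 := by linear_combination h1
  have h3 := (mul_eq_zero.1 h2).resolve_right h
  have h4 : (r.m i b - r.m j b - r.c a b : ℤ) = 0 := by exact_mod_cast h3
  linarith

theorem MD.f_ne (r : MD L xi R) {a : R} {i j : Fin n} (h : r.f a i j ≠ 0) (b : R) :
    r.m i b = r.m j b - r.c a b := by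
  have h1 := congrFun (congrFun (r.hf a b) i) j
  rw [Matrix.sub_apply, diagonal_mul, mul_diagonal, Matrix.neg_apply, Matrix.smul_apply,
    smul_eq_mul, r.hm, r.hm] at h1
  have h2 : ((r.m i b : K) - r.m j b + r.c a b) * r.f a i j = 0 := by linear_combination h1
  have h3 := (mul_eq_zero.1 h2).resolve_right h
  have h4 : (r.m i b - r.m j b + r.c a b : ℤ) = 0 := by exact_mod_cast h3
  linarith

theorem MD.low (r : MD L xi R) {i : Fin n} {a : R} (h : 1 ≤ r.m i a) : ∃ j, r.f a j i ≠ 0 := by
  by_contra hcon
  push Not at hcon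
  refine sl2_low (r.sl2 a) (v := Pi.single i 1) ?_ (k := r.m i a) ?_ h ?_
  · intro h
    have := congrFun h i
    rw [Pi.single_eq_same] at this
    exact one_ne_zero this
  · rw [r.eig, r.hm]
  · show (r.f a) *ᵥ (Pi.single i 1) = 0
    funext j
    rw [mulVec_single_one]
    exact hcon j

end Pool.Agent.H943.DP
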