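import Pool.Agent.H943.DP.Perm

/-!
# The combinatorial data
-/

set_option autoImplicit false
set_option linter.unusedSectionVars false

open Module Matrix

noncomputable section

namespace Pool.Agent.H943.DP

variable {n : ℕ} {K : Type} [Field K] [CharZero K] {L : Submodule K (Matrix (Fin n) (Fin n) K)}
    {xi : Fin n → K} {R : Type} [Fintype R]

/-- `T` is a symmetry of `L` -/
structure Pre (L : Submodule K (Matrix (Fin n) (Fin n) K)) (T : SL n K) : Prop where
  h1 : ∀ X ∈ L, T.act X ∈ L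
  h2 : ∀ X ∈ L, T.inv.act X ∈ L

/-- The symmetries which fix the diagonal element act transitively on its entries. -/
def Tra (L : Submodule K (Matrix (Fin n) (Fin n) K)) (xi : Fin n → K) : Prop :=
  ∀ i j : Fin n, ∃ T : SL n K, Pre L T ∧ T.act (diagonal xi) = diagonal xi ∧ T.g (xi i) = xi j

theorem MD.m_xi (r : MD L xi R) {i j : Fin n} (h : xi i = xi j) (a : R) : r.m i a = r.m j a := by
  have h1 := r.hxi a i j h
  rw [r.hm, r.hm] at h1
  exact_mod_cast h1

theorem MD.xi_m (r : MD L xi R) {i j : Fin n} (h : ∀ a, r.m i a = r.m j a) : xi i = xi j := by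
  obtain ⟨t, ht⟩ := r.dec0
  have h1 : ∀ k, xi k = ∑ a, t a * r.m k a := by
    intro k
    have h2 := congrFun (congrFun ht k) k
    rw [diagonal_apply_eq, Matrix.sum_apply] at h2
    rw [h2]
    refine Finset.sum_congr rfl fun a _ => ?_
    rw [Matrix.smul_apply, diagonal_apply_eq, r.hm, smul_eq_mul]
  rw [h1, h1]
  exact Finset.sum_congr rfl fun a _ => by rw [h]

theorem MD.m_col (T : SL n K) (i : Fin n) : ∃ k, T.P k i ≠ 0 := by
  by_contra hcon
  push Not at hcon
  have h1 := congrFun (congrFun T.qp i) i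
  rw [Matrix.mul_apply, Finset.sum_eq_zero (fun k _ => by rw [hcon k, mul_zero]), one_apply_eq] at h1
  exact zero_ne_one h1

theorem SL.xi_of (T : SL n K) (hT : T.act (diagonal xi) = diagonal xi) {i j : Fin n}
    (h : T.P i j ≠ 0) : xi i = T.g (xi j) := by
  have e2 : T.P * (diagonal xi).map T.g = diagonal xi * T.P := by
    conv_rhs => rw [← hT]
    unfold SL.act
    rw [Matrix.mul_assoc _ T.Q, T.qp, Matrix.mul_one]
  have e3 := congrFun (congrFun e2 i) j
  rw [Matrix.diagonal_map (map_zero T.g), mul_diagonal, diagonal_mul] at e3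
  apply mul_left_cancel₀ h
  rw [mul_comm]
  exact e3.symm

theorem MD.cn' (r : MD L xi R) (a b : R) : r.c a (r.neg b) = - r.c a b := by
  have h1 := r.he a (r.neg b)
  have h2 := r.he a b
  rw [r.hn] at h1
  have h3 : diagonal (-r.h b) = -diagonal (r.h b) := (diagonal_neg _).symm
  rw [h3, neg_mul, mul_neg, sub_neg_eq_add, neg_add_eq_sub, ← neg_sub, h2, ← neg_smul] at h1
  have h4 := smul_left_injective K (r.e0 a) h1
  have h5 : (-(r.c a b : ℤ) : K) = ((r.c a (r.neg b) : ℤ) : K) := h4
  exact_mod_cast h5.symm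

theorem MD.cs' (r : MD L xi R) (a b d : R) : r.c d (r.s a b) = r.c d b - r.c a b * r.c d a := by
  have h1 := r.he d (r.s a b)
  have h2 := r.he d b
  have h2' := r.he d a
  rw [r.hs] at h1
  have h3 : diagonal (r.h b - (r.c a b : K) • r.h a) =
      diagonal (r.h b) - (r.c a b : K) • diagonal (r.h a) := by
    rw [← diagonal_smul, diagonal_sub]
    rfl
  rw [h3, sub_mul, mul_sub, Matrix.smul_mul, Matrix.mul_smul, sub_sub_sub_comm, ← smul_sub, h2, h2',
    smul_smul, ← sub_smul] at h1
  have h4 := smul_left_injective K (r.e0 d) h1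
  have h5 : ((r.c d b : ℤ) : K) - (r.c a b : ℤ) * (r.c d a : ℤ) = ((r.c d (r.s a b) : ℤ) : K) := h4
  exact_mod_cast h5.symm

/-- the combinatorial data -/
def cd (hS : Sett L xi) (r : MD L xi R) (hT : Tra L xi) : CD R n where
  neg := r.neg
  s := r.s
  c := r.c
  m := r.m
  c_inj := r.c_inj
  two := r.two
  cn := r.cn
  cn' := r.cn'
  mn i a := by
    have h1 := congrFun (r.hn a) i
    rw [Pi.neg_apply, r.hm, r.hm] at h1
    exact_mod_cast h1
  cs := r.cs
  cs' := r.cs'
  ms i a b := by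
    have h1 := congrFun (r.hs a b) i
    rw [Pi.sub_apply, Pi.smul_apply, r.hm, r.hm, r.hm, smul_eq_mul] at h1
    exact_mod_cast h1
  step i a h := by
    obtain ⟨j, hj⟩ := r.low h
    exact ⟨j, fun b => r.f_ne hj b⟩
  tra i j := by
    obtain ⟨T, hT1, hT2, hT3⟩ := hT i j
    obtain ⟨p, -, -, h3, h4⟩ := r.perm hS T hT1.h1 hT1.h2 hT2
    refine ⟨p, h3, fun a => ?_⟩
    obtain ⟨k, hk⟩ := MD.m_col T i
    have h5 := T.xi_of hT2 hk
    rw [hT3] at h5
    rw [← r.m_xi h5]
    exact h4 k i hk a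
  sum a := by
    have h1 := hS.tr _ (r.hL a)
    rw [trace_diagonal] at h1
    simp only [r.hm] at h1
    exact_mod_cast h1
  nz a := by
    by_contra hcon
    push Not at hcon
    have h1 : r.h a = 0 := by
      funext i
      rw [r.hm, hcon i]
      simp
    have h2 := r.he a a
    rw [h1, show (0 : Fin n → K) = fun _ => 0 from rfl, diagonal_zero, zero_mul, mul_zero,
      sub_zero] at h2
    exact r.e0 a ((smul_eq_zero.1 h2.symm).resolve_left (r.c2 a))

@[simp] theorem cd_c (hS : Sett L xi) (r : MD L xi R) (hT : Tra L xi) : (cd hS r hT).c = r.c := rfl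
@[simp] theorem cd_m (hS : Sett L xi) (r : MD L xi R) (hT : Tra L xi) : (cd hS r hT).m = r.m := rfl
@[simp] theorem cd_neg (hS : Sett L xi) (r : MD L xi R) (hT : Tra L xi) :
  (cd hS r hT).neg = r.neg := rfl

end Pool.Agent.H943.DP
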